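import Pool.Agent.PolyMax.Defs

set_option autoImplicit false

/-!
# PolyMax: elementary facts on `e`, `dz`, `ph`, `m`, `sz`

All statements are elementary.  Hints: `|e x - 1| = 2 |sin (π x)|`, and `4 dz x ≤ 2 |sin (π x)|`
(concavity of sin on `[0, π / 2]`, `Real.mul_le_sin`), periodicity `e (x + k) = e x`.
`geom_bound`: `(e al - 1) * ∑_{n < N} e (n al) = e (N al) - 1` has modulus at most `2`, and
`|e al - 1| ≥ 4 dz al`.
-/

open Finset

namespace Pool.PolyMax

lemma e_zero : e 0 = 1 := by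
  simp [e]

lemma e_add (x y : ℝ) : e (x + y) = e x * e y := by
  unfold e
  rw [← Complex.exp_add]
  congr 1
  push_cast
  ring

lemma e_int (k : ℤ) : e (k : ℝ) = 1 := by
  unfold e
  have h : (2 * Real.pi * ((k : ℝ) : ℂ) * Complex.I : ℂ) = (k : ℂ) * (2 * Real.pi * Complex.I) := by
    push_cast
    ring
  rw [h, Complex.exp_int_mul_two_pi_mul_I]

lemma e_nat (k : ℕ) : e (k : ℝ) = 1 := by
  have h := e_int (k : ℤ)
  rwa [Int.cast_natCast] at h

lemma e_neg (x : ℝ) : e (-x) = (starRingEnd ℂ) (e x) := by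
  unfold e
  rw [← Complex.exp_conj]
  congr 1
  rw [map_mul, map_mul, map_mul, Complex.conj_ofReal, Complex.conj_ofReal, Complex.conj_I,
    Complex.conj_ofNat]
  push_cast
  ring

lemma e_mul_e_neg (x : ℝ) : e x * e (-x) = 1 := by
  rw [← e_add, add_neg_cancel, e_zero]

lemma e_sum {ι : Type*} (s : Finset ι) (f : ι → ℝ) : e (∑ i ∈ s, f i) = ∏ i ∈ s, e (f i) := by
  classical
  induction s using Finset.induction_on with
  | empty => simp [e_zero]
  | insert a s ha ih => rw [Finset.sum_insert ha, Finset.prod_insert ha, e_add, ih]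

lemma e_nat_mul (k : ℕ) (x : ℝ) : e ((k : ℝ) * x) = e x ^ k := by
  induction k with
  | zero => simp [e_zero]
  | succ k ih =>
    rw [Nat.cast_succ, add_mul, one_mul, e_add, ih, pow_succ]

/-- `e` only depends on the class modulo the integers. -/
lemma e_congr {x y : ℝ} {k : ℤ} (h : x - y = k) : e x = e y := by
  have h1 : x = y + k := by linarith
  rw [h1, e_add, e_int, mul_one]

lemma norm_e (x : ℝ) : ‖e x‖ = 1 := by
  unfold e
  have h : (2 * Real.pi * (x : ℂ) * Complex.I : ℂ) = ((2 * Real.pi * x : ℝ) : ℂ) * Complex.I := by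
    push_cast
    ring
  rw [h, Complex.norm_exp_ofReal_mul_I]

lemma norm_e_sub_one_le (x : ℝ) : ‖e x - 1‖ ≤ 2 * Real.pi * |x| := by
  unfold e
  have h : (2 * Real.pi * (x : ℂ) * Complex.I : ℂ) = Complex.I * ((2 * Real.pi * x : ℝ) : ℂ) := by
    push_cast
    ring
  rw [h]
  refine Real.norm_exp_I_mul_ofReal_sub_one_le.trans (le_of_eq ?_)
  rw [Real.norm_eq_abs, abs_mul, abs_of_pos Real.two_pi_pos]

lemma norm_e_sub_e_le (x y : ℝ) : ‖e x - e y‖ ≤ 2 * Real.pi * |x - y| := by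
  have h : e x - e y = e y * (e (x - y) - 1) := by
    rw [mul_sub, ← e_add, mul_one, add_sub_cancel]
  rw [h, norm_mul, norm_e, one_mul]
  exact norm_e_sub_one_le _

lemma norm_e_sub_one_le_dz (x : ℝ) : ‖e x - 1‖ ≤ 2 * Real.pi * dz x := by
  have h : e x = e (x - round x) := e_congr (k := round x) (by ring)
  rw [h]
  exact norm_e_sub_one_le _

lemma four_dz_le (x : ℝ) : 4 * dz x ≤ ‖e x - 1‖ := by
  have h : e x = e (x - round x) := e_congr (k := round x) (by ring)
  rw [h]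
  have h2 : e (x - round x) = Complex.exp (Complex.I * ((2 * Real.pi * (x - round x) : ℝ) : ℂ)) := by
    unfold e
    congr 1
    push_cast
    ring
  rw [h2, Complex.norm_exp_I_mul_ofReal_sub_one, Real.norm_eq_abs, abs_mul, abs_two]
  have h3 : |x - round x| ≤ 1 / 2 := abs_sub_round x
  have h4 : |Real.sin (2 * Real.pi * (x - round x) / 2)| = Real.sin (Real.pi * |x - round x|) := by
    have h5 : 2 * Real.pi * (x - round x) / 2 = Real.pi * (x - round x) := by ring
    rw [h5]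
    have h7 : 0 ≤ Real.sin (Real.pi * |x - round x|) := by
      apply Real.sin_nonneg_of_nonneg_of_le_pi
      · exact mul_nonneg Real.pi_pos.le (abs_nonneg _)
      · nlinarith [Real.pi_pos]
    rcases abs_cases (x - round x) with ⟨h6, _⟩ | ⟨h6, _⟩
    · rw [h6] at h7 ⊢
      exact abs_of_nonneg h7
    · rw [h6] at h7 ⊢
      rw [← abs_of_nonneg h7, mul_neg, Real.sin_neg, abs_neg]
  rw [h4]
  have h8 := Real.mul_le_sin (x := Real.pi * |x - round x|)
    (mul_nonneg Real.pi_pos.le (abs_nonneg _)) (by nlinarith [Real.pi_pos])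
  have h9 : 2 / Real.pi * (Real.pi * |x - round x|) = 2 * |x - round x| := by
    field_simp
  rw [h9] at h8
  unfold dz
  linarith

lemma dz_nonneg (x : ℝ) : 0 ≤ dz x := by
  exact abs_nonneg _

lemma dz_le_half (x : ℝ) : dz x ≤ 1 / 2 := by
  exact abs_sub_round x

lemma dz_le_abs_sub_int (x : ℝ) (k : ℤ) : dz x ≤ |x - k| := by
  exact round_le x k

lemma dz_le_abs (x : ℝ) : dz x ≤ |x| := by
  have h := dz_le_abs_sub_int x 0
  rwa [Int.cast_zero, sub_zero] at h

lemma dz_zero : dz 0 = 0 := by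
  simp [dz]

lemma dz_eq_abs {x : ℝ} (h : |x| ≤ 1 / 2) : dz x = |x| := by
  apply le_antisymm (dz_le_abs x)
  unfold dz
  by_cases h0 : round x = 0
  · rw [h0, Int.cast_zero, sub_zero]
  · have h1 : (1 : ℝ) ≤ |(round x : ℝ)| := by
      have := Int.one_le_abs h0
      exact_mod_cast this
    have h2 : |(round x : ℝ)| - |x| ≤ |x - round x| := by
      rw [abs_sub_comm]
      exact abs_sub_abs_le_abs_sub _ _
    linarith

/-- `dz` only depends on the class modulo the integers. -/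
lemma dz_congr {x y : ℝ} {k : ℤ} (h : x - y = k) : dz x = dz y := by
  have h1 : x = y + k := by linarith
  unfold dz
  rw [h1, round_add_intCast, Int.cast_add]
  congr 1
  ring

/-- Every real is an integer plus a number of absolute value `dz x`. -/
lemma exists_int_dz (x : ℝ) : ∃ k : ℤ, |x - k| = dz x := by
  exact ⟨round x, rfl⟩

lemma dz_neg (x : ℝ) : dz (-x) = dz x := by
  have key : ∀ y : ℝ, dz (-y) ≤ dz y := by
    intro y
    have h := dz_le_abs_sub_int (-y) (-round y)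
    have h2 : |-y - ((-round y : ℤ) : ℝ)| = dz y := by
      unfold dz
      rw [← abs_neg]
      congr 1
      push_cast
      ring
    rwa [h2] at h
  apply le_antisymm (key x)
  have h := key (-x)
  rwa [neg_neg] at h

lemma dz_add_le (x y : ℝ) : dz (x + y) ≤ dz x + dz y := by
  have h := dz_le_abs_sub_int (x + y) (round x + round y)
  refine h.trans ?_
  have h2 : x + y - ((round x + round y : ℤ) : ℝ) = (x - round x) + (y - round y) := by
    push_cast
    ring
  rw [h2]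
  exact abs_add_le _ _

lemma dz_sub_le (x y : ℝ) : dz (x - y) ≤ dz x + dz y := by
  rw [sub_eq_add_neg]
  refine (dz_add_le _ _).trans ?_
  rw [dz_neg]

lemma dz_sum_le {ι : Type*} (s : Finset ι) (f : ι → ℝ) : dz (∑ i ∈ s, f i) ≤ ∑ i ∈ s, dz (f i) := by
  classical
  induction s using Finset.induction_on with
  | empty => simp [dz_zero]
  | insert a s ha ih =>
    rw [Finset.sum_insert ha, Finset.sum_insert ha]
    exact (dz_add_le _ _).trans (add_le_add le_rfl ih)

lemma dz_int_mul_le (k : ℤ) (x : ℝ) : dz ((k : ℝ) * x) ≤ |(k : ℝ)| * dz x := by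
  have h := dz_le_abs_sub_int ((k : ℝ) * x) (k * round x)
  refine h.trans (le_of_eq ?_)
  unfold dz
  rw [← abs_mul]
  congr 1
  push_cast
  ring

lemma dz_nat_mul_le (k : ℕ) (x : ℝ) : dz ((k : ℝ) * x) ≤ (k : ℝ) * dz x := by
  have h := dz_int_mul_le (k : ℤ) x
  rwa [Int.cast_natCast, Nat.abs_cast] at h

lemma dz_nat_mul_eq (k : ℕ) (x : ℝ) (h : (k : ℝ) * dz x ≤ 1 / 2) : dz ((k : ℝ) * x) = k * dz x := by
  have h1 : |(k : ℝ) * (x - round x)| = k * dz x := by
    rw [abs_mul, Nat.abs_cast]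
    rfl
  have h2 : dz ((k : ℝ) * x) = dz ((k : ℝ) * (x - round x)) :=
    dz_congr (k := k * round x) (by push_cast; ring)
  rw [h2, dz_eq_abs (by rw [h1]; exact h), h1]

lemma dz_eq_zero_iff (x : ℝ) : dz x = 0 ↔ ∃ k : ℤ, x = k := by
  constructor
  · intro h
    refine ⟨round x, ?_⟩
    unfold dz at h
    rw [abs_eq_zero] at h
    linarith
  · rintro ⟨k, rfl⟩
    rw [dz_congr (x := (k : ℝ)) (y := 0) (k := k) (by ring), dz_zero]

/-- A non-integral fraction is at distance at least `1 / q` from the integers. -/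
lemma one_div_le_dz (p : ℤ) (q : ℕ) (hq : 1 ≤ q) (h : ¬ (q : ℤ) ∣ p) :
    1 / (q : ℝ) ≤ dz ((p : ℝ) / (q : ℝ)) := by
  have hq0 : (0 : ℝ) < q := by exact_mod_cast hq
  obtain ⟨r, hr⟩ : ∃ r : ℤ, r = round ((p : ℝ) / (q : ℝ)) := ⟨_, rfl⟩
  have h1 : (p : ℝ) / q - r = ((p - q * r : ℤ) : ℝ) / q := by
    push_cast
    field_simp
  have h2 : p - q * r ≠ 0 := by
    intro h3
    exact h ⟨r, by linarith⟩
  have h3 : (1 : ℝ) ≤ |((p - q * r : ℤ) : ℝ)| := by
    have := Int.one_le_abs h2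
    exact_mod_cast this
  unfold dz
  rw [← hr, h1, abs_div, abs_of_pos hq0]
  exact div_le_div_of_nonneg_right h3 hq0.le

lemma ph_add {D : ℕ} (xi eta : Fin D → ℝ) (n : ℕ) :
    ph (fun j => xi j + eta j) n = ph xi n + ph eta n := by
  unfold ph
  rw [← Finset.sum_add_distrib]
  exact Finset.sum_congr rfl fun j _ => by ring

lemma e_ph_congr {D : ℕ} {xi eta : Fin D → ℝ} (h : ∀ j, ∃ k : ℤ, xi j - eta j = k) (n : ℕ) :
    e (ph xi n) = e (ph eta n) := by
  choose k hk using h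
  apply e_congr (k := ∑ j, k j * (n : ℤ) ^ ((j : ℕ) + 1))
  unfold ph
  rw [← Finset.sum_sub_distrib, Int.cast_sum]
  refine Finset.sum_congr rfl fun j _ => ?_
  rw [← sub_mul, hk j]
  push_cast
  ring

lemma m_congr {D : ℕ} {xi eta : Fin D → ℝ} (h : ∀ j, ∃ k : ℤ, xi j - eta j = k) (N : ℕ) :
    m N xi = m N eta := by
  unfold m
  congr 1
  exact Finset.sum_congr rfl fun n _ => e_ph_congr h n

lemma norm_m_le_one {D : ℕ} (N : ℕ) (xi : Fin D → ℝ) : ‖m N xi‖ ≤ 1 := by
  unfold m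
  rw [norm_mul, norm_inv, Complex.norm_natCast]
  have h : ‖∑ n ∈ range N, e (ph xi n)‖ ≤ N := by
    refine (norm_sum_le _ _).trans (le_of_eq ?_)
    simp [norm_e]
  rcases Nat.eq_zero_or_pos N with rfl | hN
  · simp
  · have hN' : (0 : ℝ) < N := by exact_mod_cast hN
    rw [inv_mul_le_iff₀ hN', mul_one]
    exact h

lemma norm_G_le_one {D : ℕ} (q : ℕ) (a : Fin D → ℕ) : ‖G q a‖ ≤ 1 := by
  exact norm_m_le_one _ _

lemma sz_nonneg {D : ℕ} (N : ℕ) (be : Fin D → ℝ) : 0 ≤ sz N be := by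
  exact Finset.sum_nonneg fun j _ => mul_nonneg (by positivity) (dz_nonneg _)

lemma coord_le_sz {D : ℕ} (N : ℕ) (be : Fin D → ℝ) (j : Fin D) :
    (N : ℝ) ^ ((j : ℕ) + 1) * dz (be j) ≤ sz N be := by
  exact Finset.single_le_sum (f := fun j : Fin D => (N : ℝ) ^ ((j : ℕ) + 1) * dz (be j))
    (fun j _ => mul_nonneg (by positivity) (dz_nonneg _)) (Finset.mem_univ j)

/-- For `N ≥ 1`: `dz (be j) ≤ sz N be / N`. -/
lemma dz_le_sz_div {D : ℕ} {N : ℕ} (hN : 1 ≤ N) (be : Fin D → ℝ) (j : Fin D) :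
    dz (be j) ≤ sz N be / N := by
  have hN' : (1 : ℝ) ≤ N := by exact_mod_cast hN
  rw [le_div_iff₀ (by linarith)]
  refine le_trans ?_ (coord_le_sz N be j)
  rw [mul_comm]
  refine mul_le_mul_of_nonneg_right ?_ (dz_nonneg _)
  exact le_self_pow₀ hN' (Nat.succ_ne_zero _)

/-- Growth of `sz` along lacunary scales. -/
lemma sz_grow {D : ℕ} {rho : ℝ} (hrho : 1 ≤ rho) {N N' : ℕ} (h : rho * (N : ℝ) ≤ (N' : ℝ))
    (be : Fin D → ℝ) : rho * sz N be ≤ sz N' be := by
  unfold sz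
  rw [Finset.mul_sum]
  refine Finset.sum_le_sum fun j _ => ?_
  rw [← mul_assoc]
  refine mul_le_mul_of_nonneg_right ?_ (dz_nonneg _)
  calc rho * (N : ℝ) ^ ((j : ℕ) + 1) ≤ rho ^ ((j : ℕ) + 1) * (N : ℝ) ^ ((j : ℕ) + 1) :=
        mul_le_mul_of_nonneg_right (le_self_pow₀ hrho (Nat.succ_ne_zero _)) (by positivity)
    _ = (rho * N) ^ ((j : ℕ) + 1) := (mul_pow _ _ _).symm
    _ ≤ (N' : ℝ) ^ ((j : ℕ) + 1) := pow_le_pow_left₀ (by positivity) h _

lemma sz_mono {D : ℕ} {N N' : ℕ} (h : N ≤ N') (be : Fin D → ℝ) : sz N be ≤ sz N' be := by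
  have h1 := sz_grow (rho := 1) le_rfl (N := N) (N' := N') (by rw [one_mul]; exact_mod_cast h) be
  rwa [one_mul] at h1

lemma geom_bound (al : ℝ) (N : ℕ) : ‖∑ n ∈ range N, e ((n : ℝ) * al)‖ * (2 * dz al) ≤ 1 := by
  have h1 : (∑ n ∈ range N, e ((n : ℝ) * al)) * (e al - 1) = e ((N : ℝ) * al) - 1 := by
    simp only [e_nat_mul]
    exact geom_sum_mul _ _
  have h2 : ‖∑ n ∈ range N, e ((n : ℝ) * al)‖ * ‖e al - 1‖ ≤ 2 := by
    rw [← norm_mul, h1]
    refine (norm_sub_le _ _).trans (le_of_eq ?_)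
    rw [norm_e, norm_one]
    norm_num
  have h3 := mul_le_mul_of_nonneg_left (four_dz_le al) (norm_nonneg (∑ n ∈ range N, e ((n : ℝ) * al)))
  nlinarith

/-- A lacunary sequence is positive, monotone and grows at least like `rho ^ k`. -/
lemma Lac.pos {rho : ℝ} {N : ℕ → ℕ} (h : Lac rho N) (k : ℕ) : 1 ≤ N k := by
  induction k with
  | zero => exact h.one_le
  | succ k ih =>
    have h1 := h.grow k
    have h2 : (1 : ℝ) ≤ N k := by exact_mod_cast ih
    have h3 := h.rho_gt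
    have h4 : (1 : ℝ) ≤ N (k + 1) := by nlinarith
    exact_mod_cast h4

lemma Lac.strictMono {rho : ℝ} {N : ℕ → ℕ} (h : Lac rho N) : StrictMono N := by
  apply strictMono_nat_of_lt_succ
  intro k
  have h1 := h.grow k
  have h2 : (1 : ℝ) ≤ N k := by exact_mod_cast h.pos k
  have h3 := h.rho_gt
  have h4 : (N k : ℝ) < N (k + 1) := by nlinarith
  exact_mod_cast h4

lemma Lac.pow_mul_le {rho : ℝ} {N : ℕ → ℕ} (h : Lac rho N) (k l : ℕ) :
    rho ^ l * (N k : ℝ) ≤ N (k + l) := by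
  induction l with
  | zero => simp
  | succ l ih =>
    have h1 := h.grow (k + l)
    have h3 := h.rho_gt
    calc rho ^ (l + 1) * (N k : ℝ) = rho * (rho ^ l * N k) := by ring
      _ ≤ rho * N (k + l) := mul_le_mul_of_nonneg_left ih (by linarith)
      _ ≤ N (k + l + 1) := h1

lemma Lac.pow_le {rho : ℝ} {N : ℕ → ℕ} (h : Lac rho N) (k : ℕ) : rho ^ k ≤ (N k : ℝ) := by
  have h1 := h.pow_mul_le 0 k
  rw [zero_add] at h1
  refine le_trans ?_ h1
  have h2 : (1 : ℝ) ≤ N 0 := by exact_mod_cast h.one_le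
  have h3 := h.rho_gt
  exact le_mul_of_one_le_right (by positivity) h2

/-- The number of indices `k` with `N k < B` is at most `log B / log rho + 1`. -/
lemma Lac.index_le {rho : ℝ} {N : ℕ → ℕ} (h : Lac rho N) {k : ℕ} {B : ℝ} (hB : 1 ≤ B)
    (hk : (N k : ℝ) ≤ B) : (k : ℝ) ≤ Real.log B / Real.log rho := by
  have h3 := h.rho_gt
  have h1 : rho ^ k ≤ B := (h.pow_le k).trans hk
  have h2 := Real.log_le_log (by positivity) h1
  rw [Real.log_pow] at h2
  rw [le_div_iff₀ (Real.log_pos h3)]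
  exact h2

end Pool.PolyMax
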