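import Pool.Agent.PolyMax.Basic

set_option autoImplicit false

/-!
# PolyMax: restriction to a progression on which the leading term is constant

PROOF.  Write `c = g_{D+1}`, `g' = g - c X^{D+1}`.  By `exists_int_dz` there is an integer `a` with
`|q c - a| = dz (q c) =: eta`; put `th = c - a / q`, `|th| = eta / q`.  For a starting point `n0` and
`m < L` with `n0 + q m < N`: `(n0 + q m)^{D+1} ≡ n0^{D+1} mod q`, so modulo the integers
`c (n0 + q m)^{D+1} = a n0^{D+1} / q + th n0^{D+1} + th ((n0 + q m)^{D+1} - n0^{D+1})`, and the last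
term is at most `|th| (D + 1) N^D q L = (D + 1) eta N^D L ≤ lam / 64` in absolute value.  So with
`gt = g'.comp (C n0 + C q X)`: `e (g (n0 + q m)) = const * e (gt m) * (1 + error)`, `|const| = 1`,
`|error| ≤ 2 π lam / 64 ≤ lam / 8`, hence
`|∑_{m < L} e (g (n0 + q m))| ≤ |∑_{m < L} e (gt m)| + (lam / 8) L`.

Partition `range N` into residue classes modulo `q` and each class into blocks of `L` consecutive
elements `n0 + q m`, `m < L` (all `< N`), plus an incomplete block of fewer than `L` elements in each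
class.  The number `B` of complete blocks satisfies `B L ≤ N` and the incomplete ones contain at most
`q L ≤ lam N / 8` elements.  If the conclusion failed for every `n0 < N`, then
`lam N ≤ B (lam / 2 * L + lam / 8 * L) + lam N / 8 ≤ (3 / 4) lam N`: contradiction (`lam N > 0`, since
`N > 0` follows from `1 ≤ L`, `1 ≤ q`, `q L ≤ lam / 8 N`; strict inequalities as needed).
-/

open Finset Polynomial

namespace Pool.PolyMax

lemma block_sum_blocks {M : Type*} [AddCommMonoid M] (F : ℕ → M) (t P : ℕ) :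
    ∑ n ∈ range (t * P), F n = ∑ i ∈ range t, ∑ r ∈ range P, F (i * P + r) := by
  induction t with
  | zero => simp
  | succ t ih => rw [Nat.succ_mul, Finset.sum_range_add, ih, Finset.sum_range_succ]

lemma block_pow_sub {x y B : ℝ} (hx : 0 ≤ x) (hxy : x ≤ y) (hy : y ≤ B) (D : ℕ) :
    y ^ (D + 1) - x ^ (D + 1) ≤ ((D : ℝ) + 1) * B ^ D * (y - x) := by
  have hB : 0 ≤ B := (hx.trans hxy).trans hy
  have hyx : 0 ≤ y - x := sub_nonneg.2 hxy
  induction D with
  | zero => simp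
  | succ D ih =>
    have h1 : y ^ (D + 1 + 1) - x ^ (D + 1 + 1) =
        y * (y ^ (D + 1) - x ^ (D + 1)) + x ^ (D + 1) * (y - x) := by ring
    have h2 : y * (y ^ (D + 1) - x ^ (D + 1)) ≤ B * (((D : ℝ) + 1) * B ^ D * (y - x)) := by
      apply mul_le_mul hy ih _ hB
      exact sub_nonneg.2 (pow_le_pow_left₀ hx hxy _)
    have h3 : x ^ (D + 1) * (y - x) ≤ B ^ (D + 1) * (y - x) :=
      mul_le_mul_of_nonneg_right (pow_le_pow_left₀ hx (hxy.trans hy) _) hyx
    rw [h1]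
    push_cast
    calc _ ≤ B * (((D : ℝ) + 1) * B ^ D * (y - x)) + B ^ (D + 1) * (y - x) := add_le_add h2 h3
      _ = _ := by ring

/-- one block -/
lemma block_one (D : ℕ) (g : Polynomial ℝ) (N : ℕ) (lam : ℝ) (q L : ℕ) (hq : 1 ≤ q)
    (heta : 64 * ((D : ℝ) + 1) * dz ((q : ℝ) * g.coeff (D + 1)) * L * (N : ℝ) ^ D ≤ lam)
    (n0 : ℕ) (hn : ∀ k < L, n0 + q * k < N) :
    ‖∑ k ∈ range L, e (g.eval ((n0 + q * k : ℕ) : ℝ))‖ ≤ ‖∑ k ∈ range L,
      e (((g - C (g.coeff (D + 1)) * X ^ (D + 1)).comp (C (n0 : ℝ) + C (q : ℝ) * X)).eval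
        (k : ℝ))‖ + lam / 8 * L := by
  set c := g.coeff (D + 1) with hc
  set eta := dz ((q : ℝ) * c) with heta'
  obtain ⟨a, ha⟩ := exists_int_dz ((q : ℝ) * c)
  have hq0 : (0 : ℝ) < q := by exact_mod_cast hq
  set th := c - (a : ℝ) / q with hth
  have hth' : |th| * q = eta := by
    rw [heta', ← ha, hth, ← abs_of_pos hq0, ← abs_mul, abs_of_pos hq0]
    congr 1
    field_simp
  have key : ∀ k ∈ range L, ‖e (g.eval ((n0 + q * k : ℕ) : ℝ)) - e (c * (n0 : ℝ) ^ (D + 1)) *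
      e (((g - C c * X ^ (D + 1)).comp (C (n0 : ℝ) + C (q : ℝ) * X)).eval (k : ℝ))‖ ≤ lam / 8 := by
    intro k hk
    rw [Finset.mem_range] at hk
    have hev : ((g - C c * X ^ (D + 1)).comp (C (n0 : ℝ) + C (q : ℝ) * X)).eval (k : ℝ) =
        g.eval ((n0 + q * k : ℕ) : ℝ) - c * ((n0 + q * k : ℕ) : ℝ) ^ (D + 1) := by
      simp [eval_comp]
    set y : ℝ := ((n0 + q * k : ℕ) : ℝ) with hy
    set G0 := g.eval y with hG0
    rw [hev]
    obtain ⟨w, hw⟩ : (q : ℤ) ∣ ((n0 + q * k : ℕ) : ℤ) ^ (D + 1) - (n0 : ℤ) ^ (D + 1) := by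
      refine Dvd.dvd.trans ?_ (sub_dvd_pow_sub_pow _ _ (D + 1))
      refine ⟨(k : ℤ), ?_⟩
      push_cast
      ring
    have hw' : y ^ (D + 1) - (n0 : ℝ) ^ (D + 1) = q * w := by
      have := congrArg (fun z : ℤ => (z : ℝ)) hw
      push_cast at this
      rw [hy]
      push_cast
      exact this
    have h1 : e G0 = e (G0 - c * y ^ (D + 1) + c * (n0 : ℝ) ^ (D + 1) +
        th * (y ^ (D + 1) - (n0 : ℝ) ^ (D + 1))) := by
      apply e_congr (k := a * w)
      rw [hw', hth]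
      have h2 : y ^ (D + 1) = (n0 : ℝ) ^ (D + 1) + q * w := by linarith
      rw [h2]
      push_cast
      field_simp
      ring
    rw [h1, e_add, e_add]
    have h3 : e (G0 - c * y ^ (D + 1)) * e (c * (n0 : ℝ) ^ (D + 1)) *
        e (th * (y ^ (D + 1) - (n0 : ℝ) ^ (D + 1))) -
        e (c * (n0 : ℝ) ^ (D + 1)) * e (G0 - c * y ^ (D + 1)) =
        e (G0 - c * y ^ (D + 1)) * e (c * (n0 : ℝ) ^ (D + 1)) *
          (e (th * (y ^ (D + 1) - (n0 : ℝ) ^ (D + 1))) - 1) := by ring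
    rw [h3, norm_mul, norm_mul, norm_e, norm_e, one_mul, one_mul]
    refine (norm_e_sub_one_le _).trans ?_
    rw [abs_mul]
    have hx0 : (0 : ℝ) ≤ n0 := Nat.cast_nonneg _
    have hxy : (n0 : ℝ) ≤ y := by rw [hy]; exact_mod_cast Nat.le_add_right _ _
    have hyN : y ≤ (N : ℝ) := by rw [hy]; exact_mod_cast (hn k hk).le
    have h4 := block_pow_sub hx0 hxy hyN D
    have h5 : (0 : ℝ) ≤ y ^ (D + 1) - (n0 : ℝ) ^ (D + 1) :=
      sub_nonneg.2 (pow_le_pow_left₀ hx0 hxy _)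
    rw [abs_of_nonneg h5]
    have h6 : y - n0 ≤ q * L := by
      rw [hy]
      push_cast
      have : (k : ℝ) ≤ L := by exact_mod_cast hk.le
      nlinarith
    have h7 : |th| * (y ^ (D + 1) - (n0 : ℝ) ^ (D + 1)) ≤ ((D : ℝ) + 1) * eta * L * (N : ℝ) ^ D := by
      calc |th| * (y ^ (D + 1) - (n0 : ℝ) ^ (D + 1))
          ≤ |th| * (((D : ℝ) + 1) * (N : ℝ) ^ D * (y - n0)) :=
            mul_le_mul_of_nonneg_left h4 (abs_nonneg _)
        _ ≤ |th| * (((D : ℝ) + 1) * (N : ℝ) ^ D * (q * L)) := by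
            apply mul_le_mul_of_nonneg_left _ (abs_nonneg _)
            apply mul_le_mul_of_nonneg_left h6
            positivity
        _ = ((D : ℝ) + 1) * (|th| * q) * L * (N : ℝ) ^ D := by ring
        _ = _ := by rw [hth']
    have h8 : ((D : ℝ) + 1) * eta * L * (N : ℝ) ^ D ≤ lam / 64 := by
      have : 64 * (((D : ℝ) + 1) * eta * L * (N : ℝ) ^ D) ≤ lam := by
        calc _ = 64 * ((D : ℝ) + 1) * eta * L * (N : ℝ) ^ D := by ring
          _ ≤ lam := heta
      linarith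
    have h9 : |th| * (y ^ (D + 1) - (n0 : ℝ) ^ (D + 1)) ≤ lam / 64 := h7.trans h8
    have h10 : 0 ≤ |th| * (y ^ (D + 1) - (n0 : ℝ) ^ (D + 1)) := mul_nonneg (abs_nonneg _) h5
    have hpi := Real.pi_lt_four
    have hpi0 := Real.pi_pos
    nlinarith
  have h11 : ‖∑ k ∈ range L, e (g.eval ((n0 + q * k : ℕ) : ℝ)) - e (c * (n0 : ℝ) ^ (D + 1)) *
      ∑ k ∈ range L, e (((g - C c * X ^ (D + 1)).comp (C (n0 : ℝ) + C (q : ℝ) * X)).eval
        (k : ℝ))‖ ≤ lam / 8 * L := by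
    rw [Finset.mul_sum, ← Finset.sum_sub_distrib]
    refine (norm_sum_le _ _).trans ?_
    refine (Finset.sum_le_sum key).trans (le_of_eq ?_)
    rw [Finset.sum_const, Finset.card_range, nsmul_eq_mul, mul_comm]
  have h12 := norm_sub_norm_le (∑ k ∈ range L, e (g.eval ((n0 + q * k : ℕ) : ℝ)))
    (e (c * (n0 : ℝ) ^ (D + 1)) * ∑ k ∈ range L,
      e (((g - C c * X ^ (D + 1)).comp (C (n0 : ℝ) + C (q : ℝ) * X)).eval (k : ℝ)))
  rw [norm_mul, norm_e, one_mul] at h12
  linarith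

theorem block (D : ℕ) (g : Polynomial ℝ) (hg : g.natDegree ≤ D + 1) (N : ℕ) (lam : ℝ)
    (h0 : 0 < lam) (h1 : lam ≤ 1) (q L : ℕ) (hq : 1 ≤ q) (hL : 1 ≤ L)
    (hqL : (q : ℝ) * L ≤ lam / 8 * N)
    (heta : 64 * ((D : ℝ) + 1) * dz ((q : ℝ) * g.coeff (D + 1)) * L * (N : ℝ) ^ D ≤ lam)
    (h : lam * N ≤ ‖∑ n ∈ range N, e (g.eval (n : ℝ))‖) :
    ∃ n0 : ℕ, n0 < N ∧ lam / 2 * L ≤ ‖∑ k ∈ range L,
      e (((g - C (g.coeff (D + 1)) * X ^ (D + 1)).comp (C (n0 : ℝ) + C (q : ℝ) * X)).eval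
        (k : ℝ))‖ := by
  by_contra hcon
  push Not at hcon
  have hqLpos : 1 ≤ q * L := Nat.mul_pos hq hL
  have hqLR : (1 : ℝ) ≤ (q : ℝ) * L := by exact_mod_cast hqLpos
  have hN : (0 : ℝ) < N := by
    by_contra hN
    push Not at hN
    nlinarith
  obtain ⟨P, hP⟩ : ∃ P, P = L * q := ⟨_, rfl⟩
  have hPpos : 0 < P := by rw [hP, mul_comm]; exact hqLpos
  obtain ⟨t, ht⟩ : ∃ t, t = N / P := ⟨_, rfl⟩
  obtain ⟨s, hs⟩ : ∃ s, s = N % P := ⟨_, rfl⟩
  have hNts : N = t * P + s := by rw [ht, hs, mul_comm]; exact (Nat.div_add_mod N P).symm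
  have hsP : s < P := hs ▸ Nat.mod_lt _ hPpos
  have hsum : ∑ n ∈ range N, e (g.eval (n : ℝ)) =
      (∑ i ∈ range t, ∑ j ∈ range q, ∑ k ∈ range L,
        e (g.eval ((i * P + j + q * k : ℕ) : ℝ))) +
      ∑ x ∈ range s, e (g.eval ((t * P + x : ℕ) : ℝ)) := by
    conv_lhs => rw [hNts]
    rw [Finset.sum_range_add, block_sum_blocks]
    congr 1
    refine Finset.sum_congr rfl fun i _ => ?_
    rw [hP, block_sum_blocks (fun r => e (g.eval ((i * (L * q) + r : ℕ) : ℝ))), Finset.sum_comm]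
    refine Finset.sum_congr rfl fun j _ => Finset.sum_congr rfl fun k _ => ?_
    congr 3
    ring
  have hblk : ∀ i ∈ range t, ∀ j ∈ range q, ‖∑ k ∈ range L,
      e (g.eval ((i * P + j + q * k : ℕ) : ℝ))‖ ≤ lam / 2 * L + lam / 8 * L := by
    intro i hi j hj
    rw [Finset.mem_range] at hi hj
    have hlt : ∀ k < L, i * P + j + q * k < N := by
      intro k hk
      have h2 : j + q * k < P := by
        rw [hP]
        calc j + q * k < q + q * k := Nat.add_lt_add_right hj _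
          _ = (k + 1) * q := by ring
          _ ≤ L * q := Nat.mul_le_mul_right _ hk
      have h3 : (i + 1) * P ≤ t * P := Nat.mul_le_mul_right _ hi
      rw [Nat.add_mul, one_mul] at h3
      omega
    have h2 := block_one D g N lam q L hq heta (i * P + j) hlt
    have h3 := hcon (i * P + j) (by have := hlt 0 hL; simpa using this)
    linarith
  have hrest : ‖∑ x ∈ range s, e (g.eval ((t * P + x : ℕ) : ℝ))‖ ≤ s := by
    refine (norm_sum_le _ _).trans (le_of_eq ?_)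
    simp [norm_e]
  have htot : ‖∑ n ∈ range N, e (g.eval (n : ℝ))‖ ≤ t * (q * (lam / 2 * L + lam / 8 * L)) + s := by
    rw [hsum]
    refine (norm_add_le _ _).trans (add_le_add ?_ hrest)
    refine (norm_sum_le _ _).trans ?_
    refine (Finset.sum_le_sum (g := fun _ => (q : ℝ) * (lam / 2 * L + lam / 8 * L)) ?_).trans
      (le_of_eq ?_)
    · intro i hi
      refine (norm_sum_le _ _).trans ?_
      refine (Finset.sum_le_sum (hblk i hi)).trans (le_of_eq ?_)
      rw [Finset.sum_const, Finset.card_range, nsmul_eq_mul]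
    · rw [Finset.sum_const, Finset.card_range, nsmul_eq_mul]
  have htP : (t : ℝ) * ((q : ℝ) * L) ≤ N := by
    have : t * P ≤ N := by omega
    rw [hP, mul_comm L q] at this
    exact_mod_cast this
  have hsP' : (s : ℝ) ≤ (q : ℝ) * L := by
    have : s ≤ q * L := by rw [mul_comm]; rw [hP] at hsP; exact hsP.le
    exact_mod_cast this
  have hfin : lam * N ≤ 5 / 8 * lam * N + lam / 8 * N := by
    calc lam * N ≤ t * (q * (lam / 2 * L + lam / 8 * L)) + s := h.trans htot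
      _ = 5 / 8 * lam * (t * (q * L)) + s := by ring
      _ ≤ 5 / 8 * lam * N + lam / 8 * N :=
        add_le_add (mul_le_mul_of_nonneg_left htP (by positivity)) (hsP'.trans hqL)
  nlinarith [mul_pos h0 hN]

end Pool.PolyMax
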