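import Pool.Agent.PolyMax.Basic

set_option autoImplicit false

/-!
# PolyMax: differences and shifts of polynomials

`diff_natDegree`, `diff_coeff`: for `g` of degree at most `D + 1`, the polynomial
`g (X + h) - g X` has degree at most `D` and its coefficient of `X ^ D` is `(D + 1) h g_{D+1}`
(expand by the binomial theorem; `Polynomial.hasseDeriv`/`Polynomial.taylor` may help:
`taylor h g = g.comp (X + C h)` and `taylor_coeff`).

`unshift`.  PROOF: put `h := g.comp (X + C n0)`.  Then `g.comp (C n0 + C q * X) = h.comp (C q * X)` has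
coefficients `q ^ i * h_i`.  For `1 ≤ i ≤ D`: `(q1 q ^ D) h_i = q ^ (D - i) * (q1 q ^ i h_i)`, so
`dz (q1 q^D h_i) ≤ q ^ (D - i) K / N ^ i ≤ q ^ D K / N ^ i`.  Moreover `g = h.comp (X - C n0)`, so
`g_i = ∑_{j ≥ i} (j choose i) (- n0) ^ (j - i) h_j` (an INTEGER combination), hence for `1 ≤ i ≤ D`
`dz (q1 q^D g_i) ≤ ∑_{j = i}^{D} (j choose i) N ^ (j - i) * q ^ D K / N ^ j
 ≤ (D + 1) 2 ^ D q ^ D K / N ^ i`.  For `i > D` the coefficient is `0`.
-/

open Finset Polynomial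

namespace Pool.PolyMax

private lemma sh_comp_coeff (g : Polynomial ℝ) (M : ℕ) (hg : g.natDegree ≤ M) (r : ℝ) (n : ℕ) :
    (g.comp (X + C r)).coeff n =
      ∑ i ∈ range (M + 1), g.coeff i * (r ^ (i - n) * (i.choose n : ℝ)) := by
  rw [Polynomial.comp, eval₂_eq_sum_range' C (Nat.lt_succ_of_le hg), finsetSum_coeff]
  apply Finset.sum_congr rfl
  intro i _
  rw [coeff_C_mul, coeff_X_add_C_pow]

theorem diff_natDegree (D : ℕ) (g : Polynomial ℝ) (hg : g.natDegree ≤ D + 1) (h : ℝ) :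
    (g.comp (X + C h) - g).natDegree ≤ D := by
  rw [natDegree_le_iff_coeff_eq_zero]
  intro N hN
  rw [coeff_sub, sh_comp_coeff g (D + 1) hg h N, Finset.sum_range_succ]
  have h1 : ∑ i ∈ range (D + 1), g.coeff i * (h ^ (i - N) * (i.choose N : ℝ)) = 0 := by
    apply Finset.sum_eq_zero
    intro i hi
    rw [Finset.mem_range] at hi
    rw [Nat.choose_eq_zero_of_lt (by omega)]
    simp
  rw [h1, zero_add]
  rcases Nat.lt_or_ge (D + 1) N with h2 | h2
  · rw [Nat.choose_eq_zero_of_lt h2, coeff_eq_zero_of_natDegree_lt (lt_of_le_of_lt hg h2)]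
    simp
  · have h3 : N = D + 1 := by omega
    subst h3
    simp

theorem diff_coeff (D : ℕ) (hD : 1 ≤ D) (g : Polynomial ℝ) (hg : g.natDegree ≤ D + 1) (h : ℝ) :
    (g.comp (X + C h) - g).coeff D = ((D : ℝ) + 1) * h * g.coeff (D + 1) := by
  rw [coeff_sub, sh_comp_coeff g (D + 1) hg h D, Finset.sum_range_succ, Finset.sum_range_succ]
  have h1 : ∑ i ∈ range D, g.coeff i * (h ^ (i - D) * (i.choose D : ℝ)) = 0 := by
    apply Finset.sum_eq_zero
    intro i hi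
    rw [Finset.mem_range] at hi
    rw [Nat.choose_eq_zero_of_lt hi]
    simp
  rw [h1, Nat.choose_self, Nat.choose_succ_self_right, Nat.sub_self, Nat.add_sub_cancel_left]
  push_cast
  ring

theorem unshift (D : ℕ) (g : Polynomial ℝ) (hg : g.natDegree ≤ D) (N : ℕ) (hN : 1 ≤ N) (n0 : ℕ)
    (hn0 : n0 ≤ N) (q : ℕ) (hq : 1 ≤ q) (q1 : ℕ) (K : ℝ) (hK : 0 ≤ K)
    (h : ∀ i : ℕ, 1 ≤ i → dz ((q1 : ℝ) * (g.comp (C (n0 : ℝ) + C (q : ℝ) * X)).coeff i) ≤
      K / (N : ℝ) ^ i) :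
    ∀ i : ℕ, 1 ≤ i → dz (((q1 * q ^ D : ℕ) : ℝ) * g.coeff i) ≤
      ((D : ℝ) + 1) * 2 ^ D * (q : ℝ) ^ D * K / (N : ℝ) ^ i := by
  intro i hi
  have hN0 : (0 : ℝ) < N := by exact_mod_cast hN
  have hq1 : (1 : ℝ) ≤ q := by exact_mod_cast hq
  have hn0' : (n0 : ℝ) ≤ N := by exact_mod_cast hn0
  obtain ⟨f, hf⟩ : ∃ f : Polynomial ℝ, f = g.comp (X + C (n0 : ℝ)) := ⟨_, rfl⟩
  have hfd : f.natDegree ≤ D := by
    rw [hf, natDegree_comp, natDegree_X_add_C, mul_one]
    exact hg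
  have hfc : ∀ j, (g.comp (C (n0 : ℝ) + C (q : ℝ) * X)).coeff j = f.coeff j * (q : ℝ) ^ j := by
    intro j
    have h1 : g.comp (C (n0 : ℝ) + C (q : ℝ) * X) = f.comp (C (q : ℝ) * X) := by
      rw [hf, comp_assoc]
      congr 1
      simp [add_comm]
    rw [h1, comp_C_mul_X_coeff]
  have hfg : g = f.comp (X + C (-(n0 : ℝ))) := by
    rw [hf, comp_assoc]
    simp
  have hfj : ∀ j, 1 ≤ j → dz (((q1 * q ^ D : ℕ) : ℝ) * f.coeff j) ≤
      (q : ℝ) ^ D * (K / (N : ℝ) ^ j) := by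
    intro j hj
    have h0 : 0 ≤ K / (N : ℝ) ^ j := by positivity
    rcases Nat.lt_or_ge D j with hDj | hDj
    · rw [coeff_eq_zero_of_natDegree_lt (lt_of_le_of_lt hfd hDj), mul_zero, dz_zero]
      positivity
    · have h1 : ((q1 * q ^ D : ℕ) : ℝ) * f.coeff j =
          ((q ^ (D - j) : ℕ) : ℝ) * ((q1 : ℝ) * (f.coeff j * (q : ℝ) ^ j)) := by
        have h2 : (q : ℝ) ^ D = (q : ℝ) ^ (D - j) * (q : ℝ) ^ j := by
          rw [← pow_add, Nat.sub_add_cancel hDj]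
        push_cast
        rw [h2]
        ring
      rw [h1]
      refine (dz_nat_mul_le _ _).trans ?_
      have h3 := h j hj
      rw [hfc] at h3
      have h4 : ((q ^ (D - j) : ℕ) : ℝ) ≤ (q : ℝ) ^ D := by
        push_cast
        exact pow_le_pow_right₀ hq1 (Nat.sub_le D j)
      exact mul_le_mul h4 h3 (dz_nonneg _) (by positivity)
  have hgi : ((q1 * q ^ D : ℕ) : ℝ) * g.coeff i = ∑ j ∈ range (D + 1),
      (((-(n0 : ℤ)) ^ (j - i) * (j.choose i : ℤ) : ℤ) : ℝ) *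
        (((q1 * q ^ D : ℕ) : ℝ) * f.coeff j) := by
    rw [hfg, sh_comp_coeff f D hfd, Finset.mul_sum]
    apply Finset.sum_congr rfl
    intro j _
    push_cast
    ring
  rw [hgi]
  refine (dz_sum_le _ _).trans ?_
  have hterm : ∀ j ∈ range (D + 1), dz ((((-(n0 : ℤ)) ^ (j - i) * (j.choose i : ℤ) : ℤ) : ℝ) *
        (((q1 * q ^ D : ℕ) : ℝ) * f.coeff j)) ≤ 2 ^ D * (q : ℝ) ^ D * K / (N : ℝ) ^ i := by
    intro j hj
    rw [Finset.mem_range] at hj
    rcases Nat.lt_or_ge j i with hji | hji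
    · rw [Nat.choose_eq_zero_of_lt hji]
      simp only [Nat.cast_zero, mul_zero, Int.cast_zero, zero_mul]
      rw [dz_zero]
      positivity
    · refine (dz_int_mul_le _ _).trans ?_
      have h1 : |(((-(n0 : ℤ)) ^ (j - i) * (j.choose i : ℤ) : ℤ) : ℝ)|
          ≤ (N : ℝ) ^ (j - i) * 2 ^ D := by
        push_cast
        rw [abs_mul, abs_pow, abs_neg, Nat.abs_cast, Nat.abs_cast]
        have h2 : (j.choose i : ℝ) ≤ 2 ^ D := by
          have h3 : j.choose i ≤ 2 ^ j := Nat.choose_le_two_pow j i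
          have h4 : 2 ^ j ≤ 2 ^ D := Nat.pow_le_pow_right (by norm_num) (by omega)
          exact_mod_cast h3.trans h4
        gcongr
      have h5 := hfj j (hi.trans hji)
      calc |(((-(n0 : ℤ)) ^ (j - i) * (j.choose i : ℤ) : ℤ) : ℝ)| *
            dz (((q1 * q ^ D : ℕ) : ℝ) * f.coeff j)
          ≤ ((N : ℝ) ^ (j - i) * 2 ^ D) * ((q : ℝ) ^ D * (K / (N : ℝ) ^ j)) := by
            apply mul_le_mul h1 h5 (dz_nonneg _) (by positivity)
        _ = 2 ^ D * (q : ℝ) ^ D * K / (N : ℝ) ^ i := by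
            have h6 : (N : ℝ) ^ j = (N : ℝ) ^ (j - i) * (N : ℝ) ^ i := by
              rw [← pow_add, Nat.sub_add_cancel hji]
            rw [h6]
            field_simp
  refine (Finset.sum_le_sum hterm).trans ?_
  rw [Finset.sum_const, Finset.card_range, nsmul_eq_mul]
  push_cast
  apply le_of_eq
  ring

end Pool.PolyMax
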