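import Pool.Agent.PolyMax.Basic

set_option autoImplicit false

/-!
# PolyMax: many small multiples

PROOF.  By Dirichlet (`Real.exists_rat_abs_sub_le_and_den_le` with `n = 4 N`) there is a reduced
fraction `a / q`, `1 ≤ q ≤ 4 N`, with `th := al - a / q`, `|th| ≤ 1 / ((4 N + 1) q)`.

Case 1: `4 q eps < 1`.  For `h ∈ H` (so `1 ≤ h ≤ N`): `dz (h a / q) ≤ dz (h al) + |h th|
< 1 / (4 q) + 1 / (4 q) < 1 / q`, hence `q ∣ h a`, hence `q ∣ h`.  So `H` lies in the multiples of
`q` in `[1, N]`: `|H| ≤ N / q`, so `q del ≤ 1`.  Take the largest `h ∈ H`: `h ≥ |H| ≥ del N`.  Then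
`h al = integer + h th` with `|h th| ≤ 1 / 4`, so `dz (h al) = h |th| ≤ eps`, so
`|th| ≤ eps / (del N)` and `dz (q al) ≤ q |th| ≤ eps / (del² N)`.

Case 2: `4 q eps ≥ 1` (so `eps > 0`).  Cover `[1, N]` by at most `N / q + 1` blocks of `q`
consecutive integers.  In a block `h` runs through all residues modulo `q`, hence so does `h a`
(`gcd (a, q) = 1`), and `dz (h al) ≤ eps` implies `dz (h a / q) ≤ eps + |h th| ≤ eps + 1 / (4 q)`;
the number of residues `b` mod `q` with `dz (b / q) ≤ eps + 1 / (4 q)` is at most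
`2 q (eps + 1 / (4 q)) + 1 = 2 q eps + 3 / 2`.  So `|H| ≤ (N / q + 1) (2 q eps + 3 / 2)
= 2 N eps + (3 / 2) N / q + 2 q eps + 3 / 2 ≤ 2 N eps + 6 N eps + 8 N eps + 3 / 2`
(using `1 / q ≤ 4 eps`, `q ≤ 4 N`), which is `< del N` since `16 N eps ≤ 0.16 del N` and
`3 / 2 ≤ (3 / 16) del N`: contradiction.
-/

open Finset

namespace Pool.PolyMax

/-- The number of `b < q` with `b / q` within `et` of an integer. -/
theorem vino_card_near (q : ℕ) (hq : 1 ≤ q) (et : ℝ) (het : 0 ≤ et) (B : Finset ℕ)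
    (hB : ∀ b ∈ B, b < q ∧ dz ((b : ℝ) / (q : ℝ)) ≤ et) :
    (B.card : ℝ) ≤ 2 * (q * et) + 1 := by
  have hq0 : (0 : ℝ) < q := by exact_mod_cast hq
  have h0 : 0 ≤ (q : ℝ) * et := by positivity
  have hsub : B ⊆ range (⌊(q : ℝ) * et⌋₊ + 1) ∪ Ico (q - ⌊(q : ℝ) * et⌋₊) q := by
    intro b hb
    obtain ⟨h1, h2⟩ := hB b hb
    obtain ⟨k, hk⟩ := exists_int_dz ((b : ℝ) / (q : ℝ))
    rw [← hk] at h2
    have h3 : |(b : ℝ) - k * q| ≤ q * et := by
      have e1 : (b : ℝ) - k * q = ((b : ℝ) / (q : ℝ) - k) * q := by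
        field_simp
      rw [e1, abs_mul, abs_of_pos hq0, mul_comm]
      exact mul_le_mul_of_nonneg_left h2 hq0.le
    rw [abs_le] at h3
    rw [mem_union, mem_range, mem_Ico]
    rcases le_or_gt k 0 with hk0 | hk0
    · left
      have hk1 : (k : ℝ) * q ≤ 0 := by
        apply mul_nonpos_of_nonpos_of_nonneg _ hq0.le
        exact_mod_cast hk0
      have : (b : ℝ) ≤ q * et := by linarith [h3.2]
      have := Nat.le_floor this
      omega
    · right
      have hk1 : (1 : ℝ) * q ≤ k * q := by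
        apply mul_le_mul_of_nonneg_right _ hq0.le
        exact_mod_cast hk0
      have h4 : ((q - b : ℕ) : ℝ) ≤ q * et := by
        rw [Nat.cast_sub h1.le]
        linarith [h3.1]
      have := Nat.le_floor h4
      omega
  have h1 := card_le_card hsub
  have h2 := card_union_le (range (⌊(q : ℝ) * et⌋₊ + 1)) (Ico (q - ⌊(q : ℝ) * et⌋₊) q)
  rw [card_range, Nat.card_Ico] at h2
  have h3 : B.card ≤ 2 * ⌊(q : ℝ) * et⌋₊ + 1 := by omega
  have h4 : (B.card : ℝ) ≤ 2 * (⌊(q : ℝ) * et⌋₊ : ℝ) + 1 := by exact_mod_cast h3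
  have h5 := Nat.floor_le h0
  linarith

theorem vino (al : ℝ) (N : ℕ) (del eps : ℝ) (hd : 0 < del) (hd1 : del ≤ 1) (he : 0 ≤ eps)
    (hed : 100 * eps ≤ del) (hN : 8 ≤ del * N) (H : Finset ℕ) (hH : H ⊆ Icc 1 N)
    (hc : del * N ≤ (H.card : ℝ)) (hal : ∀ h ∈ H, dz ((h : ℝ) * al) ≤ eps) :
    ∃ q : ℕ, 1 ≤ q ∧ (q : ℝ) * del ≤ 1 ∧ dz ((q : ℝ) * al) * (del ^ 2 * N) ≤ eps := by
  classical
  have hN0' : (8 : ℝ) ≤ N := by
    have : del * (N : ℝ) ≤ 1 * N := mul_le_mul_of_nonneg_right hd1 (Nat.cast_nonneg N)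
    linarith
  have hN0 : 0 < N := by
    have : (0 : ℝ) < N := by linarith
    exact_mod_cast this
  have hNr : (0 : ℝ) < N := by exact_mod_cast hN0
  obtain ⟨r, hr1, hr2⟩ := Real.exists_rat_abs_sub_le_and_den_le al (n := 4 * N) (by omega)
  obtain ⟨q, hq⟩ : ∃ q : ℕ, q = r.den := ⟨_, rfl⟩
  obtain ⟨a, ha⟩ : ∃ a : ℤ, a = r.num := ⟨_, rfl⟩
  have hq1 : 1 ≤ q := by rw [hq]; exact r.den_pos
  have hq0 : (0 : ℝ) < q := by exact_mod_cast hq1
  have hcop : a.natAbs.Coprime q := by rw [ha, hq]; exact r.reduced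
  have hr : (r : ℝ) = (a : ℝ) / (q : ℝ) := by rw [Rat.cast_def, ha, hq]
  rw [hr, ← hq] at hr1
  rw [← hq] at hr2
  obtain ⟨th, hth⟩ : ∃ th : ℝ, th = al - (a : ℝ) / (q : ℝ) := ⟨_, rfl⟩
  rw [← hth] at hr1
  push_cast at hr1
  have hal' : al = (a : ℝ) / (q : ℝ) + th := by rw [hth]; ring
  have hsmall : ∀ h : ℕ, h ≤ N → |(h : ℝ) * th| ≤ 1 / (4 * q) := by
    intro h hh
    have hh' : (h : ℝ) ≤ N := by exact_mod_cast hh
    rw [abs_mul, abs_of_nonneg (Nat.cast_nonneg h)]
    calc (h : ℝ) * |th| ≤ N * (1 / ((4 * N + 1) * q)) :=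
          mul_le_mul hh' hr1 (abs_nonneg _) hNr.le
      _ ≤ 1 / (4 * q) := by
          rw [mul_one_div, div_le_div_iff₀ (by positivity) (by positivity)]
          nlinarith
  have hnear : ∀ h ∈ H, dz (((h * a : ℤ) : ℝ) / (q : ℝ)) ≤ eps + 1 / (4 * q) := by
    intro h hh
    have h1 := hal h hh
    have h2 := hsmall h (mem_Icc.1 (hH hh)).2
    have h3 := dz_sub_le ((h : ℝ) * al) ((h : ℝ) * th)
    have h4 := dz_le_abs ((h : ℝ) * th)
    have h5 : (h : ℝ) * al - (h : ℝ) * th = ((h * a : ℤ) : ℝ) / (q : ℝ) := by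
      rw [hal']
      push_cast
      ring
    rw [h5] at h3
    linarith
  rcases lt_or_ge (4 * q * eps) 1 with hcase | hcase
  · -- Case 1
    have heps : eps < 1 / (4 * q) := by
      rw [lt_div_iff₀ (by positivity)]
      linarith
    have hdvd : ∀ h ∈ H, q ∣ h := by
      intro h hh
      have h1 := hnear h hh
      have h2 : (q : ℤ) ∣ (h * a : ℤ) := by
        by_contra hnd
        have h3 := one_div_le_dz (h * a : ℤ) q hq1 hnd
        have h4 : 1 / (q : ℝ) = 4 * (1 / (4 * q)) := by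
          field_simp
        have h5 : 0 < 1 / (4 * (q : ℝ)) := by positivity
        linarith
      have h3 : q ∣ h * a.natAbs := by
        have := Int.natAbs_dvd_natAbs.2 h2
        rw [Int.natAbs_mul] at this
        simpa using this
      exact Nat.Coprime.dvd_of_dvd_mul_right (Nat.Coprime.symm hcop) h3
    have hcard : (q : ℝ) * del ≤ 1 := by
      have h1 : H ⊆ (Ioc 0 N).filter fun x => q ∣ x := by
        intro h hh
        rw [mem_filter, mem_Ioc]
        have := mem_Icc.1 (hH hh)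
        exact ⟨⟨by omega, this.2⟩, hdvd h hh⟩
      have h2 := card_le_card h1
      rw [Nat.Ioc_filter_dvd_card_eq_div] at h2
      have h3 : (H.card : ℝ) ≤ (N : ℝ) / q := by
        refine le_trans ?_ (Nat.cast_div_le (m := N) (n := q))
        exact_mod_cast h2
      have h4 : del * N ≤ N / q := le_trans hc h3
      rw [le_div_iff₀ hq0] at h4
      have h5 : (q * del) * N ≤ 1 * N := by linarith
      exact le_of_mul_le_mul_right h5 hNr
    have hHne : H.Nonempty := by
      rw [← card_pos]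
      have : (0 : ℝ) < H.card := by linarith
      exact_mod_cast this
    obtain ⟨h, hh, hmax⟩ := H.exists_max_image (fun x => x) hHne
    have hle : H.card ≤ h := by
      have h1 : H ⊆ Icc 1 h := by
        intro x hx
        exact mem_Icc.2 ⟨(mem_Icc.1 (hH hx)).1, hmax x hx⟩
      have h2 := card_le_card h1
      rw [Nat.card_Icc] at h2
      omega
    have hle' : del * N ≤ (h : ℝ) := by
      refine le_trans hc ?_
      exact_mod_cast hle
    obtain ⟨c, hc'⟩ := hdvd h hh
    have hint : (h : ℝ) * al - h * th = ((c * a : ℤ) : ℝ) := by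
      rw [hal', hc']
      push_cast
      field_simp
      ring
    have h1 : dz ((h : ℝ) * al) = dz ((h : ℝ) * th) := dz_congr hint
    have h2 := hsmall h (mem_Icc.1 (hH hh)).2
    have h3 : 1 / (4 * (q : ℝ)) ≤ 1 / 2 := by
      have hq1' : (1 : ℝ) ≤ q := by exact_mod_cast hq1
      rw [div_le_div_iff₀ (by positivity) (by norm_num)]
      linarith
    have h4 : (h : ℝ) * |th| ≤ eps := by
      have h5 := hal h hh
      rw [h1, dz_eq_abs (h2.trans h3), abs_mul, abs_of_nonneg (Nat.cast_nonneg h)] at h5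
      exact h5
    refine ⟨q, hq1, hcard, ?_⟩
    have h5 : dz ((q : ℝ) * al) ≤ q * |th| := by
      have h6 : (q : ℝ) * al - q * th = (a : ℝ) := by
        rw [hal']
        field_simp
        ring
      rw [dz_congr h6]
      refine (dz_le_abs _).trans ?_
      rw [abs_mul, abs_of_pos hq0]
    calc dz ((q : ℝ) * al) * (del ^ 2 * N) ≤ q * |th| * (del ^ 2 * N) :=
          mul_le_mul_of_nonneg_right h5 (by positivity)
      _ = (q * del) * (|th| * (del * N)) := by ring
      _ ≤ 1 * (|th| * (del * N)) := mul_le_mul_of_nonneg_right hcard (by positivity)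
      _ ≤ 1 * (|th| * h) := by
          apply mul_le_mul_of_nonneg_left _ zero_le_one
          exact mul_le_mul_of_nonneg_left hle' (abs_nonneg _)
      _ ≤ eps := by linarith
  · -- Case 2
    exfalso
    have hqZ : (0 : ℤ) < q := by exact_mod_cast hq1
    have hmaps : ∀ h ∈ H, ((h * a : ℤ) % (q : ℤ)).toNat ∈
        H.image fun h : ℕ => ((h * a : ℤ) % (q : ℤ)).toNat := fun h hh =>
      mem_image_of_mem _ hh
    have hfib : ∀ b ∈ H.image (fun h : ℕ => ((h * a : ℤ) % (q : ℤ)).toNat),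
        (H.filter fun h : ℕ => ((h * a : ℤ) % (q : ℤ)).toNat = b).card ≤ N / q + 1 := by
      intro b _
      have hinj : Set.InjOn (fun h : ℕ => h / q)
          (H.filter fun h : ℕ => ((h * a : ℤ) % (q : ℤ)).toNat = b) := by
        intro x hx y hy hxy
        rw [coe_filter, Set.mem_ofPred_eq] at hx hy
        have hx0 := Int.emod_nonneg (x * a : ℤ) hqZ.ne'
        have hy0 := Int.emod_nonneg (y * a : ℤ) hqZ.ne'
        have h1 : (x * a : ℤ) % (q : ℤ) = (y * a : ℤ) % (q : ℤ) := by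
          have := hx.2.trans hy.2.symm
          omega
        have h2 : (q : ℤ) ∣ (x * a - y * a : ℤ) :=
          Int.dvd_of_emod_eq_zero (Int.emod_eq_emod_iff_emod_sub_eq_zero.1 h1)
        have h3 : (q : ℤ) ∣ ((x : ℤ) - y) * a := by
          rw [sub_mul]
          exact h2
        have h4 : q ∣ ((x : ℤ) - y).natAbs * a.natAbs := by
          have := Int.natAbs_dvd_natAbs.2 h3
          rw [Int.natAbs_mul] at this
          simpa using this
        have h5 : q ∣ ((x : ℤ) - y).natAbs :=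
          Nat.Coprime.dvd_of_dvd_mul_right (Nat.Coprime.symm hcop) h4
        have h6 : x % q = y % q := by
          have h7 : (q : ℤ) ∣ ((x : ℤ) - y) := Int.natCast_dvd.2 h5
          have h8 := (Int.emod_emod_of_dvd (x : ℤ) (dvd_refl (q : ℤ)))
          have h9 : (x : ℤ) % q = (y : ℤ) % q := by
            exact Int.emod_eq_emod_iff_emod_sub_eq_zero.2 (Int.emod_eq_zero_of_dvd h7)
          exact_mod_cast h9
        have h7 : x / q = y / q := hxy
        rw [← Nat.div_add_mod x q, ← Nat.div_add_mod y q, h6, h7]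
      have hmap : ∀ x ∈ (H.filter fun h : ℕ => ((h * a : ℤ) % (q : ℤ)).toNat = b),
          (fun h : ℕ => h / q) x ∈ range (N / q + 1) := by
        intro x hx
        rw [mem_filter] at hx
        have := (mem_Icc.1 (hH hx.1)).2
        have h1 := Nat.div_le_div_right (c := q) this
        rw [mem_range]
        show x / q < N / q + 1
        omega
      have := card_le_card_of_injOn _ hmap hinj
      rwa [card_range] at this
    have hH1 := card_le_mul_card_image_of_maps_to hmaps (N / q + 1) hfib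
    have hB := vino_card_near q hq1 (eps + 1 / (4 * q)) (by positivity)
      (H.image fun h : ℕ => ((h * a : ℤ) % (q : ℤ)).toNat) (by
        intro b hb
        obtain ⟨h, hh, rfl⟩ := mem_image.1 hb
        have h0 := Int.emod_nonneg (h * a : ℤ) hqZ.ne'
        have h1 := Int.emod_lt_of_pos (h * a : ℤ) hqZ
        have h2 : (((h * a : ℤ) % (q : ℤ)).toNat : ℤ) = (h * a : ℤ) % (q : ℤ) :=
          Int.toNat_of_nonneg h0
        refine ⟨by omega, ?_⟩
        have h3 := hnear h hh
        have h4 : ((h * a : ℤ) : ℝ) / (q : ℝ) - ((((h * a : ℤ) % (q : ℤ)).toNat : ℕ) : ℝ) / q =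
            (((h * a : ℤ) / (q : ℤ) : ℤ) : ℝ) := by
          have h5 : ((((h * a : ℤ) % (q : ℤ)).toNat : ℕ) : ℝ) =
              (((h * a : ℤ) % (q : ℤ) : ℤ) : ℝ) := by
            exact_mod_cast congrArg (fun z : ℤ => (z : ℝ)) h2
          have h6 : ((h * a : ℤ) : ℝ) =
              q * (((h * a : ℤ) / (q : ℤ) : ℤ) : ℝ) + (((h * a : ℤ) % (q : ℤ) : ℤ) : ℝ) := by
            have := Int.mul_ediv_add_emod (h * a : ℤ) (q : ℤ)
            have h7 := congrArg (fun z : ℤ => (z : ℝ)) this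
            simp only [Int.cast_add, Int.cast_mul, Int.cast_natCast] at h7
            rw [Int.cast_mul, Int.cast_natCast]
            linarith
          rw [h5, ← sub_div, h6]
          field_simp
          ring
        rw [dz_congr h4] at h3
        exact h3)
    have hqN : (q : ℝ) ≤ 4 * N := by exact_mod_cast hr2
    have hH2 : (H.card : ℝ) ≤ ((N / q : ℕ) + 1 : ℝ) *
        ((H.image fun h : ℕ => ((h * a : ℤ) % (q : ℤ)).toNat).card : ℝ) := by
      exact_mod_cast hH1
    have hH3 : ((N / q : ℕ) : ℝ) ≤ (N : ℝ) / q := Nat.cast_div_le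
    have hH4 : (H.card : ℝ) ≤ ((N : ℝ) / q + 1) * (2 * (q * (eps + 1 / (4 * q))) + 1) := by
      refine hH2.trans ?_
      apply mul_le_mul _ hB (Nat.cast_nonneg _) (by positivity)
      linarith
    have hH5 : ((N : ℝ) / q + 1) * (2 * (q * (eps + 1 / (4 * q))) + 1) =
        2 * N * eps + 3 / 2 * (N / q) + 2 * q * eps + 3 / 2 := by
      field_simp
      ring
    have hH6 : (N : ℝ) / q ≤ 4 * N * eps := by
      rw [div_le_iff₀ hq0]
      nlinarith
    have hH7 : 2 * q * eps ≤ 8 * N * eps := by nlinarith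
    have hH8 : 16 * (N * eps) ≤ 16 / 100 * (del * N) := by nlinarith
    rw [hH5] at hH4
    nlinarith

end Pool.PolyMax
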