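import Pool.Agent.PolyMax.Vdc
import Pool.Agent.PolyMax.Vino
import Pool.Agent.PolyMax.Shift
import Pool.Agent.PolyMax.Block

/-!
# PolyMax: the inverse Weyl theorem

`inverse_weyl`: if `|∑_{n < N} e (g n)| ≥ lam N` for a real polynomial `g` of degree at most `D` then
for some `1 ≤ q ≤ C lam^{-C}` all `dz (q g_i) ≤ C lam^{-C} N^{-i}`, `i ≥ 1`.

PROOF by induction on `D`; write `T = 1 / lam ≥ 1`.
* `D = 0`: `q = 1`, all coefficients `g_i`, `i ≥ 1`, vanish.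
* `D = 1`: `g = g_1 X + g_0`; by `geom_bound`, `lam N * 2 dz (g_1) ≤ 1`, so `dz (g_1) ≤ T / N`, `q = 1`.
* From `D ≥ 1` to `D + 1` (let `C ≥ 1` be the constant for `D`; `K_0, K_1, ...` denote constants which
  depend only on `D` and `C`).
  - If `N ≤ K_0 T^{K_0}` take `q = 1`: `dz ≤ 1 ≤ (K_0 T^{K_0})^{D+1} / N^i` for `i ≤ D + 1`, and the
    coefficients with `i > D + 1` vanish.
  - Otherwise `N > K_0 T^{K_0}`.  `vdc` gives a set `H ⊆ [1, N - 1]`, `|H| ≥ N / (8 T²)`, such that for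
    `h ∈ H` the sum of `e ∘ g_h`, `g_h = g (X + h) - g`, over `range (N - h)` is at least `N / (8 T²)`
    in modulus; so `N - h ≥ N / (8 T²)`, and it is `≥ lam' (N - h)` with `lam' = 1 / (8 T²)`.
    `g_h` has degree `≤ D` and `(g_h)_D = (D + 1) h g_{D+1}` (Shift.lean).  The induction hypothesis
    gives `1 ≤ q_h ≤ Q := C (8 T²)^C` with
    `dz (q_h (D + 1) h g_{D+1}) ≤ C (8 T²)^C / (N - h)^D ≤ C (8 T²)^{C + D} / N^D =: eps`.
    By pigeonhole some `q_0` equals `q_h` for at least `|H| / Q ≥ del N` of the `h`,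
    `del = 1 / (8 T² Q)`.  `vino` applied to `al = q_0 (D + 1) g_{D+1}` (note `100 eps ≤ del`, `8 ≤ del N`
    since `N^D ≥ N > K_0 T^{K_0}`) gives `q_2 ≤ 1 / del` with `dz (q_2 al) ≤ eps / (del² N)`.  Put
    `q = q_2 q_0 (D + 1)`: `q ≤ K_1 T^{K_1}`, `dz (q g_{D+1}) ≤ K_1 T^{K_1} / N^{D+1}`.
  - Let `L = ⌊N / (K_2 T^{K_2})⌋ ≥ 1`, `K_2` so large that `q L ≤ lam N / 8` and
    `64 (D + 1) dz (q g_{D+1}) L N^D ≤ lam`.  `block` gives `n0 < N` with
    `|∑_{k < L} e (gt k)| ≥ (lam / 2) L`, `gt = g'.comp (C n0 + C q X)`, `g' = g - g_{D+1} X^{D+1}` of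
    degree `≤ D`.  The induction hypothesis (for `gt`, `L`, `lam / 2`) gives `q_1 ≤ C (2 T)^C` with
    `dz (q_1 gt_i) ≤ C (2 T)^C / L^i ≤ K_3 T^{K_3} / N^i` (`L ≥ N / (2 K_2 T^{K_2})`; for `i > D` the
    coefficient vanishes).  `unshift` gives `dz (q_1 q^D g'_i) ≤ K_4 T^{K_4} / N^i`.
  - Final multiplier: `q_1 q^D q`.  For `1 ≤ i ≤ D`: `dz (q_1 q^D q g_i) ≤ q dz (q_1 q^D g_i)`; for
    `i = D + 1`: `≤ q_1 q^D dz (q g_{D+1})`.  All are `≤ K_5 T^{K_5} / N^i`.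

`weyl_vec` is the special case `g = ∑_j xi_j X^{j+1}`: `g.eval n = ph xi n`, `g_{j+1} = xi_j`.
-/

set_option autoImplicit false

open Finset

namespace Pool.PolyMax

/-- The comparison `C (c T) ^ k ≤ R ^ m`. -/
lemma iw_pow_le {R x : ℝ} (hR : 1 ≤ R) (hx : 0 ≤ x) {j k m : ℕ} (h : x ≤ R ^ j) (hm : j * k ≤ m) :
    x ^ k ≤ R ^ m := by
  calc x ^ k ≤ (R ^ j) ^ k := pow_le_pow_left₀ hx h k
    _ = R ^ (j * k) := by rw [pow_mul]
    _ ≤ R ^ m := pow_le_pow_right₀ hR hm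

lemma norm_sum_e_le (g : ℕ → ℝ) (N : ℕ) : ‖∑ n ∈ range N, e (g n)‖ ≤ (N : ℝ) := by
  calc ‖∑ n ∈ range N, e (g n)‖ ≤ ∑ n ∈ range N, ‖e (g n)‖ := norm_sum_le _ _
    _ = ∑ n ∈ range N, (1 : ℝ) := by simp only [norm_e]
    _ = N := by simp

/-- First part of the induction step: a small multiplier for the leading coefficient. -/
lemma iw_step_one (D C : ℕ) (hD : 1 ≤ D) (hC : 1 ≤ C)
    (IH : ∀ (g : Polynomial ℝ) (N : ℕ) (lam : ℝ),
      g.natDegree ≤ D → 1 ≤ N → 0 < lam → lam ≤ 1 →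
      lam * N ≤ ‖∑ n ∈ range N, e (g.eval (n : ℝ))‖ →
      ∃ q : ℕ, 1 ≤ q ∧ (q : ℝ) ≤ C * (1 / lam) ^ C ∧
        ∀ i : ℕ, 1 ≤ i → dz ((q : ℝ) * g.coeff i) ≤ C * (1 / lam) ^ C / (N : ℝ) ^ i)
    (g : Polynomial ℝ) (N : ℕ) (lam : ℝ) (hg : g.natDegree ≤ D + 1) (h0 : 0 < lam)
    (h1 : lam ≤ 1) (h : lam * N ≤ ‖∑ n ∈ range N, e (g.eval (n : ℝ))‖)
    (R : ℝ) (hR : R = 64 * ((D : ℝ) + 2) * C * (1 / lam)) (hN : R ^ (5 + 4 * C + 2 * D) ≤ N) :
    ∃ q : ℕ, 1 ≤ q ∧ (q : ℝ) ≤ R ^ (5 + 4 * C) ∧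
      dz ((q : ℝ) * g.coeff (D + 1)) ≤ R ^ (7 + 6 * C + 2 * D) / (N : ℝ) ^ (D + 1) := by
  have hT : 1 ≤ 1 / lam := by rw [le_div_iff₀ h0]; linarith
  set T : ℝ := 1 / lam with hTdef
  have hlamT : lam * T = 1 := by rw [hTdef]; field_simp
  have hCr : (1 : ℝ) ≤ C := by exact_mod_cast hC
  have hDr : (1 : ℝ) ≤ D := by exact_mod_cast hD
  have hCT : (1 : ℝ) ≤ C * T := one_le_mul_of_one_le_of_one_le hCr hT
  have hR192 : 192 * T ≤ R := by
    rw [hR]
    nlinarith [mul_nonneg (sub_nonneg.2 hCr) (le_trans zero_le_one hT),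
      mul_nonneg (sub_nonneg.2 hDr) (le_trans zero_le_one hCT)]
  have hR192' : 192 ≤ R := by linarith
  have hR1 : 1 ≤ R := by linarith
  have hR0 : 0 < R := by linarith
  have hCR : (C : ℝ) ≤ R := by
    rw [hR]
    have : (C : ℝ) ≤ C * T := le_mul_of_one_le_right (by linarith) hT
    nlinarith [mul_nonneg (sub_nonneg.2 hDr) (le_trans zero_le_one hCT)]
  have hDR : (D : ℝ) + 1 ≤ R := by
    rw [hR]
    have h2 : (D : ℝ) + 2 ≤ (D + 2) * (C * T) := le_mul_of_one_le_right (by linarith) hCT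
    nlinarith
  have h8 : 8 * T ^ 2 ≤ R ^ 2 := by nlinarith
  have h8' : 0 ≤ 8 * T ^ 2 := by positivity
  have hinv : 1 / (lam ^ 2 / 8) = 8 * T ^ 2 := by
    rw [hTdef]; field_simp
  have hlam2 : lam ^ 2 / 8 * (8 * T ^ 2) = 1 := by
    rw [← hinv]; field_simp
  have hNpow : ∀ k : ℕ, k ≤ 5 + 4 * C + 2 * D → R ^ k ≤ N := fun k hk =>
    le_trans (pow_le_pow_right₀ hR1 hk) hN
  have hNR : R ≤ N := by simpa using hNpow 1 (by omega)
  have hN0 : (0 : ℝ) < N := by linarith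
  -- Weyl differencing
  have hv := vdc g N lam h0 h1 (by
    have := hNpow 2 (by omega)
    have h3 : 2 * T ^ 2 ≤ N := by nlinarith
    calc (2 : ℝ) = lam ^ 2 * (2 * T ^ 2) := by rw [hTdef]; field_simp
      _ ≤ lam ^ 2 * N := mul_le_mul_of_nonneg_left h3 (by positivity)) h
  set H : Finset ℕ := (Icc 1 (N - 1)).filter fun h : ℕ => lam ^ 2 / 8 * N ≤
      ‖∑ n ∈ range (N - h), e ((g.comp (Polynomial.X + Polynomial.C (h : ℝ)) - g).eval
        (n : ℝ))‖ with hHdef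
  -- the multipliers
  have hq : ∀ h : ℕ, ∃ q : ℕ, h ∈ H → 1 ≤ q ∧ (q : ℝ) ≤ R ^ (1 + 2 * C) ∧
      dz ((h : ℝ) * ((q : ℝ) * (((D : ℝ) + 1) * g.coeff (D + 1)))) ≤
        R ^ (1 + 2 * C + 2 * D) / (N : ℝ) ^ D := by
    intro k
    by_cases hk : k ∈ H
    · rw [hHdef, mem_filter, mem_Icc] at hk
      obtain ⟨⟨hk1, hk2⟩, hk3⟩ := hk
      have hNk : 1 ≤ N - k := by omega
      have hcast : ((N - k : ℕ) : ℝ) ≤ N := by exact_mod_cast Nat.sub_le N k
      obtain ⟨q, hq1, hq2, hq3⟩ := IH (g.comp (Polynomial.X + Polynomial.C (k : ℝ)) - g) (N - k)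
        (lam ^ 2 / 8) (diff_natDegree D g hg k) hNk (by positivity) (by nlinarith)
        (le_trans (mul_le_mul_of_nonneg_left hcast (by positivity)) hk3)
      refine ⟨q, fun _ => ⟨hq1, ?_, ?_⟩⟩
      · refine hq2.trans ?_
        rw [hinv]
        calc (C : ℝ) * (8 * T ^ 2) ^ C ≤ R * R ^ (2 * C) :=
              mul_le_mul hCR (iw_pow_le hR1 h8' h8 le_rfl) (by positivity) hR0.le
          _ = R ^ (1 + 2 * C) := by rw [pow_add, pow_one]
      · have h4 := hq3 D hD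
        rw [diff_coeff D hD g hg, hinv] at h4
        have h6 : (q : ℝ) * (((D : ℝ) + 1) * k * g.coeff (D + 1)) =
            (k : ℝ) * ((q : ℝ) * (((D : ℝ) + 1) * g.coeff (D + 1))) := by ring
        rw [h6] at h4
        refine h4.trans ?_
        -- N - k ≥ N / (8 T ^ 2)
        have h7 : (N : ℝ) ≤ (8 * T ^ 2) * ((N - k : ℕ) : ℝ) := by
          have h8 := hk3.trans (norm_sum_e_le
            (fun n => (g.comp (Polynomial.X + Polynomial.C (k : ℝ)) - g).eval (n : ℝ)) (N - k))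
          calc (N : ℝ) = (8 * T ^ 2) * (lam ^ 2 / 8 * N) := by
                rw [← mul_assoc, mul_comm (8 * T ^ 2), hlam2, one_mul]
            _ ≤ _ := mul_le_mul_of_nonneg_left h8 h8'
        have hNk0 : (0 : ℝ) < ((N - k : ℕ) : ℝ) := by exact_mod_cast hNk
        rw [div_le_div_iff₀ (by positivity) (by positivity)]
        calc (C : ℝ) * (8 * T ^ 2) ^ C * (N : ℝ) ^ D
            ≤ (C : ℝ) * (8 * T ^ 2) ^ C * ((8 * T ^ 2) * ((N - k : ℕ) : ℝ)) ^ D :=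
              mul_le_mul_of_nonneg_left (pow_le_pow_left₀ hN0.le h7 D) (by positivity)
          _ = (C : ℝ) * (8 * T ^ 2) ^ C * (8 * T ^ 2) ^ D * ((N - k : ℕ) : ℝ) ^ D := by
              rw [mul_pow]; ring
          _ ≤ R * R ^ (2 * C) * R ^ (2 * D) * ((N - k : ℕ) : ℝ) ^ D := by
              refine mul_le_mul_of_nonneg_right ?_ (by positivity)
              refine mul_le_mul ?_ (iw_pow_le hR1 h8' h8 le_rfl) (by positivity) (by positivity)
              exact mul_le_mul hCR (iw_pow_le hR1 h8' h8 le_rfl) (by positivity) hR0.le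
          _ = R ^ (1 + 2 * C + 2 * D) * ((N - k : ℕ) : ℝ) ^ D := by
              rw [pow_add, pow_add, pow_one]
    · exact ⟨0, fun h => absurd h hk⟩
  choose qh hqh using hq
  -- pigeonhole
  set Q : ℕ := ⌊R ^ (1 + 2 * C)⌋₊ with hQdef
  have hQR : (Q : ℝ) ≤ R ^ (1 + 2 * C) := Nat.floor_le (by positivity)
  have hmaps : ∀ k ∈ H, qh k ∈ Icc 1 Q := by
    intro k hk
    rw [mem_Icc]
    exact ⟨(hqh k hk).1, Nat.le_floor (hqh k hk).2.1⟩
  have hdel0 : (0 : ℝ) < 1 / R ^ (3 + 2 * C) := by positivity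
  have hHcard : (N : ℝ) ≤ R ^ 2 * (H.card : ℝ) := by
    calc (N : ℝ) = (8 * T ^ 2) * (lam ^ 2 / 8 * N) := by
          rw [← mul_assoc, mul_comm (8 * T ^ 2), hlam2, one_mul]
      _ ≤ (8 * T ^ 2) * (H.card : ℝ) := mul_le_mul_of_nonneg_left hv h8'
      _ ≤ R ^ 2 * (H.card : ℝ) := mul_le_mul_of_nonneg_right h8 (by positivity)
  have hHpos : 0 < H.card := by
    rcases Nat.eq_zero_or_pos H.card with h9 | h9
    · rw [h9, Nat.cast_zero, mul_zero] at hHcard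
      linarith
    · exact h9
  obtain ⟨h10, hh10⟩ := Finset.card_pos.1 hHpos
  have hQpos : (Icc 1 Q).Nonempty := ⟨_, hmaps h10 hh10⟩
  obtain ⟨q0, hq0mem, hq0⟩ : ∃ q0 ∈ Icc 1 Q,
      H.card ≤ Q * (H.filter fun k => qh k = q0).card := by
    by_contra hcon
    push Not at hcon
    have h11 : H.card = ∑ b ∈ Icc 1 Q, (H.filter fun k => qh k = b).card :=
      Finset.card_eq_sum_card_fiberwise hmaps
    have h12 : ∑ b ∈ Icc 1 Q, Q * (H.filter fun k => qh k = b).card < ∑ b ∈ Icc 1 Q, H.card :=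
      Finset.sum_lt_sum_of_nonempty hQpos hcon
    rw [← Finset.mul_sum, ← h11, Finset.sum_const, Nat.card_Icc, Nat.add_sub_cancel,
      smul_eq_mul] at h12
    exact lt_irrefl _ h12
  set H' := H.filter fun k => qh k = q0 with hH'def
  have hH'card : 1 / R ^ (3 + 2 * C) * (N : ℝ) ≤ (H'.card : ℝ) := by
    rw [div_mul_eq_mul_div, one_mul, div_le_iff₀ (by positivity)]
    have h13 : (H.card : ℝ) ≤ Q * (H'.card : ℝ) := by exact_mod_cast hq0
    calc (N : ℝ) ≤ R ^ 2 * (H.card : ℝ) := hHcard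
      _ ≤ R ^ 2 * (Q * (H'.card : ℝ)) := mul_le_mul_of_nonneg_left h13 (by positivity)
      _ ≤ R ^ 2 * (R ^ (1 + 2 * C) * (H'.card : ℝ)) := by gcongr
      _ = (H'.card : ℝ) * R ^ (3 + 2 * C) := by
          rw [show 3 + 2 * C = 2 + (1 + 2 * C) by ring, pow_add R 2]; ring
  have hH'sub : H' ⊆ Icc 1 N := by
    intro k hk
    rw [hH'def, mem_filter, hHdef, mem_filter, mem_Icc] at hk
    rw [mem_Icc]
    omega
  have hq01 : 1 ≤ q0 := (mem_Icc.1 hq0mem).1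
  have hq0R : (q0 : ℝ) ≤ R ^ (1 + 2 * C) := le_trans (by exact_mod_cast (mem_Icc.1 hq0mem).2) hQR
  -- Vinogradov
  obtain ⟨q2, hq21, hq22, hq23⟩ := vino ((q0 : ℝ) * (((D : ℝ) + 1) * g.coeff (D + 1))) N
    (1 / R ^ (3 + 2 * C)) (R ^ (1 + 2 * C + 2 * D) / (N : ℝ) ^ D) hdel0
    (by rw [div_le_one (by positivity)]; exact one_le_pow₀ hR1) (by positivity)
    (by
      rw [mul_div_assoc', div_le_div_iff₀ (by positivity) (by positivity)]
      have h14 : (N : ℝ) ≤ (N : ℝ) ^ D := le_self_pow₀ (by linarith) (by omega)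
      calc 100 * R ^ (1 + 2 * C + 2 * D) * R ^ (3 + 2 * C)
          ≤ R * R ^ (1 + 2 * C + 2 * D) * R ^ (3 + 2 * C) := by gcongr; linarith
        _ = R ^ (5 + 4 * C + 2 * D) := by
            rw [← pow_succ', ← pow_add]; congr 1; ring
        _ ≤ N := hN
        _ ≤ 1 * (N : ℝ) ^ D := by rw [one_mul]; exact h14)
    (by
      rw [div_mul_eq_mul_div, one_mul, le_div_iff₀ (by positivity)]
      calc 8 * R ^ (3 + 2 * C) ≤ R * R ^ (3 + 2 * C) := by gcongr; linarith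
        _ = R ^ (4 + 2 * C) := by rw [← pow_succ']; congr 1; ring
        _ ≤ N := hNpow _ (by omega))
    H' hH'sub hH'card
    (by
      intro k hk
      rw [hH'def, mem_filter] at hk
      have h15 := (hqh k hk.1).2.2
      rw [hk.2] at h15
      exact h15)
  refine ⟨q2 * q0 * (D + 1), ?_, ?_, ?_⟩
  · exact Nat.mul_pos (Nat.mul_pos hq21 hq01) (Nat.succ_pos D)
  · have h16 : (q2 : ℝ) ≤ R ^ (3 + 2 * C) := by
      rw [mul_one_div, div_le_one (by positivity)] at hq22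
      exact hq22
    push_cast
    calc (q2 : ℝ) * q0 * ((D : ℝ) + 1) ≤ R ^ (3 + 2 * C) * R ^ (1 + 2 * C) * R := by
          gcongr
      _ = R ^ (5 + 4 * C) := by
          rw [← pow_add, ← pow_succ]; congr 1; ring
  · have h17 : ((q2 * q0 * (D + 1) : ℕ) : ℝ) * g.coeff (D + 1) =
        (q2 : ℝ) * ((q0 : ℝ) * (((D : ℝ) + 1) * g.coeff (D + 1))) := by push_cast; ring
    rw [h17]
    have h18 : (0 : ℝ) < (1 / R ^ (3 + 2 * C)) ^ 2 * N := by positivity
    rw [← le_div_iff₀ h18] at hq23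
    refine hq23.trans (le_of_eq ?_)
    have hRne : R ≠ 0 := hR0.ne'
    have hNne : (N : ℝ) ≠ 0 := hN0.ne'
    rw [show 7 + 6 * C + 2 * D = (1 + 2 * C + 2 * D) + ((3 + 2 * C) * 2) by ring, pow_add R _ ((3 + 2 * C) * 2),
      pow_mul, pow_succ (N : ℝ) D]
    field_simp

/-- Second part of the induction step. -/
lemma iw_step_two (D C : ℕ) (hD : 1 ≤ D) (hC : 1 ≤ C)
    (IH : ∀ (g : Polynomial ℝ) (N : ℕ) (lam : ℝ),
      g.natDegree ≤ D → 1 ≤ N → 0 < lam → lam ≤ 1 →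
      lam * N ≤ ‖∑ n ∈ range N, e (g.eval (n : ℝ))‖ →
      ∃ q : ℕ, 1 ≤ q ∧ (q : ℝ) ≤ C * (1 / lam) ^ C ∧
        ∀ i : ℕ, 1 ≤ i → dz ((q : ℝ) * g.coeff i) ≤ C * (1 / lam) ^ C / (N : ℝ) ^ i)
    (g : Polynomial ℝ) (N : ℕ) (lam : ℝ) (hg : g.natDegree ≤ D + 1) (h0 : 0 < lam)
    (h1 : lam ≤ 1) (h : lam * N ≤ ‖∑ n ∈ range N, e (g.eval (n : ℝ))‖)
    (R : ℝ) (hR : R = 64 * ((D : ℝ) + 2) * C * (1 / lam)) (hN : R ^ (8 + 6 * C + 2 * D) ≤ N)
    (q : ℕ) (hq1 : 1 ≤ q) (hqR : (q : ℝ) ≤ R ^ (5 + 4 * C))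
    (hq : dz ((q : ℝ) * g.coeff (D + 1)) ≤ R ^ (7 + 6 * C + 2 * D) / (N : ℝ) ^ (D + 1)) :
    ∃ q1 : ℕ, 1 ≤ q1 ∧ (q1 : ℝ) ≤ R ^ (1 + C) ∧
      ∀ i : ℕ, 1 ≤ i → i ≤ D → dz (((q1 * q ^ D : ℕ) : ℝ) * g.coeff i) ≤
        R ^ (1 + D + (5 + 4 * C) * D + (1 + C) + (9 + 6 * C + 2 * D) * D) / (N : ℝ) ^ i := by
  have hT : 1 ≤ 1 / lam := by rw [le_div_iff₀ h0]; linarith
  set T : ℝ := 1 / lam with hTdef
  have hlamT : lam * T = 1 := by rw [hTdef]; field_simp
  have hCr : (1 : ℝ) ≤ C := by exact_mod_cast hC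
  have hDr : (1 : ℝ) ≤ D := by exact_mod_cast hD
  have hCT : (1 : ℝ) ≤ C * T := one_le_mul_of_one_le_of_one_le hCr hT
  have hR192 : 192 * T ≤ R := by
    rw [hR]
    nlinarith [mul_nonneg (sub_nonneg.2 hCr) (le_trans zero_le_one hT),
      mul_nonneg (sub_nonneg.2 hDr) (le_trans zero_le_one hCT)]
  have hR192' : 192 ≤ R := by linarith
  have hR1 : 1 ≤ R := by linarith
  have hR0 : 0 < R := by linarith
  have hCR : (C : ℝ) ≤ R := by
    rw [hR]
    have : (C : ℝ) ≤ C * T := le_mul_of_one_le_right (by linarith) hT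
    nlinarith [mul_nonneg (sub_nonneg.2 hDr) (le_trans zero_le_one hCT)]
  have hDR : (D : ℝ) + 1 ≤ R := by
    rw [hR]
    have h2 : (D : ℝ) + 2 ≤ (D + 2) * (C * T) := le_mul_of_one_le_right (by linarith) hCT
    nlinarith
  have hDTR : 64 * ((D : ℝ) + 1) * T ≤ R := by
    rw [hR]
    have h2 : ((D : ℝ) + 2) * T ≤ (D + 2) * T * C := le_mul_of_one_le_right (by positivity) hCr
    nlinarith
  have hNpow : ∀ k : ℕ, k ≤ 8 + 6 * C + 2 * D → R ^ k ≤ N := fun k hk =>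
    le_trans (pow_le_pow_right₀ hR1 hk) hN
  have hNR : R ≤ N := by simpa using hNpow 1 (by omega)
  have hN0 : (0 : ℝ) < N := by linarith
  have hN1 : 1 ≤ N := by
    have : (1 : ℝ) ≤ N := by linarith
    exact_mod_cast this
  set Z : ℝ := (N : ℝ) / R ^ (8 + 6 * C + 2 * D) with hZdef
  have hZ1 : 1 ≤ Z := by rw [hZdef, le_div_iff₀ (by positivity), one_mul]; exact hN
  set L : ℕ := ⌊Z⌋₊ with hLdef
  have hLZ : (L : ℝ) ≤ Z := Nat.floor_le (by linarith)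
  have hL1 : 1 ≤ L := Nat.le_floor (by exact_mod_cast hZ1)
  have hL1r : (1 : ℝ) ≤ L := by exact_mod_cast hL1
  have hLlow : (N : ℝ) ≤ R ^ (9 + 6 * C + 2 * D) * L := by
    have h2 : Z < L + 1 := Nat.lt_floor_add_one Z
    have h3 : Z ≤ 2 * L := by linarith
    calc (N : ℝ) = R ^ (8 + 6 * C + 2 * D) * Z := by rw [hZdef]; field_simp
      _ ≤ R ^ (8 + 6 * C + 2 * D) * (2 * L) := by gcongr
      _ ≤ R ^ (8 + 6 * C + 2 * D) * (R * L) := by gcongr; linarith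
      _ = R ^ (9 + 6 * C + 2 * D) * L := by
          rw [show 9 + 6 * C + 2 * D = (8 + 6 * C + 2 * D) + 1 by ring, pow_succ]; ring
  obtain ⟨n0, hn0, hblock⟩ := block D g hg N lam h0 h1 q L hq1 hL1
    (by
      have h4 : (q : ℝ) * L ≤ R ^ (5 + 4 * C) * Z := mul_le_mul hqR hLZ (by positivity) (by positivity)
      refine h4.trans ?_
      rw [hZdef, mul_div_assoc', div_le_iff₀ (by positivity)]
      have h5 : R ^ (5 + 4 * C) * (8 * T) ≤ R ^ (8 + 6 * C + 2 * D) := by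
        calc R ^ (5 + 4 * C) * (8 * T) ≤ R ^ (5 + 4 * C) * R := by gcongr; linarith
          _ = R ^ (5 + 4 * C + 1) := (pow_succ _ _).symm
          _ ≤ R ^ (8 + 6 * C + 2 * D) := pow_le_pow_right₀ hR1 (by omega)
      calc R ^ (5 + 4 * C) * N = lam / 8 * N * (R ^ (5 + 4 * C) * (8 * T)) := by
            linear_combination (-(N : ℝ) * R ^ (5 + 4 * C)) * hlamT
        _ ≤ lam / 8 * N * R ^ (8 + 6 * C + 2 * D) := by gcongr)
    (by
      calc 64 * ((D : ℝ) + 1) * dz ((q : ℝ) * g.coeff (D + 1)) * L * (N : ℝ) ^ D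
          ≤ 64 * ((D : ℝ) + 1) * (R ^ (7 + 6 * C + 2 * D) / (N : ℝ) ^ (D + 1)) * Z * (N : ℝ) ^ D := by
            gcongr
        _ = 64 * ((D : ℝ) + 1) / R := by
            rw [hZdef, show 8 + 6 * C + 2 * D = (7 + 6 * C + 2 * D) + 1 by ring,
              pow_succ R (7 + 6 * C + 2 * D), pow_succ (N : ℝ) D]
            field_simp
        _ ≤ lam := by
            rw [div_le_iff₀ hR0]
            calc 64 * ((D : ℝ) + 1) = lam * (64 * ((D : ℝ) + 1) * T) := by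
                  linear_combination (-64 * ((D : ℝ) + 1)) * hlamT
              _ ≤ lam * R := by gcongr)
    h
  set g' : Polynomial ℝ := g - Polynomial.C (g.coeff (D + 1)) * Polynomial.X ^ (D + 1) with hg'def
  have hg'coeff : ∀ i : ℕ, i ≤ D → g'.coeff i = g.coeff i := by
    intro i hi
    rw [hg'def, Polynomial.coeff_sub, Polynomial.coeff_C_mul_X_pow, if_neg (by omega), sub_zero]
  have hg'deg : g'.natDegree ≤ D := by
    rw [Polynomial.natDegree_le_iff_coeff_eq_zero]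
    intro i hi
    rw [hg'def, Polynomial.coeff_sub, Polynomial.coeff_C_mul_X_pow]
    split_ifs with h6
    · rw [h6, sub_self]
    · rw [sub_zero]
      exact Polynomial.coeff_eq_zero_of_natDegree_lt (by omega)
  set gt : Polynomial ℝ := g'.comp (Polynomial.C (n0 : ℝ) + Polynomial.C (q : ℝ) * Polynomial.X)
    with hgtdef
  have hgtdeg : gt.natDegree ≤ D := by
    rw [hgtdef]
    refine Polynomial.natDegree_comp_le.trans ?_
    have h7 : (Polynomial.C (n0 : ℝ) + Polynomial.C (q : ℝ) * Polynomial.X).natDegree ≤ 1 := by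
      compute_degree
    calc g'.natDegree * _ ≤ D * 1 := Nat.mul_le_mul hg'deg h7
      _ = D := Nat.mul_one D
  obtain ⟨q1, hq11, hq12, hq13⟩ := IH gt L (lam / 2) hgtdeg hL1 (by positivity) (by linarith)
    hblock
  have h2T : 1 / (lam / 2) = 2 * T := by rw [hTdef]; field_simp
  have hCT2 : (C : ℝ) * (1 / (lam / 2)) ^ C ≤ R ^ (1 + C) := by
    rw [h2T]
    calc (C : ℝ) * (2 * T) ^ C ≤ R * R ^ C := by
          refine mul_le_mul hCR (pow_le_pow_left₀ (by positivity) (by linarith) C)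
            (by positivity) hR0.le
      _ = R ^ (1 + C) := by rw [pow_add, pow_one]
  have hcoef : ∀ i : ℕ, 1 ≤ i → dz ((q1 : ℝ) * gt.coeff i) ≤
      R ^ ((1 + C) + (9 + 6 * C + 2 * D) * D) / (N : ℝ) ^ i := by
    intro i hi
    rcases Nat.lt_or_ge D i with hiD | hiD
    · rw [Polynomial.coeff_eq_zero_of_natDegree_lt (lt_of_le_of_lt hgtdeg hiD), mul_zero, dz_zero]
      positivity
    · refine (hq13 i hi).trans ?_
      have hL0 : (0 : ℝ) < L := by linarith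
      rw [div_le_div_iff₀ (by positivity) (by positivity)]
      calc (C : ℝ) * (1 / (lam / 2)) ^ C * (N : ℝ) ^ i
          ≤ R ^ (1 + C) * (R ^ (9 + 6 * C + 2 * D) * L) ^ i :=
            mul_le_mul hCT2 (pow_le_pow_left₀ hN0.le hLlow i) (by positivity) (by positivity)
        _ = R ^ (1 + C) * R ^ ((9 + 6 * C + 2 * D) * i) * (L : ℝ) ^ i := by
            rw [mul_pow, ← pow_mul]; ring
        _ ≤ R ^ (1 + C) * R ^ ((9 + 6 * C + 2 * D) * D) * (L : ℝ) ^ i := by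
            gcongr
        _ = R ^ ((1 + C) + (9 + 6 * C + 2 * D) * D) * (L : ℝ) ^ i := by rw [← pow_add]
  refine ⟨q1, hq11, hq12.trans hCT2, ?_⟩
  intro i hi hiD
  have hun := unshift D g' hg'deg N hN1 n0 hn0.le q hq1 q1
    (R ^ ((1 + C) + (9 + 6 * C + 2 * D) * D)) (by positivity) hcoef i hi
  rw [hg'coeff i hiD] at hun
  refine hun.trans ?_
  refine div_le_div_of_nonneg_right ?_ (by positivity)
  calc ((D : ℝ) + 1) * 2 ^ D * (q : ℝ) ^ D * R ^ ((1 + C) + (9 + 6 * C + 2 * D) * D)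
      ≤ R * R ^ D * (R ^ (5 + 4 * C)) ^ D * R ^ ((1 + C) + (9 + 6 * C + 2 * D) * D) := by
        gcongr
        linarith
    _ = R ^ (1 + D + (5 + 4 * C) * D + (1 + C) + (9 + 6 * C + 2 * D) * D) := by
        rw [← pow_mul, ← pow_succ', ← pow_add, ← pow_add]
        congr 1
        ring

/-- The induction step. -/
lemma iw_step (D C : ℕ) (hD : 1 ≤ D) (hC : 1 ≤ C)
    (IH : ∀ (g : Polynomial ℝ) (N : ℕ) (lam : ℝ),
      g.natDegree ≤ D → 1 ≤ N → 0 < lam → lam ≤ 1 →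
      lam * N ≤ ‖∑ n ∈ range N, e (g.eval (n : ℝ))‖ →
      ∃ q : ℕ, 1 ≤ q ∧ (q : ℝ) ≤ C * (1 / lam) ^ C ∧
        ∀ i : ℕ, 1 ≤ i → dz ((q : ℝ) * g.coeff i) ≤ C * (1 / lam) ^ C / (N : ℝ) ^ i) :
    ∃ C' : ℕ, 1 ≤ C' ∧ ∀ (g : Polynomial ℝ) (N : ℕ) (lam : ℝ),
      g.natDegree ≤ D + 1 → 1 ≤ N → 0 < lam → lam ≤ 1 →
      lam * N ≤ ‖∑ n ∈ range N, e (g.eval (n : ℝ))‖ →
      ∃ q : ℕ, 1 ≤ q ∧ (q : ℝ) ≤ C' * (1 / lam) ^ C' ∧
        ∀ i : ℕ, 1 ≤ i → dz ((q : ℝ) * g.coeff i) ≤ C' * (1 / lam) ^ C' / (N : ℝ) ^ i := by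
  obtain ⟨k0, hk0⟩ : ∃ k : ℕ, k = 8 + 6 * C + 2 * D := ⟨_, rfl⟩
  obtain ⟨f, hf⟩ : ∃ f : ℕ, f = 1 + D + (5 + 4 * C) * D + (1 + C) + (9 + 6 * C + 2 * D) * D :=
    ⟨_, rfl⟩
  obtain ⟨E, hE⟩ : ∃ E : ℕ, E = k0 * (D + 1) + (5 + 4 * C + f) +
      ((1 + C) + (5 + 4 * C) * D + (7 + 6 * C + 2 * D)) := ⟨_, rfl⟩
  refine ⟨(64 * (D + 2) * C) ^ E + E + 1, by omega, ?_⟩
  intro g N lam hg hN1 h0 h1 h
  have hT : 1 ≤ 1 / lam := by rw [le_div_iff₀ h0]; linarith
  have hCr : (1 : ℝ) ≤ C := by exact_mod_cast hC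
  have hDr : (1 : ℝ) ≤ D := by exact_mod_cast hD
  obtain ⟨R, hR⟩ : ∃ R : ℝ, R = 64 * ((D : ℝ) + 2) * C * (1 / lam) := ⟨_, rfl⟩
  have hR1 : 1 ≤ R := by
    rw [hR]
    have h2 : (1 : ℝ) ≤ C * (1 / lam) := one_le_mul_of_one_le_of_one_le hCr hT
    nlinarith [mul_nonneg (sub_nonneg.2 hDr) (le_trans zero_le_one h2)]
  have hR0 : 0 < R := by linarith
  have hRE : R ^ E ≤ (((64 * (D + 2) * C) ^ E + E + 1 : ℕ) : ℝ) *
      (1 / lam) ^ ((64 * (D + 2) * C) ^ E + E + 1) := by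
    rw [hR, mul_pow]
    refine mul_le_mul ?_ (pow_le_pow_right₀ hT (by omega)) (by positivity) (by positivity)
    push_cast
    have : (0 : ℝ) ≤ E := by positivity
    linarith
  have hRk : ∀ k : ℕ, k ≤ E → R ^ k ≤ (((64 * (D + 2) * C) ^ E + E + 1 : ℕ) : ℝ) *
      (1 / lam) ^ ((64 * (D + 2) * C) ^ E + E + 1) := fun k hk =>
    (pow_le_pow_right₀ hR1 hk).trans hRE
  have hN0 : (0 : ℝ) < N := by exact_mod_cast hN1
  have hN1r : (1 : ℝ) ≤ N := by exact_mod_cast hN1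
  have hhigh : ∀ i : ℕ, D + 1 < i → g.coeff i = 0 := fun i hi =>
    Polynomial.coeff_eq_zero_of_natDegree_lt (lt_of_le_of_lt hg hi)
  rcases lt_or_ge (N : ℝ) (R ^ k0) with hsmall | hlarge
  · refine ⟨1, le_rfl, ?_, ?_⟩
    · have := hRk 0 (Nat.zero_le E)
      rw [pow_zero] at this
      rw [Nat.cast_one]
      exact this
    · intro i hi
      rcases Nat.lt_or_ge (D + 1) i with hiD | hiD
      · rw [hhigh i hiD, mul_zero, dz_zero]
        positivity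
      · rw [le_div_iff₀ (by positivity)]
        have h3 : dz (((1 : ℕ) : ℝ) * g.coeff i) ≤ 1 := (dz_le_half _).trans (by norm_num)
        calc dz (((1 : ℕ) : ℝ) * g.coeff i) * (N : ℝ) ^ i ≤ 1 * (N : ℝ) ^ (D + 1) :=
              mul_le_mul h3 (pow_le_pow_right₀ hN1r hiD) (by positivity) zero_le_one
          _ ≤ (R ^ k0) ^ (D + 1) := by
              rw [one_mul]
              exact pow_le_pow_left₀ hN0.le hsmall.le _
          _ = R ^ (k0 * (D + 1)) := by rw [pow_mul]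
          _ ≤ _ := hRk _ (by rw [hE]; omega)
  · obtain ⟨q, hq1, hqR, hq⟩ := iw_step_one D C hD hC IH g N lam hg h0 h1 h R hR
      ((pow_le_pow_right₀ hR1 (by omega)).trans hlarge)
    obtain ⟨q1, hq11, hq1R, hq1c⟩ := iw_step_two D C hD hC IH g N lam hg h0 h1 h R hR
      (by rw [← hk0]; exact hlarge) q hq1 hqR hq
    rw [← hf] at hq1c
    have hmul : ((q1 : ℝ) * (q : ℝ) ^ D) ≤ R ^ ((1 + C) + (5 + 4 * C) * D) := by
      calc (q1 : ℝ) * (q : ℝ) ^ D ≤ R ^ (1 + C) * (R ^ (5 + 4 * C)) ^ D := by gcongr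
        _ = R ^ ((1 + C) + (5 + 4 * C) * D) := by rw [← pow_mul, ← pow_add]
    refine ⟨q1 * q ^ D * q, ?_, ?_, ?_⟩
    · exact Nat.mul_pos (Nat.mul_pos hq11 (pow_pos hq1 D)) hq1
    · calc ((q1 * q ^ D * q : ℕ) : ℝ) = (q1 : ℝ) * (q : ℝ) ^ D * q := by push_cast; ring
        _ ≤ R ^ ((1 + C) + (5 + 4 * C) * D) * R ^ (5 + 4 * C) := by
            gcongr
        _ = R ^ ((1 + C) + (5 + 4 * C) * D + (5 + 4 * C)) := (pow_add _ _ _).symm
        _ ≤ _ := hRk _ (by rw [hE]; omega)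
    · intro i hi
      rcases Nat.lt_or_ge (D + 1) i with hiD | hiD
      · rw [hhigh i hiD, mul_zero, dz_zero]
        positivity
      · rcases Nat.lt_or_ge D i with hiD' | hiD'
        · have hieq : i = D + 1 := by omega
          subst hieq
          have h4 : ((q1 * q ^ D * q : ℕ) : ℝ) * g.coeff (D + 1) =
              ((q1 * q ^ D : ℕ) : ℝ) * ((q : ℝ) * g.coeff (D + 1)) := by push_cast; ring
          rw [h4]
          refine (dz_nat_mul_le _ _).trans ?_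
          rw [le_div_iff₀ (by positivity)]
          have h5 : dz ((q : ℝ) * g.coeff (D + 1)) * (N : ℝ) ^ (D + 1) ≤
              R ^ (7 + 6 * C + 2 * D) := by
            rw [le_div_iff₀ (by positivity)] at hq
            exact hq
          rw [mul_assoc]
          calc ((q1 * q ^ D : ℕ) : ℝ) * (dz ((q : ℝ) * g.coeff (D + 1)) * (N : ℝ) ^ (D + 1))
              ≤ R ^ ((1 + C) + (5 + 4 * C) * D) * R ^ (7 + 6 * C + 2 * D) := by
                refine mul_le_mul ?_ h5 (mul_nonneg (dz_nonneg _) (by positivity)) (by positivity)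
                push_cast
                exact hmul
            _ = R ^ ((1 + C) + (5 + 4 * C) * D + (7 + 6 * C + 2 * D)) := (pow_add _ _ _).symm
            _ ≤ _ := hRk _ (by rw [hE]; omega)
        · have h4 : ((q1 * q ^ D * q : ℕ) : ℝ) * g.coeff i =
              (q : ℝ) * (((q1 * q ^ D : ℕ) : ℝ) * g.coeff i) := by push_cast; ring
          rw [h4]
          refine (dz_nat_mul_le _ _).trans ?_
          have h6 := hq1c i hi hiD'
          rw [le_div_iff₀ (by positivity)] at h6 ⊢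
          rw [mul_assoc]
          calc (q : ℝ) * (dz (((q1 * q ^ D : ℕ) : ℝ) * g.coeff i) * (N : ℝ) ^ i)
              ≤ R ^ (5 + 4 * C) * R ^ f :=
                mul_le_mul hqR h6 (mul_nonneg (dz_nonneg _) (by positivity)) (by positivity)
            _ = R ^ (5 + 4 * C + f) := (pow_add _ _ _).symm
            _ ≤ _ := hRk _ (by rw [hE]; omega)

theorem inverse_weyl (D : ℕ) : ∃ C : ℕ, 1 ≤ C ∧ ∀ (g : Polynomial ℝ) (N : ℕ) (lam : ℝ),
    g.natDegree ≤ D → 1 ≤ N → 0 < lam → lam ≤ 1 →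
    lam * N ≤ ‖∑ n ∈ range N, e (g.eval (n : ℝ))‖ →
    ∃ q : ℕ, 1 ≤ q ∧ (q : ℝ) ≤ C * (1 / lam) ^ C ∧
      ∀ i : ℕ, 1 ≤ i → dz ((q : ℝ) * g.coeff i) ≤ C * (1 / lam) ^ C / (N : ℝ) ^ i := by
  rcases Nat.eq_zero_or_pos D with hD0 | hDpos
  · subst hD0
    refine ⟨1, le_rfl, ?_⟩
    intro g N lam hg hN h0 h1 _
    have hT : 1 ≤ 1 / lam := by rw [le_div_iff₀ h0]; linarith
    refine ⟨1, le_rfl, ?_, ?_⟩
    · rw [Nat.cast_one, one_mul, pow_one]
      exact hT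
    · intro i hi
      rw [Polynomial.coeff_eq_zero_of_natDegree_lt (by omega), mul_zero, dz_zero]
      positivity
  · obtain ⟨D', rfl⟩ : ∃ D' : ℕ, D = D' + 1 := ⟨D - 1, by omega⟩
    clear hDpos
    induction D' with
    | zero =>
      refine ⟨1, le_rfl, ?_⟩
      intro g N lam hg hN h0 h1 h
      have hT : 1 ≤ 1 / lam := by rw [le_div_iff₀ h0]; linarith
      have hN0 : (0 : ℝ) < N := by exact_mod_cast hN
      refine ⟨1, le_rfl, ?_, ?_⟩
      · rw [Nat.cast_one, one_mul, pow_one]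
        exact hT
      · intro i hi
        rcases Nat.lt_or_ge 1 i with hi1 | hi1
        · rw [Polynomial.coeff_eq_zero_of_natDegree_lt (by omega), mul_zero, dz_zero]
          positivity
        · have hieq : i = 1 := by omega
          subst hieq
          rw [Nat.cast_one, one_mul, one_mul, pow_one, pow_one, le_div_iff₀ hN0, le_div_iff₀ h0]
          have h2 : ∀ n : ℕ, e (g.eval (n : ℝ)) = e (g.coeff 0) * e ((n : ℝ) * g.coeff 1) := by
            intro n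
            rw [← e_add]
            congr 1
            have hg1 : g.natDegree ≤ 1 := by simpa using hg
            have h7 := congrArg (Polynomial.eval (n : ℝ))
              (Polynomial.eq_X_add_C_of_natDegree_le_one hg1)
            simp only [Polynomial.eval_add, Polynomial.eval_mul, Polynomial.eval_C,
              Polynomial.eval_X] at h7
            rw [h7]
            ring
          simp only [h2] at h
          rw [← Finset.mul_sum, norm_mul, norm_e, one_mul] at h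
          have h3 := geom_bound (g.coeff 1) N
          have h4 : 0 ≤ dz (g.coeff 1) := dz_nonneg _
          have h5 : lam * N * (2 * dz (g.coeff 1)) ≤ 1 :=
            le_trans (mul_le_mul_of_nonneg_right h (by positivity)) h3
          have h6 : 0 ≤ dz (g.coeff 1) * N * lam := by positivity
          nlinarith
    | succ D' ih =>
      obtain ⟨C, hC, hIH⟩ := ih
      exact iw_step (D' + 1) C (by omega) hC hIH

theorem weyl_vec (D : ℕ) : ∃ C : ℕ, 1 ≤ C ∧ ∀ (N : ℕ) (xi : Fin D → ℝ) (lam : ℝ), 1 ≤ N →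
    0 < lam → lam ≤ 1 → lam ≤ ‖m N xi‖ →
    ∃ q : ℕ, 1 ≤ q ∧ (q : ℝ) ≤ C * (1 / lam) ^ C ∧
      ∀ j : Fin D, dz ((q : ℝ) * xi j) ≤ C * (1 / lam) ^ C / (N : ℝ) ^ ((j : ℕ) + 1) := by
  obtain ⟨C, hC, hIW⟩ := inverse_weyl D
  refine ⟨C, hC, ?_⟩
  intro N xi lam hN h0 h1 h
  have hN0 : (0 : ℝ) < N := by exact_mod_cast hN
  set g : Polynomial ℝ := ∑ j : Fin D, Polynomial.C (xi j) * Polynomial.X ^ ((j : ℕ) + 1) with hg
  have hdeg : g.natDegree ≤ D := by
    rw [hg]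
    refine Polynomial.natDegree_sum_le_of_forall_le _ _ ?_
    intro j _
    refine (Polynomial.natDegree_C_mul_X_pow_le _ _).trans ?_
    have := j.isLt
    omega
  have heval : ∀ n : ℕ, g.eval (n : ℝ) = ph xi n := by
    intro n
    rw [hg, Polynomial.eval_finsetSum, ph]
    refine Finset.sum_congr rfl fun j _ => ?_
    simp
  have hcoeff : ∀ j : Fin D, g.coeff ((j : ℕ) + 1) = xi j := by
    intro j
    rw [hg, Polynomial.finsetSum_coeff, Finset.sum_eq_single j]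
    · rw [Polynomial.coeff_C_mul_X_pow, if_pos rfl]
    · intro k _ hk
      rw [Polynomial.coeff_C_mul_X_pow, if_neg]
      intro h2
      apply hk
      ext
      omega
    · intro h2
      exact absurd (Finset.mem_univ j) h2
  obtain ⟨q, hq1, hq2, hq3⟩ := hIW g N lam hdeg hN h0 h1 (by
    simp only [heval]
    rw [m, norm_mul, norm_inv, Complex.norm_natCast, ← div_eq_inv_mul, le_div_iff₀ hN0] at h
    exact h)
  refine ⟨q, hq1, hq2, ?_⟩
  intro j
  have h3 := hq3 ((j : ℕ) + 1) (by omega)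
  rw [hcoeff j] at h3
  exact h3

end Pool.PolyMax
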