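import Mathlib

set_option autoImplicit false

/-!
# PolyMax: maximal inequality for polynomial averages, definitions

`D` is the number of coordinates (the degree), frequencies are vectors `xi : Fin D → ℝ`, the phase of
the moment curve is `ph xi n = ∑ j, xi j * n ^ (j + 1)`.
-/

open Finset

namespace Pool.PolyMax

/-- `exp (2 π i x)`. -/
noncomputable def e (x : ℝ) : ℂ := Complex.exp (2 * Real.pi * x * Complex.I)

/-- Distance to the nearest integer. -/
noncomputable def dz (x : ℝ) : ℝ := |x - round x|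

/-- The phase of the moment curve. -/
noncomputable def ph {D : ℕ} (xi : Fin D → ℝ) (n : ℕ) : ℝ :=
  ∑ j : Fin D, xi j * (n : ℝ) ^ ((j : ℕ) + 1)

/-- The average `N⁻¹ ∑_{n < N} e (ph xi n)`. -/
noncomputable def m {D : ℕ} (N : ℕ) (xi : Fin D → ℝ) : ℂ :=
  (N : ℂ)⁻¹ * ∑ n ∈ range N, e (ph xi n)

/-- The frequency `xi - a / q`. -/
noncomputable def fr {D : ℕ} (xi : Fin D → ℝ) (q : ℕ) (a : Fin D → ℕ) : Fin D → ℝ :=
  fun j => xi j - (a j : ℝ) / (q : ℝ)

/-- The complete sum `q⁻¹ ∑_{n < q} e (a · (n, n ^ 2, ...) / q)`. -/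
noncomputable def G {D : ℕ} (q : ℕ) (a : Fin D → ℕ) : ℂ := m q fun j => (a j : ℝ) / (q : ℝ)

/-- `gcd (q, a_1, ..., a_D) = 1`. -/
def Red {D : ℕ} (q : ℕ) (a : Fin D → ℕ) : Prop := ∀ d : ℕ, d ∣ q → (∀ j, d ∣ a j) → d = 1

/-- The anisotropic size of a frequency at scale `N`, modulo the integers. -/
noncomputable def sz {D : ℕ} (N : ℕ) (be : Fin D → ℝ) : ℝ :=
  ∑ j : Fin D, (N : ℝ) ^ ((j : ℕ) + 1) * dz (be j)

/-- The Fourier transform of the uniform measure on `{0, ..., n - 1}`. -/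
noncomputable def u (n : ℕ) (th : ℝ) : ℂ := (n : ℂ)⁻¹ * ∑ y ∈ range n, e ((y : ℝ) * th)

/-- The Fourier transform of the model kernel at scale `N`. -/
noncomputable def w {D : ℕ} (N : ℕ) (be : Fin D → ℝ) : ℂ :=
  ∏ j : Fin D, u (N ^ ((j : ℕ) + 1)) (be j) ^ (D + 2)

open Classical in
/-- The reduced fractions with denominator `q`, in `[0, 1) ^ D`. -/
noncomputable def redF (D q : ℕ) : Finset (Fin D → ℕ) :=
  (Fintype.piFinset fun _ : Fin D => range q).filter fun a => Red q a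

/-- The level `s` part of the model. -/
noncomputable def Lam {D : ℕ} (s N : ℕ) (xi : Fin D → ℝ) : ℂ :=
  ∑ q ∈ Ico (2 ^ s) (2 ^ (s + 1)), ∑ a ∈ redF D q, G q a * w N (fr xi q a)

/-- The parameter `E`: level `s` is used at scale `N` when `2 ^ (E * s) ≤ N`. -/
def Ex (D : ℕ) : ℕ := 16 * (D + 1)

/-- The levels used at scale `N`. -/
def sr (D N : ℕ) : Finset ℕ := (range (N + 1)).filter fun s => 2 ^ (Ex D * s) ≤ N

/-- The whole model at scale `N`. -/
noncomputable def mdl {D : ℕ} (N : ℕ) (xi : Fin D → ℝ) : ℂ := ∑ s ∈ sr D N, Lam s N xi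

/-- `min x (x ^ (-δ))`. -/
noncomputable def gf (de x : ℝ) : ℝ := min x (x ^ (-de))

/-- The fraction `a / q` is used at scale `N` for the frequency `xi`. -/
def Used {D : ℕ} (N : ℕ) (xi : Fin D → ℝ) (q : ℕ) (a : Fin D → ℕ) : Prop :=
  ∃ s ∈ sr D N, q ∈ Ico (2 ^ s) (2 ^ (s + 1)) ∧ a ∈ redF D q ∧
    sz N (fr xi q a) < (N : ℝ) ^ (1 / 4 : ℝ)

/-- Lacunary sequences. -/
structure Lac (rho : ℝ) (N : ℕ → ℕ) : Prop where
  rho_gt : 1 < rho
  one_le : 1 ≤ N 0
  grow : ∀ k, rho * (N k : ℝ) ≤ (N (k + 1) : ℝ)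

/-- A common denominator of the fractions of level `s`. -/
def Qs (s : ℕ) : ℕ := (2 ^ (s + 1)).factorial

/-- The arithmetic part of the model of level `s` at large scales. -/
noncomputable def Pa {D : ℕ} (s : ℕ) (xi : Fin D → ℝ) : ℂ :=
  ∑ q ∈ Ico (2 ^ s) (2 ^ (s + 1)), ∑ a ∈ redF D q,
    if ∀ j, dz (fr xi q a j) < 1 / (4 * (Qs s : ℝ)) then G q a else 0

/-- The lattice averages at scale `N`: sum of `w` over all translates by the fractions `b / Q`. -/
noncomputable def Bl {D : ℕ} (Q N : ℕ) (xi : Fin D → ℝ) : ℂ :=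
  ∑ b ∈ Fintype.piFinset fun _ : Fin D => range Q, w N (fr xi Q b)

/-! ### Operators on functions on the finite group `(ZMod M) ^ D` -/

/-- The pairing `∑ b_j x_j / M`. -/
noncomputable def pr {D M : ℕ} (b x : Fin D → ZMod M) : ℝ :=
  ∑ j : Fin D, ((b j).val : ℝ) * ((x j).val : ℝ) / (M : ℝ)

/-- The frequency of a character. -/
noncomputable def fq {D M : ℕ} (b : Fin D → ZMod M) : Fin D → ℝ := fun j => ((b j).val : ℝ) / (M : ℝ)

/-- The Fourier multiplier operator with multiplier `mu`. -/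
noncomputable def T {D M : ℕ} [NeZero M] (mu : (Fin D → ℝ) → ℂ) (f : (Fin D → ZMod M) → ℂ)
    (x : Fin D → ZMod M) : ℂ :=
  ((M : ℂ) ^ D)⁻¹ * ∑ b : Fin D → ZMod M, mu (fq b) * (∑ y, f y * e (-pr b y)) * e (pr b x)

/-- The `ℓ²` norm. -/
noncomputable def nrm {A : Type*} [Fintype A] (f : A → ℂ) : ℝ := Real.sqrt (∑ x, ‖f x‖ ^ 2)

/-- The maximal operator of the family of multipliers `mu k` has norm at most `C` on `ℓ²` of every
group `(ZMod M) ^ D` (linearised: `ka` chooses the index at each point). -/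
def MaxBd {D : ℕ} (mu : ℕ → (Fin D → ℝ) → ℂ) (C : ℝ) : Prop :=
  ∀ (M : ℕ) [NeZero M] (f : (Fin D → ZMod M) → ℂ) (ka : (Fin D → ZMod M) → ℕ),
    nrm (fun x => T (mu (ka x)) f x) ≤ C * nrm f

/-- The maximal function of the one dimensional averages along a permutation, up to length
`n0 + 1`. -/
noncomputable def Mx {A : Type*} (tau : Equiv.Perm A) (n0 : ℕ) (g : A → ℝ) (x : A) : ℝ :=
  ⨆ n : Fin (n0 + 1), ((n : ℝ) + 1)⁻¹ * ∑ i ∈ range ((n : ℕ) + 1), g ((tau ^ i) x)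

end Pool.PolyMax
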