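import Pool.Agent.PolyMax.Transfer

set_option autoImplicit false

/-!
# PolyMax: the maximal inequality for polynomial orbits of commuting maps

PROOF.  `gel T P n = ∏_i T_i^{P_i(n)}`.  Put `U_* = ∏_i T_i^{coeff_0 P_i}` and
`U_l = ∏_i T_i^{coeff_{l+1} P_i}`, `l < D` (products over `List.ofFn`, all these permutations commute
and, with their inverses, preserve `mu`).  For `n : ℕ`: `gel T P n = U_* * mon U n` and
`gel T P (-n) = U_* * mon U' n` with `U'_l = U_l^{(-1)^{l+1}}` (`P_i(n) = ∑_{l ≤ D} coeff_l n^l`).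
`one_sided`: the supremum at `x` is that of `all_N` for `U` at `U_* x`; `U_*` preserves `mu`.
`maximal`: `∑_{|n| ≤ N} v (g(n) x) ≤ ∑_{n < N + 1} v (g(n) x) + ∑_{n < N + 1} v (g(-n) x)`, and
`(2 N + 1)⁻¹ ≤ (N + 1)⁻¹`, so the supremum is at most the sum of two suprema of `one_sided`;
`(a + b)² ≤ 4 (a² + b²)`.
-/

open Finset MeasureTheory
open scoped ENNReal NNReal

namespace Pool.PolyMax

universe u

/-- `T_1^{P_1(n)} ... T_d^{P_d(n)}`. -/
noncomputable def gel {X : Type u} {d : ℕ} (T : Fin d → Equiv.Perm X) (P : Fin d → Polynomial ℤ)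
    (n : ℤ) : Equiv.Perm X :=
  (List.ofFn fun i : Fin d => T i ^ (P i).eval n).prod

/-- Commuting permutations come from a commutative group. -/
lemma exists_commGroup {X : Type u} {d : ℕ} (T : Fin d → Equiv.Perm X)
    (hT : ∀ i j, Commute (T i) (T j)) :
    ∃ (H : Type u) (_ : CommGroup H) (t : Fin d → H) (φ : H →* Equiv.Perm X),
      ∀ i, φ (t i) = T i := by
  have hcomm : ∀ x ∈ Set.range T, ∀ y ∈ Set.range T, x * y = y * x := by
    rintro _ ⟨i, rfl⟩ _ ⟨j, rfl⟩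
    exact hT i j
  let _ : CommGroup (Subgroup.closure (Set.range T)) :=
    { (inferInstance : Group (Subgroup.closure (Set.range T))) with
      mul_comm := (Subgroup.isMulCommutative_closure hcomm).is_comm.comm }
  exact ⟨Subgroup.closure (Set.range T), inferInstance,
    fun i => ⟨T i, Subgroup.subset_closure ⟨i, rfl⟩⟩, (Subgroup.closure (Set.range T)).subtype,
    fun i => rfl⟩

/-- The permutations preserving `mu` together with their inverses. -/
def mpS {X : Type u} [MeasurableSpace X] (mu : Measure X) : Subgroup (Equiv.Perm X) where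
  carrier := {g | MeasurePreserving g mu mu ∧ MeasurePreserving g.symm mu mu}
  mul_mem' := fun {_ _} ha hb => ⟨ha.1.comp hb.1, hb.2.comp ha.2⟩
  one_mem' := ⟨MeasurePreserving.id mu, MeasurePreserving.id mu⟩
  inv_mem' := fun {_} ha => ⟨ha.2, ha.1⟩

lemma zpow_sum' {H : Type u} [CommGroup H] (a : H) {ι : Type} (s : Finset ι) (f : ι → ℤ) :
    a ^ (∑ i ∈ s, f i) = ∏ i ∈ s, a ^ f i := by
  classical
  induction s using Finset.induction_on with
  | empty => simp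
  | insert i s hi ih => rw [Finset.sum_insert hi, Finset.prod_insert hi, zpow_add, ih]

/-- The coefficient permutations. -/
noncomputable def cperm {X : Type u} {d : ℕ} (T : Fin d → Equiv.Perm X)
    (P : Fin d → Polynomial ℤ) (l : ℕ) : Equiv.Perm X :=
  (List.ofFn fun i : Fin d => T i ^ (P i).coeff l).prod

lemma cperm_commute {X : Type u} {d : ℕ} (T : Fin d → Equiv.Perm X)
    (hT : ∀ i j, Commute (T i) (T j)) (P : Fin d → Polynomial ℤ) (l k : ℕ) :
    Commute (cperm T P l) (cperm T P k) := by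
  obtain ⟨H, _, t, φ, ht⟩ := exists_commGroup T hT
  have h : ∀ l, cperm T P l = φ (∏ i, t i ^ (P i).coeff l) := by
    intro l
    unfold cperm
    rw [← List.prod_ofFn, map_list_prod, List.map_ofFn]
    congr 2
    ext i
    simp [ht]
  rw [h, h]
  unfold Commute SemiconjBy
  rw [← map_mul, ← map_mul, mul_comm]

lemma gel_eq {X : Type u} {d : ℕ} (T : Fin d → Equiv.Perm X)
    (hT : ∀ i j, Commute (T i) (T j)) (P : Fin d → Polynomial ℤ) (D : ℕ)
    (hP : ∀ i, (P i).natDegree ≤ D) (n : ℕ) :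
    gel T P (n : ℤ) = cperm T P 0 * mon (fun l : Fin D => cperm T P ((l : ℕ) + 1)) n := by
  obtain ⟨H, _, t, φ, ht⟩ := exists_commGroup T hT
  have h : ∀ l, cperm T P l = φ (∏ i, t i ^ (P i).coeff l) := by
    intro l
    unfold cperm
    rw [← List.prod_ofFn, map_list_prod, List.map_ofFn]
    congr 2
    ext i
    simp [ht]
  have hg : gel T P (n : ℤ) = φ (∏ i, t i ^ (P i).eval (n : ℤ)) := by
    unfold gel
    rw [← List.prod_ofFn, map_list_prod, List.map_ofFn]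
    congr 2
    ext i
    simp [ht]
  have hm : mon (fun l : Fin D => cperm T P ((l : ℕ) + 1)) n =
      φ (∏ l : Fin D, (∏ i, t i ^ (P i).coeff ((l : ℕ) + 1)) ^ (n ^ ((l : ℕ) + 1))) := by
    unfold mon
    rw [← List.prod_ofFn, map_list_prod, List.map_ofFn]
    congr 2
    funext l
    rw [Function.comp_apply, map_pow, ← h]
  rw [hg, hm, h, ← map_mul]
  congr 1
  have e1 : ∀ i, t i ^ (P i).eval (n : ℤ) =
      t i ^ (P i).coeff 0 * ∏ l : Fin D, (t i ^ (P i).coeff ((l : ℕ) + 1)) ^ (n ^ ((l : ℕ) + 1)) := by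
    intro i
    rw [Polynomial.eval_eq_sum_range' (Nat.lt_succ_of_le (hP i)), zpow_sum',
      Finset.prod_range_succ', mul_comm, pow_zero, mul_one, Finset.prod_range]
    congr 1
    apply Finset.prod_congr rfl
    intro l _
    rw [zpow_mul]
    have : ((n : ℤ) ^ ((l : ℕ) + 1)) = ((n ^ ((l : ℕ) + 1) : ℕ) : ℤ) := by push_cast; rfl
    rw [this, zpow_natCast]
  rw [Finset.prod_congr rfl fun i _ => e1 i, Finset.prod_mul_distrib, Finset.prod_comm]
  congr 1
  apply Finset.prod_congr rfl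
  intro l _
  rw [Finset.prod_pow]

lemma cperm_mem {X : Type u} [MeasurableSpace X] (mu : Measure X) {d : ℕ}
    (T : Fin d → Equiv.Perm X) (hT : ∀ i, T i ∈ mpS mu) (P : Fin d → Polynomial ℤ) (l : ℕ) :
    cperm T P l ∈ mpS mu := by
  apply Subgroup.list_prod_mem
  intro x hx
  rw [List.mem_ofFn] at hx
  obtain ⟨i, rfl⟩ := hx
  exact Subgroup.zpow_mem _ (hT i) _

lemma gel_mem {X : Type u} [MeasurableSpace X] (mu : Measure X) {d : ℕ}
    (T : Fin d → Equiv.Perm X) (hT : ∀ i, T i ∈ mpS mu) (P : Fin d → Polynomial ℤ) (n : ℤ) :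
    gel T P n ∈ mpS mu := by
  apply Subgroup.list_prod_mem
  intro x hx
  rw [List.mem_ofFn] at hx
  obtain ⟨i, rfl⟩ := hx
  exact Subgroup.zpow_mem _ (hT i) _

theorem one_sided (D : ℕ) : ∃ C : ℝ≥0,
    ∀ {X : Type u} [MeasurableSpace X] (mu : Measure X) (d : ℕ) (T : Fin d → Equiv.Perm X),
      (∀ i, MeasurePreserving (T i) mu mu) → (∀ i, MeasurePreserving (T i).symm mu mu) →
      (∀ i j, Commute (T i) (T j)) →
      ∀ (P : Fin d → Polynomial ℤ), (∀ i, (P i).natDegree ≤ D) →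
      ∀ v : X → ℝ≥0∞, Measurable v →
        ∫⁻ x, (⨆ N : ℕ, ((N + 1 : ℕ) : ℝ≥0∞)⁻¹ *
          ∑ n ∈ range (N + 1), v (gel T P (n : ℤ) x)) ^ 2 ∂mu ≤ C * ∫⁻ x, v x ^ 2 ∂mu := by
  obtain ⟨C, hC⟩ := all_N.{u} D
  refine ⟨C, ?_⟩
  intro X _ mu d T h1 h2 hcomm P hP v hv
  have hT : ∀ i, T i ∈ mpS mu := fun i => ⟨h1 i, h2 i⟩
  have hstar := cperm_mem mu T hT P 0
  have h := hC mu (fun l : Fin D => cperm T P ((l : ℕ) + 1)) (fun l => (cperm_mem mu T hT P _).1)
    (fun l k => cperm_commute T hcomm P _ _) (fun x => v (cperm T P 0 x)) (hv.comp hstar.1.measurable)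
  have e : ∀ (n : ℕ) (x : X), v (gel T P (n : ℤ) x) =
      v (cperm T P 0 (mon (fun l : Fin D => cperm T P ((l : ℕ) + 1)) n x)) := by
    intro n x
    rw [gel_eq T hcomm P D hP n]
    rfl
  simp only [e]
  refine h.trans (le_of_eq ?_)
  congr 1
  exact hstar.1.lintegral_comp (f := fun x => v x ^ 2) (hv.pow_const 2)

lemma sq_add_le (a b : ℝ≥0∞) : (a + b) ^ 2 ≤ 4 * (a ^ 2 + b ^ 2) := by
  have h : a + b ≤ 2 * max a b := by
    rw [two_mul]
    exact add_le_add (le_max_left _ _) (le_max_right _ _)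
  calc (a + b) ^ 2 ≤ (2 * max a b) ^ 2 := pow_le_pow_left' h 2
    _ = 4 * max a b ^ 2 := by rw [mul_pow]; norm_num
    _ ≤ 4 * (a ^ 2 + b ^ 2) := by
        gcongr
        rcases le_total a b with hab | hab
        · rw [max_eq_right hab]; exact le_add_self
        · rw [max_eq_left hab]; exact le_self_add

theorem maximal (D : ℕ) : ∃ C : ℝ≥0,
    ∀ {X : Type u} [MeasurableSpace X] (mu : Measure X) (d : ℕ) (T : Fin d → Equiv.Perm X),
      (∀ i, MeasurePreserving (T i) mu mu) → (∀ i, MeasurePreserving (T i).symm mu mu) →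
      (∀ i j, Commute (T i) (T j)) →
      ∀ (P : Fin d → Polynomial ℤ), (∀ i, (P i).natDegree ≤ D) →
      ∀ v : X → ℝ≥0∞, Measurable v →
        ∫⁻ x, (⨆ N : ℕ, ((2 * N + 1 : ℕ) : ℝ≥0∞)⁻¹ *
          ∑ n ∈ Icc (-(N : ℤ)) (N : ℤ), v (gel T P n x)) ^ 2 ∂mu ≤ C * ∫⁻ x, v x ^ 2 ∂mu := by
  obtain ⟨C, hC⟩ := one_sided.{u} D
  refine ⟨4 * (C + C), ?_⟩
  intro X _ mu d T h1 h2 hcomm P hP v hv
  have hT : ∀ i, T i ∈ mpS mu := fun i => ⟨h1 i, h2 i⟩
  set P' : Fin d → Polynomial ℤ := fun i => (P i).comp (-Polynomial.X) with hP'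
  have hP'd : ∀ i, (P' i).natDegree ≤ D := by
    intro i
    refine (Polynomial.natDegree_comp_le).trans ?_
    rw [Polynomial.natDegree_neg, Polynomial.natDegree_X, mul_one]
    exact hP i
  have hgel' : ∀ n : ℤ, gel T P' n = gel T P (-n) := by
    intro n
    unfold gel
    congr 2
    funext i
    rw [hP']
    simp only [Polynomial.eval_comp, Polynomial.eval_neg, Polynomial.eval_X]
  have a1 := hC mu d T h1 h2 hcomm P hP v hv
  have a2 := hC mu d T h1 h2 hcomm P' hP'd v hv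
  set s1 : X → ℝ≥0∞ := fun x => ⨆ N : ℕ, ((N + 1 : ℕ) : ℝ≥0∞)⁻¹ *
          ∑ n ∈ range (N + 1), v (gel T P (n : ℤ) x) with hs1
  set s2 : X → ℝ≥0∞ := fun x => ⨆ N : ℕ, ((N + 1 : ℕ) : ℝ≥0∞)⁻¹ *
          ∑ n ∈ range (N + 1), v (gel T P' (n : ℤ) x) with hs2
  have hs1m : Measurable s1 := by
    apply Measurable.iSup
    intro N
    apply Measurable.const_mul
    apply Finset.measurable_fun_sum
    intro n _
    exact hv.comp (gel_mem mu T hT P n).1.measurable
  have hsum : ∀ (N : ℕ) (F : ℤ → ℝ≥0∞), ∑ n ∈ Icc (-(N : ℤ)) (N : ℤ), F n ≤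
      ∑ n ∈ range (N + 1), F (n : ℤ) + ∑ n ∈ range (N + 1), F (-(n : ℤ)) := by
    intro N F
    have hsub : Icc (-(N : ℤ)) (N : ℤ) ⊆
        ((range (N + 1)).image fun n : ℕ => (n : ℤ)) ∪
          ((range (N + 1)).image fun n : ℕ => -(n : ℤ)) := by
      intro z hz
      rw [Finset.mem_Icc] at hz
      rw [Finset.mem_union, Finset.mem_image, Finset.mem_image]
      rcases le_total 0 z with h | h
      · left
        refine ⟨z.toNat, ?_, ?_⟩
        · rw [Finset.mem_range]; omega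
        · exact Int.toNat_of_nonneg h
      · right
        refine ⟨(-z).toNat, ?_, ?_⟩
        · rw [Finset.mem_range]; omega
        · rw [Int.toNat_of_nonneg (by omega)]; ring
    calc ∑ n ∈ Icc (-(N : ℤ)) (N : ℤ), F n ≤ ∑ n ∈ ((range (N + 1)).image fun n : ℕ => (n : ℤ)) ∪
          ((range (N + 1)).image fun n : ℕ => -(n : ℤ)), F n :=
          Finset.sum_le_sum_of_subset hsub
      _ ≤ ∑ n ∈ ((range (N + 1)).image fun n : ℕ => (n : ℤ)), F n +
          ∑ n ∈ ((range (N + 1)).image fun n : ℕ => -(n : ℤ)), F n := by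
          rw [← Finset.sum_union_inter]
          exact le_self_add
      _ = _ := by
          rw [Finset.sum_image (fun a _ b _ h => by simpa using h),
            Finset.sum_image (fun a _ b _ h => by simpa using h)]
  have hpt : ∀ x, (⨆ N : ℕ, ((2 * N + 1 : ℕ) : ℝ≥0∞)⁻¹ *
          ∑ n ∈ Icc (-(N : ℤ)) (N : ℤ), v (gel T P n x)) ≤ s1 x + s2 x := by
    intro x
    apply iSup_le
    intro N
    have hinv : ((2 * N + 1 : ℕ) : ℝ≥0∞)⁻¹ ≤ ((N + 1 : ℕ) : ℝ≥0∞)⁻¹ := by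
      rw [ENNReal.inv_le_inv]
      exact_mod_cast (by omega : N + 1 ≤ 2 * N + 1)
    calc ((2 * N + 1 : ℕ) : ℝ≥0∞)⁻¹ * ∑ n ∈ Icc (-(N : ℤ)) (N : ℤ), v (gel T P n x)
        ≤ ((N + 1 : ℕ) : ℝ≥0∞)⁻¹ * (∑ n ∈ range (N + 1), v (gel T P (n : ℤ) x) +
          ∑ n ∈ range (N + 1), v (gel T P (-(n : ℤ)) x)) :=
          mul_le_mul' hinv (hsum N fun n => v (gel T P n x))
      _ = ((N + 1 : ℕ) : ℝ≥0∞)⁻¹ * ∑ n ∈ range (N + 1), v (gel T P (n : ℤ) x) +
          ((N + 1 : ℕ) : ℝ≥0∞)⁻¹ * ∑ n ∈ range (N + 1), v (gel T P' (n : ℤ) x) := by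
          rw [mul_add]
          simp only [hgel']
      _ ≤ s1 x + s2 x := by
          apply add_le_add
          · exact le_iSup (fun N : ℕ => ((N + 1 : ℕ) : ℝ≥0∞)⁻¹ *
              ∑ n ∈ range (N + 1), v (gel T P (n : ℤ) x)) N
          · exact le_iSup (fun N : ℕ => ((N + 1 : ℕ) : ℝ≥0∞)⁻¹ *
              ∑ n ∈ range (N + 1), v (gel T P' (n : ℤ) x)) N
  calc ∫⁻ x, (⨆ N : ℕ, ((2 * N + 1 : ℕ) : ℝ≥0∞)⁻¹ *
          ∑ n ∈ Icc (-(N : ℤ)) (N : ℤ), v (gel T P n x)) ^ 2 ∂mu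
      ≤ ∫⁻ x, 4 * (s1 x ^ 2 + s2 x ^ 2) ∂mu := by
        apply lintegral_mono
        intro x
        exact (pow_le_pow_left' (hpt x) 2).trans (sq_add_le _ _)
    _ = 4 * (∫⁻ x, s1 x ^ 2 ∂mu + ∫⁻ x, s2 x ^ 2 ∂mu) := by
        rw [lintegral_const_mul' _ _ (by norm_num), lintegral_add_left (hs1m.pow_const 2)]
    _ ≤ 4 * (C * ∫⁻ x, v x ^ 2 ∂mu + C * ∫⁻ x, v x ^ 2 ∂mu) := by
        gcongr
    _ = ((4 * (C + C) : ℝ≥0) : ℝ≥0∞) * ∫⁻ x, v x ^ 2 ∂mu := by
        push_cast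
        ring

end Pool.PolyMax
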