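import Pool.Agent.Lib.ErgodicAverages2

set_option autoImplicit false

/-!
# PolyMax: closure principle with maximal inequalities

`MaxL2 tau mu`: the averages of nonnegative functions along the maps `tau n` satisfy the `L²` maximal
inequality.

PROOF of `multi_closureW` (compare `Pool.Lib.Erg.multi_closure2`, whose proof has the same structure).
All products are bounded: for a.e. `x` all `f j (tau j n x)` are bounded by `‖f j‖_∞` (`hτ`, countably
many `n`).  Induct over the set of slots in which the function is general: replace one slot `a` at a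
time.  Let `w n x = ∏_{j ≠ a} f j (tau j n x)`, `|w n x| ≤ W` for a.e. `x` and all `n`, and suppose
that for every `phi ∈ D` in the slot `a` the averages of `w n x * phi (tau a n x)` converge a.e.
For `r > 0` and `ε > 0` choose `phi ∈ D` with `∫ ‖f a - phi‖²` small.  With a measurable nonnegative
version `v` of `‖f a - phi‖` (in `ENNReal`), `MaxL2 (tau a)` and Chebyshev the set of `x` with
`sup_N avg_{n < N+1} v (tau a n x) ≥ r / (4 W)` has measure at most `ε`; outside this set the averages
of `w n x * f a (tau a n x)` and of `w n x * phi (tau a n x)` differ by at most `r / 4` for all `N`.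
Since the latter converge, the former are `r`-Cauchy (`exists_lim_of_cauchyAt`, `cauchyAt_of_lim` in
`Pool.Agent.Lib.MaximalErgodic`).
-/

open Finset MeasureTheory Filter Topology
open scoped ENNReal NNReal

namespace Pool.PolyMax

/-- The `L²` maximal inequality for the averages along the maps `tau n`. -/
def MaxL2 {X : Type*} [MeasurableSpace X] (tau : ℕ → X → X) (mu : Measure X) : Prop :=
  ∃ C : ℝ≥0, ∀ v : X → ℝ≥0∞, Measurable v →
    ∫⁻ x, (⨆ N : ℕ, ((N + 1 : ℕ) : ℝ≥0∞)⁻¹ * ∑ n ∈ range (N + 1), v (tau n x)) ^ 2 ∂mu ≤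
      C * ∫⁻ x, v x ^ 2 ∂mu

open Pool.Lib.Erg in
theorem closure_max {X : Type*} [MeasurableSpace X] {mu : Measure X} [IsFiniteMeasure mu]
    (tau : ℕ → X → X) (htau : ∀ n, MeasurePreserving (tau n) mu mu) (hmax : MaxL2 tau mu)
    (w : ℕ → X → ℂ) (C : ℝ) (hw : ∀ᵐ x ∂mu, ∀ n, ‖w n x‖ ≤ C) (f : X → ℂ) (hf : MemLp f ∞ mu)
    (happ : ∀ ε : ℝ, 0 < ε → ∃ φ : X → ℂ, MemLp φ ∞ mu ∧ ∫ x, ‖f x - φ x‖ ^ 2 ∂mu ≤ ε ∧
      ∀ᵐ x ∂mu, ∃ L, Tendsto (avg fun n => w n x * φ (tau n x)) atTop (𝓝 L)) :
    ∀ᵐ x ∂mu, ∃ L, Tendsto (avg fun n => w n x * f (tau n x)) atTop (𝓝 L) := by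
  obtain ⟨K, hK⟩ := hmax
  set C' : ℝ := |C| + 1 with hC'
  have hC'0 : 0 < C' := by positivity
  have hw' : ∀ᵐ x ∂mu, ∀ n, ‖w n x‖ ≤ C' := by
    filter_upwards [hw] with x hx n
    have := hx n
    have := le_abs_self C
    linarith
  have key : ∀ r : ℝ, 0 < r →
      ∀ᵐ x ∂mu, CauchyAt (avg fun n => w n x * f (tau n x)) r := by
    intro r hr
    rw [ae_iff]
    have hle : ∀ ε : ℝ, 0 < ε →
        mu {x | ¬ CauchyAt (avg fun n => w n x * f (tau n x)) r} ≤ ENNReal.ofReal ε := by
      intro ε hε
      set l : ℝ := r / (4 * C') with hl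
      have hl0 : 0 < l := by positivity
      obtain ⟨φ, hφi, hφ, hφc⟩ := happ (ε * l ^ 2 / ((K : ℝ) + 1)) (by positivity)
      -- a measurable version of the norm of the difference
      have hd : MemLp (fun x => f x - φ x) ∞ mu := hf.sub hφi
      have hae : AEMeasurable (fun x => ENNReal.ofReal ‖f x - φ x‖) mu :=
        (hd.aestronglyMeasurable.norm.aemeasurable).ennreal_ofReal
      set v : X → ℝ≥0∞ := hae.mk _ with hv
      have hvm : Measurable v := hae.measurable_mk
      have hveq : ∀ᵐ x ∂mu, v x = ENNReal.ofReal ‖f x - φ x‖ := by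
        filter_upwards [hae.ae_eq_mk] with x hx
        rw [hv, ← hx]
      have hvall : ∀ᵐ x ∂mu, ∀ n, v (tau n x) = ENNReal.ofReal ‖f (tau n x) - φ (tau n x)‖ := by
        rw [ae_all_iff]
        intro n
        exact (htau n).quasiMeasurePreserving.ae hveq
      set g : X → ℝ≥0∞ := fun x => ⨆ N : ℕ, ((N + 1 : ℕ) : ℝ≥0∞)⁻¹ *
        ∑ n ∈ range (N + 1), v (tau n x) with hg
      have hgm : Measurable g := by
        apply Measurable.iSup
        intro N
        apply Measurable.const_mul
        apply Finset.measurable_fun_sum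
        intro n _
        exact hvm.comp (htau n).measurable
      have hint : ∫⁻ x, g x ^ 2 ∂mu ≤ ENNReal.ofReal (ε * l ^ 2) := by
        have h1 := hK v hvm
        have h2 : ∫⁻ x, v x ^ 2 ∂mu = ENNReal.ofReal (∫ x, ‖f x - φ x‖ ^ 2 ∂mu) := by
          have hb : ∀ᵐ x ∂mu, ‖f x - φ x‖ ≤ (eLpNorm (fun x => f x - φ x) ∞ mu).toReal := by
            have h2 := ae_le_eLpNormEssSup (f := fun x => f x - φ x) (μ := mu)
            filter_upwards [h2] with x hx
            rw [← eLpNorm_exponent_top] at hx
            have := ENNReal.toReal_mono hd.eLpNorm_ne_top hx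
            simpa using this
          rw [ofReal_integral_eq_lintegral_ofReal]
          · apply lintegral_congr_ae
            filter_upwards [hveq] with x hx
            rw [hx, ENNReal.ofReal_pow (norm_nonneg _)]
          · apply Integrable.of_bound (hd.aestronglyMeasurable.norm.pow 2)
              ((eLpNorm (fun x => f x - φ x) ∞ mu).toReal ^ 2)
            filter_upwards [hb] with x hx
            have hsq : ‖((fun x => ‖f x - φ x‖) ^ 2) x‖ = ‖f x - φ x‖ ^ 2 := by
              rw [Pi.pow_apply, norm_pow, norm_norm]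
            rw [hsq]
            exact pow_le_pow_left₀ (norm_nonneg _) hx 2
          · exact Eventually.of_forall fun x => sq_nonneg _
        calc ∫⁻ x, g x ^ 2 ∂mu ≤ K * ∫⁻ x, v x ^ 2 ∂mu := h1
          _ = ENNReal.ofReal ((K : ℝ) * ∫ x, ‖f x - φ x‖ ^ 2 ∂mu) := by
              rw [h2, ENNReal.ofReal_mul K.coe_nonneg, ENNReal.ofReal_coe_nnreal]
          _ ≤ ENNReal.ofReal (ε * l ^ 2) := by
              apply ENNReal.ofReal_le_ofReal
              have hK0 : (0 : ℝ) ≤ K := K.coe_nonneg
              calc (K : ℝ) * ∫ x, ‖f x - φ x‖ ^ 2 ∂mu ≤ K * (ε * l ^ 2 / ((K : ℝ) + 1)) :=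
                    mul_le_mul_of_nonneg_left hφ hK0
                _ = (ε * l ^ 2) * (K / ((K : ℝ) + 1)) := by ring
                _ ≤ (ε * l ^ 2) * 1 := by
                    apply mul_le_mul_of_nonneg_left _ (by positivity)
                    rw [div_le_one (by positivity)]
                    linarith
                _ = ε * l ^ 2 := mul_one _
      set B : Set X := {x | ENNReal.ofReal l ^ 2 ≤ g x ^ 2} with hB
      have hBm : mu B ≤ ENNReal.ofReal ε := by
        have h1 := mul_meas_ge_le_lintegral (μ := mu) (hgm.pow_const 2) (ENNReal.ofReal l ^ 2)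
        have h2 := h1.trans hint
        rw [ENNReal.ofReal_mul hε.le, ENNReal.ofReal_pow hl0.le, mul_comm] at h2
        have h3 : ENNReal.ofReal l ^ 2 ≠ 0 := by
          rw [← ENNReal.ofReal_pow hl0.le]
          exact (ENNReal.ofReal_pos.2 (by positivity)).ne'
        have h4 : ENNReal.ofReal l ^ 2 ≠ ⊤ := ENNReal.pow_ne_top ENNReal.ofReal_ne_top
        exact (ENNReal.mul_le_mul_iff_left h3 h4).1 h2
      set Z : Set X := {x | ¬ ((∀ n, ‖w n x‖ ≤ C') ∧
        (∀ n, v (tau n x) = ENNReal.ofReal ‖f (tau n x) - φ (tau n x)‖) ∧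
        ∃ L, Tendsto (avg fun n => w n x * φ (tau n x)) atTop (𝓝 L))} with hZ
      have hZ0 : mu Z = 0 := by
        rw [hZ, ← ae_iff]
        filter_upwards [hw', hvall, hφc] with x h1 h2 h3 using ⟨h1, h2, h3⟩
      have hsub : {x | ¬ CauchyAt (avg fun n => w n x * f (tau n x)) r} ⊆ Z ∪ B := by
        intro x hx
        by_contra hcon
        rw [Set.mem_union, not_or] at hcon
        obtain ⟨hxZ, hxB⟩ := hcon
        rw [hZ, Set.mem_setOf_eq, not_not] at hxZ
        obtain ⟨hwx, hvx, L, hL⟩ := hxZ
        rw [hB, Set.mem_setOf_eq] at hxB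
        have hgx : g x < ENNReal.ofReal l := by
          by_contra hcon
          push Not at hcon
          exact hxB (pow_le_pow_left' hcon 2)
        apply hx
        obtain ⟨N0, hN0⟩ := cauchyAt_of_lim _ L hL (r / 2) (by positivity)
        have hdiff : ∀ N : ℕ, ‖avg (fun n => w n x * f (tau n x)) N -
            avg (fun n => w n x * φ (tau n x)) N‖ ≤ r / 4 := by
          intro N
          rw [← avg_sub]
          refine (avg_norm_le _ _).trans ?_
          rcases Nat.eq_zero_or_pos N with h0 | hpos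
          · subst h0; simp; positivity
          · have hN : (0 : ℝ) < N := by exact_mod_cast hpos
            obtain ⟨N', rfl⟩ : ∃ N', N = N' + 1 := ⟨N - 1, by omega⟩
            have hsumle : ∑ n ∈ range (N' + 1), ‖f (tau n x) - φ (tau n x)‖ ≤
                l * ((N' + 1 : ℕ) : ℝ) := by
              have h5 : ((N' + 1 : ℕ) : ℝ≥0∞)⁻¹ * ∑ n ∈ range (N' + 1), v (tau n x) ≤
                  ENNReal.ofReal l :=
                (le_iSup (fun N : ℕ => ((N + 1 : ℕ) : ℝ≥0∞)⁻¹ *
                  ∑ n ∈ range (N + 1), v (tau n x)) N').trans hgx.le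
              have h6 : ∑ n ∈ range (N' + 1), v (tau n x) =
                  ENNReal.ofReal (∑ n ∈ range (N' + 1), ‖f (tau n x) - φ (tau n x)‖) := by
                rw [ENNReal.ofReal_sum_of_nonneg fun n _ => norm_nonneg _]
                exact Finset.sum_congr rfl fun n _ => hvx n
              rw [h6] at h5
              have h7 : ((N' + 1 : ℕ) : ℝ≥0∞) = ENNReal.ofReal ((N' + 1 : ℕ) : ℝ) :=
                (ENNReal.ofReal_natCast _).symm
              rw [h7, ← ENNReal.ofReal_inv_of_pos hN,
                ← ENNReal.ofReal_mul (by positivity)] at h5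
              have h8 := (ENNReal.ofReal_le_ofReal_iff hl0.le).1 h5
              rw [inv_mul_le_iff₀ hN] at h8
              linarith
            have h1 : ∑ n ∈ range (N' + 1), ‖w n x * f (tau n x) - w n x * φ (tau n x)‖ ≤
                C' * (l * ((N' + 1 : ℕ) : ℝ)) := by
              calc _ ≤ ∑ n ∈ range (N' + 1), C' * ‖f (tau n x) - φ (tau n x)‖ := by
                    apply Finset.sum_le_sum
                    intro n _
                    rw [← mul_sub, norm_mul]
                    exact mul_le_mul_of_nonneg_right (hwx n) (norm_nonneg _)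
                _ = C' * ∑ n ∈ range (N' + 1), ‖f (tau n x) - φ (tau n x)‖ := by
                    rw [Finset.mul_sum]
                _ ≤ C' * (l * ((N' + 1 : ℕ) : ℝ)) := mul_le_mul_of_nonneg_left hsumle hC'0.le
            calc _ ≤ (((N' + 1 : ℕ) : ℝ))⁻¹ * (C' * (l * ((N' + 1 : ℕ) : ℝ))) :=
                  mul_le_mul_of_nonneg_left h1 (by positivity)
              _ = r / 4 := by rw [hl]; field_simp
        refine ⟨N0, fun m hm n hn => ?_⟩
        have e1 := hdiff m
        have e2 := hdiff n
        have e3 := hN0 m hm n hn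
        calc ‖avg (fun n => w n x * f (tau n x)) m - avg (fun n => w n x * f (tau n x)) n‖ =
            ‖(avg (fun n => w n x * f (tau n x)) m - avg (fun n => w n x * φ (tau n x)) m) -
              (avg (fun n => w n x * f (tau n x)) n - avg (fun n => w n x * φ (tau n x)) n) +
              (avg (fun n => w n x * φ (tau n x)) m -
                avg (fun n => w n x * φ (tau n x)) n)‖ := by congr 1; ring
          _ ≤ (r / 4 + r / 4) + r / 2 := by
              refine (norm_add_le _ _).trans (add_le_add ?_ e3)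
              exact (norm_sub_le _ _).trans (add_le_add e1 e2)
          _ = r := by ring
      calc mu {x | ¬ CauchyAt (avg fun n => w n x * f (tau n x)) r} ≤ mu (Z ∪ B) :=
            measure_mono hsub
        _ ≤ mu Z + mu B := measure_union_le _ _
        _ ≤ ENNReal.ofReal ε := by
            rw [hZ0, zero_add]
            exact hBm
    refine le_antisymm ?_ bot_le
    apply le_of_forall_pos_le_add
    intro ε hε
    rw [zero_add]
    by_cases htop : ε = ⊤
    · rw [htop]; exact le_top
    · have := hle ε.toReal (ENNReal.toReal_pos hε.ne' htop)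
      rwa [ENNReal.ofReal_toReal htop] at this
  have hall : ∀ᵐ x ∂mu, ∀ j : ℕ, CauchyAt (avg fun n => w n x * f (tau n x)) (1 / (j + 1)) := by
    rw [ae_all_iff]
    intro j
    exact key _ (by positivity)
  filter_upwards [hall] with x hx
  exact exists_lim_of_cauchyAt _ hx

theorem multi_closureW {X : Type*} [MeasurableSpace X] {mu : Measure X} [IsFiniteMeasure mu]
    {m : ℕ} (tau : Fin m → ℕ → X → X) (htau : ∀ j n, MeasurePreserving (tau j n) mu mu)
    (hmax : ∀ j, MaxL2 (tau j) mu) (D : Set (X → ℂ)) (hD : ∀ phi ∈ D, MemLp phi ∞ mu)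
    (hdense : ∀ f : X → ℂ, MemLp f ∞ mu → ∀ ep : ℝ, 0 < ep →
      ∃ phi ∈ D, ∫ x, ‖f x - phi x‖ ^ 2 ∂mu ≤ ep)
    (hconv : ∀ phi : Fin m → X → ℂ, (∀ j, phi j ∈ D) →
      ∀ᵐ x ∂mu, ∃ L, Tendsto (Pool.Lib.Erg.avg fun n => ∏ j, phi j (tau j n x)) atTop (𝓝 L))
    (f : Fin m → X → ℂ) (hf : ∀ j, MemLp (f j) ∞ mu) :
    ∀ᵐ x ∂mu, ∃ L, Tendsto (Pool.Lib.Erg.avg fun n => ∏ j, f j (tau j n x)) atTop (𝓝 L) := by
  classical
  have hbd : ∀ (j : Fin m) (g : X → ℂ), MemLp g ∞ mu →
      ∃ C : ℝ, 0 ≤ C ∧ ∀ᵐ x ∂mu, ∀ n, ‖g (tau j n x)‖ ≤ C := by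
    intro j g hg
    refine ⟨(eLpNorm g ∞ mu).toReal, ENNReal.toReal_nonneg, ?_⟩
    rw [ae_all_iff]
    intro n
    have h1 : ∀ᵐ x ∂mu, ‖g x‖ ≤ (eLpNorm g ∞ mu).toReal := by
      have h2 := ae_le_eLpNormEssSup (f := g) (μ := mu)
      filter_upwards [h2] with x hx
      rw [← eLpNorm_exponent_top] at hx
      have := ENNReal.toReal_mono hg.eLpNorm_ne_top hx
      simpa using this
    exact (htau j n).quasiMeasurePreserving.ae h1
  have key : ∀ s : Finset (Fin m), ∀ f : Fin m → X → ℂ,
      (∀ j ∈ s, MemLp (f j) ∞ mu) → (∀ j ∉ s, f j ∈ D) →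
      ∀ᵐ x ∂mu, ∃ L, Tendsto (Pool.Lib.Erg.avg fun n => ∏ j, f j (tau j n x)) atTop (𝓝 L) := by
    intro s
    induction s using Finset.induction_on with
    | empty =>
      intro f _ h2
      exact hconv f fun j => h2 j (Finset.notMem_empty j)
    | insert a s ha ih =>
      intro f h1 h2
      set w : ℕ → X → ℂ := fun n x => ∏ j ∈ univ.erase a, f j (tau j n x) with hw
      have hsplit : ∀ (g : X → ℂ) (x : X) (n : ℕ),
          ∏ j, (Function.update f a g) j (tau j n x) = w n x * g (tau a n x) := by
        intro g x n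
        rw [← Finset.mul_prod_erase univ _ (Finset.mem_univ a), Function.update_self, mul_comm]
        congr 1
        apply Finset.prod_congr rfl
        intro j hj
        rw [Function.update_of_ne (Finset.ne_of_mem_erase hj)]
      have hC : ∀ j, ∃ C : ℝ, 0 ≤ C ∧ ∀ᵐ x ∂mu, ∀ n, ‖f j (tau j n x)‖ ≤ C := by
        intro j
        apply hbd
        by_cases hj : j ∈ insert a s
        · exact h1 j hj
        · exact hD _ (h2 j hj)
      choose C hC0 hC using hC
      have hwb : ∀ᵐ x ∂mu, ∀ n, ‖w n x‖ ≤ ∏ j ∈ univ.erase a, C j := by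
        have : ∀ᵐ x ∂mu, ∀ j, ∀ n, ‖f j (tau j n x)‖ ≤ C j := by
          rw [ae_all_iff]
          exact hC
        filter_upwards [this] with x hx n
        rw [hw]
        simp only
        rw [norm_prod]
        exact Finset.prod_le_prod (fun _ _ => norm_nonneg _) fun j _ => hx j n
      have hself : ∀ x n, ∏ j, f j (tau j n x) = w n x * f a (tau a n x) := by
        intro x n
        rw [← hsplit, Function.update_eq_self]
      have hD1 : ∀ φ ∈ D, ∀ᵐ x ∂mu, ∃ L,
          Tendsto (Pool.Lib.Erg.avg fun n => w n x * φ (tau a n x)) atTop (𝓝 L) := by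
        intro φ hφ
        have := ih (Function.update f a φ) (by
          intro j hj
          have hja : j ≠ a := by
            rintro rfl
            exact ha hj
          rw [Function.update_of_ne hja]
          exact h1 j (Finset.mem_insert_of_mem hj)) (by
          intro j hj
          by_cases hja : j = a
          · subst hja; rw [Function.update_self]; exact hφ
          · rw [Function.update_of_ne hja]
            exact h2 j (by rw [Finset.mem_insert, not_or]; exact ⟨hja, hj⟩))
        simp_rw [hsplit] at this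
        exact this
      simp_rw [hself]
      apply closure_max (tau a) (htau a) (hmax a) w _ hwb (f a) (h1 a (Finset.mem_insert_self a s))
      intro ε hε
      obtain ⟨φ, hφ, hφε⟩ := hdense (f a) (h1 a (Finset.mem_insert_self a s)) ε hε
      exact ⟨φ, hD φ hφ, hφε, hD1 φ hφ⟩
  exact key univ f (fun j _ => hf j) (fun j hj => absurd (Finset.mem_univ j) hj)

end Pool.PolyMax
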