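import Pool.Agent.PolyMax.Maximal

set_option autoImplicit false

/-!
# PolyMax: almost everywhere convergence passes to factors
-/

open MeasureTheory Filter Topology Finset
open scoped ENNReal NNReal

namespace Pool.PolyMax

variable {X Y : Type*} [MeasurableSpace X] [MeasurableSpace Y]

/-- The pairs of permutations intertwined by `pr`. -/
def pairS (mu : Measure X) (pr : X → Y) : Subgroup (Equiv.Perm X × Equiv.Perm Y) where
  carrier := {g | g.1 ∈ mpS mu ∧ ∀ᵐ x ∂mu, pr (g.1 x) = g.2 (pr x)}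
  mul_mem' := by
    rintro ⟨t, s⟩ ⟨t', s'⟩ ⟨h1, h2⟩ ⟨h1', h2'⟩
    refine ⟨(mpS mu).mul_mem h1 h1', ?_⟩
    have h3 : ∀ᵐ x ∂mu, pr (t (t' x)) = s (pr (t' x)) := h1'.1.quasiMeasurePreserving.ae h2
    filter_upwards [h3, h2'] with x hx hx'
    show pr (t (t' x)) = s (s' (pr x))
    rw [hx, hx']
  one_mem' := ⟨(mpS mu).one_mem, Eventually.of_forall fun _ => rfl⟩
  inv_mem' := by
    rintro ⟨t, s⟩ ⟨h1, h2⟩
    refine ⟨(mpS mu).inv_mem h1, ?_⟩
    have h3 : ∀ᵐ x ∂mu, pr (t (t.symm x)) = s (pr (t.symm x)) :=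
      h1.2.quasiMeasurePreserving.ae h2
    filter_upwards [h3] with x hx
    show pr (t.symm x) = s.symm (pr x)
    rw [Equiv.apply_symm_apply] at hx
    rw [hx, Equiv.symm_apply_apply]

lemma pair_prod (mu : Measure X) (pr : X → Y) {d : ℕ} (T : Fin d → Equiv.Perm X)
    (S : Fin d → Equiv.Perm Y) (hTS : ∀ i, (T i, S i) ∈ pairS mu pr) (P : Fin d → Polynomial ℤ)
    (n : ℤ) : (gel T P n, gel S P n) ∈ pairS mu pr := by
  have h : (List.ofFn fun i : Fin d => ((T i, S i) : Equiv.Perm X × Equiv.Perm Y) ^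
      (P i).eval n).prod ∈ pairS mu pr := by
    apply Subgroup.list_prod_mem
    intro x hx
    rw [List.mem_ofFn] at hx
    obtain ⟨i, rfl⟩ := hx
    exact Subgroup.zpow_mem _ (hTS i) _
  have e1 := map_list_prod (MonoidHom.fst (Equiv.Perm X) (Equiv.Perm Y))
    (List.ofFn fun i : Fin d => ((T i, S i) : Equiv.Perm X × Equiv.Perm Y) ^ (P i).eval n)
  have e2 := map_list_prod (MonoidHom.snd (Equiv.Perm X) (Equiv.Perm Y))
    (List.ofFn fun i : Fin d => ((T i, S i) : Equiv.Perm X × Equiv.Perm Y) ^ (P i).eval n)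
  rw [List.map_ofFn] at e1 e2
  have e : (List.ofFn fun i : Fin d => ((T i, S i) : Equiv.Perm X × Equiv.Perm Y) ^
      (P i).eval n).prod = (gel T P n, gel S P n) := Prod.ext e1 e2
  rw [← e]
  exact h

/-- Convergence passes to factors. -/
theorem factor_conv (mu : Measure X) (nu : Measure Y) (d m : ℕ) (T : Fin d → Equiv.Perm X)
    (hT : ∀ i, MeasurePreserving (T i) mu mu) (hT' : ∀ i, MeasurePreserving (T i).symm mu mu)
    (S : Fin d → Equiv.Perm Y) (hS : ∀ i, MeasurePreserving (S i) nu nu)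
    (hS' : ∀ i, MeasurePreserving (S i).symm nu nu)
    (pr : X → Y) (hpr : MeasurePreserving pr mu nu)
    (hint : ∀ i, ∀ᵐ x ∂mu, pr (T i x) = S i (pr x))
    (P : Fin d → Fin m → Polynomial ℤ)
    (hX : ∀ g : Fin m → X → ℂ, (∀ j, MemLp (g j) ∞ mu) → ∀ᵐ x ∂mu, ∃ L : ℂ, Tendsto
      (fun N : ℕ => ((2 * N + 1 : ℕ) : ℂ)⁻¹ *
        ∑ n ∈ Finset.Icc (-(N : ℤ)) (N : ℤ), ∏ j : Fin m,
          g j ((List.ofFn fun i : Fin d => T i ^ (P i j).eval n).prod x)) atTop (𝓝 L))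
    (f : Fin m → Y → ℂ) (hf : ∀ j, MemLp (f j) ∞ nu) :
    ∀ᵐ y ∂nu, ∃ L : ℂ, Tendsto
      (fun N : ℕ => ((2 * N + 1 : ℕ) : ℂ)⁻¹ *
        ∑ n ∈ Finset.Icc (-(N : ℤ)) (N : ℤ), ∏ j : Fin m,
          f j ((List.ofFn fun i : Fin d => S i ^ (P i j).eval n).prod y)) atTop (𝓝 L) := by
  have hTm : ∀ i, T i ∈ mpS mu := fun i => ⟨hT i, hT' i⟩
  have hSm : ∀ i, S i ∈ mpS nu := fun i => ⟨hS i, hS' i⟩
  -- measurable versions
  choose f' hf' hff' using fun j => (hf j).aestronglyMeasurable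
  have key : ∀ᵐ y ∂nu, ∃ L : ℂ, Tendsto
      (fun N : ℕ => ((2 * N + 1 : ℕ) : ℂ)⁻¹ *
        ∑ n ∈ Finset.Icc (-(N : ℤ)) (N : ℤ), ∏ j : Fin m,
          f' j (gel S (fun i => P i j) n y)) atTop (𝓝 L) := by
    have hmeas : MeasurableSet {y : Y | ∃ L : ℂ, Tendsto
      (fun N : ℕ => ((2 * N + 1 : ℕ) : ℂ)⁻¹ *
        ∑ n ∈ Finset.Icc (-(N : ℤ)) (N : ℤ), ∏ j : Fin m,
          f' j (gel S (fun i => P i j) n y)) atTop (𝓝 L)} := by
      apply MeasureTheory.measurableSet_exists_tendsto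
      intro N
      apply Measurable.const_mul
      apply Finset.measurable_fun_sum
      intro n _
      apply Finset.measurable_fun_prod
      intro j _
      exact (hf' j).measurable.comp (gel_mem nu S hSm _ n).1.measurable
    rw [← hpr.map_eq, ae_map_iff hpr.measurable.aemeasurable hmeas]
    have h1 := hX (fun j x => f' j (pr x)) (fun j =>
      (((memLp_congr_ae (hff' j)).1 (hf j)).comp_measurePreserving hpr))
    have h2 : ∀ᵐ x ∂mu, ∀ (j : Fin m) (n : ℤ),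
        pr (gel T (fun i => P i j) n x) = gel S (fun i => P i j) n (pr x) := by
      rw [ae_all_iff]
      intro j
      rw [ae_all_iff]
      intro n
      exact (pair_prod mu pr T S (fun i => ⟨hTm i, hint i⟩) (fun i => P i j) n).2
    filter_upwards [h1, h2] with x ⟨L, hL⟩ hx
    refine ⟨L, ?_⟩
    have e : ∀ (j : Fin m) (n : ℤ), f' j (gel S (fun i => P i j) n (pr x)) =
        f' j (pr ((List.ofFn fun i : Fin d => T i ^ (P i j).eval n).prod x)) := by
      intro j n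
      rw [← hx j n]
      rfl
    simp only [e]
    exact hL
  have h3 : ∀ᵐ y ∂nu, ∀ (j : Fin m) (n : ℤ),
      f j (gel S (fun i => P i j) n y) = f' j (gel S (fun i => P i j) n y) := by
    rw [ae_all_iff]
    intro j
    rw [ae_all_iff]
    intro n
    exact (gel_mem nu S hSm (fun i => P i j) n).1.quasiMeasurePreserving.ae (hff' j)
  filter_upwards [key, h3] with y ⟨L, hL⟩ hy
  refine ⟨L, ?_⟩
  have e : ∀ (j : Fin m) (n : ℤ), f j ((List.ofFn fun i : Fin d => S i ^ (P i j).eval n).prod y) =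
      f' j (gel S (fun i => P i j) n y) := fun j n => hy j n
  simp only [e]
  exact hL

end Pool.PolyMax
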