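import Pool.Agent.PolyMax.Basic

set_option autoImplicit false

/-!
# PolyMax: the Rademacher-Menshov inequality (numerical form)

PROOF.  Induction on `n`, claim for all `A` and `k ≤ 2 ^ n`.  `n = 0`: `k = 0` or `k = 1`.  The sum
over `i ∈ range (n + 1)` contains for `i = 0` all increments `F (A + j + 1) - F (A + j)`.
General idea: write `k ≤ 2^n` in binary, `k = ∑ 2^{i_l}` with `i_1 > i_2 > ...`; going from `A` to
`A + k` by successive steps of lengths `2^{i_1}, 2^{i_2}, ...` every step is of the form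
`A + j 2^i → A + (j + 1) 2^i`, `j < 2^{n - i}`, with at most one step for every `i ∈ range (n + 1)`, and a
step is at most the square root of the sum of the squares of all increments of that length.
Induction step from `n` to `n + 1`: if `k ≤ 2^n` use the claim for `n` and `A`; otherwise
`k - 2^n ≤ 2^n`.  One convenient proof: strengthen to
`‖F (A + k) - F A‖ ≤ ∑_{i ≤ n} max_j ‖increment_{i, j}‖` where `j` ranges over all `j < 2^{n-i}`, by
induction on `n` halving `k`: apply the case `n` to `F' l = F (A + 2 l)` and `k' = k / 2`, and add the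
last step of length `1` if `k` is odd.
-/

open Finset

namespace Pool.PolyMax

theorem rm (F : ℕ → ℂ) (A n k : ℕ) (hk : k ≤ 2 ^ n) :
    ‖F (A + k)‖ ≤ ‖F A‖ + ∑ i ∈ range (n + 1),
      Real.sqrt (∑ j ∈ range (2 ^ (n - i)), ‖F (A + (j + 1) * 2 ^ i) - F (A + j * 2 ^ i)‖ ^ 2) := by
  induction n generalizing F A k with
  | zero =>
    have hk' : k = 0 ∨ k = 1 := by
      rw [pow_zero] at hk
      omega
    rcases hk' with rfl | rfl
    · rw [add_zero]
      have : 0 ≤ ∑ i ∈ range (0 + 1), Real.sqrt (∑ j ∈ range (2 ^ (0 - i)),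
          ‖F (A + (j + 1) * 2 ^ i) - F (A + j * 2 ^ i)‖ ^ 2) :=
        Finset.sum_nonneg fun i _ => Real.sqrt_nonneg _
      linarith
    · simp only [zero_add, range_one, sum_singleton, pow_zero, mul_one, add_zero,
        Nat.sub_self]
      rw [Real.sqrt_sq (norm_nonneg _)]
      have h := norm_add_le (F A) (F (A + 1) - F A)
      rwa [add_sub_cancel] at h
  | succ n ih =>
    have hk2 : k / 2 ≤ 2 ^ n := by
      rw [pow_succ] at hk
      omega
    have h := ih (fun l => F (A + 2 * l)) 0 (k / 2) hk2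
    rw [Finset.sum_range_succ']
    have e1 : ∀ i ∈ range (n + 1), Real.sqrt (∑ j ∈ range (2 ^ (n + 1 - (i + 1))),
        ‖F (A + (j + 1) * 2 ^ (i + 1)) - F (A + j * 2 ^ (i + 1))‖ ^ 2) =
        Real.sqrt (∑ j ∈ range (2 ^ (n - i)),
        ‖F (A + 2 * (0 + (j + 1) * 2 ^ i)) - F (A + 2 * (0 + j * 2 ^ i))‖ ^ 2) := by
      intro i _
      rw [Nat.add_sub_add_right]
      congr 1
      apply Finset.sum_congr rfl
      intro j _
      have a1 : A + (j + 1) * 2 ^ (i + 1) = A + 2 * (0 + (j + 1) * 2 ^ i) := by ring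
      have a2 : A + j * 2 ^ (i + 1) = A + 2 * (0 + j * 2 ^ i) := by ring
      rw [a1, a2]
    rw [Finset.sum_congr rfl e1]
    simp only [zero_add, mul_zero, add_zero] at h
    have e2 : ‖F (A + k) - F (A + 2 * (k / 2))‖ ≤ Real.sqrt (∑ j ∈ range (2 ^ (n + 1 - 0)),
        ‖F (A + (j + 1) * 2 ^ 0) - F (A + j * 2 ^ 0)‖ ^ 2) := by
      rcases Nat.mod_two_eq_zero_or_one k with h0 | h1
      · have : 2 * (k / 2) = k := by omega
        rw [this, sub_self, norm_zero]
        exact Real.sqrt_nonneg _
      · apply Real.le_sqrt_of_sq_le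
        have hmem : k - 1 ∈ range (2 ^ (n + 1 - 0)) := by
          rw [Finset.mem_range, Nat.sub_zero]
          omega
        have hle := Finset.single_le_sum
          (f := fun j => ‖F (A + (j + 1) * 2 ^ 0) - F (A + j * 2 ^ 0)‖ ^ 2)
          (fun j _ => sq_nonneg _) hmem
        have a1 : A + (k - 1 + 1) * 2 ^ 0 = A + k := by
          rw [pow_zero, mul_one]
          omega
        have a2 : A + (k - 1) * 2 ^ 0 = A + 2 * (k / 2) := by
          rw [pow_zero, mul_one]
          omega
        simp only [a1, a2] at hle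
        exact hle
    have h3 : ‖F (A + k)‖ ≤ ‖F (A + 2 * (k / 2))‖ + ‖F (A + k) - F (A + 2 * (k / 2))‖ := by
      have h4 := norm_add_le (F (A + 2 * (k / 2))) (F (A + k) - F (A + 2 * (k / 2)))
      rwa [add_sub_cancel] at h4
    simp only [zero_add]
    rw [← add_assoc]
    exact h3.trans (add_le_add h e2)

end Pool.PolyMax
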