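import Pool.Agent.PolyMax.Basic

set_option autoImplicit false

/-!
# PolyMax: geometric sums

`geo1`.  PROOF: `x` is monotone.  The indices `k ∈ S` with `x k ≤ 1`: `gf de (x k)^2 ≤ (x k)^2`; if
`k0` is the largest of them, `x k ≤ rho^{-(k0 - k)} x k0 ≤ rho^{-(k0 - k)}`: sum at most
`1 / (1 - rho^{-2})`.  The indices with `x k > 1`: `gf ≤ (x k)^{-de}`; if `k1` is the smallest,
`x k ≥ rho^{k - k1}`: sum at most `1 / (1 - rho^{-2 de})`.

`geo2`.  Put `y_j = x (ka j)`: since `ka` is strictly increasing and `x` is monotone with ratio at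
least `rho`, also `rho y_j ≤ y_{j+1}`, `y_j ≥ 0`.  For `j` with `y_{j+1} ≤ 1`:
`‖F (ka (j+1)) - F (ka j)‖ ≤ A (y_{j+1} + y_j) ≤ 2 A y_{j+1}`, the sum of the squares is at most
`4 A² / (1 - rho^{-2})`.  For `j` with `y_j ≥ 1`: `‖F (ka (j+1)) - F (ka j)‖ ≤ 2 A / y_j`, again a
geometric sum.  At most one `j` has `y_j < 1 < y_{j+1}`, it contributes at most `4 A²` (`‖F‖ ≤ A`).
-/

open Finset

namespace Pool.PolyMax

lemma gf_nonneg {de x : ℝ} (hx : 0 ≤ x) : 0 ≤ gf de x := le_min hx (Real.rpow_nonneg hx _)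

lemma gf_zero {de : ℝ} (h : 0 < de) : gf de 0 = 0 := by
  unfold gf
  rw [Real.zero_rpow (by linarith)]
  simp

lemma gf_of_le_one {de x : ℝ} (h0 : 0 < de) (hx : 0 ≤ x) (h1 : x ≤ 1) : gf de x = x := by
  rcases hx.eq_or_lt with h | h
  · rw [← h, gf_zero h0]
  · unfold gf
    apply min_eq_left
    have : (1 : ℝ) ≤ x ^ (-de) := by
      rw [Real.rpow_neg h.le]
      exact (one_le_inv₀ (Real.rpow_pos_of_pos h _)).2 (Real.rpow_le_one h.le h1 h0.le)
    linarith

lemma gf_of_one_le {de x : ℝ} (h0 : 0 < de) (h1 : 1 ≤ x) : gf de x = x ^ (-de) := by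
  unfold gf
  apply min_eq_right
  have : x ^ (-de) ≤ 1 := Real.rpow_le_one_of_one_le_of_nonpos h1 (by linarith)
  linarith

/-- `gf` is decreasing in the exponent. -/
lemma gf_anti {de de' x : ℝ} (hx : 0 ≤ x) (h0 : 0 < de) (h : de ≤ de') : gf de' x ≤ gf de x := by
  rcases le_total x 1 with h1 | h1
  · rw [gf_of_le_one h0 hx h1, gf_of_le_one (h0.trans_le h) hx h1]
  · rw [gf_of_one_le h0 h1, gf_of_one_le (h0.trans_le h) h1]
    exact Real.rpow_le_rpow_of_exponent_le h1 (by linarith)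

lemma geo_sum_range {r : ℝ} (h0 : 0 ≤ r) (h1 : r < 1) (S : Finset ℕ) :
    ∑ k ∈ S, r ^ k ≤ (1 - r)⁻¹ := by
  rw [← tsum_geometric_of_lt_one h0 h1]
  exact (summable_geometric_of_lt_one h0 h1).sum_le_tsum S (fun k _ => pow_nonneg h0 k)

lemma geo_down {r : ℝ} (h0 : 0 ≤ r) (h1 : r < 1) (S : Finset ℕ) (k0 : ℕ) (hS : ∀ k ∈ S, k ≤ k0) :
    ∑ k ∈ S, r ^ (k0 - k) ≤ (1 - r)⁻¹ := by
  have hinj : Set.InjOn (fun k => k0 - k) (S : Set ℕ) := by
    intro a ha b hb hab
    have := hS a ha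
    have := hS b hb
    simp only at hab
    omega
  have := geo_sum_range h0 h1 (S.image fun k => k0 - k)
  rwa [Finset.sum_image (fun a ha b hb hab => hinj ha hb hab)] at this

lemma geo_up {r : ℝ} (h0 : 0 ≤ r) (h1 : r < 1) (S : Finset ℕ) (k0 : ℕ) (hS : ∀ k ∈ S, k0 ≤ k) :
    ∑ k ∈ S, r ^ (k - k0) ≤ (1 - r)⁻¹ := by
  have hinj : Set.InjOn (fun k => k - k0) (S : Set ℕ) := by
    intro a ha b hb hab
    have := hS a ha
    have := hS b hb
    simp only at hab
    omega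
  have := geo_sum_range h0 h1 (S.image fun k => k - k0)
  rwa [Finset.sum_image (fun a ha b hb hab => hinj ha hb hab)] at this

lemma lac_pow {rho : ℝ} (hrho : 1 < rho) {x : ℕ → ℝ} (hl : ∀ k, rho * x k ≤ x (k + 1)) (i : ℕ) :
    ∀ n : ℕ, rho ^ n * x i ≤ x (i + n)
  | 0 => by simp
  | n + 1 => by
    have h1 := lac_pow hrho hl i n
    have h2 := hl (i + n)
    have h3 : rho * (rho ^ n * x i) ≤ rho * x (i + n) :=
      mul_le_mul_of_nonneg_left h1 (by linarith)
    rw [pow_succ]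
    calc rho ^ n * rho * x i = rho * (rho ^ n * x i) := by ring
      _ ≤ rho * x (i + n) := h3
      _ ≤ x (i + n + 1) := h2

lemma lac_le {rho : ℝ} (hrho : 1 < rho) {x : ℕ → ℝ} (hl : ∀ k, rho * x k ≤ x (k + 1)) {i j : ℕ}
    (h : i ≤ j) : rho ^ (j - i) * x i ≤ x j := by
  have := lac_pow hrho hl i (j - i)
  rwa [Nat.add_sub_cancel' h] at this

theorem geo1 (rho de : ℝ) (hrho : 1 < rho) (hde : 0 < de) : ∃ C : ℝ, 0 < C ∧
    ∀ (x : ℕ → ℝ), (∀ k, 0 ≤ x k) → (∀ k, rho * x k ≤ x (k + 1)) → ∀ S : Finset ℕ,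
      ∑ k ∈ S, gf de (x k) ^ 2 ≤ C := by
  have hr0 : 0 < rho := by linarith
  set r1 : ℝ := (rho ^ 2)⁻¹ with hr1
  set r2 : ℝ := (rho ^ (2 * de))⁻¹ with hr2
  have hr1p : 0 < r1 := by positivity
  have hr2p : 0 < r2 := by positivity
  have hr1l : r1 < 1 := inv_lt_one_of_one_lt₀ (one_lt_pow₀ hrho two_ne_zero)
  have hr2l : r2 < 1 := inv_lt_one_of_one_lt₀ (Real.one_lt_rpow hrho (by positivity))
  have hC1 : 0 < (1 - r1)⁻¹ := inv_pos.2 (by linarith)
  have hC2 : 0 < (1 - r2)⁻¹ := inv_pos.2 (by linarith)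
  refine ⟨(1 - r1)⁻¹ + (1 - r2)⁻¹, by positivity, ?_⟩
  intro x hx hl S
  rw [← Finset.sum_filter_add_sum_filter_not S (fun k => x k ≤ 1)]
  refine add_le_add ?_ ?_
  · rcases (S.filter fun k => x k ≤ 1).eq_empty_or_nonempty with h | h
    · rw [h, Finset.sum_empty]; exact hC1.le
    · set S1 := S.filter fun k => x k ≤ 1 with hS1
      set k0 := S1.max' h with hk0
      have hk0m : k0 ∈ S1 := Finset.max'_mem _ _
      have hk0x : x k0 ≤ 1 := (Finset.mem_filter.1 hk0m).2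
      refine le_trans (Finset.sum_le_sum (g := fun k => r1 ^ (k0 - k)) ?_)
        (geo_down hr1p.le hr1l S1 k0 (fun k hk => Finset.le_max' _ _ hk))
      intro k hk
      have hkx : x k ≤ 1 := (Finset.mem_filter.1 hk).2
      have hkk : k ≤ k0 := Finset.le_max' _ _ hk
      rw [gf_of_le_one hde (hx k) hkx]
      have h1 := lac_le hrho hl hkk
      have h2 : x k ≤ (rho ^ (k0 - k))⁻¹ := by
        rw [← one_div, le_div_iff₀ (by positivity)]
        linarith
      calc x k ^ 2 ≤ ((rho ^ (k0 - k))⁻¹) ^ 2 := by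
            exact pow_le_pow_left₀ (hx k) h2 2
        _ = r1 ^ (k0 - k) := by
            rw [hr1, inv_pow, inv_pow, ← pow_mul, ← pow_mul, mul_comm]
  · rcases (S.filter fun k => ¬ x k ≤ 1).eq_empty_or_nonempty with h | h
    · rw [h, Finset.sum_empty]; exact hC2.le
    · set S1 := S.filter fun k => ¬ x k ≤ 1 with hS1
      set k0 := S1.min' h with hk0
      have hk0m : k0 ∈ S1 := Finset.min'_mem _ _
      have hk0x : 1 ≤ x k0 := (not_le.1 (Finset.mem_filter.1 hk0m).2).le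
      refine le_trans (Finset.sum_le_sum (g := fun k => r2 ^ (k - k0)) ?_)
        (geo_up hr2p.le hr2l S1 k0 (fun k hk => Finset.min'_le _ _ hk))
      intro k hk
      have hkx : 1 ≤ x k := (not_le.1 (Finset.mem_filter.1 hk).2).le
      have hkk : k0 ≤ k := Finset.min'_le _ _ hk
      rw [gf_of_one_le hde hkx]
      have h1 := lac_le hrho hl hkk
      have h2 : rho ^ (k - k0) ≤ x k := by
        have : rho ^ (k - k0) * 1 ≤ rho ^ (k - k0) * x k0 :=
          mul_le_mul_of_nonneg_left hk0x (by positivity)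
        linarith
      have h3 : (x k) ^ (-de) ≤ (rho ^ (k - k0)) ^ (-de) :=
        Real.rpow_le_rpow_of_nonpos (by positivity) h2 (by linarith)
      have h4 : ((rho ^ (k - k0)) ^ (-de) : ℝ) ^ 2 = r2 ^ (k - k0) := by
        rw [hr2, ← Real.rpow_natCast rho (k - k0), ← Real.rpow_mul hr0.le,
          ← Real.rpow_natCast _ 2, ← Real.rpow_mul hr0.le, ← Real.rpow_neg hr0.le,
          ← Real.rpow_natCast _ (k - k0), ← Real.rpow_mul hr0.le]
        congr 1
        push_cast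
        ring
      calc (x k ^ (-de)) ^ 2 ≤ ((rho ^ (k - k0)) ^ (-de) : ℝ) ^ 2 :=
            pow_le_pow_left₀ (Real.rpow_nonneg (hx k) _) h3 2
        _ = r2 ^ (k - k0) := h4

theorem geo2 (rho A : ℝ) (hrho : 1 < rho) (hA : 1 ≤ A) : ∃ C : ℝ, 0 < C ∧
    ∀ (x : ℕ → ℝ) (F : ℕ → ℂ), (∀ k, 0 ≤ x k) → (∀ k, rho * x k ≤ x (k + 1)) →
      (∀ k, ‖F k - 1‖ ≤ A * x k) → (∀ k, ‖F k‖ * x k ≤ A) → (∀ k, ‖F k‖ ≤ A) →
      ∀ (ka : ℕ → ℕ), StrictMono ka → ∀ J : ℕ,
        ∑ j ∈ range J, ‖F (ka (j + 1)) - F (ka j)‖ ^ 2 ≤ C := by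
  obtain ⟨C1, hC1, hgeo⟩ := geo1 rho 1 hrho one_pos
  refine ⟨4 * A ^ 2 * (C1 + (C1 + 1)), by positivity, ?_⟩
  intro x F hx hl h1 h2 h3 ka hka J
  set y : ℕ → ℝ := fun j => x (ka j) with hy
  have hy0 : ∀ j, 0 ≤ y j := fun j => hx _
  have hyl : ∀ j, rho * y j ≤ y (j + 1) := by
    intro j
    have hlt : ka j < ka (j + 1) := hka (Nat.lt_succ_self j)
    have h4 := lac_le hrho hl hlt.le
    have h5 : rho ≤ rho ^ (ka (j + 1) - ka j) := by
      calc rho = rho ^ 1 := (pow_one rho).symm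
        _ ≤ _ := pow_le_pow_right₀ hrho.le (by omega)
    exact le_trans (mul_le_mul_of_nonneg_right h5 (hy0 j)) h4
  have hym : ∀ j, y j ≤ y (j + 1) := by
    intro j
    have : 1 * y j ≤ rho * y j := mul_le_mul_of_nonneg_right hrho.le (hy0 j)
    linarith [hyl j]
  have hA0 : 0 < A := by linarith
  -- pointwise bounds
  have b1 : ∀ j, y (j + 1) ≤ 1 → ‖F (ka (j + 1)) - F (ka j)‖ ^ 2 ≤
      4 * A ^ 2 * gf 1 (y (j + 1)) ^ 2 := by
    intro j hj
    rw [gf_of_le_one one_pos (hy0 _) hj]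
    have e1 : ‖F (ka (j + 1)) - F (ka j)‖ ≤ 2 * A * y (j + 1) := by
      have : F (ka (j + 1)) - F (ka j) = (F (ka (j + 1)) - 1) - (F (ka j) - 1) := by ring
      rw [this]
      refine (norm_sub_le _ _).trans ?_
      have e2 := h1 (ka (j + 1))
      have e3 := h1 (ka j)
      have e4 : A * y j ≤ A * y (j + 1) := mul_le_mul_of_nonneg_left (hym j) hA0.le
      simp only [hy] at *
      linarith
    calc _ ≤ (2 * A * y (j + 1)) ^ 2 := pow_le_pow_left₀ (norm_nonneg _) e1 2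
      _ = _ := by ring
  have b2 : ∀ j, 1 ≤ y j → ‖F (ka (j + 1)) - F (ka j)‖ ^ 2 ≤ 4 * A ^ 2 * gf 1 (y j) ^ 2 := by
    intro j hj
    have hjp : 0 < y j := by linarith
    rw [gf_of_one_le one_pos hj, Real.rpow_neg_one]
    have hb : ∀ i, j ≤ i → y j ≤ y i → ‖F (ka i)‖ ≤ A * (y j)⁻¹ := by
      intro i _ hi
      have e1 := h2 (ka i)
      rw [← div_eq_mul_inv, le_div_iff₀ hjp]
      have e2 : ‖F (ka i)‖ * y j ≤ ‖F (ka i)‖ * y i :=
        mul_le_mul_of_nonneg_left hi (norm_nonneg _)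
      simp only [hy] at *
      linarith
    have e1 : ‖F (ka (j + 1)) - F (ka j)‖ ≤ 2 * A * (y j)⁻¹ := by
      refine (norm_sub_le _ _).trans ?_
      have e2 := hb (j + 1) (Nat.le_succ j) (hym j)
      have e3 := hb j le_rfl le_rfl
      linarith
    calc _ ≤ (2 * A * (y j)⁻¹) ^ 2 := pow_le_pow_left₀ (norm_nonneg _) e1 2
      _ = _ := by ring
  have b3 : ∀ j, ‖F (ka (j + 1)) - F (ka j)‖ ^ 2 ≤ 4 * A ^ 2 := by
    intro j
    have e1 : ‖F (ka (j + 1)) - F (ka j)‖ ≤ 2 * A := by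
      refine (norm_sub_le _ _).trans ?_
      have := h3 (ka (j + 1))
      have := h3 (ka j)
      linarith
    calc _ ≤ (2 * A) ^ 2 := pow_le_pow_left₀ (norm_nonneg _) e1 2
      _ = _ := by ring
  rw [← Finset.sum_filter_add_sum_filter_not (range J) (fun j => y (j + 1) ≤ 1), mul_add]
  refine add_le_add ?_ ?_
  · calc ∑ j ∈ (range J).filter (fun j => y (j + 1) ≤ 1), ‖F (ka (j + 1)) - F (ka j)‖ ^ 2
        ≤ ∑ j ∈ (range J).filter (fun j => y (j + 1) ≤ 1), 4 * A ^ 2 * gf 1 (y (j + 1)) ^ 2 :=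
          Finset.sum_le_sum fun j hj => b1 j (Finset.mem_filter.1 hj).2
      _ = 4 * A ^ 2 * ∑ j ∈ (range J).filter (fun j => y (j + 1) ≤ 1), gf 1 (y (j + 1)) ^ 2 := by
          rw [Finset.mul_sum]
      _ ≤ 4 * A ^ 2 * C1 := by
          refine mul_le_mul_of_nonneg_left ?_ (by positivity)
          have := hgeo y hy0 hyl (((range J).filter (fun j => y (j + 1) ≤ 1)).image (· + 1))
          rwa [Finset.sum_image (fun a _ b _ hab => Nat.succ_injective hab)] at this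
  · rw [← Finset.sum_filter_add_sum_filter_not
      ((range J).filter (fun j => ¬ y (j + 1) ≤ 1)) (fun j => 1 ≤ y j), mul_add]
    refine add_le_add ?_ ?_
    · calc ∑ j ∈ ((range J).filter (fun j => ¬ y (j + 1) ≤ 1)).filter (fun j => 1 ≤ y j),
            ‖F (ka (j + 1)) - F (ka j)‖ ^ 2
          ≤ ∑ j ∈ ((range J).filter (fun j => ¬ y (j + 1) ≤ 1)).filter (fun j => 1 ≤ y j),
            4 * A ^ 2 * gf 1 (y j) ^ 2 :=
            Finset.sum_le_sum fun j hj => b2 j (Finset.mem_filter.1 hj).2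
        _ = 4 * A ^ 2 * ∑ j ∈ ((range J).filter (fun j => ¬ y (j + 1) ≤ 1)).filter
            (fun j => 1 ≤ y j), gf 1 (y j) ^ 2 := by
            rw [Finset.mul_sum]
        _ ≤ 4 * A ^ 2 * C1 := by
            refine mul_le_mul_of_nonneg_left (hgeo y hy0 hyl _) (by positivity)
    · set S3 := ((range J).filter (fun j => ¬ y (j + 1) ≤ 1)).filter (fun j => ¬ 1 ≤ y j) with hS3
      have hcard : S3.card ≤ 1 := by
        rw [Finset.card_le_one]
        intro a ha b hb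
        rw [hS3, Finset.mem_filter, Finset.mem_filter] at ha hb
        have hmono : Monotone y := monotone_nat_of_le_succ hym
        rcases lt_trichotomy a b with h | h | h
        · exfalso
          have h5 : y (a + 1) ≤ y b := hmono h
          have h6 := not_le.1 ha.1.2
          have h7 := not_le.1 hb.2
          linarith
        · exact h
        · exfalso
          have h5 : y (b + 1) ≤ y a := hmono h
          have h6 := not_le.1 hb.1.2
          have h7 := not_le.1 ha.2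
          linarith
      calc ∑ j ∈ S3, ‖F (ka (j + 1)) - F (ka j)‖ ^ 2 ≤ ∑ j ∈ S3, 4 * A ^ 2 :=
            Finset.sum_le_sum fun j _ => b3 j
        _ = (S3.card : ℝ) * (4 * A ^ 2) := by rw [Finset.sum_const, nsmul_eq_mul]
        _ ≤ 1 * (4 * A ^ 2) := by
            refine mul_le_mul_of_nonneg_right ?_ (by positivity)
            exact_mod_cast hcard
        _ = 4 * A ^ 2 * 1 := by ring

end Pool.PolyMax
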