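import Pool.Agent.PolyMax.DFT
import Pool.Agent.PolyMax.RM

set_option autoImplicit false

/-!
# PolyMax: calculus of maximal bounds

`nrm` is the `ℓ²` norm, so it satisfies the triangle inequality (`nrm_add_le`, `nrm_sum_le`).
* `MaxBd.of_sq`: `∑_x ‖T (mu (ka x)) f x‖² ≤ ∑_{k < K} ∑_x ‖T (mu k) f x‖²` with `K > max ka`
  (finite group), then `sum_nrm_T_le`.
* `MaxBd.add`, `MaxBd.sum`: `T_add`, `T_sum` and the triangle inequality.
* `MaxBd.mul`: `T (fun xi => mu k xi * P xi) f = T (mu k) (T P f)` (`T_comp`) and `nrm_T_le` for `P`.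
* `MaxBd.congr_le`: for a given `f`, `ka` only finitely many indices occur.
* `MaxBd.rm`: apply `rm` at every `x` to `F k = T (mu k) f x` for the `x` with `A ≤ ka x ≤ A + 2^n`
  (for the others the value is `0`), so pointwise
  `‖T (mu' (ka x)) f x‖ ≤ ‖T (mu A) f x‖ + ∑_{i ≤ n} (∑_j ‖T (mu (A + (j+1) 2^i) - mu (A + j 2^i)) f x‖²)^{1/2}`;
  take `ℓ²` norms: Minkowski for the sum over `i`, `sum_nrm_T_le` for each `i`, `nrm_T_le` for the
  first term.
-/

open Finset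

namespace Pool.PolyMax

variable {D : ℕ}

lemma nrm_nonneg {A : Type*} [Fintype A] (f : A → ℂ) : 0 ≤ nrm f := Real.sqrt_nonneg _

lemma nrm_sq {A : Type*} [Fintype A] (f : A → ℂ) : nrm f ^ 2 = ∑ x, ‖f x‖ ^ 2 := by
  unfold nrm
  rw [Real.sq_sqrt]
  exact Finset.sum_nonneg fun x _ => by positivity

lemma nrm_mono {A : Type*} [Fintype A] {f g : A → ℂ} (h : ∀ x, ‖f x‖ ≤ ‖g x‖) : nrm f ≤ nrm g := by
  unfold nrm
  refine Real.sqrt_le_sqrt (Finset.sum_le_sum fun x _ => ?_)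
  exact pow_le_pow_left₀ (norm_nonneg _) (h x) 2

lemma nrm_eq_norm {A : Type*} [Fintype A] (f : A → ℂ) :
    nrm f = ‖(WithLp.toLp 2 f : EuclideanSpace ℂ A)‖ := by
  rw [EuclideanSpace.norm_eq]
  rfl

lemma nrm_add_le {A : Type*} [Fintype A] (f g : A → ℂ) : nrm (fun x => f x + g x) ≤ nrm f + nrm g := by
  have h : (WithLp.toLp 2 (fun x => f x + g x) : EuclideanSpace ℂ A) =
      WithLp.toLp 2 f + WithLp.toLp 2 g := rfl
  rw [nrm_eq_norm, nrm_eq_norm, nrm_eq_norm, h]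
  exact norm_add_le _ _

lemma nrm_zero {A : Type*} [Fintype A] : nrm (fun _ : A => (0 : ℂ)) = 0 := by
  unfold nrm
  simp

lemma nrm_sum_le {A ι : Type*} [Fintype A] (s : Finset ι) (f : ι → A → ℂ) :
    nrm (fun x => ∑ i ∈ s, f i x) ≤ ∑ i ∈ s, nrm (f i) := by
  classical
  induction s using Finset.induction_on with
  | empty => simp [nrm_zero]
  | insert a s ha ih =>
    have h : (fun x => ∑ i ∈ insert a s, f i x) = fun x => f a x + ∑ i ∈ s, f i x := by
      funext x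
      rw [Finset.sum_insert ha]
    rw [h, Finset.sum_insert ha]
    exact (nrm_add_le _ _).trans (add_le_add le_rfl ih)

theorem MaxBd.mono {mu : ℕ → (Fin D → ℝ) → ℂ} {C C' : ℝ} (h : MaxBd mu C) (hC : C ≤ C') :
    MaxBd mu C' := fun M _ f ka =>
  (h M f ka).trans (mul_le_mul_of_nonneg_right hC (nrm_nonneg f))

theorem MaxBd.add {mu nu : ℕ → (Fin D → ℝ) → ℂ} {C C' : ℝ} (h : MaxBd mu C) (h' : MaxBd nu C') :
    MaxBd (fun k xi => mu k xi + nu k xi) (C + C') := by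
  intro M _ f ka
  have e1 : (fun x => T (fun xi => mu (ka x) xi + nu (ka x) xi) f x) =
      fun x => T (mu (ka x)) f x + T (nu (ka x)) f x := by
    funext x
    exact T_add _ _ f x
  calc nrm (fun x => T (fun xi => mu (ka x) xi + nu (ka x) xi) f x)
      = nrm (fun x => T (mu (ka x)) f x + T (nu (ka x)) f x) := by rw [e1]
    _ ≤ nrm (fun x => T (mu (ka x)) f x) + nrm (fun x => T (nu (ka x)) f x) := nrm_add_le _ _
    _ ≤ C * nrm f + C' * nrm f := add_le_add (h M f ka) (h' M f ka)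
    _ = (C + C') * nrm f := by ring

theorem MaxBd.sum {ι : Type*} (s : Finset ι) (mu : ι → ℕ → (Fin D → ℝ) → ℂ) (C : ι → ℝ)
    (h : ∀ i ∈ s, MaxBd (mu i) (C i)) : MaxBd (fun k xi => ∑ i ∈ s, mu i k xi) (∑ i ∈ s, C i) := by
  intro M _ f ka
  have e1 : (fun x => T (fun xi => ∑ i ∈ s, mu i (ka x) xi) f x) =
      fun x => ∑ i ∈ s, T (mu i (ka x)) f x := by
    funext x
    exact T_sum s (fun i => mu i (ka x)) f x
  calc nrm (fun x => T (fun xi => ∑ i ∈ s, mu i (ka x) xi) f x)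
      = nrm (fun x => ∑ i ∈ s, T (mu i (ka x)) f x) := by rw [e1]
    _ ≤ ∑ i ∈ s, nrm (fun x => T (mu i (ka x)) f x) := nrm_sum_le _ _
    _ ≤ ∑ i ∈ s, C i * nrm f := Finset.sum_le_sum fun i hi => h i hi M f ka
    _ = (∑ i ∈ s, C i) * nrm f := by rw [Finset.sum_mul]

theorem MaxBd.mul {mu : ℕ → (Fin D → ℝ) → ℂ} {C c : ℝ} (h : MaxBd mu C) (hC : 0 ≤ C)
    (P : (Fin D → ℝ) → ℂ) (hP : ∀ xi, ‖P xi‖ ≤ c) :
    MaxBd (fun k xi => mu k xi * P xi) (C * c) := by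
  intro M _ f ka
  have e1 : (fun x => T (fun xi => mu (ka x) xi * P xi) f x) =
      fun x => T (mu (ka x)) (T P f) x := by
    funext x
    exact (congrFun (T_comp (mu (ka x)) P f) x).symm
  calc nrm (fun x => T (fun xi => mu (ka x) xi * P xi) f x)
      = nrm (fun x => T (mu (ka x)) (T P f) x) := by rw [e1]
    _ ≤ C * nrm (T P f) := h M (T P f) ka
    _ ≤ C * (c * nrm f) := mul_le_mul_of_nonneg_left (nrm_T_le P c hP f) hC
    _ = C * c * nrm f := by ring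

theorem MaxBd.of_sq {mu : ℕ → (Fin D → ℝ) → ℂ} {C : ℝ} (hC : 0 ≤ C)
    (h : ∀ xi (K : ℕ), ∑ k ∈ range K, ‖mu k xi‖ ^ 2 ≤ C ^ 2) : MaxBd mu C := by
  intro M _ f ka
  set K : ℕ := (Finset.univ.sup ka) + 1 with hK
  have hka : ∀ x, ka x ∈ range K := by
    intro x
    rw [Finset.mem_range, hK]
    exact Nat.lt_succ_of_le (Finset.le_sup (Finset.mem_univ x))
  have e1 : nrm (fun x => T (mu (ka x)) f x) ^ 2 ≤ (C * nrm f) ^ 2 := by
    rw [nrm_sq, mul_pow]
    calc ∑ x, ‖T (mu (ka x)) f x‖ ^ 2 ≤ ∑ x, ∑ k ∈ range K, ‖T (mu k) f x‖ ^ 2 :=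
          Finset.sum_le_sum fun x _ =>
            Finset.single_le_sum (f := fun k => ‖T (mu k) f x‖ ^ 2)
              (fun k _ => by positivity) (hka x)
      _ = ∑ k ∈ range K, nrm (T (mu k) f) ^ 2 := by
          rw [Finset.sum_comm]
          exact Finset.sum_congr rfl fun k _ => (nrm_sq _).symm
      _ ≤ C ^ 2 * nrm f ^ 2 := sum_nrm_T_le (range K) mu (C ^ 2) (fun xi => h xi K) f
  exact le_of_sq_le_sq e1 (mul_nonneg hC (nrm_nonneg f))

/-- Only a condition on bounded sets of indices is needed. -/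
theorem MaxBd.of_trunc {mu : ℕ → (Fin D → ℝ) → ℂ} {C : ℝ}
    (h : ∀ K : ℕ, ∃ nu : ℕ → (Fin D → ℝ) → ℂ, (∀ k ≤ K, nu k = mu k) ∧ MaxBd nu C) :
    MaxBd mu C := by
  intro M _ f ka
  obtain ⟨nu, h1, h2⟩ := h (Finset.univ.sup ka)
  have e1 : (fun x => T (mu (ka x)) f x) = fun x => T (nu (ka x)) f x := by
    funext x
    rw [h1 (ka x) (Finset.le_sup (Finset.mem_univ x))]
  rw [e1]
  exact h2 M f ka

/-- Restriction to a set of indices. -/
theorem MaxBd.ite {mu : ℕ → (Fin D → ℝ) → ℂ} {C : ℝ} (h : MaxBd mu C) (hC : 0 ≤ C)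
    (p : ℕ → Prop) [DecidablePred p] : MaxBd (fun k xi => if p k then mu k xi else 0) C := by
  intro M _ f ka
  refine le_trans (nrm_mono fun x => ?_) (h M f ka)
  by_cases hp : p (ka x)
  · have : (fun xi : Fin D → ℝ => if p (ka x) then mu (ka x) xi else 0) = mu (ka x) := by
      funext xi
      exact if_pos hp
    exact (congrArg (fun g => ‖T g f x‖) this).le
  · have : (fun xi : Fin D → ℝ => if p (ka x) then mu (ka x) xi else 0) = fun _ => 0 := by
      funext xi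
      exact if_neg hp
    refine (congrArg (fun g => ‖T g f x‖) this).le.trans ?_
    simp only [T_zero, norm_zero]
    exact norm_nonneg _

theorem MaxBd.rm {mu : ℕ → (Fin D → ℝ) → ℂ} {c : ℝ} (hc : 0 ≤ c) (A n : ℕ)
    (h0 : ∀ xi, ‖mu A xi‖ ≤ c)
    (h1 : ∀ i ≤ n, ∀ xi, ∑ j ∈ range (2 ^ (n - i)),
      ‖mu (A + (j + 1) * 2 ^ i) xi - mu (A + j * 2 ^ i) xi‖ ^ 2 ≤ c ^ 2) :
    MaxBd (fun k xi => if A ≤ k ∧ k ≤ A + 2 ^ n then mu k xi else 0) (((n : ℝ) + 2) * c) := by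
  intro M _ f ka
  set S : ℕ → (Fin D → ZMod M) → ℂ := fun i x =>
    ((Real.sqrt (∑ j ∈ range (2 ^ (n - i)),
      ‖T (mu (A + (j + 1) * 2 ^ i)) f x - T (mu (A + j * 2 ^ i)) f x‖ ^ 2) : ℝ) : ℂ) with hS
  have hSn : ∀ i x, ‖S i x‖ = Real.sqrt (∑ j ∈ range (2 ^ (n - i)),
      ‖T (mu (A + (j + 1) * 2 ^ i)) f x - T (mu (A + j * 2 ^ i)) f x‖ ^ 2) := by
    intro i x
    rw [hS]
    simp only [Complex.norm_real, Real.norm_eq_abs]
    exact abs_of_nonneg (Real.sqrt_nonneg _)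
  -- pointwise bound
  have hp : ∀ x, ‖T (fun xi => if A ≤ ka x ∧ ka x ≤ A + 2 ^ n then mu (ka x) xi else 0) f x‖ ≤
      ‖((‖T (mu A) f x‖ : ℝ) : ℂ) + ∑ i ∈ range (n + 1), ((‖S i x‖ : ℝ) : ℂ)‖ := by
    intro x
    have hr : ‖((‖T (mu A) f x‖ : ℝ) : ℂ) + ∑ i ∈ range (n + 1), ((‖S i x‖ : ℝ) : ℂ)‖ =
        ‖T (mu A) f x‖ + ∑ i ∈ range (n + 1), ‖S i x‖ := by
      rw [← Complex.ofReal_sum, ← Complex.ofReal_add, Complex.norm_real, Real.norm_eq_abs]
      exact abs_of_nonneg (add_nonneg (norm_nonneg _)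
        (Finset.sum_nonneg fun i _ => norm_nonneg _))
    rw [hr]
    by_cases hk : A ≤ ka x ∧ ka x ≤ A + 2 ^ n
    · have e1 : (fun xi : Fin D → ℝ => if A ≤ ka x ∧ ka x ≤ A + 2 ^ n then mu (ka x) xi else 0) =
          mu (ka x) := by
        funext xi
        exact if_pos hk
      rw [e1]
      have e2 := Pool.PolyMax.rm (fun k => T (mu k) f x) A n (ka x - A) (by omega)
      rw [Nat.add_sub_cancel' hk.1] at e2
      refine e2.trans ?_
      refine add_le_add le_rfl (Finset.sum_le_sum fun i _ => ?_)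
      rw [hSn]
    · have e1 : (fun xi : Fin D → ℝ => if A ≤ ka x ∧ ka x ≤ A + 2 ^ n then mu (ka x) xi else 0) =
          fun _ => 0 := by
        funext xi
        exact if_neg hk
      rw [e1, T_zero, norm_zero]
      exact add_nonneg (norm_nonneg _) (Finset.sum_nonneg fun i _ => norm_nonneg _)
  have hnn : ∀ g : (Fin D → ZMod M) → ℂ, nrm (fun x => ((‖g x‖ : ℝ) : ℂ)) = nrm g := by
    intro g
    refine le_antisymm (nrm_mono fun x => ?_) (nrm_mono fun x => ?_)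
    · rw [Complex.norm_real, norm_norm]
    · rw [Complex.norm_real, norm_norm]
  have hSi : ∀ i ∈ range (n + 1), nrm (S i) ≤ c * nrm f := by
    intro i hi
    have hi' : i ≤ n := Nat.lt_succ_iff.1 (Finset.mem_range.1 hi)
    have e1 : nrm (S i) ^ 2 ≤ (c * nrm f) ^ 2 := by
      rw [nrm_sq, mul_pow]
      calc ∑ x, ‖S i x‖ ^ 2 = ∑ x, ∑ j ∈ range (2 ^ (n - i)),
            ‖T (fun xi => mu (A + (j + 1) * 2 ^ i) xi - mu (A + j * 2 ^ i) xi) f x‖ ^ 2 := by
            refine Finset.sum_congr rfl fun x _ => ?_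
            rw [hSn, Real.sq_sqrt (Finset.sum_nonneg fun j _ => by positivity)]
            refine Finset.sum_congr rfl fun j _ => ?_
            rw [T_sub]
        _ = ∑ j ∈ range (2 ^ (n - i)),
            nrm (T (fun xi => mu (A + (j + 1) * 2 ^ i) xi - mu (A + j * 2 ^ i) xi) f) ^ 2 := by
            rw [Finset.sum_comm]
            exact Finset.sum_congr rfl fun j _ => (nrm_sq _).symm
        _ ≤ c ^ 2 * nrm f ^ 2 := sum_nrm_T_le (range (2 ^ (n - i)))
            (fun j xi => mu (A + (j + 1) * 2 ^ i) xi - mu (A + j * 2 ^ i) xi) (c ^ 2)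
            (fun xi => h1 i hi' xi) f
    exact le_of_sq_le_sq e1 (mul_nonneg hc (nrm_nonneg f))
  calc nrm (fun x => T (fun xi => if A ≤ ka x ∧ ka x ≤ A + 2 ^ n then mu (ka x) xi else 0) f x)
      ≤ nrm (fun x => ((‖T (mu A) f x‖ : ℝ) : ℂ) + ∑ i ∈ range (n + 1), ((‖S i x‖ : ℝ) : ℂ)) :=
        nrm_mono hp
    _ ≤ nrm (fun x => ((‖T (mu A) f x‖ : ℝ) : ℂ)) +
        nrm (fun x => ∑ i ∈ range (n + 1), ((‖S i x‖ : ℝ) : ℂ)) := nrm_add_le _ _
    _ ≤ nrm (T (mu A) f) + ∑ i ∈ range (n + 1), nrm (S i) := by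
        refine add_le_add (hnn _).le ?_
        refine (nrm_sum_le _ _).trans (Finset.sum_le_sum fun i _ => (hnn _).le)
    _ ≤ c * nrm f + ∑ i ∈ range (n + 1), c * nrm f :=
        add_le_add (nrm_T_le (mu A) c h0 f) (Finset.sum_le_sum hSi)
    _ = ((n : ℝ) + 2) * c * nrm f := by
        rw [Finset.sum_const, Finset.card_range, nsmul_eq_mul]
        push_cast
        ring

end Pool.PolyMax
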