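import Pool.Agent.PolyMax.MaxErg
import Pool.Agent.PolyMax.MaxBdBasic

set_option autoImplicit false

/-!
# PolyMax: maximal bound for lattice averages

PROOF of `lattice_max`.  Put `r = D + 2`.
1. One variable.  `u n th ^ r = ∑_{y ∈ range (r n)} om y * e (y th)`, where
`om y = n^{-r} #{(y_1, ..., y_r) ∈ [0, n)^r : ∑ y_i = y} ∈ [0, 1 / n]` (for given `y_2, ..., y_r` at most
one `y_1`).  Since `∑_{b < Q} e (- y b / Q) = Q` if `Q ∣ y` and `0` otherwise,
`∑_{b < Q} u n (th - b / Q) ^ r = ∑_{z : Q z < r n} Q om (Q z) e (Q z th)`, with nonnegative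
coefficients `Q om (Q z) ≤ Q / n` and at most `r n / Q + 1 ≤ (r + 1) n / Q` values of `z` if `Q ≤ n`.
2. `Bl Q N xi = ∏_j (∑_{b < Q} u (N^{j+1}) (xi j - b / Q) ^ r)` (`Finset.prod_univ_sum`), and the
operator with multiplier `e (Q z xi_j)` is the translation `x ↦ x + Q z e_j` (`T_shift`).  So
`T (Bl Q N) f x = ∑_{z_1, ..., z_D} (∏_j Q om_j (Q z_j)) f (x + Q z)`, and with
`Z_j = ` the number of admissible values `z_j`, `1 ≤ Z_j ≤ (r + 1) N^{j+1} / Q`:
`|T (Bl Q N) f x| ≤ (r + 1)^D ∏_j Z_j^{-1} ∑_{z_j < Z_j} |f| (x + Q z)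
 ≤ (r + 1)^D (Mx tau_1 n0 (Mx tau_2 n0 (... (Mx tau_D n0 |f|)))) x`, `tau_j x = x + Q e_j`,
`n0` larger than all `Z_j` which occur (`ka` takes finitely many values); here the average over `z_j`
of a function is bounded by `Mx tau_j n0` of it, successively (`le_Mx`, `Mx_mono`, `Mx_nonneg`).
3. `sum_sq_Mx_le`, `D` times: `nrm (T (Bl Q (N (ka x))) f x) ≤ (r + 1)^D 2^D nrm f`.
The condition `Q ≤ N k` gives `Q ≤ N^{j+1}`.
-/

open Finset

namespace Pool.PolyMax

/-- Coefficients of the powers of `u`. -/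
private lemma pow_u (n : ℕ) (hn : 1 ≤ n) (r : ℕ) : ∃ om : ℕ → ℝ, (∀ s, 0 ≤ om s) ∧
    (∀ s, om s ≤ 1 / (n : ℝ)) ∧ (∀ s, (r + 1) * n ≤ s → om s = 0) ∧
    ∀ th : ℝ, u n th ^ (r + 1) = ∑ s ∈ range ((r + 1) * n), (om s : ℂ) * e ((s : ℝ) * th) := by
  have hn0 : (0 : ℝ) < n := by exact_mod_cast hn
  induction r with
  | zero =>
    refine ⟨fun s => if s < n then 1 / (n : ℝ) else 0, fun s => ?_, fun s => ?_, fun s hs => ?_,
      fun th => ?_⟩
    · simp only
      split_ifs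
      · positivity
      · exact le_rfl
    · simp only
      split_ifs
      · exact le_rfl
      · positivity
    · simp only
      rw [if_neg (by omega)]
    · rw [zero_add, pow_one, one_mul, u, Finset.mul_sum]
      refine Finset.sum_congr rfl fun s hs => ?_
      simp only [if_pos (Finset.mem_range.mp hs)]
      push_cast
      rw [one_div]
  | succ r ih =>
    obtain ⟨om, h0, h1, h2, h3⟩ := ih
    refine ⟨fun t => ∑ p ∈ ((range ((r + 1) * n)) ×ˢ (range n)).filter (fun p => p.1 + p.2 = t),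
      om p.1 / n, fun t => ?_, fun t => ?_, fun t ht => ?_, fun th => ?_⟩
    · exact Finset.sum_nonneg fun p _ => div_nonneg (h0 _) hn0.le
    · have hc : (((range ((r + 1) * n)) ×ˢ (range n)).filter (fun p => p.1 + p.2 = t)).card ≤ n := by
        have : (((range ((r + 1) * n)) ×ˢ (range n)).filter (fun p => p.1 + p.2 = t)).card ≤
            (range n).card := by
          apply Finset.card_le_card_of_injOn (fun p => p.2)
          · intro p hp
            have hp' := Finset.mem_coe.mp hp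
            rw [Finset.mem_filter, Finset.mem_product] at hp'
            exact Finset.mem_coe.mpr hp'.1.2
          · intro p hp q hq hpq
            have hp' := Finset.mem_coe.mp hp
            have hq' := Finset.mem_coe.mp hq
            rw [Finset.mem_filter] at hp' hq'
            have e1 := hp'.2
            have e2 := hq'.2
            simp only at hpq
            apply Prod.ext
            · omega
            · exact hpq
        rwa [Finset.card_range] at this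
      calc ∑ p ∈ ((range ((r + 1) * n)) ×ˢ (range n)).filter (fun p => p.1 + p.2 = t), om p.1 / n
          ≤ ∑ p ∈ ((range ((r + 1) * n)) ×ˢ (range n)).filter (fun p => p.1 + p.2 = t),
              (1 / (n : ℝ)) / n := by
            refine Finset.sum_le_sum fun p _ => ?_
            have := h1 p.1
            gcongr
        _ = ((((range ((r + 1) * n)) ×ˢ (range n)).filter (fun p => p.1 + p.2 = t)).card : ℝ) *
              ((1 / (n : ℝ)) / n) := by rw [Finset.sum_const, nsmul_eq_mul]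
        _ ≤ (n : ℝ) * ((1 / (n : ℝ)) / n) := by
            have hc' : ((((range ((r + 1) * n)) ×ˢ (range n)).filter
              (fun p => p.1 + p.2 = t)).card : ℝ) ≤ n := by exact_mod_cast hc
            gcongr
        _ = 1 / (n : ℝ) := by field_simp
    · simp only
      apply Finset.sum_eq_zero
      intro p hp
      rw [Finset.mem_filter, Finset.mem_product, Finset.mem_range, Finset.mem_range] at hp
      exfalso
      have e1 := hp.1.1
      have e2 := hp.1.2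
      have e3 := hp.2
      have e4 : (r + 1 + 1) * n = (r + 1) * n + n := by ring
      omega
    · have hmap : ∀ p ∈ ((range ((r + 1) * n)) ×ˢ (range n)),
          p.1 + p.2 ∈ range ((r + 1 + 1) * n) := by
        intro p hp
        rw [Finset.mem_product, Finset.mem_range, Finset.mem_range] at hp
        rw [Finset.mem_range]
        have e4 : (r + 1 + 1) * n = (r + 1) * n + n := by ring
        have e1 := hp.1
        have e2 := hp.2
        omega
      rw [pow_succ, h3 th, u, Finset.mul_sum, Finset.sum_mul_sum, ← Finset.sum_product',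
        ← Finset.sum_fiberwise_of_maps_to hmap]
      refine Finset.sum_congr rfl fun t _ => ?_
      push_cast
      rw [Finset.sum_mul]
      refine Finset.sum_congr rfl fun p hp => ?_
      rw [Finset.mem_filter] at hp
      have e3 : (t : ℝ) = (p.1 : ℝ) + (p.2 : ℝ) := by
        rw [← hp.2]; push_cast; rfl
      rw [e3, add_mul, e_add]
      ring

/-- Orthogonality. -/
private lemma sum_e_neg (Q s : ℕ) (hQ : 1 ≤ Q) :
    ∑ b ∈ range Q, e (-((s : ℝ) * ((b : ℝ) / (Q : ℝ)))) = if Q ∣ s then (Q : ℂ) else 0 := by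
  have hQ0 : (Q : ℝ) ≠ 0 := by
    have : (0 : ℝ) < Q := by exact_mod_cast hQ
    exact this.ne'
  split_ifs with h
  · obtain ⟨k, rfl⟩ := h
    rw [Finset.sum_congr rfl (g := fun _ => (1 : ℂ)), Finset.sum_const, Finset.card_range,
      nsmul_eq_mul, mul_one]
    intro b _
    have : -(((Q * k : ℕ) : ℝ) * ((b : ℝ) / (Q : ℝ))) = ((-((k : ℤ) * (b : ℤ)) : ℤ) : ℝ) := by
      push_cast
      field_simp
    rw [this, e_int]
  · have h1 : ∀ b ∈ range Q, e (-((s : ℝ) * ((b : ℝ) / (Q : ℝ)))) =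
        e (((-(s : ℤ) : ℤ) : ℝ) / (Q : ℝ)) ^ b := by
      intro b _
      rw [← e_nat_mul]
      congr 1
      push_cast
      ring
    rw [Finset.sum_congr rfl h1]
    have h2 : e (((-(s : ℤ) : ℤ) : ℝ) / (Q : ℝ)) ≠ 1 := by
      intro h3
      have h4 := four_dz_le (((-(s : ℤ) : ℤ) : ℝ) / (Q : ℝ))
      rw [h3, sub_self, norm_zero] at h4
      have h5 := one_div_le_dz (-(s : ℤ)) Q hQ (by
        rw [Int.dvd_neg]
        exact_mod_cast h)
      have h6 : (0 : ℝ) < 1 / (Q : ℝ) := by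
        have : (0 : ℝ) < Q := by exact_mod_cast hQ
        positivity
      linarith
    rw [geom_sum_eq h2, ← e_nat_mul]
    have h7 : (Q : ℝ) * (((-(s : ℤ) : ℤ) : ℝ) / (Q : ℝ)) = ((-(s : ℤ) : ℤ) : ℝ) := by
      field_simp
    rw [h7, e_int, sub_self, zero_div]

/-- The one variable factor. -/
private lemma one_var (r n Q : ℕ) (hn : 1 ≤ n) (hQ : 1 ≤ Q) :
    ∃ c : ℕ → ℝ, (∀ z, 0 ≤ c z) ∧ (∀ z, c z ≤ (Q : ℝ) / n) ∧ ∀ th : ℝ,
      ∑ b ∈ range Q, u n (th - (b : ℝ) / (Q : ℝ)) ^ (r + 1) =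
        ∑ z ∈ range ((r + 1) * n / Q + 1), (c z : ℂ) * e (th * ((Q * z : ℕ) : ℝ)) := by
  obtain ⟨om, h0, h1, h2, h3⟩ := pow_u n hn r
  have hn0 : (0 : ℝ) < n := by exact_mod_cast hn
  have hQ0 : (0 : ℝ) < Q := by exact_mod_cast hQ
  refine ⟨fun z => Q * om (Q * z), fun z => mul_nonneg hQ0.le (h0 _), fun z => ?_, fun th => ?_⟩
  · have := h1 (Q * z)
    calc (Q : ℝ) * om (Q * z) ≤ Q * (1 / n) := by gcongr
      _ = Q / n := by ring
  · have e1 : ∀ b ∈ range Q, u n (th - (b : ℝ) / (Q : ℝ)) ^ (r + 1) =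
        ∑ s ∈ range ((r + 1) * n), ((om s : ℂ) * e ((s : ℝ) * th)) *
          e (-((s : ℝ) * ((b : ℝ) / (Q : ℝ)))) := by
      intro b _
      rw [h3]
      refine Finset.sum_congr rfl fun s _ => ?_
      rw [mul_sub, sub_eq_add_neg, e_add]
      ring
    rw [Finset.sum_congr rfl e1, Finset.sum_comm]
    have e2 : ∀ s ∈ range ((r + 1) * n), ∑ b ∈ range Q, ((om s : ℂ) * e ((s : ℝ) * th)) *
          e (-((s : ℝ) * ((b : ℝ) / (Q : ℝ)))) =
          if Q ∣ s then (Q : ℂ) * (om s : ℂ) * e ((s : ℝ) * th) else 0 := by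
      intro s _
      rw [← Finset.mul_sum, sum_e_neg Q s hQ]
      split_ifs
      · ring
      · rw [mul_zero]
    rw [Finset.sum_congr rfl e2, ← Finset.sum_filter]
    have e3 : ∑ z ∈ range ((r + 1) * n / Q + 1), ((Q * om (Q * z) : ℝ) : ℂ) *
        e (th * ((Q * z : ℕ) : ℝ)) =
        ∑ s ∈ (range ((r + 1) * n / Q + 1)).image (fun z => Q * z),
          (Q : ℂ) * (om s : ℂ) * e ((s : ℝ) * th) := by
      rw [Finset.sum_image]
      · refine Finset.sum_congr rfl fun z _ => ?_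
        rw [mul_comm th]
        push_cast
        ring
      · intro a _ b _ hab
        exact Nat.eq_of_mul_eq_mul_left hQ hab
    rw [e3]
    apply Finset.sum_subset
    · intro s hs
      rw [Finset.mem_filter, Finset.mem_range] at hs
      obtain ⟨hs1, k, rfl⟩ := hs
      rw [Finset.mem_image]
      refine ⟨k, ?_, rfl⟩
      rw [Finset.mem_range]
      have : k ≤ (r + 1) * n / Q := by
        rw [Nat.le_div_iff_mul_le hQ, mul_comm]
        exact hs1.le
      omega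
    · intro s hs hs'
      rw [Finset.mem_image] at hs
      obtain ⟨z, -, rfl⟩ := hs
      have : (r + 1) * n ≤ Q * z := by
        by_contra hlt
        apply hs'
        rw [Finset.mem_filter, Finset.mem_range]
        exact ⟨by omega, dvd_mul_right Q z⟩
      rw [h2 _ this]
      simp

/-- The translation in the direction of a coordinate. -/
private def tau {D : ℕ} (M Q : ℕ) (a : Fin D) : Equiv.Perm (Fin D → ZMod M) :=
  Equiv.addRight (fun j => (((Pi.single a Q : Fin D → ℕ) j : ℕ) : ZMod M))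

private lemma tau_pow {D : ℕ} (M Q : ℕ) (a : Fin D) (z : ℕ) (x : Fin D → ZMod M) :
    ((tau M Q a) ^ z) x = fun j => x j + (((Pi.single a (Q * z) : Fin D → ℕ) j : ℕ) : ZMod M) := by
  induction z with
  | zero =>
    funext j
    simp
  | succ z ih =>
    rw [pow_succ', Equiv.Perm.mul_apply, ih]
    funext j
    simp only [tau, Equiv.coe_addRight, Pi.add_apply]
    rcases eq_or_ne j a with h | h
    · subst h
      simp only [Pi.single_eq_same]
      push_cast
      ring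
    · simp only [Pi.single_eq_of_ne h]
      push_cast
      ring

/-- The operator of a one variable factor. -/
private lemma T_factor {D M : ℕ} [NeZero M] (Q Z : ℕ) (a : Fin D) (c : ℕ → ℝ)
    (h : (Fin D → ZMod M) → ℂ) (x : Fin D → ZMod M) :
    T (fun xi => ∑ z ∈ range Z, (c z : ℂ) * e (xi a * ((Q * z : ℕ) : ℝ))) h x =
      ∑ z ∈ range Z, (c z : ℂ) * h (((tau M Q a) ^ z) x) := by
  rw [T_sum (range Z) (fun z xi => (c z : ℂ) * e (xi a * ((Q * z : ℕ) : ℝ)))]
  refine Finset.sum_congr rfl fun z _ => ?_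
  rw [T_const_mul (c z : ℂ) (fun xi => e (xi a * ((Q * z : ℕ) : ℝ))), tau_pow]
  congr 1
  refine Eq.trans ?_ (T_shift (Pi.single a (Q * z)) h x)
  congr 1
  funext xi
  congr 1
  rw [Finset.sum_eq_single a]
  · rw [Pi.single_eq_same]
  · intro j _ hj
    rw [Pi.single_eq_of_ne hj]
    simp
  · intro ha
    exact absurd (Finset.mem_univ a) ha

/-- The factor of the coordinate `j` at scale `N`. -/
private noncomputable def Pj (D Q N : ℕ) (j : Fin D) (th : ℝ) : ℂ :=
  ∑ b ∈ range Q, u (N ^ ((j : ℕ) + 1)) (th - (b : ℝ) / (Q : ℝ)) ^ (D + 2)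

private lemma Bl_eq {D : ℕ} (Q N : ℕ) (xi : Fin D → ℝ) :
    Bl Q N xi = ∏ j : Fin D, Pj D Q N j (xi j) := by
  unfold Bl Pj w
  rw [Finset.prod_univ_sum]
  rfl

private lemma Pj_bound (D Q N B : ℕ) (hQ : 1 ≤ Q) (hQN : Q ≤ N) (hNB : N ≤ B) {M : ℕ} [NeZero M]
    (a : Fin D) (h : (Fin D → ZMod M) → ℂ) (K : ℝ) (hK : 0 ≤ K) (G : (Fin D → ZMod M) → ℝ)
    (hG : ∀ x, 0 ≤ G x) (hh : ∀ x, ‖h x‖ ≤ K * G x) (x : Fin D → ZMod M) :
    ‖T (fun xi => Pj D Q N a (xi a)) h x‖ ≤
      (((D : ℝ) + 3) * K) * Mx (tau M Q a) ((D + 2) * B ^ D) G x := by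
  set n : ℕ := N ^ ((a : ℕ) + 1) with hndef
  have hN : 1 ≤ N := hQ.trans hQN
  have hn : 1 ≤ n := Nat.one_le_pow _ _ hN
  have hn0 : (0 : ℝ) < n := by exact_mod_cast hn
  have hQ0 : (0 : ℝ) < Q := by exact_mod_cast hQ
  have hQn : Q ≤ n := hQN.trans (by
    rw [hndef, pow_succ]
    exact Nat.le_mul_of_pos_left N (Nat.one_le_pow _ _ hN))
  obtain ⟨c, hc0, hc1, hc2⟩ := one_var (D + 1) n Q hn hQ
  have e0 : (fun xi : Fin D → ℝ => Pj D Q N a (xi a)) = fun xi =>
      ∑ z ∈ range ((D + 1 + 1) * n / Q + 1), (c z : ℂ) * e (xi a * ((Q * z : ℕ) : ℝ)) := by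
    funext xi
    exact hc2 (xi a)
  rw [e0, T_factor]
  set Z : ℕ := (D + 1 + 1) * n / Q + 1 with hZdef
  have hZ0 : (0 : ℝ) < Z := by
    have : 0 < Z := Nat.succ_pos _
    exact_mod_cast this
  have hZle : (Q : ℝ) / n * Z ≤ (D : ℝ) + 3 := by
    have h1 : (((D + 1 + 1) * n / Q : ℕ) : ℝ) * Q ≤ ((D : ℝ) + 2) * n := by
      have := Nat.div_mul_le_self ((D + 1 + 1) * n) Q
      have h2 : (((D + 1 + 1) * n / Q * Q : ℕ) : ℝ) ≤ (((D + 1 + 1) * n : ℕ) : ℝ) := by
        exact_mod_cast this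
      push_cast at h2
      push_cast
      linarith
    have h3 : (Q : ℝ) ≤ n := by exact_mod_cast hQn
    rw [div_mul_eq_mul_div, div_le_iff₀ hn0]
    have h4 : (Z : ℝ) = (((D + 1 + 1) * n / Q : ℕ) : ℝ) + 1 := by
      rw [hZdef]; push_cast; rfl
    rw [h4]
    nlinarith
  have hZn0 : Z ≤ (D + 2) * B ^ D + 1 := by
    have h1 : (D + 1 + 1) * n / Q ≤ (D + 1 + 1) * n := Nat.div_le_self _ _
    have hB1 : 1 ≤ B := hN.trans hNB
    have h2 : n ≤ B ^ D := by
      calc n = N ^ ((a : ℕ) + 1) := hndef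
        _ ≤ B ^ ((a : ℕ) + 1) := Nat.pow_le_pow_left hNB _
        _ ≤ B ^ D := Nat.pow_le_pow_right hB1 a.2
    have h3 : (D + 1 + 1) * n ≤ (D + 2) * B ^ D := Nat.mul_le_mul_left _ h2
    omega
  have hMx := le_Mx (tau M Q a) ((D + 2) * B ^ D) G x Z (Nat.succ_pos _) hZn0
  have hMx0 := Mx_nonneg (tau M Q a) ((D + 2) * B ^ D) hG x
  have hS : ∑ z ∈ range Z, G (((tau M Q a) ^ z) x) ≤ Z * Mx (tau M Q a) ((D + 2) * B ^ D) G x := by
    rw [inv_mul_le_iff₀ hZ0] at hMx
    exact hMx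
  calc ‖∑ z ∈ range Z, (c z : ℂ) * h (((tau M Q a) ^ z) x)‖
      ≤ ∑ z ∈ range Z, ‖(c z : ℂ) * h (((tau M Q a) ^ z) x)‖ := norm_sum_le _ _
    _ ≤ ∑ z ∈ range Z, ((Q : ℝ) / n) * (K * G (((tau M Q a) ^ z) x)) := by
        refine Finset.sum_le_sum fun z _ => ?_
        rw [norm_mul, Complex.norm_real, Real.norm_eq_abs, abs_of_nonneg (hc0 z)]
        have h1 := hc1 z
        have h2 := hh (((tau M Q a) ^ z) x)
        have h3 := norm_nonneg (h (((tau M Q a) ^ z) x))
        gcongr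
    _ = ((Q : ℝ) / n) * (K * ∑ z ∈ range Z, G (((tau M Q a) ^ z) x)) := by
        rw [← Finset.mul_sum, ← Finset.mul_sum]
    _ ≤ ((Q : ℝ) / n) * (K * (Z * Mx (tau M Q a) ((D + 2) * B ^ D) G x)) := by gcongr
    _ = ((Q : ℝ) / n * Z) * (K * Mx (tau M Q a) ((D + 2) * B ^ D) G x) := by ring
    _ ≤ ((D : ℝ) + 3) * (K * Mx (tau M Q a) ((D + 2) * B ^ D) G x) := by gcongr
    _ = (((D : ℝ) + 3) * K) * Mx (tau M Q a) ((D + 2) * B ^ D) G x := by ring

private lemma iterate (D Q B : ℕ) (hQ : 1 ≤ Q) {M : ℕ} [NeZero M]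
    (f : (Fin D → ZMod M) → ℂ) (s : Finset (Fin D)) :
    ∃ G : (Fin D → ZMod M) → ℝ, (∀ x, 0 ≤ G x) ∧ (∑ x, G x ^ 2 ≤ 4 ^ s.card * ∑ x, ‖f x‖ ^ 2) ∧
      ∀ N : ℕ, Q ≤ N → N ≤ B → ∀ x,
        ‖T (fun xi => ∏ j ∈ s, Pj D Q N j (xi j)) f x‖ ≤ ((D : ℝ) + 3) ^ s.card * G x := by
  classical
  induction s using Finset.induction_on with
  | empty =>
    refine ⟨fun x => ‖f x‖, fun x => norm_nonneg _, by simp, fun N _ _ x => ?_⟩
    simp only [Finset.prod_empty, Finset.card_empty, pow_zero, one_mul]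
    rw [T_one]
  | insert a s ha ih =>
    obtain ⟨G, hG0, hG1, hG2⟩ := ih
    refine ⟨Mx (tau M Q a) ((D + 2) * B ^ D) G, fun x => Mx_nonneg _ _ hG0 x, ?_, ?_⟩
    · rw [Finset.card_insert_of_notMem ha, pow_succ]
      have h1 := sum_sq_Mx_le (tau M Q a) ((D + 2) * B ^ D) hG0
      linarith
    · intro N hQN hNB x
      have e1 : (fun xi : Fin D → ℝ => ∏ j ∈ insert a s, Pj D Q N j (xi j)) =
          fun xi => Pj D Q N a (xi a) * ∏ j ∈ s, Pj D Q N j (xi j) := by
        funext xi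
        rw [Finset.prod_insert ha]
      rw [e1, ← T_comp (fun xi : Fin D → ℝ => Pj D Q N a (xi a))
        (fun xi => ∏ j ∈ s, Pj D Q N j (xi j)), Finset.card_insert_of_notMem ha, pow_succ,
        mul_comm (((D : ℝ) + 3) ^ s.card)]
      exact Pj_bound D Q N B hQ hQN hNB a _ _ (by positivity) G hG0 (hG2 N hQN hNB) x

theorem lattice_max (D : ℕ) : ∃ C : ℝ, 0 < C ∧ ∀ (Q : ℕ), 1 ≤ Q → ∀ (N : ℕ → ℕ),
    MaxBd (fun k (xi : Fin D → ℝ) => if Q ≤ N k then Bl Q (N k) xi else 0) C := by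
  refine ⟨((D : ℝ) + 3) ^ D * 2 ^ D, by positivity, fun Q hQ N M _ f ka => ?_⟩
  obtain ⟨G, hG0, hG1, hG2⟩ := iterate D Q (Finset.univ.sup fun x => N (ka x)) hQ f Finset.univ
  rw [Finset.card_univ, Fintype.card_fin] at hG1 hG2
  have hpt : ∀ x, ‖T (fun xi => if Q ≤ N (ka x) then Bl Q (N (ka x)) xi else 0) f x‖ ≤
      ((D : ℝ) + 3) ^ D * G x := by
    intro x
    by_cases h : Q ≤ N (ka x)
    · simp only [if_pos h]
      have e1 : (fun xi : Fin D → ℝ => Bl Q (N (ka x)) xi) =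
          fun xi => ∏ j, Pj D Q (N (ka x)) j (xi j) := by
        funext xi
        exact Bl_eq Q (N (ka x)) xi
      rw [e1]
      exact hG2 (N (ka x)) h
        (Finset.le_sup (f := fun x => N (ka x)) (Finset.mem_univ x)) x
    · simp only [if_neg h]
      rw [T_zero, norm_zero]
      exact mul_nonneg (by positivity) (hG0 x)
  unfold nrm
  rw [show ((D : ℝ) + 3) ^ D * 2 ^ D * √(∑ x, ‖f x‖ ^ 2) =
      √((((D : ℝ) + 3) ^ D * 2 ^ D) ^ 2 * ∑ x, ‖f x‖ ^ 2) by
    rw [Real.sqrt_mul (by positivity), Real.sqrt_sq (by positivity)]]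
  apply Real.sqrt_le_sqrt
  calc ∑ x, ‖T (fun xi => if Q ≤ N (ka x) then Bl Q (N (ka x)) xi else 0) f x‖ ^ 2
      ≤ ∑ x, (((D : ℝ) + 3) ^ D * G x) ^ 2 := by
        refine Finset.sum_le_sum fun x _ => ?_
        have := hpt x
        gcongr
    _ = (((D : ℝ) + 3) ^ D) ^ 2 * ∑ x, G x ^ 2 := by
        rw [Finset.mul_sum]
        refine Finset.sum_congr rfl fun x _ => ?_
        ring
    _ ≤ (((D : ℝ) + 3) ^ D) ^ 2 * (4 ^ D * ∑ x, ‖f x‖ ^ 2) := by gcongr
    _ = (((D : ℝ) + 3) ^ D * 2 ^ D) ^ 2 * ∑ x, ‖f x‖ ^ 2 := by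
        rw [mul_pow, ← pow_mul, ← pow_mul, show (4 : ℝ) = 2 ^ 2 by norm_num, ← pow_mul,
          mul_comm D 2, mul_assoc]

end Pool.PolyMax
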