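import Pool.Agent.PolyMax.Basic

set_option autoImplicit false

/-!
# PolyMax: the model kernel

`u_decay` is `geom_bound` divided by `n`; `u_near`: `‖e (y th) - 1‖ ≤ 2 π dz (y th) ≤ 2 π y dz th`.
`w_near`: `‖∏ z_i - 1‖ ≤ ∑ ‖z_i - 1‖` for numbers of modulus at most `1`, applied to the
`D (D + 2)` factors.  `w_decay_coord`: all factors have modulus at most `1` and the factor
`u (N^{j+1}) (be j)^{D+2}` satisfies `u_decay`.  `w_decay`: some `j` has
`N^{j+1} dz (be j) ≥ sz N be / D`.  `w_congr`: periodicity.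
-/

open Finset

namespace Pool.PolyMax

lemma norm_u_le_one (n : ℕ) (th : ℝ) : ‖u n th‖ ≤ 1 := by
  rw [u, norm_mul, norm_inv, Complex.norm_natCast]
  rcases Nat.eq_zero_or_pos n with rfl | hn
  · simp
  · have hn' : (0 : ℝ) < n := by exact_mod_cast hn
    rw [inv_mul_le_iff₀ hn', mul_one]
    refine (norm_sum_le _ _).trans ?_
    simp [norm_e]

lemma u_decay (n : ℕ) (th : ℝ) : ‖u n th‖ * (2 * n * dz th) ≤ 1 := by
  rw [u, norm_mul, norm_inv, Complex.norm_natCast]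
  rcases Nat.eq_zero_or_pos n with rfl | hn
  · simp
  · have hn' : (0 : ℝ) < n := by exact_mod_cast hn
    have h := geom_bound th n
    calc (n : ℝ)⁻¹ * ‖∑ y ∈ range n, e ((y : ℝ) * th)‖ * (2 * n * dz th)
        = ((n : ℝ)⁻¹ * n) * (‖∑ y ∈ range n, e ((y : ℝ) * th)‖ * (2 * dz th)) := by ring
      _ = ‖∑ y ∈ range n, e ((y : ℝ) * th)‖ * (2 * dz th) := by
          rw [inv_mul_cancel₀ hn'.ne', one_mul]
      _ ≤ 1 := h

lemma u_near (n : ℕ) (hn : 1 ≤ n) (th : ℝ) : ‖u n th - 1‖ ≤ 2 * Real.pi * (n * dz th) := by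
  have hn' : (0 : ℝ) < n := by exact_mod_cast hn
  have hnC : (n : ℂ) ≠ 0 := by exact_mod_cast hn'.ne'
  have h1 : u n th - 1 = (n : ℂ)⁻¹ * ∑ y ∈ range n, (e ((y : ℝ) * th) - 1) := by
    rw [u, Finset.sum_sub_distrib, mul_sub]
    congr 1
    simp [hnC]
  rw [h1, norm_mul, norm_inv, Complex.norm_natCast, inv_mul_le_iff₀ hn']
  refine (norm_sum_le _ _).trans ?_
  have h2 : ∀ y ∈ range n, ‖e ((y : ℝ) * th) - 1‖ ≤ 2 * Real.pi * (n * dz th) := by
    intro y hy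
    have hy' : (y : ℝ) ≤ n := by exact_mod_cast (Finset.mem_range.mp hy).le
    calc ‖e ((y : ℝ) * th) - 1‖ ≤ 2 * Real.pi * dz ((y : ℝ) * th) := norm_e_sub_one_le_dz _
      _ ≤ 2 * Real.pi * (n * dz th) := by
          have := Real.pi_pos
          gcongr
          exact (dz_nat_mul_le y th).trans (mul_le_mul_of_nonneg_right hy' (dz_nonneg th))
  refine (Finset.sum_le_card_nsmul _ _ _ h2).trans ?_
  rw [card_range, nsmul_eq_mul]

lemma u_congr {x y : ℝ} {k : ℤ} (h : x - y = k) (n : ℕ) : u n x = u n y := by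
  rw [u, u]
  congr 1
  refine Finset.sum_congr rfl fun i _ => ?_
  apply e_congr (k := (i : ℤ) * k)
  push_cast
  rw [← h]
  ring

lemma norm_w_le_one {D : ℕ} (N : ℕ) (be : Fin D → ℝ) : ‖w N be‖ ≤ 1 := by
  rw [w, norm_prod]
  apply Finset.prod_le_one
  · intro i _; exact norm_nonneg _
  · intro i _
    rw [norm_pow]
    exact pow_le_one₀ (norm_nonneg _) (norm_u_le_one _ _)

lemma kernel_norm_pow_sub_one {z : ℂ} (hz : ‖z‖ ≤ 1) (k : ℕ) : ‖z ^ k - 1‖ ≤ k * ‖z - 1‖ := by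
  induction k with
  | zero => simp
  | succ k ih =>
    have h1 : z ^ (k + 1) - 1 = z ^ k * (z - 1) + (z ^ k - 1) := by ring
    rw [h1]
    refine (norm_add_le _ _).trans ?_
    rw [norm_mul, norm_pow]
    have h2 : ‖z‖ ^ k * ‖z - 1‖ ≤ 1 * ‖z - 1‖ :=
      mul_le_mul_of_nonneg_right (pow_le_one₀ (norm_nonneg _) hz) (norm_nonneg _)
    push_cast
    linarith

lemma kernel_norm_prod_sub_one {ι : Type*} (s : Finset ι) (z : ι → ℂ) (hz : ∀ i ∈ s, ‖z i‖ ≤ 1) :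
    ‖∏ i ∈ s, z i - 1‖ ≤ ∑ i ∈ s, ‖z i - 1‖ := by
  classical
  induction s using Finset.induction_on with
  | empty => simp
  | insert a s ha ih =>
    rw [Finset.prod_insert ha, Finset.sum_insert ha]
    have h1 : z a * ∏ i ∈ s, z i - 1 = z a * (∏ i ∈ s, z i - 1) + (z a - 1) := by ring
    rw [h1]
    refine (norm_add_le _ _).trans ?_
    rw [norm_mul]
    have h2 := ih fun i hi => hz i (Finset.mem_insert_of_mem hi)
    have h3 : ‖z a‖ * ‖∏ i ∈ s, z i - 1‖ ≤ 1 * ‖∏ i ∈ s, z i - 1‖ :=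
      mul_le_mul_of_nonneg_right (hz a (Finset.mem_insert_self _ _)) (norm_nonneg _)
    linarith

lemma w_near {D : ℕ} (N : ℕ) (hN : 1 ≤ N) (be : Fin D → ℝ) :
    ‖w N be - 1‖ ≤ 2 * Real.pi * (D + 2) * sz N be := by
  rw [w]
  refine (kernel_norm_prod_sub_one _ _ fun i _ => ?_).trans ?_
  · rw [norm_pow]
    exact pow_le_one₀ (norm_nonneg _) (norm_u_le_one _ _)
  · rw [sz, Finset.mul_sum]
    refine Finset.sum_le_sum fun j _ => ?_
    refine (kernel_norm_pow_sub_one (norm_u_le_one _ _) _).trans ?_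
    have h1 := u_near (N ^ ((j : ℕ) + 1)) (Nat.one_le_pow _ _ hN) (be j)
    push_cast at h1 ⊢
    calc ((D : ℝ) + 2) * ‖u (N ^ ((j : ℕ) + 1)) (be j) - 1‖
        ≤ ((D : ℝ) + 2) * (2 * Real.pi * ((N : ℝ) ^ ((j : ℕ) + 1) * dz (be j))) := by gcongr
      _ = 2 * Real.pi * (D + 2) * ((N : ℝ) ^ ((j : ℕ) + 1) * dz (be j)) := by ring

lemma w_decay_coord {D : ℕ} (N : ℕ) (be : Fin D → ℝ) (j : Fin D) :
    ‖w N be‖ * ((N : ℝ) ^ ((j : ℕ) + 1) * dz (be j)) ^ (D + 2) ≤ 1 := by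
  have h1 : ‖w N be‖ ≤ ‖u (N ^ ((j : ℕ) + 1)) (be j)‖ ^ (D + 2) := by
    rw [w, norm_prod, ← Finset.mul_prod_erase _ _ (Finset.mem_univ j), norm_pow]
    refine mul_le_of_le_one_right (by positivity) ?_
    apply Finset.prod_le_one
    · intro i _; exact norm_nonneg _
    · intro i _
      rw [norm_pow]
      exact pow_le_one₀ (norm_nonneg _) (norm_u_le_one _ _)
  have h2 := u_decay (N ^ ((j : ℕ) + 1)) (be j)
  push_cast at h2
  have h3 : 0 ≤ (N : ℝ) ^ ((j : ℕ) + 1) * dz (be j) := mul_nonneg (by positivity) (dz_nonneg _)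
  calc ‖w N be‖ * ((N : ℝ) ^ ((j : ℕ) + 1) * dz (be j)) ^ (D + 2)
      ≤ ‖u (N ^ ((j : ℕ) + 1)) (be j)‖ ^ (D + 2) *
        ((N : ℝ) ^ ((j : ℕ) + 1) * dz (be j)) ^ (D + 2) := by gcongr
    _ = (‖u (N ^ ((j : ℕ) + 1)) (be j)‖ * ((N : ℝ) ^ ((j : ℕ) + 1) * dz (be j))) ^ (D + 2) :=
        (mul_pow _ _ _).symm
    _ ≤ 1 := by
        apply pow_le_one₀ (mul_nonneg (norm_nonneg _) h3)
        have h4 : 0 ≤ ‖u (N ^ ((j : ℕ) + 1)) (be j)‖ * ((N : ℝ) ^ ((j : ℕ) + 1) * dz (be j)) :=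
          mul_nonneg (norm_nonneg _) h3
        nlinarith

/-- Weaker form: only one factor `N`. -/
lemma w_decay_coord' {D : ℕ} (N : ℕ) (be : Fin D → ℝ) (j : Fin D) :
    ‖w N be‖ * ((N : ℝ) * dz (be j)) ^ (D + 2) ≤ 1 := by
  refine le_trans ?_ (w_decay_coord N be j)
  have hd := dz_nonneg (be j)
  rcases Nat.eq_zero_or_pos N with rfl | hN
  · simp
  · have hN' : (1 : ℝ) ≤ N := by exact_mod_cast hN
    have : (N : ℝ) ≤ (N : ℝ) ^ ((j : ℕ) + 1) := le_self_pow₀ hN' (by omega)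
    gcongr

lemma w_decay {D : ℕ} (N : ℕ) (be : Fin D → ℝ) :
    ‖w N be‖ * sz N be ^ (D + 2) ≤ (D : ℝ) ^ (D + 2) := by
  rcases Nat.eq_zero_or_pos D with rfl | hD
  · simp [sz]
  · have : Nonempty (Fin D) := ⟨⟨0, hD⟩⟩
    obtain ⟨j, -, hj⟩ := Finset.exists_max_image (univ : Finset (Fin D))
      (fun j => (N : ℝ) ^ ((j : ℕ) + 1) * dz (be j)) Finset.univ_nonempty
    have h1 : sz N be ≤ D * ((N : ℝ) ^ ((j : ℕ) + 1) * dz (be j)) := by
      rw [sz]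
      refine (Finset.sum_le_card_nsmul _ _ _ fun i hi => hj i hi).trans ?_
      simp
    have h2 := w_decay_coord N be j
    have h0 := sz_nonneg N be
    calc ‖w N be‖ * sz N be ^ (D + 2)
        ≤ ‖w N be‖ * (D * ((N : ℝ) ^ ((j : ℕ) + 1) * dz (be j))) ^ (D + 2) := by gcongr
      _ = (D : ℝ) ^ (D + 2) * (‖w N be‖ * ((N : ℝ) ^ ((j : ℕ) + 1) * dz (be j)) ^ (D + 2)) := by
          rw [mul_pow]; ring
      _ ≤ (D : ℝ) ^ (D + 2) * 1 := by gcongr
      _ = _ := mul_one _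

/-- In particular `‖w N be‖ * sz N be ≤ D`: take the `(D + 2)`-th root (`‖w‖ ≤ 1`). -/
lemma w_decay_one {D : ℕ} (N : ℕ) (be : Fin D → ℝ) : ‖w N be‖ * sz N be ≤ (D : ℝ) := by
  have h1 := w_decay N be
  have h2 := norm_w_le_one N be
  have h0 := sz_nonneg N be
  have h3 : (‖w N be‖ * sz N be) ^ (D + 2) ≤ (D : ℝ) ^ (D + 2) := by
    rw [mul_pow]
    refine le_trans ?_ h1
    gcongr
    exact pow_le_of_le_one (norm_nonneg _) h2 (by omega)
  exact (pow_le_pow_iff_left₀ (mul_nonneg (norm_nonneg _) h0) (by positivity) (by omega)).mp h3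

lemma w_congr {D : ℕ} {xi eta : Fin D → ℝ} (h : ∀ j, ∃ k : ℤ, xi j - eta j = k) (N : ℕ) :
    w N xi = w N eta := by
  rw [w, w]
  refine Finset.prod_congr rfl fun j _ => ?_
  obtain ⟨k, hk⟩ := h j
  rw [u_congr hk]

end Pool.PolyMax
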