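import Pool.Agent.PolyMax.Basic

set_option autoImplicit false
set_option linter.all false

/-!
# PolyMax: separation of reduced fractions

`sep`.  PROOF: if for all `j` the integer `a_j q' - a'_j q` were divisible by `q q'`, then
`q ∣ a_j q'` for all `j`, so `q ∣ q'` (put `d = q / gcd (q, q')`, then `d ∣ a_j` for all `j`, `d ∣ q`,
so `d = 1` by `Red`), similarly `q' ∣ q`, so `q = q'` and `q ∣ a_j - a'_j`, so `a = a'` as all
`a_j, a'_j < q`.  So for some `j` it is not divisible and `one_div_le_dz` applies to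
`a_j / q - a'_j / q' = (a_j q' - a'_j q) / (q q')`.

`redF_one_le`: `redF D 0` is empty if `D ≥ 1`; hence the hypothesis `1 ≤ q` is stated explicitly.
-/

open Finset

namespace Pool.PolyMax

lemma mem_redF {D q : ℕ} {a : Fin D → ℕ} : a ∈ redF D q ↔ (∀ j, a j < q) ∧ Red q a := by
  classical
  unfold redF
  rw [mem_filter, Fintype.mem_piFinset]
  simp only [mem_range]

lemma card_redF_le (D q : ℕ) : (redF D q).card ≤ q ^ D := by
  classical
  unfold redF
  refine (card_filter_le _ _).trans ?_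
  rw [Fintype.card_piFinset]
  simp

/-- If `q ∣ a_j q'` for all `j` and `a / q` is reduced, then `q ∣ q'`. -/
lemma dvd_of_red {D q q' : ℕ} (hq : 1 ≤ q) {a : Fin D → ℕ} (ha : Red q a)
    (h : ∀ j, q ∣ a j * q') : q ∣ q' := by
  have hg : 0 < Nat.gcd q q' := Nat.gcd_pos_of_pos_left _ hq
  obtain ⟨d, e, hcop, hd, he⟩ := Nat.exists_coprime q q'
  have hd1 : d = 1 := by
    refine ha d ⟨Nat.gcd q q', hd⟩ fun j => ?_
    obtain ⟨c, hc⟩ := h j
    have h1 : a j * e = d * c := by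
      apply Nat.eq_of_mul_eq_mul_right hg
      calc a j * e * Nat.gcd q q' = a j * (e * Nat.gcd q q') := by ring
        _ = a j * q' := by rw [← he]
        _ = q * c := hc
        _ = d * Nat.gcd q q' * c := by rw [← hd]
        _ = d * c * Nat.gcd q q' := by ring
    exact hcop.dvd_of_dvd_mul_right ⟨c, h1⟩
  rw [hd1, one_mul] at hd
  rw [hd]
  exact Nat.gcd_dvd_right q q'

theorem sep {D q q' : ℕ} (hq : 1 ≤ q) (hq' : 1 ≤ q') {a a' : Fin D → ℕ} (ha : a ∈ redF D q)
    (ha' : a' ∈ redF D q') (hne : ¬ (q = q' ∧ a = a')) :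
    ∃ j, 1 / ((q : ℝ) * q') ≤ dz ((a j : ℝ) / (q : ℝ) - (a' j : ℝ) / (q' : ℝ)) := by
  have hq0 : (q : ℝ) ≠ 0 := by exact_mod_cast (by omega : q ≠ 0)
  have hq0' : (q' : ℝ) ≠ 0 := by exact_mod_cast (by omega : q' ≠ 0)
  obtain ⟨hlt, hred⟩ := mem_redF.1 ha
  obtain ⟨hlt', hred'⟩ := mem_redF.1 ha'
  by_cases hall : ∀ j, ((q * q' : ℕ) : ℤ) ∣ (a j : ℤ) * q' - a' j * q
  · exfalso
    have h1 : q ∣ q' := by
      refine dvd_of_red hq hred fun j => ?_
      have h2 : (q : ℤ) ∣ (a j : ℤ) * q' - a' j * q :=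
        (Dvd.intro (q' : ℤ) (by push_cast; ring)).trans (hall j)
      have h3 : (q : ℤ) ∣ (a j : ℤ) * q' := by
        have := dvd_add h2 (Dvd.intro_left (a' j : ℤ) rfl)
        rwa [sub_add_cancel] at this
      exact_mod_cast h3
    have h1' : q' ∣ q := by
      refine dvd_of_red hq' hred' fun j => ?_
      have h2 : (q' : ℤ) ∣ (a j : ℤ) * q' - a' j * q :=
        (Dvd.intro_left (q : ℤ) (by push_cast; ring)).trans (hall j)
      have h3 : (q' : ℤ) ∣ (a' j : ℤ) * q := by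
        have := dvd_sub (Dvd.intro_left (a j : ℤ) rfl) h2
        rwa [sub_sub_cancel] at this
      exact_mod_cast h3
    have hqq : q = q' := Nat.dvd_antisymm h1 h1'
    subst hqq
    refine hne ⟨rfl, funext fun j => ?_⟩
    obtain ⟨c, hc⟩ := hall j
    have hqz : (q : ℤ) ≠ 0 := by exact_mod_cast (by omega : q ≠ 0)
    have h4 : (a j : ℤ) - a' j = q * c := by
      apply mul_right_cancel₀ hqz
      push_cast at hc
      linear_combination hc
    have h5 := hlt j
    have h6 := hlt' j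
    have h7 : (a j : ℤ) = a' j := by
      have h8 : (a j : ℤ) - a' j < q := by
        have : (a j : ℤ) < q := by exact_mod_cast h5
        have : (0 : ℤ) ≤ a' j := by positivity
        linarith
      have h9 : -(q : ℤ) < (a j : ℤ) - a' j := by
        have : (a' j : ℤ) < q := by exact_mod_cast h6
        have : (0 : ℤ) ≤ a j := by positivity
        linarith
      have hqp : (0 : ℤ) < q := by exact_mod_cast hq
      have hc0 : c = 0 := by
        have e1 : c < 1 := by nlinarith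
        have e2 : -1 < c := by nlinarith
        omega
      rw [hc0, mul_zero] at h4
      linarith
    exact_mod_cast h7
  · push Not at hall
    obtain ⟨j, hj⟩ := hall
    refine ⟨j, ?_⟩
    have h1 := one_div_le_dz ((a j : ℤ) * q' - a' j * q) (q * q') (Nat.mul_pos hq hq') hj
    have h2 : (((a j : ℤ) * q' - a' j * q : ℤ) : ℝ) / ((q * q' : ℕ) : ℝ) =
        (a j : ℝ) / (q : ℝ) - (a' j : ℝ) / (q' : ℝ) := by
      push_cast
      field_simp
    rw [h2] at h1
    rw [Nat.cast_mul] at h1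
    exact h1

/-- Every fraction `b / q` (with any integer numerators) is, modulo the integers, a reduced fraction
with a denominator dividing `q`. -/
theorem exists_reduced {D : ℕ} (q : ℕ) (hq : 1 ≤ q) (b : Fin D → ℤ) :
    ∃ (q' : ℕ) (a : Fin D → ℕ), 1 ≤ q' ∧ q' ∣ q ∧ a ∈ redF D q' ∧
      ∀ j, ∃ k : ℤ, (b j : ℝ) / (q : ℝ) - (a j : ℝ) / (q' : ℝ) = k := by
  have hqz : (q : ℤ) ≠ 0 := by exact_mod_cast (by omega : q ≠ 0)
  have hqp : (0 : ℤ) < q := by exact_mod_cast hq
  set c : Fin D → ℕ := fun j => (b j % q).toNat with hc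
  have hcz : ∀ j, (c j : ℤ) = b j % q := fun j => Int.toNat_of_nonneg (Int.emod_nonneg _ hqz)
  have hclt : ∀ j, c j < q := by
    intro j
    have : (c j : ℤ) < q := by
      rw [hcz]
      exact Int.emod_lt_of_pos _ hqp
    exact_mod_cast this
  set d : ℕ := Nat.gcd q (Finset.univ.gcd c) with hd
  have hdq : d ∣ q := Nat.gcd_dvd_left _ _
  have hdc : ∀ j, d ∣ c j := fun j =>
    (Nat.gcd_dvd_right _ _).trans (Finset.gcd_dvd (Finset.mem_univ j))
  have hd0 : 0 < d := Nat.gcd_pos_of_pos_left _ hq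
  obtain ⟨q', hq'⟩ := hdq
  choose a ha using hdc
  have hq'1 : 1 ≤ q' := by
    rcases Nat.eq_zero_or_pos q' with h | h
    · rw [h, mul_zero] at hq'
      omega
    · exact h
  refine ⟨q', a, hq'1, ⟨d, by rw [mul_comm]; exact hq'⟩, ?_, fun j => ⟨b j / q, ?_⟩⟩
  · rw [mem_redF]
    refine ⟨fun j => ?_, fun e he hea => ?_⟩
    · have h1 := hclt j
      rw [ha j, hq'] at h1
      exact Nat.lt_of_mul_lt_mul_left h1
    · have h1 : d * e ∣ d := by
        have h2 : d * e ∣ q := by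
          rw [hq']
          exact Nat.mul_dvd_mul_left d he
        have h3 : d * e ∣ Finset.univ.gcd c := by
          refine Finset.dvd_gcd fun j _ => ?_
          rw [ha j]
          exact Nat.mul_dvd_mul_left d (hea j)
        exact Nat.dvd_gcd h2 h3
      have h2 := Nat.le_of_dvd hd0 h1
      have h3 : 0 < e := by
        rcases Nat.eq_zero_or_pos e with h | h
        · rw [h] at he
          have := Nat.eq_zero_of_zero_dvd he
          omega
        · exact h
      nlinarith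
  · have h1 : (b j : ℝ) = c j + q * ((b j / q : ℤ) : ℝ) := by
      have h2 := Int.emod_add_mul_ediv (b j) q
      rw [← hcz j] at h2
      exact_mod_cast h2.symm
    have h2 : (c j : ℝ) = d * a j := by exact_mod_cast ha j
    have h3 : (q : ℝ) = d * q' := by exact_mod_cast hq'
    have hd' : (d : ℝ) ≠ 0 := by exact_mod_cast hd0.ne'
    have hq'' : (q' : ℝ) ≠ 0 := by exact_mod_cast (by omega : q' ≠ 0)
    rw [h1, h2, h3]
    field_simp
    ring

/-- The level of a denominator: `q ∈ [2 ^ s, 2 ^ (s + 1))` for `s = log2 q`, and if `q ^ E ≤ N` then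
`s` is used at scale `N`. -/
theorem level_mem {D q N : ℕ} (hq : 1 ≤ q) (h : q ^ Ex D ≤ N) :
    Nat.log 2 q ∈ sr D N ∧ q ∈ Ico (2 ^ Nat.log 2 q) (2 ^ (Nat.log 2 q + 1)) := by
  have h1 : 2 ^ Nat.log 2 q ≤ q := Nat.pow_log_le_self 2 (by omega)
  have h2 : q < 2 ^ (Nat.log 2 q + 1) := Nat.lt_pow_succ_log_self (by norm_num) q
  refine ⟨?_, mem_Ico.2 ⟨h1, h2⟩⟩
  unfold sr
  have hE : 1 ≤ Ex D := by
    unfold Ex
    omega
  have h3 : 2 ^ (Ex D * Nat.log 2 q) ≤ N := by
    calc 2 ^ (Ex D * Nat.log 2 q) = (2 ^ Nat.log 2 q) ^ Ex D := by rw [← pow_mul, mul_comm]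
      _ ≤ q ^ Ex D := Nat.pow_le_pow_left h1 _
      _ ≤ N := h
  rw [mem_filter, mem_range]
  refine ⟨?_, h3⟩
  have h4 : Nat.log 2 q < 2 ^ Nat.log 2 q := Nat.lt_two_pow_self
  have h5 : 2 ^ Nat.log 2 q ≤ 2 ^ (Ex D * Nat.log 2 q) :=
    Nat.pow_le_pow_right (by norm_num) (Nat.le_mul_of_pos_left _ hE)
  omega

/-- `2 ^ s ≤ N ^ (1 / E)` for the levels used at scale `N`. -/
theorem two_pow_le_of_mem_sr {D s N : ℕ} (hs : s ∈ sr D N) :
    (2 : ℝ) ^ s ≤ (N : ℝ) ^ (1 / (Ex D : ℝ)) := by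
  unfold sr at hs
  rw [mem_filter] at hs
  have hE : Ex D ≠ 0 := by
    unfold Ex
    omega
  have h1 : ((2 : ℝ) ^ s) ^ Ex D ≤ N := by
    rw [← pow_mul, mul_comm]
    exact_mod_cast hs.2
  calc (2 : ℝ) ^ s = (((2 : ℝ) ^ s) ^ Ex D) ^ (1 / (Ex D : ℝ)) := by
        rw [one_div, Real.pow_rpow_inv_natCast (by positivity) hE]
    _ ≤ (N : ℝ) ^ (1 / (Ex D : ℝ)) := Real.rpow_le_rpow (by positivity) h1 (by positivity)

end Pool.PolyMax
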