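import Pool.Agent.PolyMax.Complete
import Pool.Agent.PolyMax.Kernel
import Pool.Agent.PolyMax.Sep

set_option autoImplicit false

/-!
# PolyMax: factorisation of the level `s` multiplier at large scales

Write `Q = Qs s = (2^{s+1})!`; every `q < 2^{s+1}`, `q ≥ 1`, divides `Q`, and `2^{s+1} ≤ Q`.  Assume
`Q^4 ≤ N`.
PROOF of `norm_Pa_le`: at most one pair `(q, a)` of level `s` has `dz (fr xi q a j) < 1 / (4 Q)` for all
`j` (`sep`: otherwise `1 / Q ≤ 1 / (q q') ...`; more simply `a_j / q - a'_j / q'` is a multiple of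
`1 / Q` modulo the integers, not an integer for some `j`, so its `dz` is `≥ 1 / Q > 2 / (4 Q)`), and
`‖G q a‖ ≤ C q^{-δ} ≤ C 2^{-δ s}`.

PROOF of `lam_factor`.  Case 1: some `(q, a)` of level `s` is `1 / (4 Q)`-near, i.e.
`dz (fr xi q a j) < 1 / (4 Q)` for all `j`.  Let `b0 ∈ [0, Q)^D` be the numerators of `a / q` over the
denominator `Q`.  For `b ≠ b0` in `[0, Q)^D` some `j` has `dz (fr xi Q b j) ≥ 1 / Q - 1 / (4 Q)
= 3 / (4 Q)`, so `‖w N (fr xi Q b)‖ ≤ (2 Q / N)^{D+2}` (`w_decay_coord'`), and the sum over all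
`b ≠ b0` is at most `Q^D (2 Q / N)^{D+2} = 2^{D+2} Q^{2D+2} / N^{D+2} ≤ 2^{D+2} / N` (`Q^4 ≤ N`).
So `Pa s xi * Bl Q N xi = G q a * (w N (fr xi q a) + O(2^{D+2} / N))`.  The other terms of `Lam s N xi`
come from reduced fractions `a' / q'` different from `a / q`, i.e. with numerators `b' ≠ b0` over `Q`
(pairwise different for different reduced fractions): their sum is also `O(2^{D+2} / N)`.
Case 2: no pair of level `s` is near: `Pa s xi = 0`, and every pair has some `j` with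
`dz (fr xi q a j) ≥ 1 / (4 Q)`, so `‖w‖ ≤ (4 Q / N)^{D+2}`; there are at most
`2^{(s+1)(D+1)} ≤ Q^{D+1}` pairs: `‖Lam‖ ≤ 4^{D+2} Q^{2D+3} / N^{D+2} ≤ 4^{D+2} / N`.
-/

open Finset

namespace Pool.PolyMax

namespace LatticeAux

lemma Qs_pos (s : ℕ) : 1 ≤ Qs s := Nat.factorial_pos _

lemma dvd_Qs {s q : ℕ} (hq : q ∈ Ico (2 ^ s) (2 ^ (s + 1))) : 1 ≤ q ∧ q ∣ Qs s := by
  rw [mem_Ico] at hq
  have h1 : 1 ≤ q := le_trans Nat.one_le_two_pow hq.1
  exact ⟨h1, Nat.dvd_factorial h1 hq.2.le⟩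

lemma mul_le_Qs {s q q' : ℕ} (hq : q ∈ Ico (2 ^ s) (2 ^ (s + 1)))
    (hq' : q' ∈ Ico (2 ^ s) (2 ^ (s + 1))) : q * q' ≤ Qs s := by
  rw [mem_Ico] at hq hq'
  obtain ⟨k, hk⟩ : ∃ k, 2 ^ (s + 1) = k + 2 := by
    have h2 : 2 ≤ 2 ^ (s + 1) := by
      calc 2 = 2 ^ 1 := by norm_num
        _ ≤ 2 ^ (s + 1) := Nat.pow_le_pow_right (by norm_num) (by omega)
    exact ⟨2 ^ (s + 1) - 2, by omega⟩
  unfold Qs
  rw [hk] at hq hq' ⊢
  have h1 : q ≤ k + 1 := by omega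
  have h2 : q' ≤ k + 2 := by omega
  have h3 : (k + 2).factorial = (k + 2) * ((k + 1) * k.factorial) := by
    rw [Nat.factorial_succ, Nat.factorial_succ]
  rw [h3]
  calc q * q' ≤ (k + 1) * (k + 2) := Nat.mul_le_mul h1 h2
    _ = (k + 2) * ((k + 1) * 1) := by ring
    _ ≤ (k + 2) * ((k + 1) * k.factorial) :=
        Nat.mul_le_mul_left _ (Nat.mul_le_mul_left _ (Nat.factorial_pos k))

/-- The pair `(q, a)` is near `xi`. -/
def Near {D : ℕ} (s : ℕ) (xi : Fin D → ℝ) (q : ℕ) (a : Fin D → ℕ) : Prop :=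
  ∀ j, dz (fr xi q a j) < 1 / (4 * (Qs s : ℝ))

lemma near_unique {D s q q' : ℕ} {xi : Fin D → ℝ} {a a' : Fin D → ℕ}
    (hq : q ∈ Ico (2 ^ s) (2 ^ (s + 1))) (hq' : q' ∈ Ico (2 ^ s) (2 ^ (s + 1)))
    (ha : a ∈ redF D q) (ha' : a' ∈ redF D q') (hn : Near s xi q a) (hn' : Near s xi q' a') :
    q = q' ∧ a = a' := by
  by_contra hne
  obtain ⟨j, hj⟩ := sep (dvd_Qs hq).1 (dvd_Qs hq').1 ha ha' hne
  have hQ : (0 : ℝ) < Qs s := by exact_mod_cast Qs_pos s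
  have h1 : (1 : ℝ) / (Qs s : ℝ) ≤ 1 / ((q : ℝ) * q') := by
    apply one_div_le_one_div_of_le
    · have := (dvd_Qs hq).1
      have := (dvd_Qs hq').1
      positivity
    · exact_mod_cast mul_le_Qs hq hq'
  have h2 : (a j : ℝ) / (q : ℝ) - (a' j : ℝ) / (q' : ℝ) = fr xi q' a' j - fr xi q a j := by
    unfold fr; ring
  rw [h2] at hj
  have h3 := dz_sub_le (fr xi q' a' j) (fr xi q a j)
  have h4 := hn j
  have h5 := hn' j
  have h6 : (1 : ℝ) / (4 * (Qs s : ℝ)) = (1 / (Qs s : ℝ)) / 4 := by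
    field_simp
  have h7 : 0 < (1 : ℝ) / (Qs s : ℝ) := by positivity
  rw [h6] at h4 h5
  linarith

/-- The pairs of level `s`. -/
noncomputable def PP (D s : ℕ) : Finset (Σ _ : ℕ, Fin D → ℕ) :=
  (Ico (2 ^ s) (2 ^ (s + 1))).sigma fun q => redF D q

lemma mem_PP {D s : ℕ} {p : Σ _ : ℕ, Fin D → ℕ} :
    p ∈ PP D s ↔ p.1 ∈ Ico (2 ^ s) (2 ^ (s + 1)) ∧ p.2 ∈ redF D p.1 := by
  unfold PP
  rw [mem_sigma]

open Classical in
lemma Pa_eq {D : ℕ} (s : ℕ) (xi : Fin D → ℝ) :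
    Pa s xi = ∑ p ∈ PP D s, if Near s xi p.1 p.2 then G p.1 p.2 else 0 := by
  unfold Pa PP
  rw [sum_sigma]
  refine sum_congr rfl fun q _ => sum_congr rfl fun a _ => ?_
  by_cases h : Near s xi q a
  · rw [if_pos h, if_pos (by exact h)]
  · rw [if_neg h, if_neg (by exact h)]

lemma Lam_eq {D : ℕ} (s N : ℕ) (xi : Fin D → ℝ) :
    Lam s N xi = ∑ p ∈ PP D s, G p.1 p.2 * w N (fr xi p.1 p.2) := by
  unfold Lam PP
  rw [sum_sigma]

lemma Pa_of_near {D s : ℕ} {xi : Fin D → ℝ} {p : Σ _ : ℕ, Fin D → ℕ} (hp : p ∈ PP D s)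
    (hn : Near s xi p.1 p.2) : Pa s xi = G p.1 p.2 := by
  classical
  rw [Pa_eq, sum_eq_single_of_mem p hp]
  · rw [if_pos hn]
  · intro p' hp' hne
    rw [if_neg]
    intro hn'
    rw [mem_PP] at hp hp'
    obtain ⟨h1, h2⟩ := near_unique hp'.1 hp.1 hp'.2 hp.2 hn' hn
    exact hne (Sigma.ext h1 (heq_of_eq h2))

lemma Pa_of_not_near {D s : ℕ} {xi : Fin D → ℝ}
    (h : ∀ p ∈ PP D s, ¬ Near s xi p.1 p.2) : Pa s xi = 0 := by
  classical
  rw [Pa_eq]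
  exact sum_eq_zero fun p hp => if_neg (h p hp)

/-- Numerators over the denominator `Q`. -/
def num {D : ℕ} (s : ℕ) (p : Σ _ : ℕ, Fin D → ℕ) : Fin D → ℕ := fun j => p.2 j * (Qs s / p.1)

lemma num_div {D s : ℕ} {p : Σ _ : ℕ, Fin D → ℕ} (hp : p ∈ PP D s) (j : Fin D) :
    (num s p j : ℝ) / (Qs s : ℝ) = (p.2 j : ℝ) / (p.1 : ℝ) := by
  rw [mem_PP] at hp
  obtain ⟨h1, c, hc⟩ := dvd_Qs hp.1
  have hq : (p.1 : ℝ) ≠ 0 := by
    have : (0 : ℝ) < (p.1 : ℝ) := by exact_mod_cast h1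
    exact this.ne'
  have hc0 : 0 < c := by
    rcases Nat.eq_zero_or_pos c with h | h
    · rw [h, mul_zero] at hc
      have := Qs_pos s
      omega
    · exact h
  have hc1 : (c : ℝ) ≠ 0 := by
    have : (0 : ℝ) < (c : ℝ) := by exact_mod_cast hc0
    exact this.ne'
  unfold num
  rw [hc, Nat.mul_div_cancel_left c h1]
  push_cast
  field_simp

lemma fr_num {D s : ℕ} {p : Σ _ : ℕ, Fin D → ℕ} (hp : p ∈ PP D s) (xi : Fin D → ℝ) :
    fr xi p.1 p.2 = fr xi (Qs s) (num s p) := by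
  funext j
  unfold fr
  rw [num_div hp]

lemma num_mem {D s : ℕ} {p : Σ _ : ℕ, Fin D → ℕ} (hp : p ∈ PP D s) :
    num s p ∈ Fintype.piFinset fun _ : Fin D => range (Qs s) := by
  rw [Fintype.mem_piFinset]
  intro j
  rw [mem_range]
  rw [mem_PP] at hp
  obtain ⟨h1, c, hc⟩ := dvd_Qs hp.1
  have h2 := (mem_redF.1 hp.2).1 j
  have hQ := Qs_pos s
  unfold num
  rw [hc, Nat.mul_div_cancel_left c h1]
  have hc0 : 0 < c := by
    rcases Nat.eq_zero_or_pos c with h | h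
    · rw [h, mul_zero] at hc
      omega
    · exact h
  exact Nat.mul_lt_mul_of_pos_right h2 hc0

lemma num_inj {D s : ℕ} {p p' : Σ _ : ℕ, Fin D → ℕ} (hp : p ∈ PP D s) (hp' : p' ∈ PP D s)
    (h : num s p = num s p') : p = p' := by
  by_contra hne
  have hm := mem_PP.1 hp
  have hm' := mem_PP.1 hp'
  have hne2 : ¬ (p.1 = p'.1 ∧ p.2 = p'.2) := by
    rintro ⟨h1, h2⟩
    exact hne (Sigma.ext h1 (heq_of_eq h2))
  obtain ⟨j, hj⟩ := sep (dvd_Qs hm.1).1 (dvd_Qs hm'.1).1 hm.2 hm'.2 hne2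
  rw [← num_div hp j, ← num_div hp' j, h, sub_self, dz_zero] at hj
  have h1 : (0 : ℝ) < p.1 := by exact_mod_cast (dvd_Qs hm.1).1
  have h2 : (0 : ℝ) < p'.1 := by exact_mod_cast (dvd_Qs hm'.1).1
  have h3 : 0 < 1 / ((p.1 : ℝ) * p'.1) := by positivity
  linarith

lemma w_small {D N Q : ℕ} (hQ : 1 ≤ Q) (hN : 1 ≤ N) {be : Fin D → ℝ} {j : Fin D}
    (h : 1 / (4 * (Q : ℝ)) ≤ dz (be j)) : ‖w N be‖ ≤ (4 * (Q : ℝ) / N) ^ (D + 2) := by
  have hQ' : (0 : ℝ) < Q := by exact_mod_cast hQ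
  have hN' : (0 : ℝ) < N := by exact_mod_cast hN
  have h1 := w_decay_coord' N be j
  have h2 : ((N : ℝ) / (4 * Q)) ^ (D + 2) ≤ ((N : ℝ) * dz (be j)) ^ (D + 2) := by
    apply pow_le_pow_left₀ (by positivity)
    calc (N : ℝ) / (4 * Q) = N * (1 / (4 * Q)) := by ring
      _ ≤ N * dz (be j) := mul_le_mul_of_nonneg_left h hN'.le
  have h3 : ‖w N be‖ * ((N : ℝ) / (4 * Q)) ^ (D + 2) ≤ 1 :=
    le_trans (mul_le_mul_of_nonneg_left h2 (norm_nonneg _)) h1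
  have h4 : (4 * (Q : ℝ) / N) ^ (D + 2) * ((N : ℝ) / (4 * Q)) ^ (D + 2) = 1 := by
    rw [← mul_pow]
    have : 4 * (Q : ℝ) / N * (N / (4 * Q)) = 1 := by field_simp
    rw [this, one_pow]
  have h5 : 0 < ((N : ℝ) / (4 * Q)) ^ (D + 2) := by positivity
  rw [← h4] at h3
  exact le_of_mul_le_mul_right h3 h5

lemma card_bound {D N Q : ℕ} (hN : 1 ≤ N) (h : Q ^ 4 ≤ N) :
    (Q : ℝ) ^ D * (4 * (Q : ℝ) / N) ^ (D + 2) ≤ 4 ^ (D + 2) / N := by
  have hN' : (0 : ℝ) < N := by exact_mod_cast hN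
  have h1 : (Q : ℝ) ^ (2 * D + 2) ≤ (N : ℝ) ^ (D + 1) := by
    have : Q ^ (2 * D + 2) ≤ N ^ (D + 1) := by
      rcases Nat.eq_zero_or_pos Q with h0 | h0
      · rw [h0]
        rw [zero_pow (by omega)]
        exact Nat.zero_le _
      · calc Q ^ (2 * D + 2) ≤ Q ^ (4 * (D + 1)) := Nat.pow_le_pow_right h0 (by omega)
          _ = (Q ^ 4) ^ (D + 1) := by rw [pow_mul]
          _ ≤ N ^ (D + 1) := Nat.pow_le_pow_left h _
    exact_mod_cast this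
  have h2 : (Q : ℝ) ^ D * (4 * (Q : ℝ) / N) ^ (D + 2) =
      4 ^ (D + 2) * (Q : ℝ) ^ (2 * D + 2) / (N : ℝ) ^ (D + 2) := by
    rw [div_pow, mul_pow]
    rw [show 2 * D + 2 = D + (D + 2) by ring, pow_add (Q : ℝ) D (D + 2)]
    ring
  rw [h2, div_le_div_iff₀ (by positivity) hN', pow_succ (N : ℝ) (D + 1)]
  calc 4 ^ (D + 2) * (Q : ℝ) ^ (2 * D + 2) * N ≤ 4 ^ (D + 2) * (N : ℝ) ^ (D + 1) * N := by
        gcongr
    _ = 4 ^ (D + 2) * ((N : ℝ) ^ (D + 1) * N) := by ring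

lemma far_of_ne {D Q : ℕ} (hQ : 1 ≤ Q) {xi : Fin D → ℝ} {b b0 : Fin D → ℕ}
    (hb : b ∈ Fintype.piFinset fun _ : Fin D => range Q)
    (hb0 : b0 ∈ Fintype.piFinset fun _ : Fin D => range Q) (hne : b ≠ b0)
    (hn : ∀ j, dz (fr xi Q b0 j) < 1 / (4 * (Q : ℝ))) :
    ∃ j, 1 / (4 * (Q : ℝ)) ≤ dz (fr xi Q b j) := by
  obtain ⟨j, hj⟩ := Function.ne_iff.1 hne
  refine ⟨j, ?_⟩
  rw [Fintype.mem_piFinset] at hb hb0
  have h1 := mem_range.1 (hb j)
  have h2 := mem_range.1 (hb0 j)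
  have hdvd : ¬ (Q : ℤ) ∣ (b0 j : ℤ) - (b j : ℤ) := by
    intro hd
    have h3 : |(b0 j : ℤ) - (b j : ℤ)| < (Q : ℤ) := by
      rw [abs_lt]
      constructor <;> omega
    have h4 := Int.eq_zero_of_abs_lt_dvd hd h3
    apply hj
    omega
  have h5 := one_div_le_dz ((b0 j : ℤ) - (b j : ℤ)) Q hQ hdvd
  have h6 : (((b0 j : ℤ) - (b j : ℤ) : ℤ) : ℝ) / (Q : ℝ) = fr xi Q b j - fr xi Q b0 j := by
    unfold fr
    push_cast
    ring
  rw [h6] at h5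
  have h7 := dz_sub_le (fr xi Q b j) (fr xi Q b0 j)
  have h8 := hn j
  have h9 : (1 : ℝ) / (4 * (Q : ℝ)) = (1 / (Q : ℝ)) / 4 := by field_simp
  have hQ' : (0 : ℝ) < Q := by exact_mod_cast hQ
  have h10 : 0 < (1 : ℝ) / (Q : ℝ) := by positivity
  rw [h9] at h8 ⊢
  linarith

end LatticeAux

open LatticeAux

theorem norm_Pa_le (D : ℕ) : ∃ C de : ℝ, 0 < C ∧ 0 < de ∧ ∀ (s : ℕ) (xi : Fin D → ℝ),
    ‖Pa s xi‖ ≤ C * (2 : ℝ) ^ (-de * s) := by
  obtain ⟨C, de, hC, hde, h⟩ := norm_G_le D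
  refine ⟨C, de, hC, hde, fun s xi => ?_⟩
  by_cases hn : ∃ p ∈ PP D s, Near s xi p.1 p.2
  · obtain ⟨p, hp, hn⟩ := hn
    rw [Pa_of_near hp hn]
    rw [mem_PP] at hp
    refine le_trans (h p.1 (dvd_Qs hp.1).1 p.2 hp.2) ?_
    apply mul_le_mul_of_nonneg_left _ hC.le
    have h1 : ((2 : ℝ) ^ s) ≤ (p.1 : ℝ) := by exact_mod_cast (mem_Ico.1 hp.1).1
    have h2 : (2 : ℝ) ^ (-de * s) = ((2 : ℝ) ^ s) ^ (-de) := by
      rw [← Real.rpow_natCast, ← Real.rpow_mul (by norm_num)]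
      ring_nf
    rw [h2]
    exact Real.rpow_le_rpow_of_nonpos (by positivity) h1 (by linarith)
  · push Not at hn
    rw [Pa_of_not_near hn, norm_zero]
    positivity

theorem lam_factor (D : ℕ) : ∃ C : ℝ, 0 < C ∧ ∀ (s N : ℕ) (xi : Fin D → ℝ), Qs s ^ 4 ≤ N →
    ‖Lam s N xi - Bl (Qs s) N xi * Pa s xi‖ ≤ C / N := by
  classical
  refine ⟨2 * 4 ^ (D + 2), by positivity, fun s N xi hN => ?_⟩
  have hQ := Qs_pos s
  have hN1 : 1 ≤ N := le_trans (Nat.one_le_pow _ _ hQ) hN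
  set Q := Qs s with hQdef
  set BB := Fintype.piFinset fun _ : Fin D => range Q with hBB
  have hcardB : (BB.card : ℝ) = (Q : ℝ) ^ D := by
    rw [hBB, Fintype.card_piFinset]
    simp
  have hnum_inj : Set.InjOn (num s) (PP D s : Set (Σ _ : ℕ, Fin D → ℕ)) :=
    fun p hp p' hp' h => num_inj hp hp' h
  have hcb := card_bound (D := D) hN1 hN
  by_cases hn : ∃ p ∈ PP D s, Near s xi p.1 p.2
  · obtain ⟨p0, hp0, hn⟩ := hn
    rw [Pa_of_near hp0 hn, Lam_eq]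
    have hb0 : num s p0 ∈ BB := num_mem hp0
    have hn0 : ∀ j, dz (fr xi Q (num s p0) j) < 1 / (4 * (Q : ℝ)) := by
      intro j
      rw [← fr_num hp0]
      exact hn j
    have hsm : ∀ b ∈ BB.erase (num s p0), ‖w N (fr xi Q b)‖ ≤ (4 * (Q : ℝ) / N) ^ (D + 2) := by
      intro b hb
      rw [mem_erase] at hb
      obtain ⟨j, hj⟩ := far_of_ne hQ hb.2 hb0 hb.1 hn0
      exact w_small hQ hN1 hj
    have hsum : ∑ b ∈ BB.erase (num s p0), ‖w N (fr xi Q b)‖ ≤ 4 ^ (D + 2) / N := by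
      refine le_trans (sum_le_card_nsmul _ _ _ hsm) ?_
      rw [nsmul_eq_mul]
      refine le_trans ?_ hcb
      apply mul_le_mul_of_nonneg_right _ (by positivity)
      rw [← hcardB]
      exact_mod_cast card_le_card (erase_subset _ _)
    have h1 : ∑ p ∈ PP D s, G p.1 p.2 * w N (fr xi p.1 p.2) =
        G p0.1 p0.2 * w N (fr xi Q (num s p0)) +
          ∑ p ∈ (PP D s).erase p0, G p.1 p.2 * w N (fr xi p.1 p.2) := by
      rw [← add_sum_erase _ _ hp0, fr_num hp0]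
    have h2 : Bl Q N xi = w N (fr xi Q (num s p0)) + ∑ b ∈ BB.erase (num s p0), w N (fr xi Q b) := by
      unfold Bl
      rw [← hBB]
      exact (add_sum_erase BB (fun b => w N (fr xi Q b)) hb0).symm
    rw [h1, h2]
    have h3 : G p0.1 p0.2 * w N (fr xi Q (num s p0)) +
          ∑ p ∈ (PP D s).erase p0, G p.1 p.2 * w N (fr xi p.1 p.2) -
        (w N (fr xi Q (num s p0)) + ∑ b ∈ BB.erase (num s p0), w N (fr xi Q b)) * G p0.1 p0.2 =
        ∑ p ∈ (PP D s).erase p0, G p.1 p.2 * w N (fr xi p.1 p.2) -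
          (∑ b ∈ BB.erase (num s p0), w N (fr xi Q b)) * G p0.1 p0.2 := by ring
    rw [h3]
    have h4 : ‖∑ p ∈ (PP D s).erase p0, G p.1 p.2 * w N (fr xi p.1 p.2)‖ ≤
        ∑ b ∈ BB.erase (num s p0), ‖w N (fr xi Q b)‖ := by
      refine le_trans (norm_sum_le _ _) ?_
      calc ∑ p ∈ (PP D s).erase p0, ‖G p.1 p.2 * w N (fr xi p.1 p.2)‖
          ≤ ∑ p ∈ (PP D s).erase p0, ‖w N (fr xi Q (num s p))‖ := by
            refine sum_le_sum fun p hp => ?_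
            rw [norm_mul, fr_num (mem_of_mem_erase hp)]
            calc ‖G p.1 p.2‖ * ‖w N (fr xi Q (num s p))‖ ≤ 1 * ‖w N (fr xi Q (num s p))‖ :=
                  mul_le_mul_of_nonneg_right (norm_G_le_one _ _) (norm_nonneg _)
              _ = _ := one_mul _
        _ = ∑ b ∈ ((PP D s).erase p0).image (num s), ‖w N (fr xi Q b)‖ := by
            rw [sum_image]
            intro p hp p' hp' h
            exact num_inj (mem_of_mem_erase hp) (mem_of_mem_erase hp') h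
        _ ≤ ∑ b ∈ BB.erase (num s p0), ‖w N (fr xi Q b)‖ := by
            apply sum_le_sum_of_subset_of_nonneg
            · intro b hb
              rw [mem_image] at hb
              obtain ⟨p, hp, rfl⟩ := hb
              rw [mem_erase] at hp ⊢
              exact ⟨fun h => hp.1 (num_inj hp.2 hp0 h), num_mem hp.2⟩
            · intro _ _ _
              exact norm_nonneg _
    have h5 : ‖(∑ b ∈ BB.erase (num s p0), w N (fr xi Q b)) * G p0.1 p0.2‖ ≤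
        ∑ b ∈ BB.erase (num s p0), ‖w N (fr xi Q b)‖ := by
      rw [norm_mul]
      calc ‖∑ b ∈ BB.erase (num s p0), w N (fr xi Q b)‖ * ‖G p0.1 p0.2‖
          ≤ (∑ b ∈ BB.erase (num s p0), ‖w N (fr xi Q b)‖) * 1 :=
            mul_le_mul (norm_sum_le _ _) (norm_G_le_one _ _) (norm_nonneg _)
              (sum_nonneg fun _ _ => norm_nonneg _)
        _ = _ := mul_one _
    calc _ ≤ _ := norm_sub_le _ _
      _ ≤ 4 ^ (D + 2) / (N : ℝ) + 4 ^ (D + 2) / N := add_le_add (h4.trans hsum) (h5.trans hsum)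
      _ = 2 * 4 ^ (D + 2) / N := by ring
  · push Not at hn
    rw [Pa_of_not_near hn, mul_zero, sub_zero, Lam_eq]
    have hsm : ∀ p ∈ PP D s, ‖G p.1 p.2 * w N (fr xi p.1 p.2)‖ ≤ (4 * (Q : ℝ) / N) ^ (D + 2) := by
      intro p hp
      have h1 := hn p hp
      unfold Near at h1
      push Not at h1
      obtain ⟨j, hj⟩ := h1
      rw [norm_mul]
      calc ‖G p.1 p.2‖ * ‖w N (fr xi p.1 p.2)‖ ≤ 1 * (4 * (Q : ℝ) / N) ^ (D + 2) :=
            mul_le_mul (norm_G_le_one _ _) (w_small hQ hN1 hj) (norm_nonneg _) zero_le_one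
        _ = _ := one_mul _
    have hcardP : ((PP D s).card : ℝ) ≤ (Q : ℝ) ^ D := by
      rw [← hcardB]
      have : (PP D s).card ≤ BB.card :=
        card_le_card_of_injOn (num s) (fun p hp => num_mem hp) hnum_inj
      exact_mod_cast this
    calc ‖∑ p ∈ PP D s, G p.1 p.2 * w N (fr xi p.1 p.2)‖
        ≤ ∑ p ∈ PP D s, ‖G p.1 p.2 * w N (fr xi p.1 p.2)‖ := norm_sum_le _ _
      _ ≤ (PP D s).card • (4 * (Q : ℝ) / N) ^ (D + 2) := sum_le_card_nsmul _ _ _ hsm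
      _ = ((PP D s).card : ℝ) * (4 * (Q : ℝ) / N) ^ (D + 2) := nsmul_eq_mul _ _
      _ ≤ (Q : ℝ) ^ D * (4 * (Q : ℝ) / N) ^ (D + 2) :=
          mul_le_mul_of_nonneg_right hcardP (by positivity)
      _ ≤ 4 ^ (D + 2) / N := hcb
      _ ≤ 2 * 4 ^ (D + 2) / N := by
          apply div_le_div_of_nonneg_right _ (by positivity)
          have : (0 : ℝ) < 4 ^ (D + 2) := by positivity
          linarith

end Pool.PolyMax
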