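import Pool.Agent.PolyMax.LamSmall
import Pool.Agent.PolyMax.Lattice
import Pool.Agent.PolyMax.LatMax

set_option autoImplicit false

/-!
# PolyMax: the maximal function of level `s`

PROOF.  Fix `s`; `Q = Qs s ≤ 2^{(s+1) 2^{s+1}}`.  Let `A` be the first index with
`2^{E s} ≤ N A` (it exists as `N k ≥ rho^k`).  If `k ≥ A` and `N k < Q^4` then
`rho^{k - A} ≤ N k < Q^4`, so `k - A ≤ 4 log Q / log rho ≤ C_rho (s + 1) 2^{s+1} ≤ 2^n` for
`n = c_rho + 2 s + 2` or so.  Split the multiplier (for indices with `2^{E s} ≤ N k`, i.e. `k ≥ A`,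
`N` is increasing):
* indices with `N k < Q^4`: `lam_small` (restricted by `MaxBd.ite`), norm
  `≤ (n + 2) C 2^{-δ s} ≤ C' (s + 1) 2^{-δ s}`;
* indices with `N k ≥ Q^4`: `Lam s (N k) = Bl Q (N k) * Pa s + err_k`; the first is handled by
  `lattice_max` (`Q ≤ Q^4 ≤ N k`), `MaxBd.mul`, `norm_Pa_le`: norm `≤ C 2^{-δ s}`; the second by
  `MaxBd.of_sq`: `∑_k ‖err_k‖² ≤ C² ∑_{k : N k ≥ Q^4} N_k^{-2} ≤ C' / Q^8 ≤ C' 2^{-2s}`
  (geometric: `N_{k+l} ≥ rho^l N_k`).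
Add up (`MaxBd.add`), and convert the constants into one `C` and one `δ`.
-/

open Finset

namespace Pool.PolyMax

private lemma Qs_pos (s : ℕ) : 0 < Qs s := Nat.factorial_pos _

private lemma two_pow_le_Qs (s : ℕ) : 2 ^ s ≤ Qs s :=
  le_trans (Nat.pow_le_pow_right (by norm_num) (Nat.le_succ s)) (Nat.self_le_factorial _)

private lemma log_Qs_le (s : ℕ) : Real.log (Qs s) ≤ ((s : ℝ) + 1) * 2 ^ (s + 1) := by
  have h1 : (Qs s : ℝ) ≤ ((2 : ℝ) ^ (s + 1)) ^ (2 ^ (s + 1)) := by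
    have h2 : Qs s ≤ (2 ^ (s + 1)) ^ (2 ^ (s + 1)) := Nat.factorial_le_pow _
    exact_mod_cast h2
  have h3 : (0 : ℝ) < Qs s := by exact_mod_cast Qs_pos s
  have h4 := Real.log_le_log h3 h1
  rw [Real.log_pow, Real.log_pow] at h4
  have h5 : Real.log 2 ≤ 1 := by
    have := Real.log_two_lt_d9
    linarith
  refine h4.trans ?_
  push_cast
  have h6 : (0 : ℝ) ≤ 2 ^ (s + 1) * ((s : ℝ) + 1) := by positivity
  nlinarith [mul_le_mul_of_nonneg_left h5 h6]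

/-- the small scales above the first used index. -/
private lemma index_bound {rho : ℝ} {r0 : ℕ} (hr0 : 1 / Real.log rho ≤ 2 ^ r0) {N : ℕ → ℕ}
    (hN : Lac rho N) {s A k : ℕ} (hAk : A ≤ k) (hk : N k < Qs s ^ 4) :
    k ≤ A + 2 ^ (2 * s + 3 + r0) := by
  have hrho := hN.rho_gt
  have hlog : 0 < Real.log rho := Real.log_pos hrho
  obtain ⟨l, rfl⟩ := Nat.exists_eq_add_of_le hAk
  have h1 := hN.pow_mul_le A l
  have h2 : (1 : ℝ) ≤ N A := by exact_mod_cast hN.pos A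
  have h3 : (0 : ℝ) < rho ^ l := pow_pos (by linarith) l
  have h4 : rho ^ l ≤ (Qs s : ℝ) ^ 4 := by
    have h5 : ((N (A + l) : ℕ) : ℝ) ≤ (Qs s : ℝ) ^ 4 := by exact_mod_cast hk.le
    nlinarith
  have h6 := Real.log_le_log h3 h4
  rw [Real.log_pow, Real.log_pow] at h6
  have h7 := log_Qs_le s
  have h8 : (l : ℝ) * Real.log rho ≤ 4 * (((s : ℝ) + 1) * 2 ^ (s + 1)) := by
    push_cast at h6
    linarith
  have h9 : ((s : ℝ) + 1) ≤ 2 ^ s := by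
    have : s + 1 ≤ 2 ^ s := Nat.succ_le_of_lt Nat.lt_two_pow_self
    exact_mod_cast this
  have h10 : (l : ℝ) ≤ 2 ^ (2 * s + 3 + r0) := by
    have h11 : (l : ℝ) = (l * Real.log rho) * (1 / Real.log rho) := by field_simp
    rw [h11]
    have h12 : (4 : ℝ) * (((s : ℝ) + 1) * 2 ^ (s + 1)) ≤ 2 ^ (2 * s + 3) := by
      have e1 : (2 : ℝ) ^ (2 * s + 3) = 4 * (2 ^ s * 2 ^ (s + 1)) := by
        rw [← pow_add, show (4 : ℝ) = 2 ^ 2 by norm_num, ← pow_add]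
        congr 1
        ring
      rw [e1]
      have h13 : (0 : ℝ) ≤ 2 ^ (s + 1) := by positivity
      nlinarith [mul_le_mul_of_nonneg_right h9 h13]
    calc (l * Real.log rho) * (1 / Real.log rho) ≤ 2 ^ (2 * s + 3) * 2 ^ r0 :=
          mul_le_mul (h8.trans h12) hr0 (by positivity) (by positivity)
      _ = 2 ^ (2 * s + 3 + r0) := by rw [← pow_add]
  have h14 : l ≤ 2 ^ (2 * s + 3 + r0) := by exact_mod_cast h10
  omega

private lemma sum_inv_le {rho : ℝ} {N : ℕ → ℕ} (hN : Lac rho N) (K : ℕ) :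
    ∑ k ∈ range K, ((N k : ℝ))⁻¹ ≤ (1 - rho⁻¹)⁻¹ := by
  have hrho := hN.rho_gt
  have h0 : 0 ≤ rho⁻¹ := inv_nonneg.2 (by linarith)
  have h1 : rho⁻¹ < 1 := inv_lt_one_of_one_lt₀ hrho
  have h2 : ∀ k, ((N k : ℝ))⁻¹ ≤ rho⁻¹ ^ k := by
    intro k
    rw [inv_pow]
    exact inv_anti₀ (pow_pos (by linarith) k) (hN.pow_le k)
  calc ∑ k ∈ range K, ((N k : ℝ))⁻¹ ≤ ∑ k ∈ range K, rho⁻¹ ^ k := Finset.sum_le_sum fun k _ => h2 k
    _ ≤ ∑' k, rho⁻¹ ^ k :=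
        (summable_geometric_of_lt_one h0 h1).sum_le_tsum _ fun k _ => pow_nonneg h0 k
    _ = (1 - rho⁻¹)⁻¹ := tsum_geometric_of_lt_one h0 h1

theorem lam_max (D : ℕ) (rho : ℝ) (hrho : 1 < rho) : ∃ C de : ℝ, 0 < C ∧ 0 < de ∧
    ∀ (N : ℕ → ℕ), Lac rho N → ∀ s : ℕ,
      MaxBd (fun k (xi : Fin D → ℝ) => if 2 ^ (Ex D * s) ≤ N k then Lam s (N k) xi else 0)
        (C * ((s : ℝ) + 1) * (2 : ℝ) ^ (-de * s)) := by
  obtain ⟨C₁, de₁, hC₁, hde₁, hsmall⟩ := lam_small D rho hrho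
  obtain ⟨C₂, de₂, hC₂, hde₂, hPa⟩ := norm_Pa_le D
  obtain ⟨C₃, hC₃, hfac⟩ := lam_factor D
  obtain ⟨C₄, hC₄, hlat⟩ := lattice_max D
  obtain ⟨r0, hr0⟩ := pow_unbounded_of_one_lt (1 / Real.log rho) (one_lt_two)
  have hlog : 0 < Real.log rho := Real.log_pos hrho
  have hrinv0 : 0 < rho⁻¹ := inv_pos.2 (by linarith)
  have hrinv : rho⁻¹ < 1 := inv_lt_one_of_one_lt₀ hrho
  set R : ℝ := (1 - rho⁻¹)⁻¹ with hR
  have hRpos : 0 < R := inv_pos.2 (by linarith)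
  refine ⟨((r0 : ℝ) + 5) * C₁ + C₄ * C₂ + C₃ * (R + 1), min (min de₁ de₂) 2, by positivity,
    lt_min (lt_min hde₁ hde₂) (by norm_num), ?_⟩
  intro N hN s
  set de : ℝ := min (min de₁ de₂) 2 with hde
  have hde1 : de ≤ de₁ := (min_le_left _ _).trans (min_le_left _ _)
  have hde2 : de ≤ de₂ := (min_le_left _ _).trans (min_le_right _ _)
  have hde3 : de ≤ 2 := min_le_right _ _
  set Q : ℕ := Qs s with hQ
  have hQpos : 0 < Q := Qs_pos s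
  have hex : ∃ k, 2 ^ (Ex D * s) ≤ N k := ⟨2 ^ (Ex D * s), hN.strictMono.le_apply⟩
  set A : ℕ := Nat.find hex with hA
  have hAspec : 2 ^ (Ex D * s) ≤ N A := Nat.find_spec hex
  set n : ℕ := 2 * s + 3 + r0 with hn
  -- the three parts
  have b1 : MaxBd (fun k (xi : Fin D → ℝ) => if N k < Q ^ 4 then
      (if A ≤ k ∧ k ≤ A + 2 ^ n then Lam s (N k) xi else 0) else 0)
      (((n : ℝ) + 2) * (C₁ * (2 : ℝ) ^ (-de₁ * s))) :=
    (hsmall N hN s A n hAspec).ite (by positivity) _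
  have b2 : MaxBd (fun k (xi : Fin D → ℝ) => if Q ^ 4 ≤ N k ∧ 2 ^ (Ex D * s) ≤ N k then
      ((if Q ≤ N k then Bl Q (N k) xi else 0) * Pa s xi) else 0)
      (C₄ * (C₂ * (2 : ℝ) ^ (-de₂ * s))) :=
    ((hlat Q hQpos N).mul hC₄.le (Pa s) (fun xi => hPa s xi)).ite (by positivity) _
  have b3 : MaxBd (fun k (xi : Fin D → ℝ) => if Q ^ 4 ≤ N k ∧ 2 ^ (Ex D * s) ≤ N k then
      (Lam s (N k) xi - Bl Q (N k) xi * Pa s xi) else 0)
      (C₃ * (R + 1) * (2 : ℝ) ^ (-2 * (s : ℝ))) := by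
    refine MaxBd.of_sq (by positivity) ?_
    intro xi K
    have h1 : ∀ k, ‖(if Q ^ 4 ≤ N k ∧ 2 ^ (Ex D * s) ≤ N k then
      (Lam s (N k) xi - Bl Q (N k) xi * Pa s xi) else 0 : ℂ)‖ ^ 2 ≤
        C₃ ^ 2 * ((2 : ℝ) ^ (-2 * (s : ℝ))) ^ 2 * ((N k : ℝ))⁻¹ := by
      intro k
      have hNk : (0 : ℝ) < N k := by exact_mod_cast hN.pos k
      split_ifs with h
      · have h2 := hfac s (N k) xi h.1
        have h3 : ‖Lam s (N k) xi - Bl Q (N k) xi * Pa s xi‖ ^ 2 ≤ (C₃ / N k) ^ 2 :=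
          pow_le_pow_left₀ (norm_nonneg _) h2 2
        refine h3.trans ?_
        have h4 : ((N k : ℝ))⁻¹ ≤ ((2 : ℝ) ^ (-2 * (s : ℝ))) ^ 2 := by
          have h5 : ((2 : ℝ) ^ (-2 * (s : ℝ))) ^ 2 = ((2 : ℝ) ^ (4 * s))⁻¹ := by
            rw [← Real.rpow_natCast, ← Real.rpow_mul (by norm_num), ← Real.rpow_natCast,
              ← Real.rpow_neg (by norm_num)]
            congr 1
            push_cast
            ring
          rw [h5]
          refine inv_anti₀ (by positivity) ?_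
          have h6 : 2 ^ (4 * s) ≤ N k := by
            refine le_trans ?_ h.1
            rw [mul_comm, pow_mul]
            exact Nat.pow_le_pow_left (two_pow_le_Qs s) 4
          exact_mod_cast h6
        calc (C₃ / N k) ^ 2 = C₃ ^ 2 * ((N k : ℝ))⁻¹ * ((N k : ℝ))⁻¹ := by
              rw [div_eq_mul_inv]; ring
          _ ≤ C₃ ^ 2 * ((2 : ℝ) ^ (-2 * (s : ℝ))) ^ 2 * ((N k : ℝ))⁻¹ := by
              refine mul_le_mul_of_nonneg_right ?_ (by positivity)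
              exact mul_le_mul_of_nonneg_left h4 (by positivity)
      · rw [norm_zero, zero_pow two_ne_zero]
        positivity
    calc ∑ k ∈ range K, ‖(if Q ^ 4 ≤ N k ∧ 2 ^ (Ex D * s) ≤ N k then
          (Lam s (N k) xi - Bl Q (N k) xi * Pa s xi) else 0 : ℂ)‖ ^ 2
        ≤ ∑ k ∈ range K, C₃ ^ 2 * ((2 : ℝ) ^ (-2 * (s : ℝ))) ^ 2 * ((N k : ℝ))⁻¹ :=
          Finset.sum_le_sum fun k _ => h1 k
      _ = C₃ ^ 2 * ((2 : ℝ) ^ (-2 * (s : ℝ))) ^ 2 * ∑ k ∈ range K, ((N k : ℝ))⁻¹ := by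
          rw [Finset.mul_sum]
      _ ≤ C₃ ^ 2 * ((2 : ℝ) ^ (-2 * (s : ℝ))) ^ 2 * R :=
          mul_le_mul_of_nonneg_left (sum_inv_le hN K) (by positivity)
      _ ≤ C₃ ^ 2 * ((2 : ℝ) ^ (-2 * (s : ℝ))) ^ 2 * (R + 1) ^ 2 := by
          refine mul_le_mul_of_nonneg_left ?_ (by positivity)
          nlinarith
      _ = (C₃ * (R + 1) * (2 : ℝ) ^ (-2 * (s : ℝ))) ^ 2 := by ring
  have hsum := (b1.add b2).add b3
  have hfun : (fun k (xi : Fin D → ℝ) => if 2 ^ (Ex D * s) ≤ N k then Lam s (N k) xi else 0) =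
      fun k (xi : Fin D → ℝ) => ((if N k < Q ^ 4 then
        (if A ≤ k ∧ k ≤ A + 2 ^ n then Lam s (N k) xi else 0) else 0) +
        (if Q ^ 4 ≤ N k ∧ 2 ^ (Ex D * s) ≤ N k then
          ((if Q ≤ N k then Bl Q (N k) xi else 0) * Pa s xi) else 0)) +
        (if Q ^ 4 ≤ N k ∧ 2 ^ (Ex D * s) ≤ N k then
          (Lam s (N k) xi - Bl Q (N k) xi * Pa s xi) else 0) := by
    funext k xi
    by_cases h1 : 2 ^ (Ex D * s) ≤ N k
    · have hAk : A ≤ k := Nat.find_min' hex h1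
      by_cases h2 : N k < Q ^ 4
      · have h3 : k ≤ A + 2 ^ n := index_bound hr0.le hN hAk h2
        have h4 : ¬ (Q ^ 4 ≤ N k ∧ 2 ^ (Ex D * s) ≤ N k) := fun h => absurd h.1 (not_le.2 h2)
        rw [if_pos h1, if_pos h2, if_pos ⟨hAk, h3⟩, if_neg h4, if_neg h4]
        simp
      · have h3 : Q ^ 4 ≤ N k := not_lt.1 h2
        have h4 : Q ≤ N k := (Nat.le_self_pow (by norm_num) Q).trans h3
        have h5 : Q ^ 4 ≤ N k ∧ 2 ^ (Ex D * s) ≤ N k := ⟨h3, h1⟩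
        rw [if_pos h1, if_neg h2, if_pos h5, if_pos h4, if_pos h5]
        ring
    · have h2 : ¬ A ≤ k := by
        intro h
        exact h1 (hAspec.trans (hN.strictMono.monotone h))
      have h3 : ¬ (A ≤ k ∧ k ≤ A + 2 ^ n) := fun h => h2 h.1
      have h4 : ¬ (Q ^ 4 ≤ N k ∧ 2 ^ (Ex D * s) ≤ N k) := fun h => h1 h.2
      rw [if_neg h1, if_neg h3, if_neg h4, if_neg h4]
      simp
  rw [hfun]
  refine hsum.mono ?_
  have hs0 : (0 : ℝ) ≤ s := Nat.cast_nonneg s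
  have hpow : ∀ d : ℝ, de ≤ d → (2 : ℝ) ^ (-d * (s : ℝ)) ≤ (2 : ℝ) ^ (-de * (s : ℝ)) := by
    intro d hd
    refine Real.rpow_le_rpow_of_exponent_le (by norm_num) ?_
    nlinarith
  have p1 := hpow de₁ hde1
  have p2 := hpow de₂ hde2
  have p3 := hpow 2 hde3
  set t : ℝ := (2 : ℝ) ^ (-de * (s : ℝ)) with ht
  have htpos : 0 < t := by positivity
  have q1 : ((n : ℝ) + 2) * (C₁ * (2 : ℝ) ^ (-de₁ * s)) ≤ (((r0 : ℝ) + 5) * ((s : ℝ) + 1)) * (C₁ * t) := by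
    refine mul_le_mul ?_ (mul_le_mul_of_nonneg_left p1 hC₁.le) (by positivity) (by positivity)
    rw [hn]
    push_cast
    have : (0 : ℝ) ≤ (r0 : ℝ) * s := by positivity
    nlinarith
  have q2 : C₄ * (C₂ * (2 : ℝ) ^ (-de₂ * s)) ≤ (C₄ * C₂) * ((s : ℝ) + 1) * t := by
    calc C₄ * (C₂ * (2 : ℝ) ^ (-de₂ * s)) ≤ C₄ * (C₂ * t) :=
          mul_le_mul_of_nonneg_left (mul_le_mul_of_nonneg_left p2 hC₂.le) hC₄.le
      _ = (C₄ * C₂) * 1 * t := by ring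
      _ ≤ (C₄ * C₂) * ((s : ℝ) + 1) * t := by
          refine mul_le_mul_of_nonneg_right ?_ htpos.le
          exact mul_le_mul_of_nonneg_left (by linarith) (by positivity)
  have q3 : C₃ * (R + 1) * (2 : ℝ) ^ (-2 * (s : ℝ)) ≤ (C₃ * (R + 1)) * ((s : ℝ) + 1) * t := by
    calc C₃ * (R + 1) * (2 : ℝ) ^ (-2 * (s : ℝ)) ≤ C₃ * (R + 1) * t :=
          mul_le_mul_of_nonneg_left p3 (by positivity)
      _ = (C₃ * (R + 1)) * 1 * t := by ring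
      _ ≤ (C₃ * (R + 1)) * ((s : ℝ) + 1) * t := by
          refine mul_le_mul_of_nonneg_right ?_ htpos.le
          exact mul_le_mul_of_nonneg_left (by linarith) (by positivity)
  calc ((n : ℝ) + 2) * (C₁ * (2 : ℝ) ^ (-de₁ * s)) + C₄ * (C₂ * (2 : ℝ) ^ (-de₂ * s)) +
        C₃ * (R + 1) * (2 : ℝ) ^ (-2 * (s : ℝ))
      ≤ (((r0 : ℝ) + 5) * ((s : ℝ) + 1)) * (C₁ * t) + (C₄ * C₂) * ((s : ℝ) + 1) * t +
        (C₃ * (R + 1)) * ((s : ℝ) + 1) * t := by linarith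
    _ = (((r0 : ℝ) + 5) * C₁ + C₄ * C₂ + C₃ * (R + 1)) * ((s : ℝ) + 1) * t := by ring

end Pool.PolyMax
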