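import Pool.Agent.PolyMax.Term

set_option autoImplicit false

/-!
# PolyMax: square function bound for the difference between averages and model

PROOF.  `C, de, N0` from `term`, and enlarge `N0` so that `used_lac` holds.  Fix `xi`.
* Indices `k` with `N k < N0`: their number is at most `log N0 / log rho + 1` (`Lac.index_le`) and each
  term is at most `(1 + ∑_{s < N0 + 1} 2^{(s+1)(D+1)})² ` (crude bound for `‖mdl‖`: `‖G‖, ‖w‖ ≤ 1`,
  `card_redF_le`): a constant depending on `D`, `rho`.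
* Indices with `N k ≥ N0`: the term is at most `2 C² N_k^{-2 de} + 2 C² q^{-2 de} gf(sz N_k (fr xi q a))²`,
  the second part only if some `(q, a)` is used at `N k`.  The first parts sum to a constant
  (`N k ≥ rho^k`).  For the second, group the indices by the level `s` of `q` (`2^s ≤ q < 2^{s+1}`):
  for each `s` all the used fractions `(q, a)` at scales `N k ≥ N0` with `q` in level `s` coincide
  (`used_lac`: two different ones would satisfy `2 q ≤ q'`, impossible within one level).  So the sum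
  over the `k` of level `s` is at most `2 C² 2^{-2 de s} * C'`, `C'` from `geo1` with
  `x k = sz (N k) (fr xi q a)` (`sz_grow`).  Sum over `s` (geometric).
-/

open Finset

namespace Pool.PolyMax

private lemma geo_sum_le {r : ℝ} (h0 : 0 ≤ r) (h1 : r < 1) (S : Finset ℕ) :
    ∑ k ∈ S, r ^ k ≤ (1 - r)⁻¹ := by
  rw [← tsum_geometric_of_lt_one h0 h1]
  exact (summable_geometric_of_lt_one h0 h1).sum_le_tsum S (fun k _ => pow_nonneg h0 k)

private noncomputable def crude (D N : ℕ) : ℝ :=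
  1 + ∑ s ∈ range (N + 1), ∑ q ∈ Ico (2 ^ s) (2 ^ (s + 1)), ((redF D q).card : ℝ)

private lemma crude_pos (D N : ℕ) : 0 < crude D N := by
  unfold crude
  positivity

private lemma crude_mono (D : ℕ) {N N' : ℕ} (h : N ≤ N') : crude D N ≤ crude D N' := by
  unfold crude
  refine add_le_add le_rfl ?_
  refine sum_le_sum_of_subset_of_nonneg ?_ (fun _ _ _ => sum_nonneg fun _ _ => Nat.cast_nonneg _)
  exact range_mono (by omega)

private lemma crude_bound {D : ℕ} (N : ℕ) (xi : Fin D → ℝ) :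
    ‖m N xi - mdl N xi‖ ≤ crude D N := by
  refine (norm_sub_le _ _).trans (add_le_add (norm_m_le_one N xi) ?_)
  rw [mdl]
  refine (norm_sum_le _ _).trans ?_
  refine (sum_le_sum_of_subset_of_nonneg (filter_subset _ _)
    (fun _ _ _ => norm_nonneg _)).trans ?_
  refine sum_le_sum fun s _ => ?_
  rw [Lam]
  refine (norm_sum_le _ _).trans (sum_le_sum fun q _ => ?_)
  refine (norm_sum_le _ _).trans ?_
  calc ∑ a ∈ redF D q, ‖G q a * w N (fr xi q a)‖ ≤ ∑ a ∈ redF D q, (1 : ℝ) := by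
        refine sum_le_sum fun a _ => ?_
        rw [norm_mul]
        exact mul_le_one₀ (norm_G_le_one q a) (norm_nonneg _) (norm_w_le_one N _)
    _ = _ := by simp

private lemma rpow_neg_lt_one {x e : ℝ} (hx : 1 < x) (he : 0 < e) : x ^ (-e) < 1 :=
  Real.rpow_lt_one_of_one_lt_of_neg hx (by linarith)

private lemma used_q {D : ℕ} {N : ℕ} {xi : Fin D → ℝ} {q : ℕ} {a : Fin D → ℕ}
    (h : Used N xi q a) : 1 ≤ q := by
  obtain ⟨s, _, hq, _, _⟩ := h
  exact (Nat.one_le_two_pow).trans (mem_Ico.mp hq).1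

theorem sq_bound (D : ℕ) (rho : ℝ) (hrho : 1 < rho) : ∃ C : ℝ, 0 < C ∧
    ∀ (N : ℕ → ℕ), Lac rho N → ∀ (xi : Fin D → ℝ) (K : ℕ),
      ∑ k ∈ range K, ‖m (N k) xi - mdl (N k) xi‖ ^ 2 ≤ C := by
  classical
  obtain ⟨C, de, N0, hC, hde, hN0, hterm⟩ := term D
  obtain ⟨N1, hlac⟩ := used_lac D
  obtain ⟨C', hC', hgeo⟩ := geo1 rho de hrho hde
  obtain ⟨N2, hN2⟩ : ∃ N2, N2 = max N0 N1 := ⟨_, rfl⟩
  have hN20 : N0 ≤ N2 := hN2 ▸ le_max_left _ _
  have hN21 : N1 ≤ N2 := hN2 ▸ le_max_right _ _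
  obtain ⟨r, hr⟩ : ∃ r : ℝ, r = rho ^ (-(2 * de)) := ⟨_, rfl⟩
  have hr0 : 0 ≤ r := hr ▸ Real.rpow_nonneg (by linarith) _
  have hr1 : r < 1 := hr ▸ rpow_neg_lt_one hrho (by linarith)
  obtain ⟨t, ht⟩ : ∃ t : ℝ, t = (2 : ℝ) ^ (-(2 * de)) := ⟨_, rfl⟩
  have ht0 : 0 ≤ t := ht ▸ Real.rpow_nonneg (by norm_num) _
  have ht1 : t < 1 := ht ▸ rpow_neg_lt_one one_lt_two (by linarith)
  have hr1' : 0 < (1 - r)⁻¹ := inv_pos.mpr (by linarith)
  have ht1' : 0 < (1 - t)⁻¹ := inv_pos.mpr (by linarith)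
  refine ⟨N2 * crude D N2 ^ 2 + 2 * C ^ 2 * (1 - r)⁻¹ + 2 * C ^ 2 * (C' * (1 - t)⁻¹),
    by positivity, ?_⟩
  intro N hN xi K
  have hch : ∀ k, ∃ (q : ℕ) (a : Fin D → ℕ), (∃ q a, Used (N k) xi q a) →
      Used (N k) xi q a := by
    intro k
    by_cases h : ∃ (q : ℕ) (a : Fin D → ℕ), Used (N k) xi q a
    · obtain ⟨q, a, h⟩ := h
      exact ⟨q, a, fun _ => h⟩
    · exact ⟨0, fun _ => 0, fun h' => absurd h' h⟩
  choose qf af hqa using hch
  obtain ⟨S, hS⟩ : ∃ S, S = (range K).filter fun k => N2 ≤ N k ∧ ∃ q a, Used (N k) xi q a :=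
    ⟨_, rfl⟩
  have hNpos : ∀ k, (0 : ℝ) < N k := fun k => by exact_mod_cast hN.pos k
  -- the powers of the scales
  have hpow : ∀ k, ((N k : ℝ) ^ (-de)) ^ 2 ≤ r ^ k := by
    intro k
    have h1 : ((N k : ℝ) ^ (-de)) ^ 2 = (N k : ℝ) ^ (-(2 * de)) := by
      rw [← Real.rpow_natCast, ← Real.rpow_mul (hNpos k).le]
      congr 1
      push_cast
      ring
    have h2 : r ^ k = (rho ^ k) ^ (-(2 * de)) := by
      rw [hr, ← Real.rpow_natCast, ← Real.rpow_natCast, ← Real.rpow_mul (by linarith),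
        ← Real.rpow_mul (by linarith)]
      congr 1
      ring
    rw [h1, h2]
    exact Real.rpow_le_rpow_of_nonpos (by positivity) (hN.pow_le k) (by linarith)
  -- the pointwise bound
  have hpt : ∀ k ∈ range K, ‖m (N k) xi - mdl (N k) xi‖ ^ 2 ≤
      (if k < N2 then crude D N2 ^ 2 else 0) + 2 * C ^ 2 * r ^ k +
      (if N2 ≤ N k ∧ ∃ q a, Used (N k) xi q a then
        2 * C ^ 2 * ((qf k : ℝ) ^ (-(2 * de)) *
          gf de (sz (N k) (fr xi (qf k) (af k))) ^ 2) else 0) := by
    intro k _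
    have hrk : 0 ≤ r ^ k := pow_nonneg hr0 k
    by_cases hk : N2 ≤ N k
    · by_cases hu : ∃ (q : ℕ) (a : Fin D → ℕ), Used (N k) xi q a
      · have h1 := (hterm (N k) xi (hN20.trans hk)).2 (qf k) (af k) (hqa k hu)
        have hq := used_q (hqa k hu)
        have hq0 : (0 : ℝ) < qf k := by exact_mod_cast hq
        have h2 : ((qf k : ℝ) ^ (-de)) ^ 2 = (qf k : ℝ) ^ (-(2 * de)) := by
          rw [← Real.rpow_natCast, ← Real.rpow_mul hq0.le]
          congr 1
          push_cast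
          ring
        rw [if_pos (⟨hk, hu⟩ : N2 ≤ N k ∧ ∃ q a, Used (N k) xi q a), ← h2]
        have h3 : 0 ≤ (if k < N2 then crude D N2 ^ 2 else 0) := by
          split_ifs <;> positivity
        set A := C * (N k : ℝ) ^ (-de) with hA
        set B := C * (qf k : ℝ) ^ (-de) * gf de (sz (N k) (fr xi (qf k) (af k))) with hB
        have h4 : ‖m (N k) xi - mdl (N k) xi‖ ^ 2 ≤ (A + B) ^ 2 :=
          pow_le_pow_left₀ (norm_nonneg _) h1 2
        have h5 : (A + B) ^ 2 ≤ 2 * A ^ 2 + 2 * B ^ 2 := by nlinarith [sq_nonneg (A - B)]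
        have h6 : A ^ 2 ≤ C ^ 2 * r ^ k := by
          rw [hA, mul_pow]
          exact mul_le_mul_of_nonneg_left (hpow k) (by positivity)
        have h7 : B ^ 2 = C ^ 2 * (((qf k : ℝ) ^ (-de)) ^ 2 *
            gf de (sz (N k) (fr xi (qf k) (af k))) ^ 2) := by
          rw [hB]; ring
        nlinarith
      · have h1 := (hterm (N k) xi (hN20.trans hk)).1 (by
          intro q a h
          exact hu ⟨q, a, h⟩)
        rw [if_neg (fun h => hu h.2 : ¬ (N2 ≤ N k ∧ ∃ q a, Used (N k) xi q a))]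
        have h3 : 0 ≤ (if k < N2 then crude D N2 ^ 2 else 0) := by
          split_ifs <;> positivity
        have h4 : ‖m (N k) xi - mdl (N k) xi‖ ^ 2 ≤ (C * (N k : ℝ) ^ (-de)) ^ 2 :=
          pow_le_pow_left₀ (norm_nonneg _) h1 2
        have h6 : (C * (N k : ℝ) ^ (-de)) ^ 2 ≤ C ^ 2 * r ^ k := by
          rw [mul_pow]
          exact mul_le_mul_of_nonneg_left (hpow k) (by positivity)
        have h7 : 0 ≤ C ^ 2 * r ^ k := by positivity
        linarith
    · have hk' : N k < N2 := not_le.mp hk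
      have hkk : k < N2 := (hN.strictMono.le_apply).trans_lt hk'
      rw [if_pos hkk, if_neg (fun h => hk h.1 : ¬ (N2 ≤ N k ∧ ∃ q a, Used (N k) xi q a))]
      have h4 : ‖m (N k) xi - mdl (N k) xi‖ ^ 2 ≤ crude D N2 ^ 2 :=
        pow_le_pow_left₀ (norm_nonneg _) ((crude_bound _ _).trans (crude_mono D hk'.le)) 2
      have h7 : 0 ≤ C ^ 2 * r ^ k := by positivity
      linarith
  refine (sum_le_sum hpt).trans ?_
  rw [sum_add_distrib, sum_add_distrib]
  have hs1 : ∑ k ∈ range K, (if k < N2 then crude D N2 ^ 2 else 0) ≤ N2 * crude D N2 ^ 2 := by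
    rw [← sum_filter]
    refine (sum_le_sum_of_subset_of_nonneg (t := range N2) ?_
      (fun _ _ _ => by positivity)).trans ?_
    · intro k hk
      exact mem_range.mpr (mem_filter.mp hk).2
    · simp
  have hs2 : ∑ k ∈ range K, 2 * C ^ 2 * r ^ k ≤ 2 * C ^ 2 * (1 - r)⁻¹ := by
    rw [← mul_sum]
    exact mul_le_mul_of_nonneg_left (geo_sum_le hr0 hr1 _) (by positivity)
  have hs3 : ∑ k ∈ range K, (if N2 ≤ N k ∧ ∃ q a, Used (N k) xi q a then
        2 * C ^ 2 * ((qf k : ℝ) ^ (-(2 * de)) *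
          gf de (sz (N k) (fr xi (qf k) (af k))) ^ 2) else 0) ≤
      2 * C ^ 2 * (C' * (1 - t)⁻¹) := by
    rw [← sum_filter, ← hS, ← mul_sum]
    refine mul_le_mul_of_nonneg_left ?_ (by positivity)
    rw [← sum_fiberwise_of_maps_to (t := S.image fun k => Nat.log 2 (qf k))
      (g := fun k => Nat.log 2 (qf k)) (fun k hk => mem_image_of_mem _ hk)]
    have hlev : ∀ s ∈ S.image (fun k => Nat.log 2 (qf k)),
        ∑ k ∈ S.filter (fun k => Nat.log 2 (qf k) = s), ((qf k : ℝ) ^ (-(2 * de)) *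
          gf de (sz (N k) (fr xi (qf k) (af k))) ^ 2) ≤ C' * t ^ s := by
      intro s hs
      obtain ⟨k1, hk1, rfl⟩ := mem_image.mp hs
      have hk1' := hk1
      rw [hS, mem_filter] at hk1'
      have hu1 := hqa k1 hk1'.2.2
      have hcoin : ∀ k ∈ S.filter (fun k => Nat.log 2 (qf k) = Nat.log 2 (qf k1)),
          qf k = qf k1 ∧ af k = af k1 := by
        intro k hk
        rw [mem_filter] at hk
        obtain ⟨hkS, hkl⟩ := hk
        rw [hS, mem_filter] at hkS
        have hu := hqa k hkS.2.2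
        have hq1 := used_q hu1
        have hq := used_q hu
        have hlog1 : qf k < 2 * qf k1 := by
          have a1 := Nat.lt_pow_succ_log_self (b := 2) (by norm_num) (qf k)
          have a2 := Nat.pow_log_le_self 2 (x := qf k1) (by omega)
          rw [hkl, pow_succ] at a1
          omega
        have hlog2 : qf k1 < 2 * qf k := by
          have a1 := Nat.lt_pow_succ_log_self (b := 2) (by norm_num) (qf k1)
          have a2 := Nat.pow_log_le_self 2 (x := qf k) (by omega)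
          rw [← hkl, pow_succ] at a1
          omega
        by_contra hne
        rcases le_total (N k) (N k1) with hle | hle
        · have := hlac (N k) (N k1) xi (qf k) (qf k1) (af k) (af k1) (hN21.trans hkS.2.1) hle
            hu hu1 hne
          omega
        · have := hlac (N k1) (N k) xi (qf k1) (qf k) (af k1) (af k) (hN21.trans hk1'.2.1) hle
            hu1 hu (fun h => hne ⟨h.1.symm, h.2.symm⟩)
          omega
      have hq1 := used_q hu1
      have hbase : ((qf k1 : ℝ)) ^ (-(2 * de)) ≤ t ^ (Nat.log 2 (qf k1)) := by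
        have a2 : 2 ^ Nat.log 2 (qf k1) ≤ qf k1 := Nat.pow_log_le_self 2 (by omega)
        have a3 : ((2 : ℝ) ^ (Nat.log 2 (qf k1))) ≤ qf k1 := by exact_mod_cast a2
        have h2 : t ^ (Nat.log 2 (qf k1)) =
            ((2 : ℝ) ^ (Nat.log 2 (qf k1))) ^ (-(2 * de)) := by
          rw [ht, ← Real.rpow_natCast, ← Real.rpow_natCast, ← Real.rpow_mul (by norm_num),
            ← Real.rpow_mul (by norm_num)]
          congr 1
          ring
        rw [h2]
        exact Real.rpow_le_rpow_of_nonpos (by positivity) a3 (by linarith)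
      calc ∑ k ∈ S.filter (fun k => Nat.log 2 (qf k) = Nat.log 2 (qf k1)),
            ((qf k : ℝ) ^ (-(2 * de)) * gf de (sz (N k) (fr xi (qf k) (af k))) ^ 2)
          ≤ ∑ k ∈ S.filter (fun k => Nat.log 2 (qf k) = Nat.log 2 (qf k1)),
            (t ^ (Nat.log 2 (qf k1)) * gf de (sz (N k) (fr xi (qf k1) (af k1))) ^ 2) := by
            refine sum_le_sum fun k hk => ?_
            obtain ⟨h1, h2⟩ := hcoin k hk
            rw [h1, h2]
            exact mul_le_mul_of_nonneg_right hbase (sq_nonneg _)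
        _ = t ^ (Nat.log 2 (qf k1)) *
            ∑ k ∈ S.filter (fun k => Nat.log 2 (qf k) = Nat.log 2 (qf k1)),
              gf de (sz (N k) (fr xi (qf k1) (af k1))) ^ 2 := by rw [mul_sum]
        _ ≤ t ^ (Nat.log 2 (qf k1)) * C' := by
            refine mul_le_mul_of_nonneg_left ?_ (pow_nonneg ht0 _)
            exact hgeo (fun k => sz (N k) (fr xi (qf k1) (af k1))) (fun k => sz_nonneg _ _)
              (fun k => sz_grow hrho.le (hN.grow k) _) _
        _ = C' * t ^ (Nat.log 2 (qf k1)) := mul_comm _ _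
    refine (sum_le_sum hlev).trans ?_
    rw [← mul_sum]
    exact mul_le_mul_of_nonneg_left (geo_sum_le ht0 ht1 _) hC'.le
  linarith

end Pool.PolyMax
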