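import Pool.Agent.PolyMax.Maximal
import Pool.Agent.PolyMax.Closure
import Pool.Agent.Lib.AffineDense

set_option autoImplicit false

/-!
# PolyMax: commuting affine maps of compact abelian groups, all bounded functions

PROOF of `aff_full_one_sided`.  The `A i` commute: `T i (T k x) = A i (A k x) + A i (b k) + b i`, and the
same with `i, k` exchanged; subtract the values at `x` and at `0`.  The group generated by the `T i`
is commutative, hence nilpotent.  `multi_closureW` with `tau j n = gel T P j n`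
(`Pool.Lib.AffAlg.gel`), measure preserving by `closure_preserving`; `MaxL2` from `one_sided` of
Maximal.lean (`gel` of Maximal.lean for the polynomials `fun i => P i j` is the same element;
`(T i).symm` is in the closure too); `D = {phi | IsTrig phi}`: bounded (continuous on a compact
space), convergence by `trig_conv`, dense in `L²`: continuous functions are dense in `L²`
(`regular_of_haar`, e.g. `MeasureTheory.MemLp.exists_boundedContinuous_integral_rpow_sub_le`) and
uniformly approximated by trigonometric polynomials (`trig_dense`).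

`aff_full`: the two sided averages, from the one sided statement for `P` and for `P.comp (-X)`, exactly as in
`Pool/Agent/Results/MP_4d8f14_an/AffineCommutingLinear.lean` (`two_sided`).
-/

open MeasureTheory Filter Topology Finset
open scoped ENNReal NNReal

namespace Pool.PolyMax

universe u

section aux

variable {X : Type u} [AddCommGroup X] [TopologicalSpace X]
    [IsTopologicalAddGroup X] [CompactSpace X] [T2Space X]

omit [IsTopologicalAddGroup X] [CompactSpace X] [T2Space X] in
lemma lin_comm {d : ℕ} (A : Fin d → X ≃ₜ+ X) (b : Fin d → X) (T : Fin d → Equiv.Perm X)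
    (hT : ∀ i x, T i x = A i x + b i) (hc : ∀ i k, Commute (T i) (T k)) :
    ∀ i k x, A i (A k x) = A k (A i x) := by
  intro i k x
  have h : ∀ y, T i (T k y) = T k (T i y) := by
    intro y
    have := congrArg (fun g : Equiv.Perm X => g y) (hc i k).eq
    simpa [Equiv.Perm.mul_apply] using this
  have h0 := h 0
  have hx := h x
  rw [hT k, hT i, hT i, hT k, map_add, map_add] at hx
  rw [hT k, hT i, hT i, hT k] at h0
  simp only [map_add, map_zero, zero_add] at h0
  have e1 : A i (A k x) + (A i (b k) + b i) = A k (A i x) + (A k (b i) + b k) := by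
    rw [← add_assoc, ← add_assoc]
    exact hx
  rw [h0] at e1
  exact add_right_cancel e1

omit [AddCommGroup X] [TopologicalSpace X] [IsTopologicalAddGroup X] [CompactSpace X] [T2Space X] in
lemma closure_nilpotent {d : ℕ} (T : Fin d → Equiv.Perm X) (hc : ∀ i k, Commute (T i) (T k)) :
    Group.IsNilpotent (Subgroup.closure (Set.range T)) := by
  have h : ∀ x ∈ Set.range T, ∀ y ∈ Set.range T, x * y = y * x := by
    rintro _ ⟨i, rfl⟩ _ ⟨k, rfl⟩
    exact (hc i k).eq
  exact @CommGroup.isNilpotent _ (Subgroup.closureCommGroupOfComm h)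

omit [IsTopologicalAddGroup X] [T2Space X] in
lemma trig_memLp [MeasurableSpace X] [BorelSpace X] (mu : Measure X) [IsFiniteMeasure mu]
    {phi : X → ℂ} (h : Pool.Lib.AffMeas.IsTrig phi) (p : ℝ≥0∞) : MemLp phi p mu := by
  obtain ⟨C, hC⟩ := isCompact_univ.exists_bound_of_continuousOn h.cont.continuousOn
  exact MemLp.of_bound h.cont.aestronglyMeasurable C
    (Eventually.of_forall fun x => hC x (Set.mem_univ x))

lemma trig_dense_L2 [MeasurableSpace X] [BorelSpace X] (mu : Measure X) [mu.IsAddHaarMeasure]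
    [IsProbabilityMeasure mu] {f : X → ℂ} (hf : MemLp f ∞ mu) {ep : ℝ} (hep : 0 < ep) :
    ∃ phi : X → ℂ, Pool.Lib.AffMeas.IsTrig phi ∧ ∫ x, ‖f x - phi x‖ ^ 2 ∂mu ≤ ep := by
  haveI := Pool.Lib.AffMeas.regular_of_haar mu
  have hf2 : MemLp f 2 mu := hf.mono_exponent le_top
  have hf2' : MemLp f (ENNReal.ofReal 2) mu := by
    rw [show ENNReal.ofReal 2 = 2 by simp]
    exact hf2
  obtain ⟨g, _, hg, hgc, hgi⟩ :=
    hf2'.exists_hasCompactSupport_integral_rpow_sub_le (by norm_num) (show (0 : ℝ) < ep / 4 by linarith)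
  rw [show ENNReal.ofReal 2 = 2 by simp] at hgi
  obtain ⟨phi, hphi, hd⟩ := Pool.Lib.AffMeas.trig_dense hgc
    (show (0 : ℝ) < Real.sqrt (ep / 4) from Real.sqrt_pos.2 (by linarith))
  refine ⟨phi, hphi, ?_⟩
  have hp2 : MemLp phi 2 mu := trig_memLp mu hphi 2
  have i1 : Integrable (fun x => ‖f x - g x‖ ^ 2) mu := (hf2.sub hgi).integrable_norm_pow (by norm_num)
  have i2 : Integrable (fun x => ‖g x - phi x‖ ^ 2) mu :=
    (hgi.sub hp2).integrable_norm_pow (by norm_num)
  have i3 : Integrable (fun x => ‖f x - phi x‖ ^ 2) mu :=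
    (hf2.sub hp2).integrable_norm_pow (by norm_num)
  have hg' : ∫ x, ‖f x - g x‖ ^ 2 ∂mu ≤ ep / 4 := by
    refine le_trans (le_of_eq ?_) hg
    congr 1
    funext x
    rw [← Real.rpow_natCast]
    norm_num
  calc ∫ x, ‖f x - phi x‖ ^ 2 ∂mu
      ≤ ∫ x, (2 * ‖f x - g x‖ ^ 2 + 2 * ‖g x - phi x‖ ^ 2) ∂mu := by
        apply integral_mono i3 ((i1.const_mul 2).add (i2.const_mul 2))
        intro x
        show ‖f x - phi x‖ ^ 2 ≤ 2 * ‖f x - g x‖ ^ 2 + 2 * ‖g x - phi x‖ ^ 2
        have h1 : ‖f x - phi x‖ ≤ ‖f x - g x‖ + ‖g x - phi x‖ := by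
          calc ‖f x - phi x‖ = ‖(f x - g x) + (g x - phi x)‖ := by congr 1; ring
            _ ≤ _ := norm_add_le _ _
        nlinarith [norm_nonneg (f x - phi x), norm_nonneg (f x - g x), norm_nonneg (g x - phi x),
          sq_nonneg (‖f x - g x‖ - ‖g x - phi x‖)]
    _ = 2 * ∫ x, ‖f x - g x‖ ^ 2 ∂mu + 2 * ∫ x, ‖g x - phi x‖ ^ 2 ∂mu := by
        rw [integral_add (i1.const_mul 2) (i2.const_mul 2), integral_const_mul, integral_const_mul]
    _ ≤ 2 * (ep / 4) + 2 * (ep / 4) := by
        apply add_le_add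
        · linarith
        · have : ∫ x, ‖g x - phi x‖ ^ 2 ∂mu ≤ ∫ _, ep / 4 ∂mu := by
            apply integral_mono i2 (integrable_const _)
            intro x
            show ‖g x - phi x‖ ^ 2 ≤ ep / 4
            calc ‖g x - phi x‖ ^ 2 ≤ (Real.sqrt (ep / 4)) ^ 2 :=
                  pow_le_pow_left₀ (norm_nonneg _) (hd x) 2
              _ = ep / 4 := Real.sq_sqrt (by linarith)
          simp only [integral_const, probReal_univ, one_smul] at this
          linarith
    _ = ep := by ring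

end aux

theorem aff_full_one_sided {X : Type u} [AddCommGroup X] [TopologicalSpace X]
    [IsTopologicalAddGroup X] [CompactSpace X] [T2Space X] [MeasurableSpace X] [BorelSpace X]
    (mu : Measure X) [mu.IsAddHaarMeasure] [IsProbabilityMeasure mu]
    (d m : ℕ) (A : Fin d → X ≃ₜ+ X) (b : Fin d → X) (T : Fin d → Equiv.Perm X)
    (hT : ∀ i x, T i x = A i x + b i) (hc : ∀ i k, Commute (T i) (T k))
    (P : Fin d → Fin m → Polynomial ℤ) (f : Fin m → X → ℂ) (hf : ∀ j, MemLp (f j) ∞ mu) :
    ∀ᵐ x ∂mu, ∃ L : ℂ, Tendsto (Pool.Lib.Erg.avg fun n : ℕ =>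
      ∏ j : Fin m, f j ((List.ofFn fun i : Fin d => T i ^ (P i j).eval (n : ℤ)).prod x))
      atTop (𝓝 L) := by
  have hA := lin_comm A b T hT hc
  haveI := closure_nilpotent T hc
  have hTp : ∀ i, MeasurePreserving (T i) mu mu := fun i =>
    Pool.Lib.AffMeas.closure_preserving mu A b T hT (Subgroup.subset_closure ⟨i, rfl⟩)
  have hTs : ∀ i, MeasurePreserving (T i).symm mu mu := fun i =>
    Pool.Lib.AffMeas.closure_preserving mu A b T hT
      (Subgroup.inv_mem _ (Subgroup.subset_closure ⟨i, rfl⟩))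
  refine multi_closureW (mu := mu) (fun j n => ⇑(Pool.Lib.AffAlg.gel T P j (n : ℤ)))
    (fun j n => Pool.Lib.AffMeas.closure_preserving mu A b T hT (Pool.Lib.AffAlg.gel_mem T P j _))
    ?_ {phi | Pool.Lib.AffMeas.IsTrig phi} (fun phi hphi => trig_memLp mu hphi _) ?_ ?_ f hf
  · intro j
    obtain ⟨C, hC⟩ := one_sided.{u} (Finset.univ.sup fun i : Fin d => (P i j).natDegree)
    refine ⟨C, fun v hv => ?_⟩
    exact hC mu d T hTp hTs hc (fun i => P i j)
      (fun i => Finset.le_sup (f := fun i : Fin d => (P i j).natDegree) (Finset.mem_univ i)) v hv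
  · intro g hg ep hep
    exact trig_dense_L2 mu hg hep
  · intro phi hphi
    exact Pool.Lib.AffMeas.trig_conv mu A b hA T hT P phi hphi

theorem aff_full {X : Type u} [AddCommGroup X] [TopologicalSpace X]
    [IsTopologicalAddGroup X] [CompactSpace X] [T2Space X] [MeasurableSpace X] [BorelSpace X]
    (mu : Measure X) [mu.IsAddHaarMeasure] [IsProbabilityMeasure mu]
    (d m : ℕ) (A : Fin d → X ≃ₜ+ X) (b : Fin d → X) (T : Fin d → Equiv.Perm X)
    (hT : ∀ i x, T i x = A i x + b i) (hc : ∀ i k, Commute (T i) (T k))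
    (P : Fin d → Fin m → Polynomial ℤ) (f : Fin m → X → ℂ) (hf : ∀ j, MemLp (f j) ∞ mu) :
    ∀ᵐ x ∂mu, ∃ L : ℂ, Tendsto
      (fun N : ℕ => ((2 * N + 1 : ℕ) : ℂ)⁻¹ *
        ∑ n ∈ Finset.Icc (-(N : ℤ)) (N : ℤ), ∏ j : Fin m,
          f j ((List.ofFn fun i : Fin d => T i ^ (P i j).eval n).prod x))
      atTop (𝓝 L) := by
  have h1 := aff_full_one_sided mu d m A b T hT hc P f hf
  have h2 := aff_full_one_sided mu d m A b T hT hc (fun i j => (P i j).comp (-Polynomial.X)) f hf
  filter_upwards [h1, h2] with x ⟨L1, hL1⟩ ⟨L2, hL2⟩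
  refine ⟨(L1 + L2) / 2, ?_⟩
  apply Pool.Lib.Erg.two_sided (fun n : ℤ => ∏ j : Fin m,
    f j ((List.ofFn fun i : Fin d => T i ^ (P i j).eval n).prod x)) L1 L2 hL1
  simpa only [Polynomial.eval_comp, Polynomial.eval_neg, Polynomial.eval_X] using hL2

end Pool.PolyMax
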