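import Pool.Agent.PolyMax.Maximal
import Pool.Agent.PolyMax.Closure
import Pool.Agent.Lib.BernoulliDense

set_option autoImplicit false

/-!
# PolyMax: commuting permutations of the coordinates of a product space, all bounded functions
-/

open MeasureTheory Filter Topology Finset
open scoped ENNReal NNReal symmDiff

namespace Pool.PolyMax

universe u v

section dense

variable {I : Type u} {A : Type v} [MeasurableSpace A] (al : Measure A) [IsProbabilityMeasure al]

lemma dense_local_two (f : (I → A) → ℂ) (hf : MemLp f 2 (Measure.infinitePi fun _ : I => al))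
    (ep : ℝ) (hep : 0 < ep) :
    ∃ phi, Pool.Lib.Erg.IsLocal phi ∧
      ∫ x, ‖f x - phi x‖ ^ 2 ∂(Measure.infinitePi fun _ : I => al) ≤ ep := by
  classical
  set mu := Measure.infinitePi fun _ : I => al with hmu
  obtain ⟨phi, hphi, hl⟩ := MemLp.induction_dense (μ := mu) (p := 2) (by simp)
    (fun g : (I → A) → ℂ => Pool.Lib.Erg.IsLocal g) (by
    intro c s hs _ de hde
    obtain ⟨de', hde'0, hde'⟩ : ∃ de' : ℝ≥0∞, 0 < de' ∧ ‖c‖ₑ * de' ^ (1 / (2 : ℝ)) ≤ de := by
      by_cases hc : c = 0
      · exact ⟨1, one_pos, by simp [hc]⟩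
      · have hx : 0 < de / ‖c‖ₑ := ENNReal.div_pos hde enorm_ne_top
        refine ⟨(de / ‖c‖ₑ) ^ (2 : ℝ), ENNReal.rpow_pos_of_nonneg hx (by norm_num), ?_⟩
        rw [← ENNReal.rpow_mul]
        norm_num
        rw [ENNReal.mul_div_cancel (by simpa using hc) enorm_ne_top]
    obtain ⟨t, ht, hts⟩ := exists_measure_symmDiff_lt_of_generateFrom_isSetRing (μ := mu)
      (isSetRing_measurableCylinders (α := fun _ : I => A))
      ⟨{Set.univ}, Set.countable_singleton _, by
        rw [Set.singleton_subset_iff]; exact univ_mem_measurableCylinders _, by simp⟩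
      generateFrom_measurableCylinders.symm hs hde'0
    refine ⟨t.indicator fun _ => c, ?_, Pool.Lib.Erg.isLocal_indicator ht c⟩
    have hle : ∀ x, ‖(t.indicator (fun _ => c) - s.indicator fun _ => c) x‖ ≤
        ‖(t ∆ s).indicator (fun _ => c) x‖ := by
      intro x
      rw [Pi.sub_apply]
      by_cases h1 : x ∈ t <;> by_cases h2 : x ∈ s <;>
        simp [Set.indicator, h1, h2, Set.mem_symmDiff]
    calc _ ≤ eLpNorm ((t ∆ s).indicator fun _ => c) 2 mu := eLpNorm_mono hle
      _ ≤ ‖c‖ₑ * mu (t ∆ s) ^ (1 / (2 : ℝ≥0∞).toReal) := eLpNorm_indicator_const_le _ _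
      _ ≤ ‖c‖ₑ * de' ^ (1 / (2 : ℝ)) := by
        rw [ENNReal.toReal_ofNat]
        gcongr
      _ ≤ de := hde')
    (fun f g hf hg => hf.add hg) (fun f hf => hf.1.aestronglyMeasurable) hf
    (ε := ENNReal.ofReal (Real.sqrt ep)) (by simpa using hep)
  refine ⟨phi, hl, ?_⟩
  have hphi2 : MemLp phi 2 mu := by
    obtain ⟨h1, ⟨C, h2⟩, -⟩ := hl
    exact MemLp.of_bound h1.aestronglyMeasurable C (Eventually.of_forall h2)
  have hd : MemLp (fun x => f x - phi x) 2 mu := hf.sub hphi2
  have e1 := hd.eLpNorm_eq_integral_rpow_norm (by norm_num) (by norm_num)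
  have e2 : eLpNorm (fun x => f x - phi x) 2 mu ≤ ENNReal.ofReal (Real.sqrt ep) := hphi
  rw [e1, ENNReal.ofReal_le_ofReal_iff (Real.sqrt_nonneg _)] at e2
  have e3 : ∫ x, ‖f x - phi x‖ ^ (2 : ℝ≥0∞).toReal ∂mu = ∫ x, ‖f x - phi x‖ ^ 2 ∂mu := by
    congr 1
    funext x
    rw [ENNReal.toReal_ofNat, ← Real.rpow_natCast]
    norm_num
  rw [e3, ENNReal.toReal_ofNat] at e2
  have h0 : 0 ≤ ∫ x, ‖f x - phi x‖ ^ 2 ∂mu := integral_nonneg fun x => by positivity
  rw [show (2 : ℝ)⁻¹ = 1 / 2 by norm_num, ← Real.sqrt_eq_rpow] at e2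
  exact (Real.sqrt_le_sqrt_iff hep.le).1 e2

end dense

/-- The map of `A^I` induced by a permutation `σ` of `I` : `(T x)(ι) = x (σ⁻¹ ι)`. -/
def shift {I : Type u} (A : Type v) (σ : Equiv.Perm I) : Equiv.Perm (I → A) where
  toFun x i := x (σ⁻¹ i)
  invFun x i := x (σ i)
  left_inv x := by funext i; simp
  right_inv x := by funext i; simp

/-- `shift` as a homomorphism. -/
def shiftHom {I : Type u} (A : Type v) : Equiv.Perm I →* Equiv.Perm (I → A) where
  toFun := shift A
  map_one' := by ext x i; rfl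
  map_mul' σ τ := by
    ext x i
    show x ((σ * τ)⁻¹ i) = x (τ⁻¹ (σ⁻¹ i))
    rw [mul_inv_rev]
    rfl

lemma shift_preserving {I : Type u} {A : Type v} [MeasurableSpace A] (al : Measure A)
    [IsProbabilityMeasure al] (σ : Equiv.Perm I) :
    MeasurePreserving (shift A σ) (Measure.infinitePi fun _ : I => al)
      (Measure.infinitePi fun _ : I => al) :=
  Pool.Lib.Erg.perm_preserving al σ⁻¹

open Pool.Lib.Erg Pool.Lib.PolySeq in
theorem bern_full_one_sided {I : Type u} {A : Type v} [MeasurableSpace A] (al : Measure A)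
    [IsProbabilityMeasure al] (d m : ℕ)
    (σ : Fin d → Equiv.Perm I) (hc : ∀ i k, Commute (σ i) (σ k))
    (P : Fin d → Fin m → Polynomial ℤ) (f : Fin m → (I → A) → ℂ)
    (hf : ∀ j, MemLp (f j) ∞ (Measure.infinitePi fun _ : I => al)) :
    ∀ᵐ x ∂(Measure.infinitePi fun _ : I => al), ∃ L : ℂ, Tendsto (avg fun n : ℕ =>
      ∏ j : Fin m, f j ((List.ofFn fun i : Fin d =>
        shift A (σ i) ^ (P i j).eval (n : ℤ)).prod x)) atTop (𝓝 L) := by
  classical
  set G := Subgroup.closure (Set.range σ) with hG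
  have hcl : ∀ x ∈ Set.range σ, ∀ y ∈ Set.range σ, x * y = y * x := by
    rintro _ ⟨i, rfl⟩ _ ⟨k, rfl⟩
    exact (hc i k).eq
  haveI : Group.IsNilpotent G := @CommGroup.isNilpotent _ (Subgroup.closureCommGroupOfComm hcl)
  -- the polynomial sequences in `G`
  let s : Fin d → G := fun i => ⟨σ i, Subgroup.subset_closure ⟨i, rfl⟩⟩
  let p : Fin m → ℕ → G := fun j n => (List.ofFn fun i : Fin d => s i ^ (P i j).eval (n : ℤ)).prod
  set D : ℕ := ∑ i, ∑ j, (P i j).natDegree with hD
  have hdeg : ∀ i j, (P i j).natDegree ≤ D := by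
    intro i j
    calc (P i j).natDegree ≤ ∑ j, (P i j).natDegree :=
          Finset.single_le_sum (f := fun j => (P i j).natDegree) (fun _ _ => Nat.zero_le _)
            (mem_univ j)
      _ ≤ D := Finset.single_le_sum (f := fun i => ∑ j, (P i j).natDegree)
          (fun _ _ => Nat.zero_le _) (mem_univ i)
  have hp : ∀ j, p j ∈ Subgroup.closure (monos G D) := by
    intro j
    have e : p j = (List.ofFn fun i : Fin d => fun n : ℕ => s i ^ (P i j).eval (n : ℤ)).prod := by
      funext n
      have := map_list_prod (Pi.evalMonoidHom (fun _ : ℕ => G) n)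
        (List.ofFn fun i : Fin d => fun n : ℕ => s i ^ (P i j).eval (n : ℤ))
      rw [List.map_ofFn] at this
      exact this.symm
    rw [e]
    apply Subgroup.list_prod_mem
    intro g hg
    rw [List.mem_ofFn] at hg
    obtain ⟨i, rfl⟩ := hg
    exact Subgroup.subset_closure ⟨s i, P i j, hdeg i j, rfl⟩
  have hg : ∀ j (n : ℕ), (List.ofFn fun i : Fin d =>
      shift A (σ i) ^ (P i j).eval (n : ℤ)).prod = shift A ((p j n : G) : Equiv.Perm I) := by
    intro j n
    have h1 : ((p j n : G) : Equiv.Perm I) =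
        (List.ofFn fun i : Fin d => σ i ^ (P i j).eval (n : ℤ)).prod := by
      have := map_list_prod G.subtype (List.ofFn fun i : Fin d => s i ^ (P i j).eval (n : ℤ))
      rw [List.map_ofFn] at this
      exact this
    rw [h1]
    have h2 := map_list_prod (shiftHom (I := I) A)
      (List.ofFn fun i : Fin d => σ i ^ (P i j).eval (n : ℤ))
    rw [List.map_ofFn] at h2
    have h3 : (shiftHom (I := I) A ∘ fun i : Fin d => σ i ^ (P i j).eval (n : ℤ)) =
        fun i : Fin d => shift A (σ i) ^ (P i j).eval (n : ℤ) := by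
      funext i
      exact map_zpow (shiftHom (I := I) A) (σ i) _
    rw [h3] at h2
    exact h2.symm
  have hcS : ∀ i k, Commute (shift A (σ i)) (shift A (σ k)) := by
    intro i k
    exact (hc i k).map (shiftHom (I := I) A)
  apply multi_closureW (mu := Measure.infinitePi fun _ : I => al)
    (fun j n => ⇑(List.ofFn fun i : Fin d => shift A (σ i) ^ (P i j).eval (n : ℤ)).prod)
    (fun j n => by rw [hg]; exact shift_preserving al _) ?_ {phi | IsLocal phi} ?_ ?_ ?_ f hf
  · intro j
    obtain ⟨C, hC⟩ := one_sided.{max u v} (Finset.univ.sup fun i : Fin d => (P i j).natDegree)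
    refine ⟨C, fun v hv => ?_⟩
    exact hC (Measure.infinitePi fun _ : I => al) d (fun i => shift A (σ i))
      (fun i => shift_preserving al _)
      (fun i => by
        have := shift_preserving (A := A) al (σ i)⁻¹
        have e : ⇑(shift A (σ i)).symm = ⇑(shift A (σ i)⁻¹) := by
          funext x i'
          show x (σ i i') = x (((σ i)⁻¹)⁻¹ i')
          rw [inv_inv]
        rw [e]
        exact this)
      hcS (fun i => P i j)
      (fun i => Finset.le_sup (f := fun i : Fin d => (P i j).natDegree) (Finset.mem_univ i)) v hv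
  · rintro phi ⟨h1, ⟨C, h2⟩, -⟩
    exact MemLp.of_bound h1.aestronglyMeasurable C (Eventually.of_forall h2)
  · intro g hg ep hep
    exact dense_local_two al g (hg.mono_exponent le_top) ep hep
  · intro phi hphi
    simp only [hg]
    exact bern_local (α := al) p D hp phi hphi

theorem bern_full {I : Type u} {A : Type v} [MeasurableSpace A] (al : Measure A)
    [IsProbabilityMeasure al] (d m : ℕ)
    (σ : Fin d → Equiv.Perm I) (hc : ∀ i k, Commute (σ i) (σ k))
    (P : Fin d → Fin m → Polynomial ℤ) (f : Fin m → (I → A) → ℂ)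
    (hf : ∀ j, MemLp (f j) ∞ (Measure.infinitePi fun _ : I => al)) :
    ∀ᵐ x ∂(Measure.infinitePi fun _ : I => al), ∃ L : ℂ, Tendsto
      (fun N : ℕ => ((2 * N + 1 : ℕ) : ℂ)⁻¹ *
        ∑ n ∈ Finset.Icc (-(N : ℤ)) (N : ℤ), ∏ j : Fin m,
          f j ((List.ofFn fun i : Fin d => shift A (σ i) ^ (P i j).eval n).prod x))
      atTop (𝓝 L) := by
  have h1 := bern_full_one_sided al d m σ hc P f hf
  have h2 := bern_full_one_sided al d m σ hc (fun i j => (P i j).comp (-Polynomial.X)) f hf
  filter_upwards [h1, h2] with x ⟨L1, hL1⟩ ⟨L2, hL2⟩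
  refine ⟨(L1 + L2) / 2, ?_⟩
  apply Pool.Lib.Erg.two_sided (fun n : ℤ => ∏ j : Fin m,
    f j ((List.ofFn fun i : Fin d => shift A (σ i) ^ (P i j).eval n).prod x)) L1 L2 hL1
  simpa only [Polynomial.eval_comp, Polynomial.eval_neg, Polynomial.eval_X] using hL2

end Pool.PolyMax
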