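import Pool.Agent.PolyMax.InvWeyl

set_option autoImplicit false

/-!
# PolyMax: complete sums are small

PROOF.  Let `C` be the constant of `weyl_vec D`, `q ≥ 1`, `a ∈ redF D q`, `lam = ‖G q a‖`; if
`lam = 0` there is nothing to prove, and `lam ≤ 1`.  For every `t ≥ 1`: `m (q t) (a / q) = G q a`
(the phase `e (∑ a_j n^{j+1} / q)` is `q`-periodic in `n`).  Let `t` be so large that
`C (1 / lam)^C / (q t) < 1 / q`.  `weyl_vec` for `N = q t` gives `1 ≤ q' ≤ C (1 / lam)^C` with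
`dz (q' a_j / q) < 1 / q` for all `j`, hence `q ∣ q' a_j` for all `j` (`one_div_le_dz`), hence
`q ∣ q'`: indeed put `d = q / gcd (q, q')`; `d ∣ (q' / gcd) a_j` and `d` is coprime to `q' / gcd`, so
`d ∣ a_j` for all `j` and `d ∣ q`, so `d = 1` by `Red`.  Therefore `q ≤ q' ≤ C (1 / lam)^C`, i.e.
`lam ≤ (C / q)^{1 / C}`, which is the claim with `δ = 1 / C` and the constant `C^{1/C} ≤ C`.
-/

open Finset

namespace Pool.PolyMax

theorem complete_e_ph_periodic {D : ℕ} (q : ℕ) (hq : 1 ≤ q) (a : Fin D → ℕ) (u v : ℕ) :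
    e (ph (fun j => (a j : ℝ) / (q : ℝ)) (q * u + v)) =
      e (ph (fun j => (a j : ℝ) / (q : ℝ)) v) := by
  have hq0 : (q : ℝ) ≠ 0 := by positivity
  have h1 : ∀ j : Fin D, ∃ K : ℤ, ((q : ℤ) * u + v) ^ ((j : ℕ) + 1) - (v : ℤ) ^ ((j : ℕ) + 1) =
      q * K := by
    intro j
    have h2 : ((q : ℤ) * u + v) - v ∣ ((q : ℤ) * u + v) ^ ((j : ℕ) + 1) - (v : ℤ) ^ ((j : ℕ) + 1) :=
      sub_dvd_pow_sub_pow _ _ _
    rw [add_sub_cancel_right] at h2
    obtain ⟨K, hK⟩ := h2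
    exact ⟨u * K, by rw [hK]; ring⟩
  choose K hK using h1
  apply e_congr (k := ∑ j : Fin D, (a j : ℤ) * K j)
  unfold ph
  rw [← Finset.sum_sub_distrib]
  push_cast
  refine Finset.sum_congr rfl fun j _ => ?_
  have h3 : ((q : ℝ) * u + v) ^ ((j : ℕ) + 1) - (v : ℝ) ^ ((j : ℕ) + 1) = q * (K j : ℝ) := by
    exact_mod_cast hK j
  rw [← mul_sub, h3]
  field_simp

theorem m_periodic {D : ℕ} (q t : ℕ) (hq : 1 ≤ q) (ht : 1 ≤ t) (a : Fin D → ℕ) :
    m (q * t) (fun j => (a j : ℝ) / (q : ℝ)) = G q a := by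
  have key : ∀ t : ℕ, ∑ n ∈ range (q * t), e (ph (fun j => (a j : ℝ) / (q : ℝ)) n) =
      t * ∑ n ∈ range q, e (ph (fun j => (a j : ℝ) / (q : ℝ)) n) := by
    intro t
    induction t with
    | zero => simp
    | succ t ih =>
      rw [mul_add, mul_one, Finset.sum_range_add, ih,
        Finset.sum_congr rfl fun v _ => complete_e_ph_periodic q hq a t v]
      push_cast
      ring
  have hq0 : (q : ℂ) ≠ 0 := by
    have : q ≠ 0 := by omega
    exact_mod_cast this
  have ht0 : (t : ℂ) ≠ 0 := by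
    have : t ≠ 0 := by omega
    exact_mod_cast this
  rw [G, m, m, key]
  push_cast
  field_simp

theorem norm_G_le (D : ℕ) : ∃ C de : ℝ, 0 < C ∧ 0 < de ∧ ∀ q : ℕ, 1 ≤ q → ∀ a ∈ redF D q,
    ‖G q a‖ ≤ C * (q : ℝ) ^ (-de) := by
  obtain ⟨C, hC, hW⟩ := weyl_vec D
  have hCr : (1 : ℝ) ≤ C := by exact_mod_cast hC
  have hC0 : (0 : ℝ) < C := by linarith
  refine ⟨C, 1 / C, hC0, by positivity, fun q hq a ha => ?_⟩
  have hqr : (1 : ℝ) ≤ q := by exact_mod_cast hq
  have hq0 : (0 : ℝ) < q := by linarith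
  set lam := ‖G q a‖ with hlam
  rcases (norm_nonneg (G q a)).eq_or_lt with h0 | h0
  · rw [hlam, ← h0]
    positivity
  rw [← hlam] at h0
  have h1 : lam ≤ 1 := norm_G_le_one q a
  have hRed : Red q a := by
    have h := ha
    simp only [redF, Finset.mem_filter] at h
    exact h.2
  set B : ℝ := C * (1 / lam) ^ C with hB
  have hB0 : 0 < B := by positivity
  obtain ⟨t, ht⟩ := exists_nat_gt B
  have ht1 : 1 ≤ t := by
    by_contra hcon
    have : t = 0 := by omega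
    rw [this] at ht
    push_cast at ht
    linarith
  have htr : (1 : ℝ) ≤ t := by exact_mod_cast ht1
  have hm : m (q * t) (fun j => (a j : ℝ) / (q : ℝ)) = G q a := m_periodic q t hq ht1 a
  obtain ⟨q', hq'1, hq'B, hq'⟩ := hW (q * t) (fun j => (a j : ℝ) / (q : ℝ)) lam
    (Nat.mul_pos hq ht1) h0 h1 (by rw [hm])
  have hdvd : ∀ j, q ∣ q' * a j := by
    intro j
    by_contra hcon
    have h2 : ¬ (q : ℤ) ∣ ((q' * a j : ℕ) : ℤ) := by exact_mod_cast hcon
    have h3 := one_div_le_dz _ q hq h2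
    have h4 := hq' j
    have h5 : (q' : ℝ) * ((a j : ℝ) / (q : ℝ)) = (((q' * a j : ℕ) : ℤ) : ℝ) / (q : ℝ) := by
      push_cast
      ring
    rw [h5] at h4
    have h6 : B / (((q * t : ℕ) : ℝ)) ^ ((j : ℕ) + 1) ≤ B / (q * t) := by
      push_cast
      have h7 : (1 : ℝ) ≤ q * t := by nlinarith
      have h8 : (q * t : ℝ) ≤ (q * t : ℝ) ^ ((j : ℕ) + 1) := le_self_pow₀ h7 (by omega)
      gcongr
    have h9 : B / (q * t) < 1 / q := by
      rw [div_lt_div_iff₀ (by positivity) hq0]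
      nlinarith
    linarith
  have hqq' : q ∣ q' := by
    set g := Nat.gcd q q' with hg
    have hg0 : 0 < g := Nat.gcd_pos_of_pos_left _ hq
    have hgq : g ∣ q := Nat.gcd_dvd_left _ _
    have hgq' : g ∣ q' := Nat.gcd_dvd_right _ _
    have hcop : Nat.Coprime (q / g) (q' / g) := Nat.coprime_div_gcd_div_gcd hg0
    have h2 : ∀ j, q / g ∣ a j := by
      intro j
      have h3 : g * (q / g) ∣ g * ((q' / g) * a j) := by
        rw [Nat.mul_div_cancel' hgq, ← mul_assoc, Nat.mul_div_cancel' hgq']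
        exact hdvd j
      have h4 : q / g ∣ (q' / g) * a j := Nat.dvd_of_mul_dvd_mul_left hg0 h3
      exact hcop.dvd_of_dvd_mul_left h4
    have h3 : q / g = 1 := hRed _ (Nat.div_dvd_of_dvd hgq) h2
    have h4 : q = g := by
      have := Nat.div_mul_cancel hgq
      rw [h3, one_mul] at this
      exact this.symm
    rw [h4]
    exact hgq'
  have hle : (q : ℝ) ≤ B := by
    have : (q : ℝ) ≤ q' := by exact_mod_cast Nat.le_of_dvd hq'1 hqq'
    linarith
  have h10 : (q : ℝ) * lam ^ C ≤ C := by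
    have h11 : B * lam ^ C = C := by
      rw [hB, one_div, inv_pow]
      field_simp
    calc (q : ℝ) * lam ^ C ≤ B * lam ^ C := by gcongr
      _ = C := h11
  have h12 : lam ^ C ≤ (C * (q : ℝ) ^ (-(1 / (C : ℝ)))) ^ C := by
    rw [mul_pow, ← Real.rpow_mul_natCast hq0.le]
    have h13 : -(1 / (C : ℝ)) * C = -1 := by field_simp
    rw [h13, Real.rpow_neg_one]
    have h14 : (C : ℝ) ≤ (C : ℝ) ^ C := le_self_pow₀ hCr (by omega)
    have h15 : lam ^ C ≤ C * (q : ℝ)⁻¹ := by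
      rw [← div_eq_mul_inv, le_div_iff₀ hq0]
      linarith
    refine h15.trans ?_
    gcongr
  exact le_of_pow_le_pow_left₀ (by omega) (by positivity) h12

end Pool.PolyMax
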