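import Pool.Agent.PolyMax.Basic

set_option autoImplicit false

/-!
# PolyMax: Fourier multipliers on `(ZMod M) ^ D`

Orthogonality: `∑_x e (pr b x) * e (-pr b' x) = M ^ D` if `b = b'`, else `0` (product over `j` of the
geometric sums `∑_{t < M} e ((b_j - b'_j) t / M)`); the same in the other variable.  Hence Fourier
inversion `f x = M^{-D} ∑_b fhat b e (pr b x)`, `fhat b = ∑_y f y e (-pr b y)`, Plancherel
`∑_b ‖fhat b‖² = M^D ∑_x ‖f x‖²`, and `T mu f` has Fourier transform `mu (fq b) fhat b`, so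
`∑_x ‖T mu f x‖² = M^{-D} ∑_b ‖mu (fq b)‖² ‖fhat b‖²` (`plancherel_T`), from which `nrm_T_le`,
`sum_nrm_T_le` follow.  `T_shift`: `e (∑ fq b j * v_j) * e (pr b x) = e (pr b (x + v))` (periodicity:
`(x_j + v_j).val ≡ x_j.val + v_j mod M`, `e_congr`), then Fourier inversion.
-/

open Finset

namespace Pool.PolyMax

variable {D M : ℕ} [NeZero M]

/-- The Fourier transform. -/
noncomputable def ft (f : (Fin D → ZMod M) → ℂ) (b : Fin D → ZMod M) : ℂ := ∑ y, f y * e (-pr b y)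

/-- `e (k / M)` is the standard additive character. -/
lemma e_div_eq (k : ℤ) : e ((k : ℝ) / (M : ℝ)) = ZMod.stdAddChar (N := M) (k : ZMod M) := by
  rw [ZMod.stdAddChar_coe, e]
  congr 1
  push_cast
  ring

/-- The character attached to the pairing. -/
lemma e_pr (b x : Fin D → ZMod M) : e (pr b x) = ZMod.stdAddChar (N := M) (∑ j, b j * x j) := by
  have h : pr b x = (((∑ j, ((b j).val : ℤ) * ((x j).val : ℤ) : ℤ)) : ℝ) / (M : ℝ) := by
    unfold pr
    rw [← Finset.sum_div]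
    push_cast
    rfl
  rw [h, e_div_eq]
  congr 1
  push_cast
  refine Finset.sum_congr rfl fun j _ => ?_
  rw [ZMod.natCast_zmod_val, ZMod.natCast_zmod_val]

lemma e_neg_pr (b x : Fin D → ZMod M) :
    e (-pr b x) = ZMod.stdAddChar (N := M) (-∑ j, b j * x j) := by
  rw [e_neg, e_pr]
  rw [AddChar.map_neg_eq_inv]
  have h : ‖(ZMod.stdAddChar (N := M) (∑ j, b j * x j) : ℂ)‖ = 1 := by
    rw [← e_pr]
    exact norm_e _
  rw [Complex.inv_def, Complex.normSq_eq_norm_sq, h]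
  simp

lemma orth (b : Fin D → ZMod M) :
    ∑ x : Fin D → ZMod M, (ZMod.stdAddChar (N := M) (∑ j, b j * x j) : ℂ) =
      if b = 0 then (M : ℂ) ^ D else 0 := by
  have h1 : ∀ x : Fin D → ZMod M, (ZMod.stdAddChar (N := M) (∑ j, b j * x j) : ℂ) =
      ∏ j, (ZMod.stdAddChar (N := M) (x j * b j) : ℂ) := by
    intro x
    have h0 : ∀ s : Finset (Fin D), (ZMod.stdAddChar (N := M) (∑ j ∈ s, b j * x j) : ℂ) =
        ∏ j ∈ s, (ZMod.stdAddChar (N := M) (x j * b j) : ℂ) := by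
      intro s
      induction s using Finset.induction_on with
      | empty => simp
      | insert j s hj ih =>
        rw [Finset.sum_insert hj, Finset.prod_insert hj, AddChar.map_add_eq_mul, ih, mul_comm (b j)]
    exact h0 Finset.univ
  have h2 : ∏ j : Fin D, ∑ t : ZMod M, (ZMod.stdAddChar (N := M) (t * b j) : ℂ) =
      ∑ x : Fin D → ZMod M, ∏ j, (ZMod.stdAddChar (N := M) (x j * b j) : ℂ) := by
    rw [Finset.prod_univ_sum, Fintype.piFinset_univ]
  rw [Finset.sum_congr rfl fun x _ => h1 x, ← h2]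
  have h3 : ∀ j : Fin D, ∑ t : ZMod M, (ZMod.stdAddChar (N := M) (t * b j) : ℂ) =
      if b j = 0 then (M : ℂ) else 0 := by
    intro j
    rw [AddChar.sum_mulShift (b j) (ZMod.isPrimitive_stdAddChar M)]
    split_ifs <;> simp [ZMod.card]
  rw [Finset.prod_congr rfl fun j _ => h3 j]
  by_cases hb : b = 0
  · subst hb
    simp
  · rw [if_neg hb]
    obtain ⟨j, hj⟩ : ∃ j, b j ≠ 0 := by
      by_contra hcon
      exact hb (funext fun j => by_contra fun hj => hcon ⟨j, hj⟩)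
    exact Finset.prod_eq_zero (Finset.mem_univ j) (by rw [if_neg hj])

lemma orth' (x : Fin D → ZMod M) :
    ∑ b : Fin D → ZMod M, (ZMod.stdAddChar (N := M) (∑ j, b j * x j) : ℂ) =
      if x = 0 then (M : ℂ) ^ D else 0 := by
  rw [← orth x]
  refine Finset.sum_congr rfl fun b _ => ?_
  congr 1
  exact Finset.sum_congr rfl fun j _ => mul_comm _ _

lemma orth_b (b c : Fin D → ZMod M) :
    ∑ x : Fin D → ZMod M, e (pr b x) * e (-pr c x) = if b = c then (M : ℂ) ^ D else 0 := by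
  have h : ∀ x : Fin D → ZMod M, e (pr b x) * e (-pr c x) =
      (ZMod.stdAddChar (N := M) (∑ j, (b - c) j * x j) : ℂ) := by
    intro x
    rw [e_pr, e_neg_pr, ← AddChar.map_add_eq_mul]
    congr 1
    simp only [Pi.sub_apply, sub_mul, Finset.sum_sub_distrib]
    ring
  rw [Finset.sum_congr rfl fun x _ => h x, orth]
  simp only [sub_eq_zero]

lemma orth_x (x y : Fin D → ZMod M) :
    ∑ b : Fin D → ZMod M, e (-pr b y) * e (pr b x) = if x = y then (M : ℂ) ^ D else 0 := by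
  have h : ∀ b : Fin D → ZMod M, e (-pr b y) * e (pr b x) =
      (ZMod.stdAddChar (N := M) (∑ j, b j * (x - y) j) : ℂ) := by
    intro b
    rw [e_pr, e_neg_pr, ← AddChar.map_add_eq_mul]
    congr 1
    simp only [Pi.sub_apply, mul_sub, Finset.sum_sub_distrib]
    ring
  rw [Finset.sum_congr rfl fun x _ => h x, orth']
  simp only [sub_eq_zero]

lemma MD_ne : ((M : ℂ) ^ D) ≠ 0 := pow_ne_zero _ (by exact_mod_cast NeZero.ne M)

lemma MD_pos : (0 : ℝ) < ((M : ℝ) ^ D) := pow_pos (by exact_mod_cast Nat.pos_of_ne_zero (NeZero.ne M)) _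

theorem inversion (f : (Fin D → ZMod M) → ℂ) (x : Fin D → ZMod M) :
    ((M : ℂ) ^ D)⁻¹ * ∑ b : Fin D → ZMod M, ft f b * e (pr b x) = f x := by
  have h : ∑ b : Fin D → ZMod M, ft f b * e (pr b x) = (M : ℂ) ^ D * f x := by
    calc ∑ b : Fin D → ZMod M, ft f b * e (pr b x)
        = ∑ b : Fin D → ZMod M, ∑ y, f y * (e (-pr b y) * e (pr b x)) := by
          refine Finset.sum_congr rfl fun b _ => ?_
          rw [ft, Finset.sum_mul]
          exact Finset.sum_congr rfl fun y _ => by ring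
      _ = ∑ y, f y * ∑ b : Fin D → ZMod M, e (-pr b y) * e (pr b x) := by
          rw [Finset.sum_comm]
          exact Finset.sum_congr rfl fun y _ => by rw [Finset.mul_sum]
      _ = ∑ y, f y * (if x = y then (M : ℂ) ^ D else 0) :=
          Finset.sum_congr rfl fun y _ => by rw [orth_x]
      _ = (M : ℂ) ^ D * f x := by
          simp [mul_comm]
  rw [h, ← mul_assoc, inv_mul_cancel₀ MD_ne, one_mul]

theorem plancherel (f : (Fin D → ZMod M) → ℂ) :
    ∑ b : Fin D → ZMod M, ‖ft f b‖ ^ 2 = (M : ℝ) ^ D * ∑ x, ‖f x‖ ^ 2 := by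
  have hc : ∀ z : ℂ, ((‖z‖ ^ 2 : ℝ) : ℂ) = z * (starRingEnd ℂ) z := by
    intro z
    rw [Complex.mul_conj, Complex.normSq_eq_norm_sq]
  have key : ((∑ b : Fin D → ZMod M, ‖ft f b‖ ^ 2 : ℝ) : ℂ) = (((M : ℝ) ^ D * ∑ x, ‖f x‖ ^ 2 : ℝ) : ℂ) := by
    rw [Complex.ofReal_sum, Complex.ofReal_mul, Complex.ofReal_sum]
    simp only [hc]
    have h1 : ∀ b : Fin D → ZMod M, ft f b * (starRingEnd ℂ) (ft f b) =
        ∑ z, (starRingEnd ℂ) (f z) * (ft f b * e (pr b z)) := by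
      intro b
      have : (starRingEnd ℂ) (ft f b) = ∑ z, (starRingEnd ℂ) (f z) * e (pr b z) := by
        rw [ft, map_sum]
        refine Finset.sum_congr rfl fun z _ => ?_
        rw [map_mul, ← e_neg, neg_neg]
      rw [this, Finset.mul_sum]
      exact Finset.sum_congr rfl fun z _ => by ring
    rw [Finset.sum_congr rfl fun b _ => h1 b, Finset.sum_comm]
    have h2 : ∀ z : Fin D → ZMod M, ∑ b : Fin D → ZMod M, (starRingEnd ℂ) (f z) * (ft f b * e (pr b z)) =
        (starRingEnd ℂ) (f z) * ((M : ℂ) ^ D * f z) := by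
      intro z
      rw [← Finset.mul_sum]
      congr 1
      have := inversion f z
      calc ∑ b : Fin D → ZMod M, ft f b * e (pr b z)
          = (M : ℂ) ^ D * (((M : ℂ) ^ D)⁻¹ * ∑ b : Fin D → ZMod M, ft f b * e (pr b z)) := by
            rw [← mul_assoc, mul_inv_cancel₀ MD_ne, one_mul]
        _ = (M : ℂ) ^ D * f z := by rw [this]
    rw [Finset.sum_congr rfl fun z _ => h2 z, Finset.mul_sum]
    push_cast
    exact Finset.sum_congr rfl fun z _ => by ring
  exact_mod_cast key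

lemma T_eq (mu : (Fin D → ℝ) → ℂ) (f : (Fin D → ZMod M) → ℂ) (x : Fin D → ZMod M) :
    T mu f x = ((M : ℂ) ^ D)⁻¹ * ∑ b : Fin D → ZMod M, mu (fq b) * ft f b * e (pr b x) := rfl

theorem ft_T (mu : (Fin D → ℝ) → ℂ) (f : (Fin D → ZMod M) → ℂ) (b : Fin D → ZMod M) :
    ft (T mu f) b = mu (fq b) * ft f b := by
  have h : ft (T mu f) b = ∑ y : Fin D → ZMod M, ((M : ℂ) ^ D)⁻¹ *
      ∑ c : Fin D → ZMod M, mu (fq c) * ft f c * (e (pr c y) * e (-pr b y)) := by
    rw [ft]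
    refine Finset.sum_congr rfl fun y _ => ?_
    rw [T_eq, mul_assoc, Finset.sum_mul]
    congr 1
    exact Finset.sum_congr rfl fun c _ => by ring
  rw [h, ← Finset.mul_sum, Finset.sum_comm]
  have h2 : ∀ c : Fin D → ZMod M, ∑ y : Fin D → ZMod M, mu (fq c) * ft f c * (e (pr c y) * e (-pr b y)) =
      mu (fq c) * ft f c * (if c = b then (M : ℂ) ^ D else 0) := by
    intro c
    rw [← Finset.mul_sum, orth_b]
  rw [Finset.sum_congr rfl fun c _ => h2 c]
  simp only [mul_ite, mul_zero, Finset.sum_ite_eq', Finset.mem_univ, if_true]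
  rw [mul_comm (mu (fq b) * ft f b), ← mul_assoc, inv_mul_cancel₀ MD_ne, one_mul]

theorem T_comp (mu nu : (Fin D → ℝ) → ℂ) (f : (Fin D → ZMod M) → ℂ) :
    T mu (T nu f) = T (fun xi => mu xi * nu xi) f := by
  funext x
  rw [T_eq, T_eq]
  congr 1
  refine Finset.sum_congr rfl fun b _ => ?_
  rw [ft_T]
  ring

theorem T_add (mu nu : (Fin D → ℝ) → ℂ) (f : (Fin D → ZMod M) → ℂ) (x : Fin D → ZMod M) :
    T (fun xi => mu xi + nu xi) f x = T mu f x + T nu f x := by
  rw [T_eq, T_eq, T_eq, ← mul_add, ← Finset.sum_add_distrib]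
  congr 1
  exact Finset.sum_congr rfl fun b _ => by ring

theorem T_sub (mu nu : (Fin D → ℝ) → ℂ) (f : (Fin D → ZMod M) → ℂ) (x : Fin D → ZMod M) :
    T (fun xi => mu xi - nu xi) f x = T mu f x - T nu f x := by
  rw [T_eq, T_eq, T_eq, ← mul_sub, ← Finset.sum_sub_distrib]
  congr 1
  exact Finset.sum_congr rfl fun b _ => by ring

theorem T_const_mul (c : ℂ) (mu : (Fin D → ℝ) → ℂ) (f : (Fin D → ZMod M) → ℂ)
    (x : Fin D → ZMod M) : T (fun xi => c * mu xi) f x = c * T mu f x := by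
  rw [T_eq, T_eq, mul_left_comm c, Finset.mul_sum (a := c)]
  congr 1
  exact Finset.sum_congr rfl fun b _ => by ring

theorem T_sum {ι : Type*} (s : Finset ι) (mu : ι → (Fin D → ℝ) → ℂ) (f : (Fin D → ZMod M) → ℂ)
    (x : Fin D → ZMod M) : T (fun xi => ∑ i ∈ s, mu i xi) f x = ∑ i ∈ s, T (mu i) f x := by
  simp only [T_eq]
  rw [← Finset.mul_sum, Finset.sum_comm]
  congr 1
  refine Finset.sum_congr rfl fun b _ => ?_
  rw [Finset.sum_mul, Finset.sum_mul]

theorem T_zero (f : (Fin D → ZMod M) → ℂ) (x : Fin D → ZMod M) : T (fun _ => 0) f x = 0 := by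
  rw [T_eq]
  simp

theorem T_one (f : (Fin D → ZMod M) → ℂ) : T (fun _ => 1) f = f := by
  funext x
  rw [T_eq]
  simp only [one_mul]
  exact inversion f x

theorem T_shift (v : Fin D → ℕ) (f : (Fin D → ZMod M) → ℂ) (x : Fin D → ZMod M) :
    T (fun xi => e (∑ j, xi j * (v j : ℝ))) f x = f (fun j => x j + (v j : ZMod M)) := by
  rw [T_eq, ← inversion f (fun j => x j + (v j : ZMod M))]
  congr 1
  refine Finset.sum_congr rfl fun b _ => ?_
  have h : e (∑ j, fq b j * (v j : ℝ)) = ZMod.stdAddChar (N := M) (∑ j, b j * (v j : ZMod M)) := by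
    have h1 : (∑ j, fq b j * (v j : ℝ)) = (((∑ j, ((b j).val : ℤ) * (v j : ℤ) : ℤ)) : ℝ) / (M : ℝ) := by
      push_cast
      rw [Finset.sum_div]
      refine Finset.sum_congr rfl fun j _ => ?_
      unfold fq
      ring
    rw [h1, e_div_eq]
    congr 1
    push_cast
    refine Finset.sum_congr rfl fun j _ => ?_
    rw [ZMod.natCast_zmod_val]
  have h2 : e (pr b (fun j => x j + (v j : ZMod M))) =
      e (∑ j, fq b j * (v j : ℝ)) * e (pr b x) := by
    rw [h, e_pr, e_pr, ← AddChar.map_add_eq_mul]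
    congr 1
    rw [← Finset.sum_add_distrib]
    exact Finset.sum_congr rfl fun j _ => by ring
  rw [h2]
  ring

lemma nrm_nonneg' {A : Type*} [Fintype A] (f : A → ℂ) : 0 ≤ nrm f := Real.sqrt_nonneg _

lemma nrm_sq' {A : Type*} [Fintype A] (f : A → ℂ) : nrm f ^ 2 = ∑ x, ‖f x‖ ^ 2 :=
  Real.sq_sqrt (Finset.sum_nonneg fun _ _ => by positivity)

/-- Plancherel for `T mu f`. -/
theorem plancherel_T (mu : (Fin D → ℝ) → ℂ) (f : (Fin D → ZMod M) → ℂ) :
    (M : ℝ) ^ D * nrm (T mu f) ^ 2 = ∑ b : Fin D → ZMod M, ‖mu (fq b)‖ ^ 2 * ‖ft f b‖ ^ 2 := by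
  rw [nrm_sq', ← plancherel]
  refine Finset.sum_congr rfl fun b _ => ?_
  rw [ft_T, norm_mul, mul_pow]

/-- The square function estimate. -/
theorem sum_nrm_T_le {ι : Type*} (S : Finset ι) (mu : ι → (Fin D → ℝ) → ℂ) (c : ℝ)
    (hc : ∀ xi, ∑ i ∈ S, ‖mu i xi‖ ^ 2 ≤ c) (f : (Fin D → ZMod M) → ℂ) :
    ∑ i ∈ S, nrm (T (mu i) f) ^ 2 ≤ c * nrm f ^ 2 := by
  have h1 : (M : ℝ) ^ D * ∑ i ∈ S, nrm (T (mu i) f) ^ 2 ≤ (M : ℝ) ^ D * (c * nrm f ^ 2) := by
    calc (M : ℝ) ^ D * ∑ i ∈ S, nrm (T (mu i) f) ^ 2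
        = ∑ i ∈ S, ∑ b : Fin D → ZMod M, ‖mu i (fq b)‖ ^ 2 * ‖ft f b‖ ^ 2 := by
          rw [Finset.mul_sum]
          exact Finset.sum_congr rfl fun i _ => plancherel_T _ _
      _ = ∑ b : Fin D → ZMod M, (∑ i ∈ S, ‖mu i (fq b)‖ ^ 2) * ‖ft f b‖ ^ 2 := by
          rw [Finset.sum_comm]
          exact Finset.sum_congr rfl fun b _ => by rw [Finset.sum_mul]
      _ ≤ ∑ b : Fin D → ZMod M, c * ‖ft f b‖ ^ 2 :=
          Finset.sum_le_sum fun b _ => mul_le_mul_of_nonneg_right (hc _) (by positivity)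
      _ = (M : ℝ) ^ D * (c * nrm f ^ 2) := by
          rw [← Finset.mul_sum, plancherel, nrm_sq']
          ring
  exact le_of_mul_le_mul_left h1 MD_pos

theorem nrm_T_le (mu : (Fin D → ℝ) → ℂ) (c : ℝ) (hc : ∀ xi, ‖mu xi‖ ≤ c)
    (f : (Fin D → ZMod M) → ℂ) : nrm (T mu f) ≤ c * nrm f := by
  have hc0 : 0 ≤ c := le_trans (norm_nonneg _) (hc (fun _ => 0))
  have h := sum_nrm_T_le (M := M) (Finset.univ : Finset Unit) (fun _ => mu) (c ^ 2)
    (fun xi => by simpa using pow_le_pow_left₀ (norm_nonneg _) (hc xi) 2) f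
  simp only [Finset.univ_unique, Finset.sum_singleton] at h
  rw [← mul_pow] at h
  exact le_of_sq_le_sq h (mul_nonneg hc0 (nrm_nonneg' f))

/-- The averages along the moment curve are the multiplier operators with multiplier `m N`. -/
theorem T_m (N : ℕ) (f : (Fin D → ZMod M) → ℂ) (x : Fin D → ZMod M) :
    T (m N) f x = (N : ℂ)⁻¹ * ∑ n ∈ range N, f (fun j => x j + ((n : ZMod M)) ^ ((j : ℕ) + 1)) := by
  have h : (m N : (Fin D → ℝ) → ℂ) = fun xi => (N : ℂ)⁻¹ * ∑ n ∈ range N, e (ph xi n) := rfl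
  rw [h, T_const_mul, T_sum]
  congr 1
  refine Finset.sum_congr rfl fun n _ => ?_
  have h2 : (fun xi : Fin D → ℝ => e (ph xi n)) =
      fun xi => e (∑ j, xi j * (((fun j : Fin D => n ^ ((j : ℕ) + 1)) j : ℕ) : ℝ)) := by
    funext xi
    simp [ph]
  rw [h2, T_shift]
  congr 1
  funext j
  push_cast
  rfl

end Pool.PolyMax
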