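import Pool.Agent.PolyMax.InvWeyl
import Pool.Agent.PolyMax.Kernel

set_option autoImplicit false

/-!
# PolyMax: the average and the model kernel near the origin

PROOF of `m_decay`.  Let `C` be the constant of `weyl_vec D`, `X = sz N be ≤ √N`, `lam = ‖m N be‖`;
assume `lam > 0` (else trivial), `T = 1 / lam ≥ 1`.  `weyl_vec`: `q ≤ C T^C` and
`dz (q be_j) ≤ C T^C / N^{j+1}` for all `j`.
(a) If `q dz (be_j) ≤ 1 / 2` for all `j`, then `dz (q be_j) = q dz (be_j) ≥ dz (be_j)`
(`dz_nat_mul_eq`), so `X = ∑ N^{j+1} dz (be_j) ≤ D C T^C`.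
(b) Otherwise `q > 1 / (2 dz (be_j))` for some `j`, and `N dz (be_j) ≤ X ≤ √N`, so
`C T^C ≥ q ≥ N / (2 √N) = √N / 2 ≥ X / 2`.
In both cases `X ≤ (2 + D) C T^C`, so `lam ≤ ((2 + D) C / X)^{1/C}`: this is the claim with
`δ = 1 / C` (constant `(2 + D) C`, since `y^{1/C} ≤ max (y, 1)`).

`m_near`: `|ph be n| ≤ ∑ N^{j+1} |be_j|` for `n < N`; reduce `be` modulo integers first (`m_congr`).

`diff_bound`.  `‖m - w‖ ≤ ‖m - 1‖ + ‖w - 1‖ ≤ C X` (`m_near`, `w_near`) and, for `X > 0`,
`‖m - w‖ ≤ ‖m‖ + ‖w‖ ≤ C X^{-δ} + D X^{-1}` if `X ≥ 1` (`w_decay_one`; take `δ ≤ 1`), while for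
`X < 1` one has `X^{-δ} ≥ 1 ≥ X`, so that `min = X`.  For `X = 0` both sides vanish:
`‖m - w‖ ≤ C X = 0` and `gf δ 0 = min 0 (0^{-δ}) = 0` (`Real.zero_rpow`).
-/

open Finset

namespace Pool.PolyMax

theorem m_near {D : ℕ} (N : ℕ) (hN : 1 ≤ N) (be : Fin D → ℝ) :
    ‖m N be - 1‖ ≤ 2 * Real.pi * sz N be := by
  choose k hk using fun j => exists_int_dz (be j)
  set eta : Fin D → ℝ := fun j => be j - k j with heta
  have hcongr : m N be = m N eta := by
    apply m_congr
    intro j
    exact ⟨k j, by simp [heta]⟩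
  have hN0 : (0 : ℝ) < N := by exact_mod_cast hN
  have hNc : (N : ℂ) ≠ 0 := by exact_mod_cast (by omega : N ≠ 0)
  have hph : ∀ n ∈ range N, ‖e (ph eta n) - 1‖ ≤ 2 * Real.pi * sz N be := by
    intro n hn
    have hn' : (n : ℝ) ≤ N := by exact_mod_cast (mem_range.1 hn).le
    refine (norm_e_sub_one_le _).trans ?_
    refine mul_le_mul_of_nonneg_left ?_ (by positivity)
    unfold ph sz
    refine (abs_sum_le_sum_abs _ _).trans ?_
    refine sum_le_sum fun j _ => ?_
    rw [abs_mul, abs_of_nonneg (by positivity : (0 : ℝ) ≤ (n : ℝ) ^ ((j : ℕ) + 1)), mul_comm]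
    have h1 : |eta j| = dz (be j) := hk j
    rw [h1]
    exact mul_le_mul_of_nonneg_right (pow_le_pow_left₀ (by positivity) hn' _) (dz_nonneg _)
  have hsub : m N eta - 1 = (N : ℂ)⁻¹ * ∑ n ∈ range N, (e (ph eta n) - 1) := by
    unfold m
    rw [sum_sub_distrib, mul_sub]
    simp [hNc]
  rw [hcongr, hsub, norm_mul, norm_inv, Complex.norm_natCast]
  have hsum : ‖∑ n ∈ range N, (e (ph eta n) - 1)‖ ≤ N * (2 * Real.pi * sz N be) := by
    refine (norm_sum_le _ _).trans ?_
    refine (sum_le_sum hph).trans ?_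
    simp
  calc (N : ℝ)⁻¹ * ‖∑ n ∈ range N, (e (ph eta n) - 1)‖
      ≤ (N : ℝ)⁻¹ * (N * (2 * Real.pi * sz N be)) :=
        mul_le_mul_of_nonneg_left hsum (by positivity)
    _ = 2 * Real.pi * sz N be := by
        field_simp

theorem m_decay (D : ℕ) : ∃ C de : ℝ, 0 < C ∧ 0 < de ∧ ∀ (N : ℕ) (be : Fin D → ℝ), 1 ≤ N →
    0 < sz N be → sz N be ≤ Real.sqrt N → ‖m N be‖ ≤ C * sz N be ^ (-de) := by
  obtain ⟨C, hC1, hW⟩ := weyl_vec D
  have hC1' : (1 : ℝ) ≤ C := by exact_mod_cast hC1
  have hC0 : (0 : ℝ) < C := by linarith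
  refine ⟨(2 + D) * C, 1 / C, by positivity, by positivity, ?_⟩
  intro N be hN hX hXN
  have hN0 : (0 : ℝ) < N := by exact_mod_cast hN
  set X := sz N be with hXdef
  by_cases hlam : ‖m N be‖ = 0
  · rw [hlam]
    positivity
  have hlam0 : 0 < ‖m N be‖ := lt_of_le_of_ne (norm_nonneg _) (Ne.symm hlam)
  set lam := ‖m N be‖ with hlamdef
  obtain ⟨q, hq1, hqC, hq⟩ := hW N be lam hN hlam0 (norm_m_le_one N be) le_rfl
  have hq1' : (1 : ℝ) ≤ q := by exact_mod_cast hq1
  have hT0 : 0 < (1 / lam) ^ C := by positivity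
  have hCT : 0 < (C : ℝ) * (1 / lam) ^ C := by positivity
  have hXT : X ≤ (2 + D) * (C * (1 / lam) ^ C) := by
    by_cases h : ∀ j, (q : ℝ) * dz (be j) ≤ 1 / 2
    · have h1 : X ≤ D * (C * (1 / lam) ^ C) := by
        rw [hXdef]
        unfold sz
        have : ∀ j ∈ (Finset.univ : Finset (Fin D)),
            (N : ℝ) ^ ((j : ℕ) + 1) * dz (be j) ≤ C * (1 / lam) ^ C := by
          intro j _
          have h2 := hq j
          rw [dz_nat_mul_eq q (be j) (h j)] at h2
          have h3 : dz (be j) ≤ q * dz (be j) := by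
            have := dz_nonneg (be j)
            nlinarith
          have h4 := h3.trans h2
          rw [le_div_iff₀ (by positivity)] at h4
          linarith
        refine (sum_le_sum this).trans ?_
        simp
      nlinarith
    · push Not at h
      obtain ⟨j, hj⟩ := h
      have h1 := dz_le_sz_div hN be j
      rw [le_div_iff₀ hN0, ← hXdef] at h1
      have h2 : X * X ≤ N := by
        have := mul_self_le_mul_self hX.le hXN
        rwa [Real.mul_self_sqrt hN0.le] at this
      have h3 : (N : ℝ) < 2 * (q * X) := by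
        have h4 : (q : ℝ) * (dz (be j) * N) ≤ q * X :=
          mul_le_mul_of_nonneg_left h1 (by positivity)
        have h5 : (1 / 2 : ℝ) * N < (q : ℝ) * dz (be j) * N :=
          mul_lt_mul_of_pos_right hj hN0
        nlinarith
      have h6 : X ≤ 2 * q := by
        by_contra hcon
        push Not at hcon
        have : (2 * q) * X < X * X := mul_lt_mul_of_pos_right hcon hX
        nlinarith
      have h7 : (0 : ℝ) ≤ D := by positivity
      nlinarith
  have hlamC : lam ^ C ≤ ((2 + D) * C) / X := by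
    rw [le_div_iff₀ hX]
    have h1 : (1 / lam) ^ C * lam ^ C = 1 := by
      rw [← mul_pow, one_div, inv_mul_cancel₀ hlam0.ne', one_pow]
    calc lam ^ C * X ≤ lam ^ C * ((2 + D) * (C * (1 / lam) ^ C)) :=
          mul_le_mul_of_nonneg_left hXT (by positivity)
      _ = (2 + D) * C * ((1 / lam) ^ C * lam ^ C) := by ring
      _ = (2 + D) * C := by rw [h1, mul_one]
  have hK1 : (1 : ℝ) ≤ (2 + D) * C := by
    have : (0 : ℝ) ≤ D := by positivity
    nlinarith
  calc lam = (lam ^ C) ^ (1 / (C : ℝ)) := by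
        rw [← Real.rpow_natCast, ← Real.rpow_mul hlam0.le, mul_one_div, div_self hC0.ne',
          Real.rpow_one]
    _ ≤ (((2 + D) * C) / X) ^ (1 / (C : ℝ)) :=
        Real.rpow_le_rpow (by positivity) hlamC (by positivity)
    _ = ((2 + D) * C) ^ (1 / (C : ℝ)) * X ^ (-(1 / (C : ℝ))) := by
        rw [Real.div_rpow (by positivity) hX.le, Real.rpow_neg hX.le]
        rfl
    _ ≤ ((2 + D) * C) * X ^ (-(1 / (C : ℝ))) := by
        refine mul_le_mul_of_nonneg_right ?_ (by positivity)
        calc ((2 + D) * C : ℝ) ^ (1 / (C : ℝ)) ≤ ((2 + D) * C : ℝ) ^ (1 : ℝ) := by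
              refine Real.rpow_le_rpow_of_exponent_le hK1 ?_
              rw [div_le_one hC0]
              exact hC1'
          _ = (2 + D) * C := Real.rpow_one _

theorem diff_bound (D : ℕ) : ∃ C de : ℝ, 0 < C ∧ 0 < de ∧ ∀ (N : ℕ) (be : Fin D → ℝ), 1 ≤ N →
    sz N be ≤ Real.sqrt N → ‖m N be - w N be‖ ≤ C * gf de (sz N be) := by
  obtain ⟨C, de, hC, hde, hdec⟩ := m_decay D
  have hpi := Real.pi_pos
  refine ⟨2 * Real.pi * (D + 3) + C + D, min de 1, by positivity, lt_min hde one_pos, ?_⟩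
  intro N be hN hXN
  set X := sz N be with hXdef
  have hX0 : 0 ≤ X := sz_nonneg N be
  have hnear : ‖m N be - w N be‖ ≤ 2 * Real.pi * (D + 3) * X := by
    have h1 := m_near N hN be
    have h2 := w_near N hN be
    have h3 : m N be - w N be = (m N be - 1) - (w N be - 1) := by ring
    rw [h3]
    refine (norm_sub_le _ _).trans ?_
    rw [← hXdef] at h1 h2
    nlinarith
  have hDnn : (0 : ℝ) ≤ D := by positivity
  rcases hX0.eq_or_lt with h0 | h0
  · have hg : gf (min de 1) X = 0 := by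
      unfold gf
      rw [← h0, Real.zero_rpow (by
        have : 0 < min de 1 := lt_min hde one_pos
        linarith)]
      simp
    rw [hg, mul_zero]
    rw [← h0, mul_zero] at hnear
    exact hnear
  · rcases lt_or_ge X 1 with h1 | h1
    · have hg : gf (min de 1) X = X := by
        unfold gf
        refine min_eq_left ?_
        have : 1 ≤ X ^ (-(min de 1)) := by
          refine Real.one_le_rpow_of_pos_of_le_one_of_nonpos h0 h1.le ?_
          have : 0 < min de 1 := lt_min hde one_pos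
          linarith
        linarith
      rw [hg]
      refine hnear.trans ?_
      nlinarith
    · have hmd : 0 < min de 1 := lt_min hde one_pos
      have hle1 : X ^ (-(min de 1)) ≤ 1 :=
        Real.rpow_le_one_of_one_le_of_nonpos h1 (by linarith)
      have hg : gf (min de 1) X = X ^ (-(min de 1)) := by
        unfold gf
        exact min_eq_right (hle1.trans h1)
      rw [hg]
      have h2 : ‖m N be‖ ≤ C * X ^ (-(min de 1)) := by
        refine (hdec N be hN h0 hXN).trans ?_
        refine mul_le_mul_of_nonneg_left ?_ hC.le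
        exact Real.rpow_le_rpow_of_exponent_le h1 (neg_le_neg (min_le_left _ _))
      have h3 : ‖w N be‖ ≤ D * X ^ (-(min de 1)) := by
        have h4 := w_decay_one N be
        rw [← hXdef] at h4
        have h5 : X ^ (-(1 : ℝ)) ≤ X ^ (-(min de 1)) :=
          Real.rpow_le_rpow_of_exponent_le h1 (neg_le_neg (min_le_right _ _))
        have h6 : ‖w N be‖ ≤ D * X ^ (-(1 : ℝ)) := by
          rw [Real.rpow_neg_one, ← div_eq_mul_inv, le_div_iff₀ h0]
          exact h4
        exact h6.trans (mul_le_mul_of_nonneg_left h5 hDnn)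
      have h7 : 0 ≤ X ^ (-(min de 1)) := by positivity
      calc ‖m N be - w N be‖ ≤ ‖m N be‖ + ‖w N be‖ := norm_sub_le _ _
        _ ≤ C * X ^ (-(min de 1)) + D * X ^ (-(min de 1)) := add_le_add h2 h3
        _ ≤ (2 * Real.pi * (D + 3) + C + D) * X ^ (-(min de 1)) := by
            have : 0 ≤ 2 * Real.pi * (D + 3) * X ^ (-(min de 1)) := by positivity
            nlinarith

end Pool.PolyMax
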