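import Pool.Agent.PolyMax.Kernel
import Pool.Agent.PolyMax.Sep

set_option autoImplicit false

/-!
# PolyMax: the fractions which are far from `xi` contribute little

PROOF.  For `s ∈ sr D N`: `2^s ≤ N^{1/E}`, `E = 16 (D + 1)` (`two_pow_le_of_mem_sr`), so the number of
pairs `(q, a)` of level `s` is at most `2^{s+1} (2^{s+1})^D = 2^{(s+1)(D+1)}`, and the total number for
all `s ∈ sr D N` is at most `2 * 2^{(s_max + 1)(D + 1)} ≤ 2^{D+2} N^{(D+1)/E} = 2^{D+2} N^{1/16}`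
(geometric sum; or bound the number of levels by `s_max + 1 ≤ 2^{s_max}` and lose nothing important:
`N^{1/8}` in place of `N^{1/16}` is fine too).  A far term has
`‖w‖ ≤ D^{D+2} / (N^{1/4})^{D+2} ≤ D^{D+2} N^{-1/2}` (`w_decay`, `N ≥ 1`, and `D + 2 ≥ 2`).  The product
is at most `C N^{1/8 - 1/2} ≤ C N^{-1/4}`.
-/

open Finset

namespace Pool.PolyMax

namespace FarAux

lemma term_le {D : ℕ} (N : ℕ) (be : Fin D → ℝ) (hN : 1 ≤ N)
    (h : (N : ℝ) ^ (1 / 4 : ℝ) ≤ sz N be) :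
    ‖w N be‖ ≤ ((D : ℝ) ^ (D + 2) + 1) * (N : ℝ) ^ (-(1 / 2) : ℝ) := by
  have hN' : (1 : ℝ) ≤ N := by exact_mod_cast hN
  have hN0 : (0 : ℝ) < N := by linarith
  have h1 := w_decay N be
  have hy : 1 ≤ (N : ℝ) ^ (1 / 4 : ℝ) := Real.one_le_rpow hN' (by norm_num)
  have h2 : ((N : ℝ) ^ (1 / 4 : ℝ)) ^ 2 ≤ sz N be ^ (D + 2) := by
    calc ((N : ℝ) ^ (1 / 4 : ℝ)) ^ 2 ≤ ((N : ℝ) ^ (1 / 4 : ℝ)) ^ (D + 2) :=
          pow_le_pow_right₀ hy (by omega)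
      _ ≤ sz N be ^ (D + 2) := pow_le_pow_left₀ (by linarith) h _
  have h3 : ((N : ℝ) ^ (1 / 4 : ℝ)) ^ 2 = (N : ℝ) ^ (1 / 2 : ℝ) := by
    rw [← Real.rpow_natCast, ← Real.rpow_mul hN0.le]
    norm_num
  rw [h3] at h2
  have h4 : ‖w N be‖ * (N : ℝ) ^ (1 / 2 : ℝ) ≤ (D : ℝ) ^ (D + 2) + 1 := by
    have := mul_le_mul_of_nonneg_left h2 (norm_nonneg (w N be))
    linarith
  have hp : 0 < (N : ℝ) ^ (1 / 2 : ℝ) := Real.rpow_pos_of_pos hN0 _
  rw [Real.rpow_neg hN0.le, ← div_eq_mul_inv, le_div_iff₀ hp]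
  exact h4

lemma level_count {D N s : ℕ} (hN : 1 ≤ N) (hs : s ∈ sr D N) :
    (∑ q ∈ Ico (2 ^ s) (2 ^ (s + 1)), ((redF D q).card : ℝ)) ≤
      2 ^ D * (N : ℝ) ^ (1 / 16 : ℝ) := by
  have hN' : (1 : ℝ) ≤ N := by exact_mod_cast hN
  have hN0 : (0 : ℝ) < N := by linarith
  have h1 : ∀ q ∈ Ico (2 ^ s) (2 ^ (s + 1)), ((redF D q).card : ℝ) ≤ (2 ^ (s + 1)) ^ D := by
    intro q hq
    have hq2 := (Finset.mem_Ico.1 hq).2
    calc ((redF D q).card : ℝ) ≤ ((q ^ D : ℕ) : ℝ) := by exact_mod_cast card_redF_le D q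
      _ = (q : ℝ) ^ D := by push_cast; ring
      _ ≤ (2 ^ (s + 1)) ^ D := by
        apply pow_le_pow_left₀ (by positivity)
        have : (q : ℝ) ≤ ((2 ^ (s + 1) : ℕ) : ℝ) := by exact_mod_cast hq2.le
        push_cast at this
        exact this
  have h2 := two_pow_le_of_mem_sr hs
  have hE : (0 : ℝ) < (Ex D : ℝ) := by
    unfold Ex
    push_cast
    positivity
  calc ∑ q ∈ Ico (2 ^ s) (2 ^ (s + 1)), ((redF D q).card : ℝ)
      ≤ ∑ q ∈ Ico (2 ^ s) (2 ^ (s + 1)), ((2 : ℝ) ^ (s + 1)) ^ D := Finset.sum_le_sum h1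
    _ = 2 ^ s * ((2 : ℝ) ^ (s + 1)) ^ D := by
        rw [Finset.sum_const, Nat.card_Ico, nsmul_eq_mul]
        congr 1
        have : 2 ^ (s + 1) - 2 ^ s = 2 ^ s := by
          rw [pow_succ]
          omega
        rw [this]
        push_cast
        ring
    _ = 2 ^ D * ((2 : ℝ) ^ s) ^ (D + 1) := by
        rw [pow_succ (2 : ℝ) s, mul_pow, pow_succ ((2 : ℝ) ^ s) D]
        ring
    _ ≤ 2 ^ D * (N : ℝ) ^ (1 / 16 : ℝ) := by
        apply mul_le_mul_of_nonneg_left _ (by positivity)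
        calc ((2 : ℝ) ^ s) ^ (D + 1) ≤ ((N : ℝ) ^ (1 / (Ex D : ℝ))) ^ (D + 1) :=
              pow_le_pow_left₀ (by positivity) h2 _
          _ = (N : ℝ) ^ (1 / 16 : ℝ) := by
            rw [← Real.rpow_natCast, ← Real.rpow_mul hN0.le]
            congr 1
            unfold Ex
            push_cast
            field_simp

lemma card_sr_le {D N : ℕ} (hN : 1 ≤ N) : ((sr D N).card : ℝ) ≤ 2 * (N : ℝ) ^ (1 / 16 : ℝ) := by
  have hN' : (1 : ℝ) ≤ N := by exact_mod_cast hN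
  have hN0 : (0 : ℝ) < N := by linarith
  have h1 : sr D N ⊆ range (⌊(N : ℝ) ^ (1 / 16 : ℝ)⌋₊ + 1) := by
    intro s hs
    rw [Finset.mem_range, Nat.lt_succ_iff]
    apply Nat.le_floor
    have h2 := two_pow_le_of_mem_sr hs
    have h3 : (s : ℝ) ≤ (2 : ℝ) ^ s := by exact_mod_cast (Nat.lt_two_pow_self).le
    have h4 : (N : ℝ) ^ (1 / (Ex D : ℝ)) ≤ (N : ℝ) ^ (1 / 16 : ℝ) := by
      apply Real.rpow_le_rpow_of_exponent_le hN'
      unfold Ex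
      push_cast
      rw [div_le_div_iff₀ (by positivity) (by norm_num)]
      have : (0 : ℝ) ≤ D := by positivity
      linarith
    linarith
  have h2 := Finset.card_le_card h1
  rw [Finset.card_range] at h2
  have h3 : ((sr D N).card : ℝ) ≤ (⌊(N : ℝ) ^ (1 / 16 : ℝ)⌋₊ : ℝ) + 1 := by exact_mod_cast h2
  have h4 : (⌊(N : ℝ) ^ (1 / 16 : ℝ)⌋₊ : ℝ) ≤ (N : ℝ) ^ (1 / 16 : ℝ) :=
    Nat.floor_le (Real.rpow_nonneg hN0.le _)
  have h5 : 1 ≤ (N : ℝ) ^ (1 / 16 : ℝ) := Real.one_le_rpow hN' (by norm_num)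
  linarith

end FarAux

open Classical FarAux in
theorem far (D : ℕ) : ∃ C : ℝ, 0 < C ∧ ∀ (N : ℕ) (xi : Fin D → ℝ), 1 ≤ N →
    (∑ s ∈ sr D N, ∑ q ∈ Ico (2 ^ s) (2 ^ (s + 1)), ∑ a ∈ redF D q,
      if (N : ℝ) ^ (1 / 4 : ℝ) ≤ sz N (fr xi q a) then ‖w N (fr xi q a)‖ else 0) ≤
    C * (N : ℝ) ^ (-(1 / 4) : ℝ) := by
  have hK : 0 < (D : ℝ) ^ (D + 2) + 1 := by positivity
  refine ⟨2 ^ (D + 1) * ((D : ℝ) ^ (D + 2) + 1), by positivity, ?_⟩
  intro N xi hN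
  have hN' : (1 : ℝ) ≤ N := by exact_mod_cast hN
  have hN0 : (0 : ℝ) < N := by linarith
  set B : ℝ := ((D : ℝ) ^ (D + 2) + 1) * (N : ℝ) ^ (-(1 / 2) : ℝ) with hB
  have hB0 : 0 ≤ B := by
    rw [hB]
    have := Real.rpow_nonneg hN0.le (-(1 / 2) : ℝ)
    positivity
  have hP : 0 ≤ (N : ℝ) ^ (1 / 16 : ℝ) := Real.rpow_nonneg hN0.le _
  calc (∑ s ∈ sr D N, ∑ q ∈ Ico (2 ^ s) (2 ^ (s + 1)), ∑ a ∈ redF D q,
        if (N : ℝ) ^ (1 / 4 : ℝ) ≤ sz N (fr xi q a) then ‖w N (fr xi q a)‖ else 0)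
      ≤ ∑ s ∈ sr D N, 2 ^ D * (N : ℝ) ^ (1 / 16 : ℝ) * B := by
        apply Finset.sum_le_sum
        intro s hs
        calc (∑ q ∈ Ico (2 ^ s) (2 ^ (s + 1)), ∑ a ∈ redF D q,
              if (N : ℝ) ^ (1 / 4 : ℝ) ≤ sz N (fr xi q a) then ‖w N (fr xi q a)‖ else 0)
            ≤ ∑ q ∈ Ico (2 ^ s) (2 ^ (s + 1)), ((redF D q).card : ℝ) * B := by
              apply Finset.sum_le_sum
              intro q _
              rw [← nsmul_eq_mul, ← Finset.sum_const]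
              apply Finset.sum_le_sum
              intro a _
              split_ifs with h
              · exact term_le N _ hN h
              · exact hB0
          _ = (∑ q ∈ Ico (2 ^ s) (2 ^ (s + 1)), ((redF D q).card : ℝ)) * B := by
              rw [Finset.sum_mul]
          _ ≤ 2 ^ D * (N : ℝ) ^ (1 / 16 : ℝ) * B :=
              mul_le_mul_of_nonneg_right (level_count hN hs) hB0
    _ = ((sr D N).card : ℝ) * (2 ^ D * (N : ℝ) ^ (1 / 16 : ℝ) * B) := by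
        rw [Finset.sum_const, nsmul_eq_mul]
    _ ≤ (2 * (N : ℝ) ^ (1 / 16 : ℝ)) * (2 ^ D * (N : ℝ) ^ (1 / 16 : ℝ) * B) :=
        mul_le_mul_of_nonneg_right (card_sr_le hN) (by positivity)
    _ = 2 ^ (D + 1) * ((D : ℝ) ^ (D + 2) + 1) *
          ((N : ℝ) ^ (1 / 16 : ℝ) * (N : ℝ) ^ (1 / 16 : ℝ) * (N : ℝ) ^ (-(1 / 2) : ℝ)) := by
        rw [hB, pow_succ]
        ring
    _ ≤ 2 ^ (D + 1) * ((D : ℝ) ^ (D + 2) + 1) * (N : ℝ) ^ (-(1 / 4) : ℝ) := by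
        apply mul_le_mul_of_nonneg_left _ (by positivity)
        rw [← Real.rpow_add hN0, ← Real.rpow_add hN0]
        apply Real.rpow_le_rpow_of_exponent_le hN'
        norm_num

end Pool.PolyMax
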