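import Pool.Agent.PolyMax.Complete
import Pool.Agent.PolyMax.Kernel
import Pool.Agent.PolyMax.Sep
import Pool.Agent.PolyMax.Geo

set_option autoImplicit false

/-!
# PolyMax: pointwise bounds for the level `s` multiplier

PROOF.  Fix `s`, `xi`.  Call `(q, a)` of level `s` near if `dz (fr xi q a j) < 2^{-2s-4}` for all `j`.
At most one is near: two different ones would have by `sep`, for some `j`,
`2^{-2s-2} < 1 / (q q') ≤ dz (a_j / q - a'_j / q') ≤ 2 * 2^{-2s-4}`, impossible.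
A pair which is not near has, for some `j`, `dz (fr xi q a j) ≥ 2^{-2s-4}`, so
`‖w N (fr xi q a)‖ ≤ (2^{2s+4} / N)^{D+2}` (`w_decay_coord'`); there are at most `2^{(s+1)(D+1)}` pairs,
and if `2^{E s} ≤ N`, `E = 16 (D + 1)`, the sum of these `‖w‖` is at most
`2^{(s+1)(D+1) + (2s+4)(D+2)} N^{-(D+2)} ≤ C_D 2^{-s} / N`, because `N^{D+1} ≥ 2^{16 (D+1)^2 s}` and
`(s+1)(D+1) + (2s+4)(D+2) ≤ 16 (D+1)^2 s - s + (5 D + 9)`.
(`far_level` below states this.)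
* `norm_Lam_le`: near term `≤ ‖G q a‖ ≤ C 2^{-δ s}` (`norm_G_le`, `q ≥ 2^s`), the others `≤ C 2^{-s}`.
* `Lam_diff`: with `N_j = N (ka j)`: the difference of the near terms is
  `G q a (w N_{j+1} be - w N_j be)`, and `geo2` (with `A = 2 π (D + 2)`, `x k = sz (N k) be`, `F k = w (N k) be`;
  `w_near`, `w_decay_one`, `norm_w_le_one`, `sz_grow`) bounds the sum of the squares by
  `‖G‖² C ≤ C 2^{-2 δ s}`; the others contribute at most `∑_j (C 2^{-s} / N_j + C 2^{-s} / N_{j+1})²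
  ≤ C 2^{-2s}` (geometric, `N_j ≥ rho^j`).  Use `‖x + y‖² ≤ 2 ‖x‖² + 2 ‖y‖²`.
-/

open Finset

namespace Pool.PolyMax

theorem near_unique {D s : ℕ} (xi : Fin D → ℝ) {q q' : ℕ} {a a' : Fin D → ℕ}
    (hq : q ∈ Ico (2 ^ s) (2 ^ (s + 1))) (hq' : q' ∈ Ico (2 ^ s) (2 ^ (s + 1)))
    (ha : a ∈ redF D q) (ha' : a' ∈ redF D q')
    (h : ∀ j, dz (fr xi q a j) < 1 / 2 ^ (2 * s + 4))
    (h' : ∀ j, dz (fr xi q' a' j) < 1 / 2 ^ (2 * s + 4)) : q = q' ∧ a = a' := by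
  by_contra hne
  rw [mem_Ico] at hq hq'
  have hp : 0 < 2 ^ s := by positivity
  have hq1 : 1 ≤ q := by omega
  have hq1' : 1 ≤ q' := by omega
  obtain ⟨j, hj⟩ := sep hq1 hq1' ha ha' hne
  have h1 : (a j : ℝ) / (q : ℝ) - (a' j : ℝ) / (q' : ℝ) = fr xi q' a' j - fr xi q a j := by
    simp only [fr]
    ring
  rw [h1] at hj
  have h2 := dz_sub_le (fr xi q' a' j) (fr xi q a j)
  have h3 := h j
  have h4 := h' j
  have hqR : (q : ℝ) ≤ 2 ^ (s + 1) := by exact_mod_cast hq.2.le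
  have hqR' : (q' : ℝ) ≤ 2 ^ (s + 1) := by exact_mod_cast hq'.2.le
  have hq0 : (0 : ℝ) < q := by exact_mod_cast hq1
  have hq0' : (0 : ℝ) < q' := by exact_mod_cast hq1'
  have h5 : (q : ℝ) * q' ≤ 2 ^ (s + 1) * 2 ^ (s + 1) :=
    mul_le_mul hqR hqR' hq0'.le (by positivity)
  have h6 : (1 : ℝ) / (2 ^ (s + 1) * 2 ^ (s + 1)) ≤ 1 / ((q : ℝ) * q') :=
    one_div_le_one_div_of_le (mul_pos hq0 hq0') h5
  have h7 : (1 : ℝ) / (2 ^ (s + 1) * 2 ^ (s + 1)) = 4 * (1 / 2 ^ (2 * s + 4)) := by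
    have hX : (0 : ℝ) < 2 ^ (s + 1) * 2 ^ (s + 1) := by positivity
    have hY : (2 : ℝ) ^ (2 * s + 4) = (2 ^ (s + 1) * 2 ^ (s + 1)) * 4 := by ring
    rw [hY]
    generalize (2 : ℝ) ^ (s + 1) * 2 ^ (s + 1) = X at hX
    field_simp
  have h8 : (0 : ℝ) < 1 / 2 ^ (2 * s + 4) := by positivity
  linarith

/-- the pairs `(q, a)` of level `s`. -/
private noncomputable def lvl (D s : ℕ) : Finset (Σ _ : ℕ, Fin D → ℕ) :=
  (Ico (2 ^ s) (2 ^ (s + 1))).sigma fun q => redF D q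

private theorem Lam_eq {D : ℕ} (s N : ℕ) (xi : Fin D → ℝ) :
    Lam s N xi = ∑ x ∈ lvl D s, G x.1 x.2 * w N (fr xi x.1 x.2) := by
  rw [lvl, sum_sigma]
  rfl

private theorem card_lvl_le (D s : ℕ) : (lvl D s).card ≤ 2 ^ ((s + 1) * (D + 1)) := by
  rw [lvl, card_sigma]
  calc ∑ q ∈ Ico (2 ^ s) (2 ^ (s + 1)), (redF D q).card
      ≤ ∑ q ∈ Ico (2 ^ s) (2 ^ (s + 1)), (2 ^ (s + 1)) ^ D := by
        refine sum_le_sum fun q hq => (card_redF_le D q).trans ?_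
        rw [mem_Ico] at hq
        exact Nat.pow_le_pow_left hq.2.le D
    _ = (2 ^ (s + 1) - 2 ^ s) * (2 ^ (s + 1)) ^ D := by
        rw [sum_const, Nat.card_Ico, smul_eq_mul]
    _ ≤ 2 ^ (s + 1) * (2 ^ (s + 1)) ^ D := Nat.mul_le_mul_right _ (Nat.sub_le _ _)
    _ = 2 ^ ((s + 1) * (D + 1)) := by
        rw [← pow_succ', ← pow_mul]

open Classical in
private noncomputable def nearS {D : ℕ} (s : ℕ) (xi : Fin D → ℝ) : Finset (Σ _ : ℕ, Fin D → ℕ) :=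
  (lvl D s).filter fun x => ∀ j, dz (fr xi x.1 x.2 j) < 1 / 2 ^ (2 * s + 4)

open Classical in
private noncomputable def farS {D : ℕ} (s : ℕ) (xi : Fin D → ℝ) : Finset (Σ _ : ℕ, Fin D → ℕ) :=
  (lvl D s).filter fun x => ¬ ∀ j, dz (fr xi x.1 x.2 j) < 1 / 2 ^ (2 * s + 4)

private theorem Lam_split {D : ℕ} (s N : ℕ) (xi : Fin D → ℝ) :
    Lam s N xi = ∑ x ∈ nearS s xi, G x.1 x.2 * w N (fr xi x.1 x.2) +
      ∑ x ∈ farS s xi, G x.1 x.2 * w N (fr xi x.1 x.2) := by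
  classical
  rw [Lam_eq, nearS, farS, sum_filter_add_sum_filter_not]

private theorem far_term {D s N : ℕ} {xi : Fin D → ℝ} (hN : 1 ≤ N) {x : Σ _ : ℕ, Fin D → ℕ}
    (hx : x ∈ farS s xi) :
    ‖w N (fr xi x.1 x.2)‖ ≤ 2 ^ ((2 * s + 4) * (D + 2)) / (N : ℝ) ^ (D + 2) := by
  classical
  rw [farS, mem_filter] at hx
  obtain ⟨j, hj⟩ := not_forall.mp hx.2
  rw [not_lt] at hj
  have h1 := w_decay_coord' N (fr xi x.1 x.2) j
  have hN0 : (0 : ℝ) < N := by exact_mod_cast hN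
  have h2 : ((N : ℝ) * (1 / 2 ^ (2 * s + 4))) ^ (D + 2) ≤
      ((N : ℝ) * dz (fr xi x.1 x.2 j)) ^ (D + 2) :=
    pow_le_pow_left₀ (by positivity) (mul_le_mul_of_nonneg_left hj hN0.le) _
  have h3 : ‖w N (fr xi x.1 x.2)‖ * ((N : ℝ) * (1 / 2 ^ (2 * s + 4))) ^ (D + 2) ≤ 1 :=
    (mul_le_mul_of_nonneg_left h2 (norm_nonneg _)).trans h1
  have h4 : ((N : ℝ) * (1 / 2 ^ (2 * s + 4))) ^ (D + 2) =
      (N : ℝ) ^ (D + 2) / 2 ^ ((2 * s + 4) * (D + 2)) := by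
    rw [mul_one_div, div_pow, ← pow_mul]
  rw [h4, ← mul_div_assoc, div_le_one (by positivity)] at h3
  rwa [le_div_iff₀ (by positivity)]

private theorem far_sum {D s N : ℕ} {xi : Fin D → ℝ} (hN : 2 ^ (Ex D * s) ≤ N) :
    ∑ x ∈ farS s xi, ‖w N (fr xi x.1 x.2)‖ ≤ 2 ^ (5 * D + 9) / (2 ^ s * N) := by
  classical
  have hN1 : 1 ≤ N := le_trans Nat.one_le_two_pow hN
  have hN0 : (0 : ℝ) < N := by exact_mod_cast hN1
  have h1 : ∑ x ∈ farS s xi, ‖w N (fr xi x.1 x.2)‖ ≤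
      (farS s xi).card • (2 ^ ((2 * s + 4) * (D + 2)) / (N : ℝ) ^ (D + 2)) :=
    sum_le_card_nsmul _ _ _ fun x hx => far_term hN1 hx
  have h2 : ((farS s xi).card : ℝ) ≤ 2 ^ ((s + 1) * (D + 1)) := by
    have : (farS s xi).card ≤ 2 ^ ((s + 1) * (D + 1)) :=
      (card_le_card (filter_subset _ _)).trans (card_lvl_le D s)
    exact_mod_cast this
  have h3 : (2 : ℝ) ^ (Ex D * s) ≤ N := by exact_mod_cast hN
  have h4 : (2 : ℝ) ^ (Ex D * s * (D + 1)) ≤ (N : ℝ) ^ (D + 1) := by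
    rw [pow_mul]
    exact pow_le_pow_left₀ (by positivity) h3 _
  have hexp : (s + 1) * (D + 1) + (2 * s + 4) * (D + 2) + s ≤ 5 * D + 9 + Ex D * s * (D + 1) := by
    unfold Ex
    nlinarith [Nat.zero_le (D * D * s), Nat.zero_le (D * s)]
  have h5 : (2 : ℝ) ^ ((s + 1) * (D + 1)) * 2 ^ ((2 * s + 4) * (D + 2)) * 2 ^ s ≤
      2 ^ (5 * D + 9) * (N : ℝ) ^ (D + 1) := by
    calc (2 : ℝ) ^ ((s + 1) * (D + 1)) * 2 ^ ((2 * s + 4) * (D + 2)) * 2 ^ s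
        = 2 ^ ((s + 1) * (D + 1) + (2 * s + 4) * (D + 2) + s) := by rw [← pow_add, ← pow_add]
      _ ≤ 2 ^ (5 * D + 9 + Ex D * s * (D + 1)) := pow_le_pow_right₀ (by norm_num) hexp
      _ = 2 ^ (5 * D + 9) * 2 ^ (Ex D * s * (D + 1)) := pow_add _ _ _
      _ ≤ 2 ^ (5 * D + 9) * (N : ℝ) ^ (D + 1) :=
        mul_le_mul_of_nonneg_left h4 (by positivity)
  refine h1.trans ?_
  rw [nsmul_eq_mul]
  refine (mul_le_mul_of_nonneg_right h2 (by positivity)).trans ?_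
  rw [← mul_div_assoc, div_le_div_iff₀ (by positivity) (by positivity)]
  calc (2 : ℝ) ^ ((s + 1) * (D + 1)) * 2 ^ ((2 * s + 4) * (D + 2)) * (2 ^ s * N)
      = ((2 : ℝ) ^ ((s + 1) * (D + 1)) * 2 ^ ((2 * s + 4) * (D + 2)) * 2 ^ s) * N := by ring
    _ ≤ (2 ^ (5 * D + 9) * (N : ℝ) ^ (D + 1)) * N := mul_le_mul_of_nonneg_right h5 hN0.le
    _ = 2 ^ (5 * D + 9) * (N : ℝ) ^ (D + 2) := by ring

open Classical in
theorem far_level (D : ℕ) : ∃ C : ℝ, 0 < C ∧ ∀ (s N : ℕ) (xi : Fin D → ℝ),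
    2 ^ (Ex D * s) ≤ N →
    (∑ q ∈ Ico (2 ^ s) (2 ^ (s + 1)), ∑ a ∈ redF D q,
      if ∀ j, dz (fr xi q a j) < 1 / 2 ^ (2 * s + 4) then 0 else ‖w N (fr xi q a)‖) ≤
    C / (2 ^ s * N) := by
  refine ⟨2 ^ (5 * D + 9), by positivity, fun s N xi hN => ?_⟩
  have h1 := far_sum (xi := xi) hN
  rw [farS, sum_filter, lvl, sum_sigma] at h1
  refine le_trans (le_of_eq ?_) h1
  refine sum_congr rfl fun q _ => sum_congr rfl fun a _ => ?_
  by_cases h : ∀ j, dz (fr xi q a j) < 1 / 2 ^ (2 * s + 4)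
  · rw [if_pos h, if_neg (by simpa using h)]
  · rw [if_neg h, if_pos h]

/-- the near set has at most one element. -/
private theorem near_cases {D s : ℕ} (xi : Fin D → ℝ) :
    nearS s xi = ∅ ∨ ∃ x ∈ lvl D s, nearS s xi = {x} := by
  classical
  rcases (nearS s xi).eq_empty_or_nonempty with h | ⟨x, hx⟩
  · exact Or.inl h
  · refine Or.inr ⟨x, (mem_filter.mp hx).1, ?_⟩
    refine eq_singleton_iff_unique_mem.mpr ⟨hx, fun y hy => ?_⟩
    rw [nearS, lvl, mem_filter, mem_sigma] at hx hy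
    obtain ⟨h1, h2⟩ := near_unique xi hy.1.1 hx.1.1 hy.1.2 hx.1.2 hy.2 hx.2
    exact Sigma.ext h1 (heq_of_eq h2)

private theorem G_le {D : ℕ} {C de : ℝ} (hC : 0 < C) (hde : 0 < de)
    (h : ∀ q : ℕ, 1 ≤ q → ∀ a ∈ redF D q, ‖G q a‖ ≤ C * (q : ℝ) ^ (-de)) {s : ℕ}
    {x : Σ _ : ℕ, Fin D → ℕ} (hx : x ∈ lvl D s) :
    ‖G x.1 x.2‖ ≤ C * (2 : ℝ) ^ (-de * s) := by
  rw [lvl, mem_sigma, mem_Ico] at hx
  have hp : 0 < 2 ^ s := by positivity
  have h1 := h x.1 (by omega) x.2 hx.2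
  refine h1.trans (mul_le_mul_of_nonneg_left ?_ hC.le)
  have h2 : ((2 : ℝ) ^ s) ≤ (x.1 : ℝ) := by exact_mod_cast hx.1.1
  have h3 : (x.1 : ℝ) ^ (-de) ≤ ((2 : ℝ) ^ s) ^ (-de) :=
    Real.rpow_le_rpow_of_nonpos (by positivity) h2 (by linarith)
  refine h3.trans (le_of_eq ?_)
  rw [← Real.rpow_natCast, ← Real.rpow_mul (by norm_num)]
  congr 1
  ring

private theorem two_rpow_le {de : ℝ} (s : ℕ) : (2 : ℝ) ^ (-de * s) ≤ (2 : ℝ) ^ (-(min de 1) * s) := by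
  refine Real.rpow_le_rpow_of_exponent_le (by norm_num) ?_
  have : min de 1 * (s : ℝ) ≤ de * s := mul_le_mul_of_nonneg_right (min_le_left _ _) (by positivity)
  linarith

private theorem inv_two_pow_le {de : ℝ} (s : ℕ) : 1 / (2 : ℝ) ^ s ≤ (2 : ℝ) ^ (-(min de 1) * s) := by
  have h1 : 1 / (2 : ℝ) ^ s = (2 : ℝ) ^ (-(1 : ℝ) * s) := by
    rw [neg_mul, one_mul, Real.rpow_neg (by norm_num), Real.rpow_natCast, one_div]
  rw [h1]
  refine Real.rpow_le_rpow_of_exponent_le (by norm_num) ?_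
  have : min de 1 * (s : ℝ) ≤ 1 * s := mul_le_mul_of_nonneg_right (min_le_right _ _) (by positivity)
  linarith

private theorem far_norm {D s N : ℕ} {xi : Fin D → ℝ} (hN : 2 ^ (Ex D * s) ≤ N) :
    ‖∑ x ∈ farS s xi, G x.1 x.2 * w N (fr xi x.1 x.2)‖ ≤ 2 ^ (5 * D + 9) / (2 ^ s * N) := by
  refine (norm_sum_le _ _).trans (le_trans (sum_le_sum fun x _ => ?_) (far_sum hN))
  rw [norm_mul]
  exact mul_le_of_le_one_left (norm_nonneg _) (norm_G_le_one _ _)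

theorem norm_Lam_le (D : ℕ) : ∃ C de : ℝ, 0 < C ∧ 0 < de ∧ ∀ (s N : ℕ) (xi : Fin D → ℝ),
    2 ^ (Ex D * s) ≤ N → ‖Lam s N xi‖ ≤ C * (2 : ℝ) ^ (-de * s) := by
  obtain ⟨C, de, hC, hde, hG⟩ := norm_G_le D
  refine ⟨C + 2 ^ (5 * D + 9), min de 1, by positivity, lt_min hde one_pos, fun s N xi hN => ?_⟩
  have hN1 : 1 ≤ N := le_trans Nat.one_le_two_pow hN
  have hN1R : (1 : ℝ) ≤ N := by exact_mod_cast hN1
  rw [Lam_split, add_mul]
  refine (norm_add_le _ _).trans (add_le_add ?_ ?_)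
  · rcases near_cases (s := s) xi with h | ⟨x, hx, h⟩
    · rw [h, sum_empty, norm_zero]
      positivity
    · rw [h, sum_singleton, norm_mul]
      refine (mul_le_of_le_one_right (norm_nonneg _) (norm_w_le_one _ _)).trans ?_
      exact (G_le hC hde hG hx).trans (mul_le_mul_of_nonneg_left (two_rpow_le s) hC.le)
  · refine (far_norm hN).trans ?_
    have h1 : (2 : ℝ) ^ (5 * D + 9) / (2 ^ s * N) ≤ 2 ^ (5 * D + 9) * (1 / 2 ^ s) := by
      rw [mul_one_div]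
      exact div_le_div_of_nonneg_left (by positivity) (by positivity)
        (le_mul_of_one_le_right (by positivity) hN1R)
    exact h1.trans (mul_le_mul_of_nonneg_left (inv_two_pow_le s) (by positivity))

private theorem sq_add_le (x y : ℂ) : ‖x + y‖ ^ 2 ≤ 2 * ‖x‖ ^ 2 + 2 * ‖y‖ ^ 2 := by
  have h1 := norm_add_le x y
  have h2 : ‖x + y‖ ^ 2 ≤ (‖x‖ + ‖y‖) ^ 2 := pow_le_pow_left₀ (norm_nonneg _) h1 2
  nlinarith [sq_nonneg (‖x‖ - ‖y‖)]

theorem Lam_diff (D : ℕ) (rho : ℝ) (hrho : 1 < rho) : ∃ C de : ℝ, 0 < C ∧ 0 < de ∧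
    ∀ (N : ℕ → ℕ), Lac rho N → ∀ (s : ℕ) (xi : Fin D → ℝ) (ka : ℕ → ℕ), StrictMono ka →
      2 ^ (Ex D * s) ≤ N (ka 0) → ∀ J : ℕ,
      ∑ j ∈ range J, ‖Lam s (N (ka (j + 1))) xi - Lam s (N (ka j)) xi‖ ^ 2 ≤
        (C * (2 : ℝ) ^ (-de * s)) ^ 2 := by
  obtain ⟨C, de, hC, hde, hG⟩ := norm_G_le D
  have hpi := Real.pi_gt_three
  have hA : (1 : ℝ) ≤ 2 * Real.pi * (D + 2) := by
    have : (0 : ℝ) ≤ D := Nat.cast_nonneg D
    nlinarith
  obtain ⟨C3, hC3, hgeo⟩ := geo2 rho (2 * Real.pi * (D + 2)) hrho hA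
  have hr0 : 0 < rho := by linarith
  have hri : (rho⁻¹) ^ 2 < 1 := by
    have : rho⁻¹ < 1 := inv_lt_one_of_one_lt₀ hrho
    have h0 : 0 < rho⁻¹ := inv_pos.mpr hr0
    nlinarith
  set K : ℝ := (1 - (rho⁻¹) ^ 2)⁻¹ with hK
  have hKpos : 0 < K := inv_pos.mpr (by linarith)
  set B : ℝ := 2 ^ (5 * D + 9) with hB
  have hBpos : 0 < B := by positivity
  refine ⟨Real.sqrt (2 * (C ^ 2 * C3) + 2 * ((2 * B) ^ 2 * K)), min de 1, by positivity,
    lt_min hde one_pos, fun N hN s xi ka hka h0 J => ?_⟩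
  set t : ℝ := (2 : ℝ) ^ (-(min de 1) * s) with ht
  have htpos : 0 < t := by positivity
  rw [mul_pow, Real.sq_sqrt (by positivity)]
  -- near and far parts
  have hlev : ∀ j, 2 ^ (Ex D * s) ≤ N (ka j) := fun j =>
    h0.trans (hN.strictMono.monotone (hka.monotone (Nat.zero_le j)))
  have hstep : ∀ j, ‖Lam s (N (ka (j + 1))) xi - Lam s (N (ka j)) xi‖ ^ 2 ≤
      2 * ‖∑ x ∈ nearS s xi, G x.1 x.2 * (w (N (ka (j + 1))) (fr xi x.1 x.2) -
        w (N (ka j)) (fr xi x.1 x.2))‖ ^ 2 + 2 * (2 * B * t * (rho⁻¹) ^ j) ^ 2 := by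
    intro j
    have e1 : Lam s (N (ka (j + 1))) xi - Lam s (N (ka j)) xi =
        (∑ x ∈ nearS s xi, G x.1 x.2 * (w (N (ka (j + 1))) (fr xi x.1 x.2) -
          w (N (ka j)) (fr xi x.1 x.2))) +
        (∑ x ∈ farS s xi, G x.1 x.2 * w (N (ka (j + 1))) (fr xi x.1 x.2) -
          ∑ x ∈ farS s xi, G x.1 x.2 * w (N (ka j)) (fr xi x.1 x.2)) := by
      rw [Lam_split, Lam_split]
      simp only [mul_sub, sum_sub_distrib]
      ring
    rw [e1]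
    refine (sq_add_le _ _).trans ?_
    have h2 : ‖∑ x ∈ farS s xi, G x.1 x.2 * w (N (ka (j + 1))) (fr xi x.1 x.2) -
          ∑ x ∈ farS s xi, G x.1 x.2 * w (N (ka j)) (fr xi x.1 x.2)‖ ≤
          2 * B * t * (rho⁻¹) ^ j := by
      have hNj : (1 : ℝ) ≤ N (ka j) := by exact_mod_cast hN.pos (ka j)
      have hmono : (N (ka j) : ℝ) ≤ N (ka (j + 1)) := by
        exact_mod_cast hN.strictMono.monotone (hka.monotone (Nat.le_succ j))
      have h3 := far_norm (xi := xi) (hlev (j + 1))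
      have h4 := far_norm (xi := xi) (hlev j)
      have h5 : B / (2 ^ s * (N (ka (j + 1)) : ℝ)) ≤ B / (2 ^ s * (N (ka j) : ℝ)) :=
        div_le_div_of_nonneg_left hBpos.le (by positivity)
          (mul_le_mul_of_nonneg_left hmono (by positivity))
      have h6 : rho ^ j ≤ (N (ka j) : ℝ) := by
        refine le_trans ?_ (hN.pow_le (ka j))
        exact pow_le_pow_right₀ hrho.le (hka.id_le j)
      have h7 : B / (2 ^ s * (N (ka j) : ℝ)) ≤ B * t * (rho⁻¹) ^ j := by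
        have h8 : B / (2 ^ s * (N (ka j) : ℝ)) = B * (1 / 2 ^ s) * (1 / (N (ka j) : ℝ)) := by
          field_simp
        rw [h8, inv_pow, ← one_div]
        refine mul_le_mul (mul_le_mul_of_nonneg_left (inv_two_pow_le s) hBpos.le)
          (one_div_le_one_div_of_le (by positivity) h6) (by positivity) (by positivity)
      calc _ ≤ ‖∑ x ∈ farS s xi, G x.1 x.2 * w (N (ka (j + 1))) (fr xi x.1 x.2)‖ +
            ‖∑ x ∈ farS s xi, G x.1 x.2 * w (N (ka j)) (fr xi x.1 x.2)‖ := norm_sub_le _ _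
        _ ≤ B * t * (rho⁻¹) ^ j + B * t * (rho⁻¹) ^ j :=
            add_le_add ((h3.trans h5).trans h7) (h4.trans h7)
        _ = 2 * B * t * (rho⁻¹) ^ j := by ring
    have h9 := pow_le_pow_left₀ (norm_nonneg _) h2 2
    linarith
  have hnear : ∑ j ∈ range J, ‖∑ x ∈ nearS s xi, G x.1 x.2 * (w (N (ka (j + 1))) (fr xi x.1 x.2) -
        w (N (ka j)) (fr xi x.1 x.2))‖ ^ 2 ≤ C ^ 2 * C3 * t ^ 2 := by
    rcases near_cases (s := s) xi with h | ⟨x, hx, h⟩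
    · rw [h]
      simp only [sum_empty, norm_zero]
      simp only [ne_eq, OfNat.ofNat_ne_zero, not_false_eq_true, zero_pow, sum_const_zero]
      positivity
    · rw [h]
      simp only [sum_singleton, norm_mul, mul_pow]
      rw [← mul_sum]
      have h1 : ‖G x.1 x.2‖ ≤ C * t :=
        (G_le hC hde hG hx).trans (mul_le_mul_of_nonneg_left (two_rpow_le s) hC.le)
      have h2 : ‖G x.1 x.2‖ ^ 2 ≤ (C * t) ^ 2 := pow_le_pow_left₀ (norm_nonneg _) h1 2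
      have h3 := hgeo (fun k => sz (N k) (fr xi x.1 x.2)) (fun k => w (N k) (fr xi x.1 x.2))
        (fun k => sz_nonneg _ _) (fun k => sz_grow hrho.le (hN.grow k) _)
        (fun k => w_near _ (hN.pos k) _)
        (fun k => (w_decay_one _ _).trans (by
          have : (0 : ℝ) ≤ D := Nat.cast_nonneg D
          nlinarith))
        (fun k => (norm_w_le_one _ _).trans hA) ka hka J
      calc ‖G x.1 x.2‖ ^ 2 * ∑ j ∈ range J, ‖w (N (ka (j + 1))) (fr xi x.1 x.2) -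
            w (N (ka j)) (fr xi x.1 x.2)‖ ^ 2
          ≤ (C * t) ^ 2 * C3 := mul_le_mul h2 h3 (sum_nonneg fun _ _ => by positivity)
            (by positivity)
        _ = C ^ 2 * C3 * t ^ 2 := by ring
  have hfar : ∑ j ∈ range J, (2 * B * t * (rho⁻¹) ^ j) ^ 2 ≤ (2 * B) ^ 2 * K * t ^ 2 := by
    have h1 : ∀ j, (2 * B * t * (rho⁻¹) ^ j) ^ 2 = (2 * B) ^ 2 * t ^ 2 * ((rho⁻¹) ^ 2) ^ j := by
      intro j
      rw [← pow_mul, mul_pow, mul_pow (2 * B) t, ← pow_mul, mul_comm 2 j]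
    simp only [h1]
    rw [← mul_sum]
    have h2 : ∑ j ∈ range J, ((rho⁻¹) ^ 2) ^ j ≤ K := by
      rw [hK, ← tsum_geometric_of_lt_one (by positivity) hri]
      exact (summable_geometric_of_lt_one (by positivity) hri).sum_le_tsum _
        (fun _ _ => by positivity)
    calc (2 * B) ^ 2 * t ^ 2 * ∑ j ∈ range J, ((rho⁻¹) ^ 2) ^ j
        ≤ (2 * B) ^ 2 * t ^ 2 * K := mul_le_mul_of_nonneg_left h2 (by positivity)
      _ = (2 * B) ^ 2 * K * t ^ 2 := by ring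
  calc ∑ j ∈ range J, ‖Lam s (N (ka (j + 1))) xi - Lam s (N (ka j)) xi‖ ^ 2
      ≤ ∑ j ∈ range J, (2 * ‖∑ x ∈ nearS s xi, G x.1 x.2 *
          (w (N (ka (j + 1))) (fr xi x.1 x.2) - w (N (ka j)) (fr xi x.1 x.2))‖ ^ 2 +
          2 * (2 * B * t * (rho⁻¹) ^ j) ^ 2) := sum_le_sum fun j _ => hstep j
    _ = 2 * (∑ j ∈ range J, ‖∑ x ∈ nearS s xi, G x.1 x.2 *
          (w (N (ka (j + 1))) (fr xi x.1 x.2) - w (N (ka j)) (fr xi x.1 x.2))‖ ^ 2) +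
          2 * ∑ j ∈ range J, (2 * B * t * (rho⁻¹) ^ j) ^ 2 := by
        rw [sum_add_distrib, mul_sum, mul_sum]
    _ ≤ 2 * (C ^ 2 * C3 * t ^ 2) + 2 * ((2 * B) ^ 2 * K * t ^ 2) := by linarith
    _ = (2 * (C ^ 2 * C3) + 2 * ((2 * B) ^ 2 * K)) * t ^ 2 := by ring

end Pool.PolyMax
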