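import Pool.Agent.PolyMax.LamDiff
import Pool.Agent.PolyMax.MaxBdBasic

set_option autoImplicit false

/-!
# PolyMax: the maximal function of level `s` over `2 ^ n` consecutive scales

PROOF.  `MaxBd.rm` with `mu k = Lam s (N k)`, `c = C 2^{-δ s}` (common constants for `norm_Lam_le` and
`Lam_diff`, after taking the larger `C` and the smaller `δ`); for a given `i` use `Lam_diff` with
`ka j = A + j 2^i`, which is strictly increasing, `ka 0 = A`.
-/

open Finset

namespace Pool.PolyMax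

private lemma const_mono {C C' de de' : ℝ} (hC : 0 ≤ C) (h : C ≤ C') (h' : de' ≤ de) (s : ℕ) :
    C * (2 : ℝ) ^ (-de * s) ≤ C' * (2 : ℝ) ^ (-de' * s) := by
  apply mul_le_mul h _ (by positivity) (hC.trans h)
  apply Real.rpow_le_rpow_of_exponent_le (by norm_num)
  have hs : (0 : ℝ) ≤ s := Nat.cast_nonneg s
  nlinarith

theorem lam_small (D : ℕ) (rho : ℝ) (hrho : 1 < rho) : ∃ C de : ℝ, 0 < C ∧ 0 < de ∧
    ∀ (N : ℕ → ℕ), Lac rho N → ∀ (s A n : ℕ), 2 ^ (Ex D * s) ≤ N A →
      MaxBd (fun k (xi : Fin D → ℝ) => if A ≤ k ∧ k ≤ A + 2 ^ n then Lam s (N k) xi else 0)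
        (((n : ℝ) + 2) * (C * (2 : ℝ) ^ (-de * s))) := by
  obtain ⟨C1, d1, hC1, hd1, h1⟩ := norm_Lam_le D
  obtain ⟨C2, d2, hC2, hd2, h2⟩ := Lam_diff D rho hrho
  refine ⟨max C1 C2, min d1 d2, lt_max_of_lt_left hC1, lt_min hd1 hd2, fun N hN s A n hA => ?_⟩
  have hc : 0 ≤ max C1 C2 * (2 : ℝ) ^ (-(min d1 d2) * s) :=
    mul_nonneg (hC1.le.trans (le_max_left _ _)) (by positivity)
  refine MaxBd.rm (mu := fun k (xi : Fin D → ℝ) => Lam s (N k) xi) hc A n (fun xi => ?_)
    (fun i _ xi => ?_)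
  · exact (h1 s (N A) xi hA).trans
      (const_mono hC1.le (le_max_left _ _) (min_le_left _ _) s)
  · have hmono : StrictMono (fun j : ℕ => A + j * 2 ^ i) := by
      intro a b hab
      have : 0 < 2 ^ i := by positivity
      simp only
      have := Nat.mul_lt_mul_of_pos_right hab this
      omega
    have h3 := h2 N hN s xi (fun j => A + j * 2 ^ i) hmono (by simpa using hA) (2 ^ (n - i))
    refine h3.trans ?_
    apply pow_le_pow_left₀ (by positivity)
    exact const_mono hC2.le (le_max_right _ _) (min_le_right _ _) s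

end Pool.PolyMax
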