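import Pool.Agent.PolyMax.Basic

set_option autoImplicit false

/-!
# PolyMax: approximation near a rational point

PROOF.  By `exists_int_dz` and periodicity (`m_congr`, changing each `xi j` by an integer) we may
assume `|be j| = dz (be j)` for `be = fr xi q a` (both sides are unchanged).  Split `range N` into
`⌊N / q⌋` blocks `[b q, (b + 1) q)` and fewer than `q` further elements.  In a block
`e (ph xi n) = e (ph (a / q) n) * e (ph be n)`; put `Om = 2 π q ∑_j (j + 1) N^j |be j|`; then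
`|e (ph be n) - e (ph be (b q))| ≤ Om` for `n` in the block (all `n < N`; `|n^{j+1} - n'^{j+1}| ≤
(j + 1) N^j |n - n'|`, `norm_e_sub_e_le`).  Hence
`∑_{block} e (ph xi n) = e (ph be (b q)) * q G q a + O(q Om)` (the sum of `e (ph (a / q) n)` over a
block is `q G q a` by periodicity) and `∑_{block} e (ph be n) = q e (ph be (b q)) + O(q Om)`, so
`|∑_{block} e (ph xi n) - G q a ∑_{block} e (ph be n)| ≤ 2 q Om` (`‖G‖ ≤ 1`).  Summing up and adding
the at most `2 q` from the remaining elements, dividing by `N`: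
`‖m N xi - G q a * m N be‖ ≤ 2 Om + 2 q / N`, and `(j + 1) N^j ≤ D N^{j+1} / N` gives
`Om ≤ 2 π q D sz N be / N`.
-/

open Finset

namespace Pool.PolyMax

namespace MajorAux

variable {D : ℕ}

lemma e_ph_period (q : ℕ) (hq : 1 ≤ q) (a : Fin D → ℕ) (K i : ℕ) :
    e (ph (fun j => (a j : ℝ) / (q : ℝ)) (q * K + i)) =
      e (ph (fun j => (a j : ℝ) / (q : ℝ)) i) := by
  have hq0 : (q : ℝ) ≠ 0 := by
    have : (0 : ℝ) < q := by exact_mod_cast hq
    exact this.ne'
  have hdvd : ∀ j : Fin D, ∃ c : ℤ, ((q * K + i : ℕ) : ℤ) ^ ((j : ℕ) + 1) -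
      (i : ℤ) ^ ((j : ℕ) + 1) = q * c := by
    intro j
    have h1 := sub_dvd_pow_sub_pow ((q * K + i : ℕ) : ℤ) (i : ℤ) ((j : ℕ) + 1)
    have h2 : (q : ℤ) ∣ ((q * K + i : ℕ) : ℤ) - (i : ℤ) := ⟨K, by push_cast; ring⟩
    exact h2.trans h1
  choose c hc using hdvd
  apply e_congr (k := ∑ j : Fin D, (a j : ℤ) * c j)
  unfold ph
  rw [← Finset.sum_sub_distrib]
  push_cast
  apply Finset.sum_congr rfl
  intro j _
  have h3 : ((q : ℝ) * K + i) ^ ((j : ℕ) + 1) - (i : ℝ) ^ ((j : ℕ) + 1) = q * (c j : ℝ) := by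
    exact_mod_cast hc j
  have h4 : (a j : ℝ) / q * ((q : ℝ) * K + i) ^ ((j : ℕ) + 1) - (a j : ℝ) / q * (i : ℝ) ^ ((j : ℕ) + 1)
      = (a j : ℝ) / q * (((q : ℝ) * K + i) ^ ((j : ℕ) + 1) - (i : ℝ) ^ ((j : ℕ) + 1)) := by ring
  rw [h4, h3]
  field_simp

/-- variation of the slow factor -/
lemma slow (N : ℕ) (hN : 1 ≤ N) (be : Fin D → ℝ) {n n' : ℕ} (hn : n ≤ N) (hn' : n' ≤ N) :
    ‖e (ph be n) - e (ph be n')‖ ≤
      2 * Real.pi * (|(n : ℝ) - n'| * (D / N * ∑ j : Fin D, (N : ℝ) ^ ((j : ℕ) + 1) * |be j|)) := by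
  have hN0 : (0 : ℝ) < N := by exact_mod_cast hN
  refine (norm_e_sub_e_le _ _).trans ?_
  apply mul_le_mul_of_nonneg_left _ (by positivity)
  unfold ph
  rw [← Finset.sum_sub_distrib]
  refine (Finset.abs_sum_le_sum_abs _ _).trans ?_
  rw [Finset.mul_sum, Finset.mul_sum]
  apply Finset.sum_le_sum
  intro j _
  rw [← mul_sub, abs_mul]
  have h1 := abs_pow_sub_pow_le (n : ℝ) (n' : ℝ) ((j : ℕ) + 1)
  have hn1 : |(n : ℝ)| ≤ N := by
    rw [abs_of_nonneg (Nat.cast_nonneg n)]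
    exact_mod_cast hn
  have hn2 : |(n' : ℝ)| ≤ N := by
    rw [abs_of_nonneg (Nat.cast_nonneg n')]
    exact_mod_cast hn'
  have h2 : max |(n : ℝ)| |(n' : ℝ)| ^ ((j : ℕ) + 1 - 1) ≤ (N : ℝ) ^ (j : ℕ) := by
    rw [Nat.add_sub_cancel]
    exact pow_le_pow_left₀ (le_max_of_le_left (abs_nonneg _)) (max_le hn1 hn2) _
  have hj : (((j : ℕ) + 1 : ℕ) : ℝ) ≤ D := by
    exact_mod_cast j.2
  have h3 : |(n : ℝ) ^ ((j : ℕ) + 1) - (n' : ℝ) ^ ((j : ℕ) + 1)| ≤
      |(n : ℝ) - n'| * D * (N : ℝ) ^ (j : ℕ) := by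
    refine h1.trans ?_
    apply mul_le_mul _ h2 (by positivity) (by positivity)
    exact mul_le_mul_of_nonneg_left hj (abs_nonneg _)
  calc |be j| * |(n : ℝ) ^ ((j : ℕ) + 1) - (n' : ℝ) ^ ((j : ℕ) + 1)|
      ≤ |be j| * (|(n : ℝ) - n'| * D * (N : ℝ) ^ (j : ℕ)) :=
        mul_le_mul_of_nonneg_left h3 (abs_nonneg _)
    _ = |(n : ℝ) - n'| * (D / N * ((N : ℝ) ^ ((j : ℕ) + 1) * |be j|)) := by
      rw [pow_succ]
      field_simp

/-- the sum over the first `K` blocks -/
lemma blocks (N q : ℕ) (hN : 1 ≤ N) (hq : 1 ≤ q) (be : Fin D → ℝ) (a : Fin D → ℕ) (K : ℕ)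
    (hK : q * K ≤ N) :
    ‖∑ n ∈ range (q * K), (e (ph (fun j => (a j : ℝ) / (q : ℝ)) n) - G q a) * e (ph be n)‖ ≤
      (q * K : ℝ) * (4 * Real.pi * (q * (D / N *
        ∑ j : Fin D, (N : ℝ) ^ ((j : ℕ) + 1) * |be j|))) := by
  have hN0 : (0 : ℝ) < N := by exact_mod_cast hN
  have hq0 : (0 : ℝ) < q := by exact_mod_cast hq
  set Z : ℝ := D / N * ∑ j : Fin D, (N : ℝ) ^ ((j : ℕ) + 1) * |be j| with hZ
  have hZ0 : 0 ≤ Z := by
    apply mul_nonneg (by positivity)
    exact Finset.sum_nonneg (fun j _ => by positivity)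
  have hG := norm_G_le_one q a
  induction K with
  | zero => simp
  | succ K ih =>
    have hK' : q * K ≤ N := by
      refine le_trans ?_ hK
      exact Nat.mul_le_mul_left q (Nat.le_succ K)
    have ih' := ih hK'
    have e0 : q * (K + 1) = q * K + q := by ring
    rw [e0, Finset.sum_range_add]
    have hzero : ∑ i ∈ range q, (e (ph (fun j => (a j : ℝ) / (q : ℝ)) i) - G q a) = 0 := by
      rw [Finset.sum_sub_distrib, Finset.sum_const, Finset.card_range, nsmul_eq_mul, G, m,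
        ← mul_assoc, mul_inv_cancel₀ (by exact_mod_cast hq0.ne'), one_mul, sub_self]
    have hblock : ∑ i ∈ range q, (e (ph (fun j => (a j : ℝ) / (q : ℝ)) (q * K + i)) - G q a) *
        e (ph be (q * K + i)) =
        ∑ i ∈ range q, (e (ph (fun j => (a j : ℝ) / (q : ℝ)) i) - G q a) *
          (e (ph be (q * K + i)) - e (ph be (q * K))) := by
      simp only [mul_sub, Finset.sum_sub_distrib, ← Finset.sum_mul, hzero, zero_mul, sub_zero]
      apply Finset.sum_congr rfl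
      intro i _
      rw [e_ph_period q hq a K i]
    rw [hblock]
    have hbound : ‖∑ i ∈ range q, (e (ph (fun j => (a j : ℝ) / (q : ℝ)) i) - G q a) *
          (e (ph be (q * K + i)) - e (ph be (q * K)))‖ ≤ ∑ i ∈ range q,
            (2 * (2 * Real.pi * (q * Z))) := by
      refine (norm_sum_le _ _).trans (Finset.sum_le_sum fun i hi => ?_)
      rw [Finset.mem_range] at hi
      rw [norm_mul]
      have h1 : ‖e (ph (fun j => (a j : ℝ) / (q : ℝ)) i) - G q a‖ ≤ 2 := by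
        refine (norm_sub_le _ _).trans ?_
        rw [norm_e]
        linarith
      have h2 := slow N hN be (n := q * K + i) (n' := q * K) (by omega) hK'
      have h3 : |((q * K + i : ℕ) : ℝ) - ((q * K : ℕ) : ℝ)| ≤ q := by
        push_cast
        rw [add_sub_cancel_left, abs_of_nonneg (Nat.cast_nonneg i)]
        exact_mod_cast hi.le
      have h4 : ‖e (ph be (q * K + i)) - e (ph be (q * K))‖ ≤ 2 * Real.pi * (q * Z) := by
        refine h2.trans ?_
        apply mul_le_mul_of_nonneg_left _ (by positivity)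
        exact mul_le_mul_of_nonneg_right h3 hZ0
      exact mul_le_mul h1 h4 (norm_nonneg _) (by norm_num)
    refine (norm_add_le _ _).trans ((add_le_add ih' hbound).trans (le_of_eq ?_))
    rw [Finset.sum_const, Finset.card_range, nsmul_eq_mul]
    push_cast
    ring

/-- the whole sum, for a frequency near zero -/
lemma whole (N q : ℕ) (hN : 1 ≤ N) (hq : 1 ≤ q) (be : Fin D → ℝ) (a : Fin D → ℕ) :
    ‖∑ n ∈ range N, (e (ph (fun j => (a j : ℝ) / (q : ℝ)) n) - G q a) * e (ph be n)‖ ≤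
      q * (2 + 4 * Real.pi * D * ∑ j : Fin D, (N : ℝ) ^ ((j : ℕ) + 1) * |be j|) := by
  have hN0 : (0 : ℝ) < N := by exact_mod_cast hN
  have hq0 : (0 : ℝ) < q := by exact_mod_cast hq
  have hG := norm_G_le_one q a
  set Y : ℝ := ∑ j : Fin D, (N : ℝ) ^ ((j : ℕ) + 1) * |be j| with hY
  have hY0 : 0 ≤ Y := Finset.sum_nonneg (fun j _ => by positivity)
  have hdiv := Nat.div_add_mod N q
  have hmod := Nat.mod_lt N hq
  set K := N / q with hKdef
  set r := N % q with hr
  have hK : q * K ≤ N := by omega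
  have h1 := blocks N q hN hq be a K hK
  rw [← hY] at h1
  have h2 : ‖∑ n ∈ range r, (e (ph (fun j => (a j : ℝ) / (q : ℝ)) (q * K + n)) - G q a) *
      e (ph be (q * K + n))‖ ≤ ∑ _n ∈ range r, (2 : ℝ) := by
    refine (norm_sum_le _ _).trans (Finset.sum_le_sum fun i _ => ?_)
    rw [norm_mul, norm_e, mul_one]
    refine (norm_sub_le _ _).trans ?_
    rw [norm_e]
    linarith
  rw [Finset.sum_const, Finset.card_range, nsmul_eq_mul] at h2
  have h3 : ∑ n ∈ range N, (e (ph (fun j => (a j : ℝ) / (q : ℝ)) n) - G q a) * e (ph be n) =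
      ∑ n ∈ range (q * K), (e (ph (fun j => (a j : ℝ) / (q : ℝ)) n) - G q a) * e (ph be n) +
      ∑ n ∈ range r, (e (ph (fun j => (a j : ℝ) / (q : ℝ)) (q * K + n)) - G q a) *
        e (ph be (q * K + n)) := by
    rw [← Finset.sum_range_add, hdiv]
  rw [h3]
  refine (norm_add_le _ _).trans ?_
  have h4 : (q * K : ℝ) ≤ N := by exact_mod_cast hK
  have h5 : (r : ℝ) ≤ q := by exact_mod_cast hmod.le
  have h6 : (q * K : ℝ) * (4 * Real.pi * (q * (D / N * Y))) ≤
      N * (4 * Real.pi * (q * (D / N * Y))) :=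
    mul_le_mul_of_nonneg_right h4 (by positivity)
  have h7 : (N : ℝ) * (4 * Real.pi * (q * (D / N * Y))) = q * (4 * Real.pi * D * Y) := by
    field_simp
  nlinarith

end MajorAux

open MajorAux

theorem major {D : ℕ} (N q : ℕ) (hN : 1 ≤ N) (hq : 1 ≤ q) (xi : Fin D → ℝ) (a : Fin D → ℕ) :
    ‖m N xi - G q a * m N (fr xi q a)‖ ≤
      (q : ℝ) / N * (2 + 4 * Real.pi * D * sz N (fr xi q a)) := by
  have hN0 : (0 : ℝ) < N := by exact_mod_cast hN
  choose k hk using fun j => exists_int_dz (fr xi q a j)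
  set be : Fin D → ℝ := fun j => fr xi q a j - k j with hbe
  have hxi : m N xi = m N (fun j => (a j : ℝ) / (q : ℝ) + be j) := by
    apply m_congr
    intro j
    refine ⟨k j, ?_⟩
    simp only [hbe, fr]
    ring
  have hfr : m N (fr xi q a) = m N be := by
    apply m_congr
    intro j
    exact ⟨k j, by simp only [hbe]; ring⟩
  have hsz : ∑ j : Fin D, (N : ℝ) ^ ((j : ℕ) + 1) * |be j| = sz N (fr xi q a) := by
    unfold sz
    exact Finset.sum_congr rfl fun j _ => by rw [← hk j]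
  rw [hxi, hfr]
  have h1 : m N (fun j => (a j : ℝ) / (q : ℝ) + be j) - G q a * m N be =
      (N : ℂ)⁻¹ * ∑ n ∈ range N, (e (ph (fun j => (a j : ℝ) / (q : ℝ)) n) - G q a) *
        e (ph be n) := by
    simp only [m, sub_mul, Finset.sum_sub_distrib, ← Finset.mul_sum]
    rw [mul_sub]
    congr 1
    · congr 1
      apply Finset.sum_congr rfl
      intro n _
      rw [ph_add, e_add]
    · ring
  rw [h1, norm_mul, norm_inv, Complex.norm_natCast]
  have h2 := whole N q hN hq be a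
  rw [hsz] at h2
  calc (N : ℝ)⁻¹ * ‖∑ n ∈ range N, (e (ph (fun j => (a j : ℝ) / (q : ℝ)) n) - G q a) *
        e (ph be n)‖ ≤ (N : ℝ)⁻¹ * (q * (2 + 4 * Real.pi * D * sz N (fr xi q a))) :=
        mul_le_mul_of_nonneg_left h2 (by positivity)
    _ = (q : ℝ) / N * (2 + 4 * Real.pi * D * sz N (fr xi q a)) := by ring

end Pool.PolyMax
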