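import Pool.Agent.PolyMax.Basic

set_option autoImplicit false

/-!
# PolyMax: the one dimensional maximal function on a finite set

`Mx tau n0 g x = max_{1 ≤ n ≤ n0 + 1} n⁻¹ ∑_{i < n} g (tau^i x)`.

PROOF of `sum_sq_Mx_le` (`g ≥ 0`).  Maximal ergodic theorem on the finite set `A` (counting measure,
preserved by `tau`): for `lam > 0` put `g' = g - lam`, `S_n x = ∑_{i < n} g' (tau^i x)`,
`M_n = max (0, S_1, ..., S_n)`, `n = n0 + 1`; then `M_n ≤ g' + M_n ∘ tau` on `{M_n > 0}` (Garsia), so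
`∑_{M_n > 0} g' ≥ ∑_x M_n x - ∑_x M_n (tau x) = 0`, and `{M_n > 0} = {Mx > lam}`.  So
`lam * #{x : Mx x > lam} ≤ ∑_{x : Mx x > lam} g x`   (*).
(`Pool.Agent.Lib.MaximalErgodic`, lemma `maximal_integral`, contains such an argument; a direct finite
proof is easy.)
From (*) to `∑ (Mx x)² ≤ 4 ∑ g²`: enumerate the values `0 = l_0 < l_1 < ... < l_r` of `Mx`; by
Abel summation `∑_x (Mx x)² = ∑_i (l_i² - l_{i-1}²) #{Mx ≥ l_i}`, `#{Mx ≥ l_i} = #{Mx > lam}` for
`lam ∈ [l_{i-1}, l_i)`, or integrate: `∑_x (Mx x)² = ∫_0^∞ 2 lam #{Mx > lam} dlam ≤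
∫_0^∞ 2 ∑_{x : Mx x > lam} g x dlam = 2 ∑_x g x Mx x ≤ 2 (∑ g²)^{1/2} (∑ Mx²)^{1/2}`.
-/

open Finset

namespace Pool.PolyMax

variable {A : Type*}

lemma bdd_Mx (tau : Equiv.Perm A) (n0 : ℕ) (g : A → ℝ) (x : A) :
    BddAbove (Set.range fun n : Fin (n0 + 1) =>
      ((n : ℝ) + 1)⁻¹ * ∑ i ∈ range ((n : ℕ) + 1), g ((tau ^ i) x)) :=
  Set.finite_range _ |>.bddAbove

lemma Mx_nonneg (tau : Equiv.Perm A) (n0 : ℕ) {g : A → ℝ} (hg : ∀ x, 0 ≤ g x) (x : A) :
    0 ≤ Mx tau n0 g x := by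
  unfold Mx
  refine le_ciSup_of_le (bdd_Mx tau n0 g x) 0 ?_
  have : 0 ≤ ∑ i ∈ range (((0 : Fin (n0 + 1)) : ℕ) + 1), g ((tau ^ i) x) :=
    Finset.sum_nonneg fun i _ => hg _
  positivity

lemma le_Mx (tau : Equiv.Perm A) (n0 : ℕ) (g : A → ℝ) (x : A) (n : ℕ) (hn : 1 ≤ n)
    (hn0 : n ≤ n0 + 1) : (n : ℝ)⁻¹ * ∑ i ∈ range n, g ((tau ^ i) x) ≤ Mx tau n0 g x := by
  unfold Mx
  obtain ⟨k, rfl⟩ : ∃ k, n = k + 1 := ⟨n - 1, by omega⟩
  refine le_ciSup_of_le (bdd_Mx tau n0 g x) ⟨k, by omega⟩ ?_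
  apply le_of_eq
  push_cast
  rfl

lemma Mx_mono (tau : Equiv.Perm A) (n0 : ℕ) {g h : A → ℝ} (hgh : ∀ x, g x ≤ h x) (x : A) :
    Mx tau n0 g x ≤ Mx tau n0 h x := by
  unfold Mx
  refine ciSup_mono (bdd_Mx tau n0 h x) fun n => ?_
  have : (0 : ℝ) ≤ ((n : ℝ) + 1)⁻¹ := by positivity
  apply mul_le_mul_of_nonneg_left _ this
  exact Finset.sum_le_sum fun i _ => hgh _

lemma exists_Mx (tau : Equiv.Perm A) (n0 : ℕ) (g : A → ℝ) (x : A) :
    ∃ k : ℕ, k ≤ n0 ∧ Mx tau n0 g x = ((k : ℝ) + 1)⁻¹ * ∑ i ∈ range (k + 1), g ((tau ^ i) x) := by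
  obtain ⟨n, hn⟩ := exists_eq_ciSup_of_finite (f := fun n : Fin (n0 + 1) =>
      ((n : ℝ) + 1)⁻¹ * ∑ i ∈ range ((n : ℕ) + 1), g ((tau ^ i) x))
  exact ⟨n, by omega, hn.symm⟩

/-- sums along the orbit -/
def So (tau : Equiv.Perm A) (f : A → ℝ) (n : ℕ) (x : A) : ℝ := ∑ i ∈ range n, f ((tau ^ i) x)

lemma So_succ (tau : Equiv.Perm A) (f : A → ℝ) (n : ℕ) (x : A) :
    So tau f (n + 1) x = f x + So tau f n (tau x) := by
  unfold So
  rw [Finset.sum_range_succ', pow_zero, Equiv.Perm.one_apply, add_comm]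
  congr 1

/-- `max (0, S_1, ..., S_n)` defined recursively -/
noncomputable def Mo (tau : Equiv.Perm A) (f : A → ℝ) : ℕ → A → ℝ
  | 0, _ => 0
  | (n + 1), x => max 0 (f x + Mo tau f n (tau x))

lemma Mo_nonneg (tau : Equiv.Perm A) (f : A → ℝ) (n : ℕ) (x : A) : 0 ≤ Mo tau f n x := by
  cases n with
  | zero => exact le_rfl
  | succ n => exact le_max_left _ _

lemma Mo_mono (tau : Equiv.Perm A) (f : A → ℝ) (n : ℕ) :
    ∀ x, Mo tau f n x ≤ Mo tau f (n + 1) x := by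
  induction n with
  | zero => intro x; exact le_max_left _ _
  | succ n ih =>
    intro x
    show max 0 (f x + Mo tau f n (tau x)) ≤ max 0 (f x + Mo tau f (n + 1) (tau x))
    exact max_le_max le_rfl (by have := ih (tau x); linarith)

lemma So_le_Mo (tau : Equiv.Perm A) (f : A → ℝ) (n : ℕ) :
    ∀ k ≤ n, ∀ x, So tau f k x ≤ Mo tau f n x := by
  induction n with
  | zero =>
    intro k hk x
    obtain rfl : k = 0 := by omega
    simp [So, Mo]
  | succ n ih =>
    intro k hk x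
    rcases Nat.eq_zero_or_pos k with h | h
    · subst h
      simpa [So] using Mo_nonneg tau f (n + 1) x
    · obtain ⟨j, rfl⟩ : ∃ j, k = j + 1 := ⟨k - 1, by omega⟩
      rw [So_succ]
      exact le_trans (by have := ih j (by omega) (tau x); linarith) (le_max_right _ _)

lemma exists_Mo (tau : Equiv.Perm A) (f : A → ℝ) (n : ℕ) :
    ∀ x, ∃ k ≤ n, Mo tau f n x = So tau f k x := by
  induction n with
  | zero => intro x; exact ⟨0, le_rfl, by simp [So, Mo]⟩
  | succ n ih =>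
    intro x
    obtain ⟨k, hk, hk'⟩ := ih (tau x)
    have h1 : Mo tau f (n + 1) x = max 0 (f x + Mo tau f n (tau x)) := rfl
    rcases le_total 0 (f x + Mo tau f n (tau x)) with h | h
    · refine ⟨k + 1, by omega, ?_⟩
      rw [h1, max_eq_right h, hk', So_succ]
    · refine ⟨0, by omega, ?_⟩
      rw [h1, max_eq_left h]
      simp [So]

/-- Hopf's maximal ergodic theorem on a finite set. -/
lemma maximal_sum [Fintype A] (tau : Equiv.Perm A) (f : A → ℝ) (n : ℕ) :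
    0 ≤ ∑ x, if 0 ≤ f x + Mo tau f n (tau x) then f x else 0 := by
  classical
  have h1 : ∀ x, (if 0 ≤ f x + Mo tau f n (tau x) then f x else 0) ≥
      Mo tau f (n + 1) x - Mo tau f n (tau x) := by
    intro x
    have h1 : Mo tau f (n + 1) x = max 0 (f x + Mo tau f n (tau x)) := rfl
    rw [h1]
    split_ifs with h
    · rw [max_eq_right h]
      linarith
    · rw [max_eq_left (le_of_lt (not_le.1 h))]
      have := Mo_nonneg tau f n (tau x)
      linarith
  have h2 : ∑ x, (Mo tau f (n + 1) x - Mo tau f n (tau x)) ≤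
      ∑ x, if 0 ≤ f x + Mo tau f n (tau x) then f x else 0 :=
    Finset.sum_le_sum fun x _ => h1 x
  refine le_trans ?_ h2
  rw [Finset.sum_sub_distrib, Equiv.sum_comp tau (fun x => Mo tau f n x), ← Finset.sum_sub_distrib]
  exact Finset.sum_nonneg fun x _ => by
    have := Mo_mono tau f n x
    linarith

lemma le_Mx_iff (tau : Equiv.Perm A) (n0 : ℕ) (g : A → ℝ) (lam : ℝ) (x : A) :
    lam ≤ Mx tau n0 g x ↔ 0 ≤ (g x - lam) + Mo tau (fun y => g y - lam) n0 (tau x) := by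
  have key : ∀ k : ℕ, So tau (fun y => g y - lam) (k + 1) x =
      ((k : ℝ) + 1) * (((k : ℝ) + 1)⁻¹ * ∑ i ∈ range (k + 1), g ((tau ^ i) x) - lam) := by
    intro k
    have hk : ((k : ℝ) + 1) ≠ 0 := by positivity
    unfold So
    rw [Finset.sum_sub_distrib, Finset.sum_const, Finset.card_range, nsmul_eq_mul]
    push_cast
    field_simp
  constructor
  · intro h
    obtain ⟨k, hk, hk'⟩ := exists_Mx tau n0 g x
    rw [hk'] at h
    have h1 : 0 ≤ So tau (fun y => g y - lam) (k + 1) x := by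
      rw [key]
      have : (0 : ℝ) ≤ (k : ℝ) + 1 := by positivity
      exact mul_nonneg this (by linarith)
    rw [So_succ] at h1
    have h2 := So_le_Mo tau (fun y => g y - lam) n0 k hk (tau x)
    linarith
  · intro h
    obtain ⟨k, hk, hk'⟩ := exists_Mo tau (fun y => g y - lam) n0 (tau x)
    rw [hk'] at h
    have h1 : 0 ≤ So tau (fun y => g y - lam) (k + 1) x := by
      rw [So_succ]; exact h
    rw [key] at h1
    have h3 : (0 : ℝ) < (k : ℝ) + 1 := by positivity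
    have h4 := nonneg_of_mul_nonneg_right h1 h3
    have h5 := le_Mx tau n0 g x (k + 1) (by omega) (by omega)
    rw [Nat.cast_add, Nat.cast_one] at h5
    linarith

lemma weak_sum [Fintype A] (tau : Equiv.Perm A) (n0 : ℕ) (g : A → ℝ) (lam : ℝ) :
    ∑ x, (if lam ≤ Mx tau n0 g x then lam else 0) ≤
      ∑ x, (if lam ≤ Mx tau n0 g x then g x else 0) := by
  classical
  have h := maximal_sum tau (fun y => g y - lam) n0
  have e : ∑ x, (if 0 ≤ (g x - lam) + Mo tau (fun y => g y - lam) n0 (tau x) then g x - lam else 0) =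
      ∑ x, (if lam ≤ Mx tau n0 g x then g x else 0) - ∑ x, (if lam ≤ Mx tau n0 g x then lam else 0) := by
    rw [← Finset.sum_sub_distrib]
    refine Finset.sum_congr rfl fun x _ => ?_
    by_cases hx : lam ≤ Mx tau n0 g x
    · rw [if_pos hx, if_pos hx, if_pos ((le_Mx_iff tau n0 g lam x).1 hx)]
    · rw [if_neg hx, if_neg hx, if_neg (fun h' => hx ((le_Mx_iff tau n0 g lam x).2 h'))]
      ring
  have h' : 0 ≤ ∑ x, (if 0 ≤ (g x - lam) + Mo tau (fun y => g y - lam) n0 (tau x)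
      then g x - lam else 0) := h
  rw [e] at h'
  linarith

lemma int_sq {B F : ℝ} (hF : 0 ≤ F) (hB : F ≤ B) :
    ∫ l in (0 : ℝ)..B, Set.indicator {l | l ≤ F} (fun l => 2 * l) l = F ^ 2 := by
  rw [intervalIntegral.integral_indicator ⟨hF, hB⟩, intervalIntegral.integral_const_mul, integral_id]
  ring

lemma int_lin {B F : ℝ} (hF : 0 ≤ F) (hB : F ≤ B) (c : ℝ) :
    ∫ l in (0 : ℝ)..B, Set.indicator {l | l ≤ F} (fun _ => 2 * c) l = 2 * c * F := by
  rw [intervalIntegral.integral_indicator ⟨hF, hB⟩, intervalIntegral.integral_const]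
  simp
  ring

lemma ii_ind {B F : ℝ} {h : ℝ → ℝ} (hh : Continuous h) :
    IntervalIntegrable (fun l => Set.indicator {l | l ≤ F} h l) MeasureTheory.volume 0 B := by
  have h1 := hh.intervalIntegrable (μ := MeasureTheory.volume) 0 B
  exact ⟨h1.1.indicator (measurableSet_Iic), h1.2.indicator (measurableSet_Iic)⟩

lemma ii_sum {ι : Type*} (s : Finset ι) {B : ℝ} (F : ι → ℝ) (h : ι → ℝ → ℝ)
    (hh : ∀ x, Continuous (h x)) :
    IntervalIntegrable (fun l => ∑ x ∈ s, Set.indicator {l | l ≤ F x} (h x) l)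
      MeasureTheory.volume 0 B := by
  have h1 := IntervalIntegrable.sum s (μ := MeasureTheory.volume) (a := 0) (b := B)
    (f := fun x l => Set.indicator {l | l ≤ F x} (h x) l) (fun x _ => ii_ind (hh x))
  have e : (∑ x ∈ s, fun l => Set.indicator {l | l ≤ F x} (h x) l) =
      fun l => ∑ x ∈ s, Set.indicator {l | l ≤ F x} (h x) l := by
    funext l
    rw [Finset.sum_apply]
  rwa [e] at h1

lemma sum_sq_le_two [Fintype A] (tau : Equiv.Perm A) (n0 : ℕ) {g : A → ℝ} (hg : ∀ x, 0 ≤ g x) :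
    ∑ x, Mx tau n0 g x ^ 2 ≤ ∑ x, 2 * g x * Mx tau n0 g x := by
  classical
  set F : A → ℝ := fun x => Mx tau n0 g x with hF
  have hF0 : ∀ x, 0 ≤ F x := fun x => Mx_nonneg tau n0 hg x
  set B : ℝ := ∑ x, F x with hB
  have hFB : ∀ x, F x ≤ B := fun x => Finset.single_le_sum (fun y _ => hF0 y) (Finset.mem_univ x)
  have hB0 : 0 ≤ B := Finset.sum_nonneg fun x _ => hF0 x
  have e1 : ∑ x, F x ^ 2 = ∫ l in (0 : ℝ)..B, ∑ x, Set.indicator {l | l ≤ F x} (fun l => 2 * l) l := by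
    rw [intervalIntegral.integral_finsetSum (fun x _ => ii_ind (by fun_prop))]
    exact Finset.sum_congr rfl fun x _ => (int_sq (hF0 x) (hFB x)).symm
  have e2 : ∑ x, 2 * g x * F x =
      ∫ l in (0 : ℝ)..B, ∑ x, Set.indicator {l | l ≤ F x} (fun _ => 2 * g x) l := by
    rw [intervalIntegral.integral_finsetSum (fun x _ => ii_ind (by fun_prop))]
    exact Finset.sum_congr rfl fun x _ => (int_lin (hF0 x) (hFB x) (g x)).symm
  rw [e1, e2]
  apply intervalIntegral.integral_mono_on hB0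
  · exact ii_sum Finset.univ F (fun _ l => 2 * l) (fun _ => by fun_prop)
  · exact ii_sum Finset.univ F (fun x _ => 2 * g x) (fun _ => by fun_prop)
  intro l _
  have h := weak_sum tau n0 g l
  have e3 : ∑ x, Set.indicator {l | l ≤ F x} (fun l => 2 * l) l =
      2 * ∑ x, (if l ≤ F x then l else 0) := by
    rw [Finset.mul_sum]
    refine Finset.sum_congr rfl fun x _ => ?_
    by_cases hx : l ≤ F x
    · rw [Set.indicator_of_mem (show l ∈ {l | l ≤ F x} from hx), if_pos hx]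
    · rw [Set.indicator_of_notMem (show l ∉ {l | l ≤ F x} from hx), if_neg hx, mul_zero]
  have e4 : ∑ x, Set.indicator {l | l ≤ F x} (fun _ => 2 * g x) l =
      2 * ∑ x, (if l ≤ F x then g x else 0) := by
    rw [Finset.mul_sum]
    refine Finset.sum_congr rfl fun x _ => ?_
    by_cases hx : l ≤ F x
    · rw [Set.indicator_of_mem (show l ∈ {l | l ≤ F x} from hx), if_pos hx]
    · rw [Set.indicator_of_notMem (show l ∉ {l | l ≤ F x} from hx), if_neg hx, mul_zero]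
  rw [e3, e4]
  linarith

theorem sum_sq_Mx_le [Fintype A] (tau : Equiv.Perm A) (n0 : ℕ) {g : A → ℝ} (hg : ∀ x, 0 ≤ g x) :
    ∑ x, Mx tau n0 g x ^ 2 ≤ 4 * ∑ x, g x ^ 2 := by
  have h1 := sum_sq_le_two tau n0 hg
  have h2 : ∀ x, 2 * g x * Mx tau n0 g x ≤ 2 * g x ^ 2 + (1 / 2) * Mx tau n0 g x ^ 2 := by
    intro x
    nlinarith [sq_nonneg (2 * g x - Mx tau n0 g x)]
  have h3 : ∑ x, 2 * g x * Mx tau n0 g x ≤
      ∑ x, (2 * g x ^ 2 + (1 / 2) * Mx tau n0 g x ^ 2) := Finset.sum_le_sum fun x _ => h2 x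
  rw [Finset.sum_add_distrib, ← Finset.mul_sum, ← Finset.mul_sum] at h3
  linarith

end Pool.PolyMax
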