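import Pool.Agent.PolyMax.SqBound
import Pool.Agent.PolyMax.LamMax

set_option autoImplicit false

/-!
# PolyMax: the maximal inequality on the finite groups `(ZMod M) ^ D`

PROOF of `max_m`.  `m (N k) = (m (N k) - mdl (N k)) + mdl (N k)`.  The first family: `MaxBd.of_sq` with
`sq_bound`.  The second: `mdl (N k) xi = ∑_{s ∈ sr D (N k)} Lam s (N k) xi`; for `k ≤ K` this equals
`∑_{s < N K + 1} (if 2^{E s} ≤ N k then Lam s (N k) xi else 0)` (for `s > N k` one has
`2^{E s} ≥ 2^s > N k`; `N` is monotone), so by `MaxBd.of_trunc`, `MaxBd.sum`, `lam_max` the norm is at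
most `∑_{s < N K + 1} C (s + 1) 2^{-δ s} ≤ C'`, a convergent series.
`max_avg`: `T_m`.
-/

open Finset

namespace Pool.PolyMax

/-- the model as a sum of fixed length -/
lemma mdl_eq_sum {D : ℕ} {N L : ℕ} (h : N ≤ L) (xi : Fin D → ℝ) :
    mdl N xi = ∑ s ∈ range (L + 1), if 2 ^ (Ex D * s) ≤ N then Lam s N xi else 0 := by
  unfold mdl sr
  rw [Finset.sum_filter]
  apply Finset.sum_subset
  · intro s hs
    rw [Finset.mem_range] at hs ⊢
    omega
  · intro s _ hs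
    rw [Finset.mem_range] at hs
    rw [if_neg]
    intro h1
    have h2 : 2 ^ s ≤ 2 ^ (Ex D * s) := by
      apply Nat.pow_le_pow_right (by norm_num)
      have : 1 ≤ Ex D := by unfold Ex; omega
      nlinarith
    have h3 : s < 2 ^ s := Nat.lt_two_pow_self
    omega

lemma summable_lev {de : ℝ} (hde : 0 < de) :
    Summable fun s : ℕ => ((s : ℝ) + 1) * (2 : ℝ) ^ (-de * s) := by
  have hr : (2 : ℝ) ^ (-de) < 1 := Real.rpow_lt_one_of_one_lt_of_neg (by norm_num) (by linarith)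
  have hr0 : 0 < (2 : ℝ) ^ (-de) := by positivity
  have hn : ‖(2 : ℝ) ^ (-de)‖ < 1 := by rwa [Real.norm_of_nonneg hr0.le]
  have h1 := summable_pow_mul_geometric_of_norm_lt_one 1 hn
  have h2 := summable_geometric_of_lt_one hr0.le hr
  refine (h1.add h2).congr fun s => ?_
  rw [Real.rpow_mul (by norm_num), Real.rpow_natCast]
  ring

theorem max_m (D : ℕ) (rho : ℝ) (hrho : 1 < rho) : ∃ C : ℝ, 0 < C ∧
    ∀ (N : ℕ → ℕ), Lac rho N → MaxBd (fun k (xi : Fin D → ℝ) => m (N k) xi) C := by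
  obtain ⟨C1, hC1, h1⟩ := sq_bound D rho hrho
  obtain ⟨C2, de, hC2, hde, h2⟩ := lam_max D rho hrho
  have hs := summable_lev hde
  have hnn : ∀ s : ℕ, 0 ≤ ((s : ℝ) + 1) * (2 : ℝ) ^ (-de * s) := fun s => by positivity
  have htot : 0 ≤ ∑' s : ℕ, ((s : ℝ) + 1) * (2 : ℝ) ^ (-de * s) := tsum_nonneg hnn
  refine ⟨Real.sqrt C1 + C2 * ∑' s : ℕ, ((s : ℝ) + 1) * (2 : ℝ) ^ (-de * s), ?_, fun N hN => ?_⟩
  · have := Real.sqrt_pos.2 hC1
    have := mul_nonneg hC2.le htot
    linarith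
  · have e1 : MaxBd (fun k (xi : Fin D → ℝ) => m (N k) xi - mdl (N k) xi) (Real.sqrt C1) := by
      apply MaxBd.of_sq (Real.sqrt_nonneg _)
      intro xi K
      rw [Real.sq_sqrt hC1.le]
      exact h1 N hN xi K
    have e2 : MaxBd (fun k (xi : Fin D → ℝ) => mdl (N k) xi)
        (C2 * ∑' s : ℕ, ((s : ℝ) + 1) * (2 : ℝ) ^ (-de * s)) := by
      apply MaxBd.of_trunc
      intro K
      refine ⟨fun k xi => ∑ s ∈ range (N K + 1), if 2 ^ (Ex D * s) ≤ N k then Lam s (N k) xi else 0,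
        fun k hk => ?_, ?_⟩
      · funext xi
        exact (mdl_eq_sum (hN.strictMono.monotone hk) xi).symm
      · refine (MaxBd.sum (range (N K + 1))
          (fun (s : ℕ) (k : ℕ) (xi : Fin D → ℝ) => if 2 ^ (Ex D * s) ≤ N k then Lam s (N k) xi else 0)
          (fun s : ℕ => C2 * ((s : ℝ) + 1) * (2 : ℝ) ^ (-de * s)) (fun s _ => h2 N hN s)).mono ?_
        simp only [mul_assoc]
        rw [← Finset.mul_sum]
        exact mul_le_mul_of_nonneg_left (hs.sum_le_tsum _ (fun s _ => hnn s)) hC2.le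
    have e3 : (fun k (xi : Fin D → ℝ) => m (N k) xi) =
        fun k xi => (m (N k) xi - mdl (N k) xi) + mdl (N k) xi := by
      funext k xi
      ring
    rw [e3]
    exact e1.add e2

/-- The same for the averages themselves. -/
theorem max_avg (D : ℕ) (rho : ℝ) (hrho : 1 < rho) : ∃ C : ℝ, 0 < C ∧
    ∀ (N : ℕ → ℕ), Lac rho N → ∀ (M : ℕ) [NeZero M] (f : (Fin D → ZMod M) → ℂ)
      (ka : (Fin D → ZMod M) → ℕ),
      nrm (fun x => ((N (ka x) : ℕ) : ℂ)⁻¹ * ∑ n ∈ range (N (ka x)),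
        f (fun j => x j + (n : ZMod M) ^ ((j : ℕ) + 1))) ≤ C * nrm f := by
  obtain ⟨C, hC, h⟩ := max_m D rho hrho
  refine ⟨C, hC, fun N hN M _ f ka => ?_⟩
  have h1 := h N hN M f ka
  have h2 : (fun x => T (fun xi : Fin D → ℝ => m (N (ka x)) xi) f x) =
      fun x => ((N (ka x) : ℕ) : ℂ)⁻¹ * ∑ n ∈ range (N (ka x)),
        f (fun j => x j + (n : ZMod M) ^ ((j : ℕ) + 1)) := by
    funext x
    exact T_m (N (ka x)) f x
  rw [← h2]
  exact h1

end Pool.PolyMax
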