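import Pool.Agent.PolyMax.InvWeyl
import Pool.Agent.PolyMax.Sep

set_option autoImplicit false

/-!
# PolyMax: minor arcs

PROOF.  Let `C` be the constant of `weyl_vec D`, `E = Ex D`, `lam = ‖m N xi‖ > 0`, `T = 1 / lam`.
`weyl_vec`: `1 ≤ q ≤ C T^C` and `dz (q xi_j) ≤ C T^C / N^{j+1}`.  Let `b_j` be an integer with
`|q xi_j - b_j| = dz (q xi_j)`, so `|xi_j - b_j / q| ≤ C T^C / (q N^{j+1})`; `exists_reduced` gives a
reduced `a / q'`, `q' ≤ q`, equal to `b / q` modulo the integers, so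
`sz N (fr xi q' a) ≤ D C T^C`.  If both `q^E ≤ N` and `D C T^C < N^{1/4}`, this contradicts the
hypothesis (`q'^E ≤ q^E ≤ N`).  So `C^E T^{C E} ≥ q^E > N` or `D C T^C ≥ N^{1/4}`: in both cases
`T ≥ c N^{δ}`, e.g. with `δ = 1 / (C E + 4 C)`, which gives the claim.
-/

open Finset

namespace Pool.PolyMax

theorem minor (D : ℕ) : ∃ C de : ℝ, 0 < C ∧ 0 < de ∧ ∀ (N : ℕ) (xi : Fin D → ℝ), 1 ≤ N →
    (∀ (q : ℕ) (a : Fin D → ℕ), 1 ≤ q → q ^ Ex D ≤ N → a ∈ redF D q →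
      (N : ℝ) ^ (1 / 4 : ℝ) ≤ sz N (fr xi q a)) →
    ‖m N xi‖ ≤ C * (N : ℝ) ^ (-de) := by
  obtain ⟨C0, hC0, hW⟩ := weyl_vec D
  have hE : 16 ≤ Ex D := by unfold Ex; omega
  have hP : 1 ≤ C0 * Ex D := Nat.one_le_iff_ne_zero.2 (Nat.mul_ne_zero (by omega) (by omega))
  have hPR : (0 : ℝ) < ((C0 * Ex D : ℕ) : ℝ) := by exact_mod_cast hP
  have hC0R : (1 : ℝ) ≤ (C0 : ℝ) := by exact_mod_cast hC0
  have hK : (0 : ℝ) < (((D : ℝ) + 1) * C0) ^ Ex D := by positivity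
  refine ⟨((((D : ℝ) + 1) * C0) ^ Ex D) ^ (((C0 * Ex D : ℕ) : ℝ)⁻¹), ((C0 * Ex D : ℕ) : ℝ)⁻¹,
    Real.rpow_pos_of_pos hK _, inv_pos.2 hPR, ?_⟩
  intro N xi hN hyp
  have hNR : (1 : ℝ) ≤ (N : ℝ) := by exact_mod_cast hN
  have hN0 : (0 : ℝ) < (N : ℝ) := by linarith
  rcases (norm_nonneg (m N xi)).eq_or_lt with h0 | hlam
  · rw [← h0]
    positivity
  have hlam1 : ‖m N xi‖ ≤ 1 := norm_m_le_one N xi
  set lam : ℝ := ‖m N xi‖ with hlamdef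
  obtain ⟨q, hq1, hqC, hdz⟩ := hW N xi lam hN hlam hlam1 le_rfl
  have hT1 : (1 : ℝ) ≤ 1 / lam := by
    rw [le_div_iff₀ hlam]
    linarith
  have hTC : (1 : ℝ) ≤ (1 / lam) ^ C0 := one_le_pow₀ hT1
  have hqR : (1 : ℝ) ≤ (q : ℝ) := by exact_mod_cast hq1
  have hqR0 : (0 : ℝ) < (q : ℝ) := by linarith
  choose b hb using fun j : Fin D => exists_int_dz ((q : ℝ) * xi j)
  obtain ⟨q', a, hq'1, hq'q, ha, hk⟩ := exists_reduced q hq1 b
  have hdzfr : ∀ j, dz (fr xi q' a j) ≤ C0 * (1 / lam) ^ C0 / (N : ℝ) ^ ((j : ℕ) + 1) := by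
    intro j
    obtain ⟨k, hk⟩ := hk j
    have e1 : dz (fr xi q' a j) = dz (xi j - (b j : ℝ) / (q : ℝ)) := by
      apply dz_congr (k := k)
      unfold fr
      rw [← hk]
      ring
    rw [e1]
    refine (dz_le_abs _).trans ?_
    have e2 : xi j - (b j : ℝ) / (q : ℝ) = ((q : ℝ) * xi j - b j) / q := by
      field_simp
    rw [e2, abs_div, abs_of_pos hqR0, hb j]
    refine le_trans (div_le_self (dz_nonneg _) hqR) (hdz j)
  have hsz : sz N (fr xi q' a) ≤ D * (C0 * (1 / lam) ^ C0) := by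
    unfold sz
    calc ∑ j : Fin D, (N : ℝ) ^ ((j : ℕ) + 1) * dz (fr xi q' a j)
        ≤ ∑ _j : Fin D, (C0 * (1 / lam) ^ C0 : ℝ) := by
          apply sum_le_sum
          intro j _
          have h1 : (0 : ℝ) < (N : ℝ) ^ ((j : ℕ) + 1) := by positivity
          calc (N : ℝ) ^ ((j : ℕ) + 1) * dz (fr xi q' a j)
              ≤ (N : ℝ) ^ ((j : ℕ) + 1) * (C0 * (1 / lam) ^ C0 / (N : ℝ) ^ ((j : ℕ) + 1)) :=
                mul_le_mul_of_nonneg_left (hdzfr j) h1.le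
            _ = C0 * (1 / lam) ^ C0 := by field_simp
      _ = D * (C0 * (1 / lam) ^ C0) := by
          rw [sum_const, card_univ, Fintype.card_fin, nsmul_eq_mul]
  set A : ℝ := ((D : ℝ) + 1) * C0 * (1 / lam) ^ C0 with hA
  have hB : (0 : ℝ) < C0 * (1 / lam) ^ C0 := by positivity
  have hD0 : (0 : ℝ) ≤ (D : ℝ) := Nat.cast_nonneg D
  have hA1 : (C0 : ℝ) * (1 / lam) ^ C0 ≤ A := by
    rw [hA]
    nlinarith
  have hA2 : (D : ℝ) * (C0 * (1 / lam) ^ C0) ≤ A := by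
    rw [hA]
    nlinarith
  have hAone : (1 : ℝ) ≤ A := by
    refine le_trans ?_ hA1
    nlinarith
  have hNA : (N : ℝ) ≤ A ^ Ex D := by
    by_cases hqN : q ^ Ex D ≤ N
    · have hq'N : q' ^ Ex D ≤ N :=
        (Nat.pow_le_pow_left (Nat.le_of_dvd (by omega) hq'q) _).trans hqN
      have h1 := (hyp q' a hq'1 hq'N ha).trans (hsz.trans hA2)
      have h2 : (N : ℝ) = ((N : ℝ) ^ (1 / 4 : ℝ)) ^ 4 := by
        rw [← Real.rpow_natCast, ← Real.rpow_mul hN0.le]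
        norm_num
      calc (N : ℝ) = ((N : ℝ) ^ (1 / 4 : ℝ)) ^ 4 := h2
        _ ≤ A ^ 4 := pow_le_pow_left₀ (by positivity) h1 4
        _ ≤ A ^ Ex D := pow_le_pow_right₀ hAone (by omega)
    · have h1 : (N : ℝ) ≤ (q : ℝ) ^ Ex D := by
        have : N ≤ q ^ Ex D := by omega
        exact_mod_cast this
      exact h1.trans (pow_le_pow_left₀ hqR0.le (hqC.trans hA1) _)
  have hAE : A ^ Ex D = (((D : ℝ) + 1) * C0) ^ Ex D * (lam ^ (C0 * Ex D))⁻¹ := by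
    rw [hA, mul_pow, one_div, inv_pow, inv_pow, ← pow_mul]
  rw [hAE] at hNA
  have hlamP : (0 : ℝ) < lam ^ (C0 * Ex D) := pow_pos hlam _
  have hfin : lam ^ (C0 * Ex D) ≤ (((D : ℝ) + 1) * C0) ^ Ex D * (N : ℝ)⁻¹ := by
    rw [← div_eq_mul_inv, le_div_iff₀ hN0]
    rw [← div_eq_mul_inv, le_div_iff₀ hlamP] at hNA
    linarith
  calc lam = (lam ^ (C0 * Ex D)) ^ (((C0 * Ex D : ℕ) : ℝ)⁻¹) :=
        (Real.pow_rpow_inv_natCast hlam.le (by omega)).symm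
    _ ≤ ((((D : ℝ) + 1) * C0) ^ Ex D * (N : ℝ)⁻¹) ^ (((C0 * Ex D : ℕ) : ℝ)⁻¹) :=
        Real.rpow_le_rpow hlamP.le hfin (inv_pos.2 hPR).le
    _ = _ := by
        rw [Real.mul_rpow hK.le (by positivity), Real.inv_rpow hN0.le, Real.rpow_neg hN0.le]

end Pool.PolyMax
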