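import Pool.Agent.PolyMax.Sep

set_option autoImplicit false

/-!
# PolyMax: the used fractions are lacunary

PROOF.  Let `(q, a)` be used at `N` and `(q', a')` be used at `N' ≥ N`, different.  By `sep` some `j`
has `1 / (q q') ≤ dz (a_j / q - a'_j / q') ≤ dz (xi_j - a_j / q) + dz (xi_j - a'_j / q')
≤ N^{1/4} / N + N'^{1/4} / N' ≤ 2 N^{-3/4}` (`dz_le_sz_div`).  Since `q < 2^{s+1} ≤ 2 N^{1/E} ≤
2 N^{1/16}`, `q' ≥ N^{3/4} / (2 q)` and `4 q² ≤ 16 N^{1/8} ≤ N^{3/4}` once `N ≥ N0`; so `q' ≥ 2 q`.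
`used_unique`: with `N = N'` the first part gives `q' ≥ 2 q` and `q ≥ 2 q'` if they are different,
impossible as `q ≥ 1` (`q ≥ 2^s`).
-/

open Finset

namespace Pool.PolyMax

private lemma ul_pow8 (N : ℕ) : ((N : ℝ) ^ (1 / 8 : ℝ)) ^ 8 = N := by
  rw [← Real.rpow_natCast, ← Real.rpow_mul (Nat.cast_nonneg N)]
  norm_num

private lemma ul_pow2 (N : ℕ) : (N : ℝ) ^ (1 / 4 : ℝ) = ((N : ℝ) ^ (1 / 8 : ℝ)) ^ 2 := by
  rw [← Real.rpow_natCast, ← Real.rpow_mul (Nat.cast_nonneg N)]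
  norm_num

private lemma ul_pow16 (N : ℕ) : ((N : ℝ) ^ (1 / 16 : ℝ)) ^ 2 = (N : ℝ) ^ (1 / 8 : ℝ) := by
  rw [← Real.rpow_natCast, ← Real.rpow_mul (Nat.cast_nonneg N)]
  norm_num

private lemma ul_dz {D N : ℕ} (hN : 1 ≤ N) {be : Fin D → ℝ} (h : sz N be < (N : ℝ) ^ (1 / 4 : ℝ))
    (j : Fin D) : dz (be j) < 1 / ((N : ℝ) ^ (1 / 8 : ℝ)) ^ 6 := by
  have hN0 : (0 : ℝ) < N := by exact_mod_cast hN
  have hx : 0 < (N : ℝ) ^ (1 / 8 : ℝ) := by positivity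
  have h8 := ul_pow8 N
  rw [ul_pow2] at h
  refine (dz_le_sz_div hN be j).trans_lt ?_
  rw [div_lt_div_iff₀ hN0 (by positivity), one_mul]
  calc sz N be * ((N : ℝ) ^ (1 / 8 : ℝ)) ^ 6
      < ((N : ℝ) ^ (1 / 8 : ℝ)) ^ 2 * ((N : ℝ) ^ (1 / 8 : ℝ)) ^ 6 := by gcongr
    _ = ((N : ℝ) ^ (1 / 8 : ℝ)) ^ 8 := by ring
    _ = N := h8

theorem used_lac (D : ℕ) : ∃ N0 : ℕ, ∀ (N N' : ℕ) (xi : Fin D → ℝ) (q q' : ℕ) (a a' : Fin D → ℕ),
    N0 ≤ N → N ≤ N' → Used N xi q a → Used N' xi q' a' → ¬ (q = q' ∧ a = a') → 2 * q ≤ q' := by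
  refine ⟨256, ?_⟩
  rintro N N' xi q q' a a' hN hNN' ⟨s, hs, hq, ha, hsz⟩ ⟨s', hs', hq', ha', hsz'⟩ hne
  by_contra hcon
  push Not at hcon
  rw [Finset.mem_Ico] at hq hq'
  have hq1 : 1 ≤ q := Nat.one_le_two_pow.trans hq.1
  have hq1' : 1 ≤ q' := Nat.one_le_two_pow.trans hq'.1
  have hN1 : 1 ≤ N := by omega
  obtain ⟨j, hj⟩ := sep hq1 hq1' ha ha' hne
  have hN0 : (0 : ℝ) < N := by exact_mod_cast hN1
  set x := (N : ℝ) ^ (1 / 8 : ℝ) with hx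
  have hx0 : 0 < x := by positivity
  have hx2 : 2 ≤ x := by
    have h1 : ((256 : ℕ) : ℝ) ^ (1 / 8 : ℝ) ≤ x := by
      apply Real.rpow_le_rpow (by positivity) (by exact_mod_cast hN) (by norm_num)
    have h2 : ((256 : ℕ) : ℝ) ^ (1 / 8 : ℝ) = 2 := by
      rw [show ((256 : ℕ) : ℝ) = 2 ^ (8 : ℝ) by norm_num, ← Real.rpow_mul (by norm_num)]
      norm_num
    linarith
  have hxx : x ≤ (N' : ℝ) ^ (1 / 8 : ℝ) := by
    apply Real.rpow_le_rpow (by positivity) (by exact_mod_cast hNN') (by norm_num)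
  have h1 := ul_dz hN1 hsz j
  have h2 := ul_dz (hN1.trans hNN') hsz' j
  have h3 : 1 / ((N' : ℝ) ^ (1 / 8 : ℝ)) ^ 6 ≤ 1 / x ^ 6 := by gcongr
  have h4 : (a j : ℝ) / (q : ℝ) - (a' j : ℝ) / (q' : ℝ) = fr xi q' a' j - fr xi q a j := by
    unfold fr
    ring
  rw [h4] at hj
  have h5 : 1 / ((q : ℝ) * q') < 2 / x ^ 6 := by
    calc 1 / ((q : ℝ) * q') ≤ dz (fr xi q' a' j - fr xi q a j) := hj
      _ ≤ dz (fr xi q' a' j) + dz (fr xi q a j) := dz_sub_le _ _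
      _ < 1 / x ^ 6 + 1 / x ^ 6 := by linarith
      _ = 2 / x ^ 6 := by ring
  have hqr : (0 : ℝ) < q := by exact_mod_cast hq1
  have hqr' : (0 : ℝ) < q' := by exact_mod_cast hq1'
  rw [div_lt_div_iff₀ (by positivity) (by positivity), one_mul] at h5
  -- `q ≤ 2 N^{1/16}`
  have hq2 : (q : ℝ) ≤ 2 * (N : ℝ) ^ (1 / 16 : ℝ) := by
    have h6 : (q : ℝ) ≤ 2 * 2 ^ s := by
      have : q ≤ 2 * 2 ^ s := by
        have := hq.2
        rw [pow_succ] at this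
        omega
      exact_mod_cast this
    have h7 := two_pow_le_of_mem_sr hs
    have h8 : (N : ℝ) ^ (1 / (Ex D : ℝ)) ≤ (N : ℝ) ^ (1 / 16 : ℝ) := by
      apply Real.rpow_le_rpow_of_exponent_le (by exact_mod_cast hN1)
      have h9 : (16 : ℝ) ≤ (Ex D : ℝ) := by
        unfold Ex
        push_cast
        have : (0 : ℝ) ≤ D := Nat.cast_nonneg D
        linarith
      gcongr
    linarith
  have hq3 : (q : ℝ) ^ 2 ≤ 4 * x := by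
    calc (q : ℝ) ^ 2 ≤ (2 * (N : ℝ) ^ (1 / 16 : ℝ)) ^ 2 := by gcongr
      _ = 4 * ((N : ℝ) ^ (1 / 16 : ℝ)) ^ 2 := by ring
      _ = 4 * x := by rw [ul_pow16]
  have hqq : (q' : ℝ) ≤ 2 * q := by exact_mod_cast hcon.le
  have h10 : x ^ 6 < 16 * x := by
    calc x ^ 6 < 2 * ((q : ℝ) * q') := h5
      _ ≤ 2 * ((q : ℝ) * (2 * q)) := by gcongr
      _ = 4 * (q : ℝ) ^ 2 := by ring
      _ ≤ 4 * (4 * x) := by gcongr
      _ = 16 * x := by ring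
  have h11 : 16 * x ≤ x ^ 6 := by
    calc 16 * x ≤ x ^ 5 * x := by
          have : (2 : ℝ) ^ 5 ≤ x ^ 5 := by gcongr
          gcongr
          linarith
      _ = x ^ 6 := by ring
  linarith

theorem used_unique (D : ℕ) : ∃ N0 : ℕ, ∀ (N : ℕ) (xi : Fin D → ℝ) (q q' : ℕ) (a a' : Fin D → ℕ),
    N0 ≤ N → Used N xi q a → Used N xi q' a' → q = q' ∧ a = a' := by
  obtain ⟨N0, h⟩ := used_lac D
  refine ⟨N0, fun N xi q q' a a' hN hu hu' => ?_⟩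
  by_contra hne
  have h1 := h N N xi q q' a a' hN le_rfl hu hu' hne
  have h2 := h N N xi q' q a' a hN le_rfl hu' hu (fun h => hne ⟨h.1.symm, h.2.symm⟩)
  obtain ⟨s, _, hq, _, _⟩ := hu
  rw [Finset.mem_Ico] at hq
  have hq1 : 1 ≤ q := Nat.one_le_two_pow.trans hq.1
  omega

end Pool.PolyMax
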