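import Pool.Agent.PolyMax.Complete
import Pool.Agent.PolyMax.Major
import Pool.Agent.PolyMax.Decay
import Pool.Agent.PolyMax.Minor
import Pool.Agent.PolyMax.Far
import Pool.Agent.PolyMax.UsedLac
import Pool.Agent.PolyMax.Geo

set_option autoImplicit false

/-!
# PolyMax: the difference between the average and the model at one scale

PROOF.  Take `N0` from `used_unique` (and `N0 ≥ 1`), `δ` the minimum of the exponents of `minor`,
`norm_G_le`, `diff_bound`, and `1 / 4`.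
(i) No fraction is used.  Every `(q, a)` with `1 ≤ q`, `q^E ≤ N`, `a ∈ redF D q` lies in a level
`s ∈ sr D N` (`level_mem`), and is not used, so `sz ≥ N^{1/4}`: `minor` bounds `‖m N xi‖`.  All terms of
`mdl N xi` are far: `‖mdl‖ ≤ ∑ ‖G‖ ‖w‖ ≤ C N^{-1/4}` (`far`, `norm_G_le_one`).
(ii) `(q, a)` is used.  It is the only one with `sz < N^{1/4}` among all pairs of the levels in
`sr D N` (`used_unique`), so `‖mdl N xi - G q a * w N (fr xi q a)‖ ≤ C N^{-1/4}` by `far` (separate the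
term of `(q, a)`; note a pair belongs to exactly one level).  `major`:
`‖m N xi - G q a * m N (fr xi q a)‖ ≤ (q / N)(2 + 4 π D N^{1/4}) ≤ C N^{-1/2}` as
`q ≤ 2 N^{1/E} ≤ 2 N^{1/16}`.  Finally `‖G q a‖ ‖m N be - w N be‖ ≤ C q^{-δ} gf δ (sz N be)`
(`norm_G_le`, `diff_bound`, `sz N be ≤ N^{1/4} ≤ √N`; `gf_anti` to use a common exponent).
-/

open Finset

namespace Pool.PolyMax

/-- A near pair of some level of `sr D N` is used. -/
theorem term_used_of_near {D N : ℕ} {xi : Fin D → ℝ} {s q : ℕ} {a : Fin D → ℕ} (hs : s ∈ sr D N)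
    (hq : q ∈ Ico (2 ^ s) (2 ^ (s + 1))) (ha : a ∈ redF D q)
    (h : ¬ (N : ℝ) ^ (1 / 4 : ℝ) ≤ sz N (fr xi q a)) : Used N xi q a :=
  ⟨s, hs, hq, ha, not_le.mp h⟩

theorem term_rpow_anti {N : ℕ} (hN : 1 ≤ N) {x y : ℝ} (h : x ≤ y) :
    (N : ℝ) ^ (-y) ≤ (N : ℝ) ^ (-x) :=
  Real.rpow_le_rpow_of_exponent_le (by exact_mod_cast hN) (by linarith)

/-- The far part of the model. -/
theorem term_far_norm {D : ℕ} {C : ℝ} {N : ℕ} {xi : Fin D → ℝ}
    (h : (∑ s ∈ sr D N, ∑ q ∈ Ico (2 ^ s) (2 ^ (s + 1)), ∑ a ∈ redF D q,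
      if (N : ℝ) ^ (1 / 4 : ℝ) ≤ sz N (fr xi q a) then ‖w N (fr xi q a)‖ else 0) ≤ C) :
    ‖∑ s ∈ sr D N, ∑ q ∈ Ico (2 ^ s) (2 ^ (s + 1)), ∑ a ∈ redF D q,
      if (N : ℝ) ^ (1 / 4 : ℝ) ≤ sz N (fr xi q a) then G q a * w N (fr xi q a) else 0‖ ≤ C := by
  refine le_trans ((norm_sum_le _ _).trans (Finset.sum_le_sum fun s _ => ?_)) h
  refine (norm_sum_le _ _).trans (Finset.sum_le_sum fun q _ => ?_)
  refine (norm_sum_le _ _).trans (Finset.sum_le_sum fun a _ => ?_)
  split_ifs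
  · rw [norm_mul]
    exact mul_le_of_le_one_left (norm_nonneg _) (norm_G_le_one q a)
  · simp

/-- The model is the sum of its far part and of its near part. -/
theorem term_mdl_split {D : ℕ} (N : ℕ) (xi : Fin D → ℝ) :
    mdl N xi = (∑ s ∈ sr D N, ∑ q ∈ Ico (2 ^ s) (2 ^ (s + 1)), ∑ a ∈ redF D q,
      if (N : ℝ) ^ (1 / 4 : ℝ) ≤ sz N (fr xi q a) then G q a * w N (fr xi q a) else 0) +
      ∑ s ∈ sr D N, ∑ q ∈ Ico (2 ^ s) (2 ^ (s + 1)), ∑ a ∈ redF D q,
      if (N : ℝ) ^ (1 / 4 : ℝ) ≤ sz N (fr xi q a) then 0 else G q a * w N (fr xi q a) := by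
  rw [mdl, ← Finset.sum_add_distrib]
  refine Finset.sum_congr rfl fun s _ => ?_
  rw [Lam, ← Finset.sum_add_distrib]
  refine Finset.sum_congr rfl fun q _ => ?_
  rw [← Finset.sum_add_distrib]
  refine Finset.sum_congr rfl fun a _ => ?_
  split_ifs <;> simp

theorem term_level_unique {s s' q : ℕ} (h : q ∈ Ico (2 ^ s) (2 ^ (s + 1)))
    (h' : q ∈ Ico (2 ^ s') (2 ^ (s' + 1))) : s = s' := by
  rw [Finset.mem_Ico] at h h'
  have h1 : s < s' + 1 := (Nat.pow_lt_pow_iff_right (by norm_num)).mp (h.1.trans_lt h'.2)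
  have h2 : s' < s + 1 := (Nat.pow_lt_pow_iff_right (by norm_num)).mp (h'.1.trans_lt h.2)
  omega

theorem term (D : ℕ) : ∃ (C de : ℝ) (N0 : ℕ), 0 < C ∧ 0 < de ∧ 1 ≤ N0 ∧
    ∀ (N : ℕ) (xi : Fin D → ℝ), N0 ≤ N →
      ((∀ (q : ℕ) (a : Fin D → ℕ), ¬ Used N xi q a) → ‖m N xi - mdl N xi‖ ≤ C * (N : ℝ) ^ (-de)) ∧
      (∀ (q : ℕ) (a : Fin D → ℕ), Used N xi q a →
        ‖m N xi - mdl N xi‖ ≤ C * (N : ℝ) ^ (-de) +
          C * (q : ℝ) ^ (-de) * gf de (sz N (fr xi q a))) := by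
  obtain ⟨N1, hN1⟩ := used_unique D
  obtain ⟨C1, d1, hC1, hd1, hminor⟩ := minor D
  obtain ⟨C2, d2, hC2, hd2, hG⟩ := norm_G_le D
  obtain ⟨C3, d3, hC3, hd3, hdiff⟩ := diff_bound D
  obtain ⟨C4, hC4, hfar⟩ := far D
  set de : ℝ := min (min d1 d2) (min d3 (1 / 4)) with hde
  have hde0 : 0 < de := lt_min (lt_min hd1 hd2) (lt_min hd3 (by norm_num))
  have hde1 : de ≤ d1 := (min_le_left _ _).trans (min_le_left _ _)
  have hde2 : de ≤ d2 := (min_le_left _ _).trans (min_le_right _ _)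
  have hde3 : de ≤ d3 := (min_le_right _ _).trans (min_le_left _ _)
  have hde4 : de ≤ 1 / 4 := (min_le_right _ _).trans (min_le_right _ _)
  have hpi := Real.pi_pos
  set C5 : ℝ := 2 * (2 + 4 * Real.pi * D) with hC5
  have hC50 : 0 ≤ C5 := by positivity
  have hC23 : 0 < C2 * C3 := mul_pos hC2 hC3
  refine ⟨C1 + C4 + C5 + C2 * C3, de, max N1 1, by positivity, hde0, le_max_right _ _, ?_⟩
  intro N xi hN
  have hNN1 : N1 ≤ N := (le_max_left _ _).trans hN
  have hN1' : 1 ≤ N := (le_max_right _ _).trans hN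
  have hNr : (1 : ℝ) ≤ N := by exact_mod_cast hN1'
  have hN0 : (0 : ℝ) < N := by linarith
  have hNde : 0 ≤ (N : ℝ) ^ (-de) := by positivity
  have hfarN := term_far_norm (hfar N xi hN1')
  have hfarN' : C4 * (N : ℝ) ^ (-(1 / 4) : ℝ) ≤ C4 * (N : ℝ) ^ (-de) :=
    mul_le_mul_of_nonneg_left (term_rpow_anti hN1' hde4) hC4.le
  constructor
  · intro hno
    have h1 : ‖m N xi‖ ≤ C1 * (N : ℝ) ^ (-de) := by
      refine (hminor N xi hN1' fun q a hq hqN ha => ?_).trans ?_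
      · by_contra hcon
        obtain ⟨hs, hIco⟩ := level_mem hq hqN
        exact hno q a (term_used_of_near hs hIco ha hcon)
      · exact mul_le_mul_of_nonneg_left (term_rpow_anti hN1' hde1) hC1.le
    have h2 : ‖mdl N xi‖ ≤ C4 * (N : ℝ) ^ (-de) := by
      have h3 : ∑ s ∈ sr D N, ∑ q ∈ Ico (2 ^ s) (2 ^ (s + 1)), ∑ a ∈ redF D q,
          (if (N : ℝ) ^ (1 / 4 : ℝ) ≤ sz N (fr xi q a) then 0 else G q a * w N (fr xi q a)) =
          0 := by
        refine Finset.sum_eq_zero fun s hs => Finset.sum_eq_zero fun q hq =>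
          Finset.sum_eq_zero fun a ha => ?_
        split_ifs with h
        · rfl
        · exact absurd (term_used_of_near hs hq ha h) (hno q a)
      rw [term_mdl_split, h3, add_zero]
      exact hfarN.trans hfarN'
    calc ‖m N xi - mdl N xi‖ ≤ ‖m N xi‖ + ‖mdl N xi‖ := norm_sub_le _ _
      _ ≤ C1 * (N : ℝ) ^ (-de) + C4 * (N : ℝ) ^ (-de) := add_le_add h1 h2
      _ ≤ (C1 + C4 + C5 + C2 * C3) * (N : ℝ) ^ (-de) := by
          have : 0 ≤ (C5 + C2 * C3) * (N : ℝ) ^ (-de) := by positivity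
          linarith
  · intro q a hU
    obtain ⟨s0, hs0, hq, ha, hsz⟩ := hU
    have hU : Used N xi q a := ⟨s0, hs0, hq, ha, hsz⟩
    have hq1 : 1 ≤ q := by
      rw [Finset.mem_Ico] at hq
      exact (Nat.one_le_two_pow).trans hq.1
    have hqr : (1 : ℝ) ≤ q := by exact_mod_cast hq1
    -- the near part
    have hnear : ∑ s ∈ sr D N, ∑ q ∈ Ico (2 ^ s) (2 ^ (s + 1)), ∑ a ∈ redF D q,
        (if (N : ℝ) ^ (1 / 4 : ℝ) ≤ sz N (fr xi q a) then 0 else G q a * w N (fr xi q a)) =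
        G q a * w N (fr xi q a) := by
      rw [Finset.sum_eq_single s0, Finset.sum_eq_single q, Finset.sum_eq_single a]
      · rw [if_neg (not_le.mpr hsz)]
      · intro a' ha' hne
        split_ifs with h
        · rfl
        · exact absurd (hN1 N xi q q a' a hNN1 (term_used_of_near hs0 hq ha' h) hU).2 hne
      · exact fun h => absurd ha h
      · intro q' hq' hne
        refine Finset.sum_eq_zero fun a' ha' => ?_
        split_ifs with h
        · rfl
        · exact absurd (hN1 N xi q' q a' a hNN1 (term_used_of_near hs0 hq' ha' h) hU).1 hne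
      · exact fun h => absurd hq h
      · intro s hs hne
        refine Finset.sum_eq_zero fun q' hq' => Finset.sum_eq_zero fun a' ha' => ?_
        split_ifs with h
        · rfl
        · have h1 := (hN1 N xi q' q a' a hNN1 (term_used_of_near hs hq' ha' h) hU).1
          subst h1
          exact absurd (term_level_unique hq' hq) hne
      · exact fun h => absurd hs0 h
    have hszN : sz N (fr xi q a) ≤ (N : ℝ) ^ (1 / 4 : ℝ) := hsz.le
    have hsz0 := sz_nonneg N (fr xi q a)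
    -- the major arc approximation
    have h1 : ‖m N xi - G q a * m N (fr xi q a)‖ ≤ C5 * (N : ℝ) ^ (-de) := by
      have h2 : (q : ℝ) ≤ 2 * (N : ℝ) ^ (1 / 16 : ℝ) := by
        have h3 : (q : ℝ) ≤ 2 * 2 ^ s0 := by
          rw [Finset.mem_Ico, pow_succ] at hq
          have := hq.2.le
          have h4 : (q : ℝ) ≤ ((2 ^ s0 * 2 : ℕ) : ℝ) := by exact_mod_cast this
          push_cast at h4
          linarith
        have h4 := two_pow_le_of_mem_sr hs0
        have h5 : (N : ℝ) ^ (1 / (Ex D : ℝ)) ≤ (N : ℝ) ^ (1 / 16 : ℝ) := by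
          apply Real.rpow_le_rpow_of_exponent_le hNr
          apply one_div_le_one_div_of_le (by norm_num)
          rw [Ex]
          push_cast
          have : (0 : ℝ) ≤ D := Nat.cast_nonneg D
          linarith
        linarith
      have h14 : (1 : ℝ) ≤ (N : ℝ) ^ (1 / 4 : ℝ) := Real.one_le_rpow hNr (by norm_num)
      calc ‖m N xi - G q a * m N (fr xi q a)‖
          ≤ (q : ℝ) / N * (2 + 4 * Real.pi * D * sz N (fr xi q a)) := major N q hN1' hq1 xi a
        _ ≤ (2 * (N : ℝ) ^ (1 / 16 : ℝ)) / N *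
            ((2 + 4 * Real.pi * D) * (N : ℝ) ^ (1 / 4 : ℝ)) := by
            gcongr
            have : 4 * Real.pi * D * sz N (fr xi q a) ≤
                4 * Real.pi * D * (N : ℝ) ^ (1 / 4 : ℝ) := by gcongr
            nlinarith
        _ = C5 * ((N : ℝ) ^ (1 / 16 : ℝ) * (N : ℝ) ^ (-1 : ℝ) * (N : ℝ) ^ (1 / 4 : ℝ)) := by
            rw [hC5, Real.rpow_neg_one]
            ring
        _ = C5 * (N : ℝ) ^ (1 / 16 + -1 + 1 / 4 : ℝ) := by
            rw [Real.rpow_add hN0, Real.rpow_add hN0]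
        _ ≤ C5 * (N : ℝ) ^ (-de) := by
            refine mul_le_mul_of_nonneg_left ?_ hC50
            exact Real.rpow_le_rpow_of_exponent_le hNr (by linarith)
    -- the difference at the fraction
    have h2 : ‖G q a‖ * ‖m N (fr xi q a) - w N (fr xi q a)‖ ≤
        C2 * C3 * ((q : ℝ) ^ (-de) * gf de (sz N (fr xi q a))) := by
      have h3 : ‖G q a‖ ≤ C2 * (q : ℝ) ^ (-de) := by
        refine (hG q hq1 a ha).trans ?_
        exact mul_le_mul_of_nonneg_left (term_rpow_anti hq1 hde2) hC2.le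
      have h4 : ‖m N (fr xi q a) - w N (fr xi q a)‖ ≤ C3 * gf de (sz N (fr xi q a)) := by
        refine (hdiff N (fr xi q a) hN1' (hszN.trans ?_)).trans ?_
        · rw [Real.sqrt_eq_rpow]
          exact Real.rpow_le_rpow_of_exponent_le hNr (by norm_num)
        · gcongr
          exact gf_anti hsz0 hde0 hde3
      have h5 : 0 ≤ gf de (sz N (fr xi q a)) := gf_nonneg hsz0
      calc ‖G q a‖ * ‖m N (fr xi q a) - w N (fr xi q a)‖
          ≤ (C2 * (q : ℝ) ^ (-de)) * (C3 * gf de (sz N (fr xi q a))) := by gcongr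
        _ = _ := by ring
    have h3 : 0 ≤ (q : ℝ) ^ (-de) * gf de (sz N (fr xi q a)) :=
      mul_nonneg (by positivity) (gf_nonneg hsz0)
    rw [term_mdl_split, hnear]
    set F := ∑ s ∈ sr D N, ∑ q ∈ Ico (2 ^ s) (2 ^ (s + 1)), ∑ a ∈ redF D q,
      (if (N : ℝ) ^ (1 / 4 : ℝ) ≤ sz N (fr xi q a) then G q a * w N (fr xi q a) else 0) with hF
    have h4 : m N xi - (F + G q a * w N (fr xi q a)) =
        (m N xi - G q a * m N (fr xi q a)) +
        G q a * (m N (fr xi q a) - w N (fr xi q a)) - F := by ring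
    rw [h4]
    have hFn : ‖F‖ ≤ C4 * (N : ℝ) ^ (-de) := hfarN.trans hfarN'
    calc ‖(m N xi - G q a * m N (fr xi q a)) +
          G q a * (m N (fr xi q a) - w N (fr xi q a)) - F‖
        ≤ ‖(m N xi - G q a * m N (fr xi q a)) +
          G q a * (m N (fr xi q a) - w N (fr xi q a))‖ + ‖F‖ := norm_sub_le _ _
      _ ≤ ‖m N xi - G q a * m N (fr xi q a)‖ +
          ‖G q a * (m N (fr xi q a) - w N (fr xi q a))‖ + ‖F‖ := by
          gcongr
          exact norm_add_le _ _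
      _ ≤ C5 * (N : ℝ) ^ (-de) + C2 * C3 * ((q : ℝ) ^ (-de) * gf de (sz N (fr xi q a))) +
          C4 * (N : ℝ) ^ (-de) := by
          rw [norm_mul]
          gcongr
      _ ≤ (C1 + C4 + C5 + C2 * C3) * (N : ℝ) ^ (-de) +
          (C1 + C4 + C5 + C2 * C3) * (q : ℝ) ^ (-de) * gf de (sz N (fr xi q a)) := by
          have e1 : 0 ≤ (C1 + C2 * C3) * (N : ℝ) ^ (-de) := by positivity
          have e2 : 0 ≤ (C1 + C4 + C5) * ((q : ℝ) ^ (-de) * gf de (sz N (fr xi q a))) :=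
            mul_nonneg (by positivity) h3
          linarith

end Pool.PolyMax
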