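import Pool.Agent.PolyMax.MaxZ

set_option autoImplicit false

/-!
# PolyMax: Calderon transference

PROOF.  Let `C0` be the constant of `max_avg D rho`; claim with `C = 2^D C0²`.  By monotone convergence
(the sup over `k < K` increases to the sup over all `k`) it suffices to bound, for every `K`, the
integral of `(max_{k < K} A_k x)²`, `A_k x = (N k)⁻¹ ∑_{n < N k} v (mon U n x)`; we may assume
`∫ v² < ∞`, so `v < ∞` almost everywhere and then, the maps `U^y = ∏ U_j^{y_j}` being measure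
preserving, for almost every `x` all the values `v (U^y x)`, `y ∈ ℕ^D`, are finite.  Let `S` be larger
than all `n^{j+1}` with `n < N k`, `k < K`, `j < D` (e.g. `S = (N K)^D + 1`), `M = 2 S`.  For such an `x`
let `f : (ZMod M)^D → ℂ`, `f y = (v (U^{y.val} x)).toReal`, and let `ka y` be an index `k < K` at which
`A_k (U^{y.val} x)` is maximal if all `y_j.val < S` (arbitrary otherwise).  If all `y_j.val < S` then
`(y_j + n^{j+1}).val = y_j.val + n^{j+1} < M` for `n < N k`, so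
`(N k)⁻¹ ∑_{n < N k} f (y_j + n^{j+1}) = A_k (U^{y.val} x)` (commutativity: `mon U n (U^y x) =
U^{y + (n, n², ...)} x`).  `max_avg` gives
`∑_{y ∈ [0, S)^D} (max_{k < K} A_k (U^y x))² ≤ C0² ∑_{y ∈ [0, M)^D} v (U^y x)²`.
Integrate over `x` and use that `U^y` preserves `mu`:
`S^D ∫ (max_k A_k)² ≤ C0² M^D ∫ v²`, and `M^D / S^D = 2^D`.

`all_N`: `transfer` for `rho = 2`, `N k = 2^k`; for `N + 1 ≤ 2^k < 2 (N + 1)` (or `k = 0`) the average
over `range (N + 1)` is at most twice the average over `range (2^k)`.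
-/

open Finset MeasureTheory
open scoped ENNReal NNReal

namespace Pool.PolyMax

universe u

/-- `U_0^n U_1^{n²} ... U_{D-1}^{n^D}`. -/
def mon {X : Type u} {D : ℕ} (U : Fin D → Equiv.Perm X) (n : ℕ) : Equiv.Perm X :=
  (List.ofFn fun j : Fin D => U j ^ (n ^ ((j : ℕ) + 1))).prod

namespace TransferAux

/-- `U_0^{y_0} ... U_{D-1}^{y_{D-1}}`. -/
def mp {X : Type u} {D : ℕ} (U : Fin D → Equiv.Perm X) (y : Fin D → ℕ) : Equiv.Perm X :=
  (List.ofFn fun j : Fin D => U j ^ (y j)).prod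

lemma mon_eq {X : Type u} {D : ℕ} (U : Fin D → Equiv.Perm X) (n : ℕ) :
    mon U n = mp U fun j => n ^ ((j : ℕ) + 1) := rfl

lemma mp_zero {X : Type u} (U : Fin 0 → Equiv.Perm X) (y : Fin 0 → ℕ) : mp U y = 1 := by
  unfold mp
  rw [List.ofFn_zero, List.prod_nil]

lemma mp_succ {X : Type u} {D : ℕ} (U : Fin (D + 1) → Equiv.Perm X) (y : Fin (D + 1) → ℕ) :
    mp U y = U 0 ^ y 0 * mp (fun j => U j.succ) (fun j => y j.succ) := by
  unfold mp
  rw [List.ofFn_succ, List.prod_cons]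

lemma commute_mp {X : Type u} {D : ℕ} (U : Fin D → Equiv.Perm X) (y : Fin D → ℕ)
    (V : Equiv.Perm X) (h : ∀ j, Commute V (U j)) : Commute V (mp U y) := by
  apply Commute.list_prod_right
  intro x hx
  rw [List.mem_ofFn] at hx
  obtain ⟨j, rfl⟩ := hx
  exact (h j).pow_right _

lemma mp_add {X : Type u} {D : ℕ} (U : Fin D → Equiv.Perm X) (hU : ∀ i j, Commute (U i) (U j))
    (y z : Fin D → ℕ) : mp U (fun j => y j + z j) = mp U y * mp U z := by
  induction D with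
  | zero => rw [mp_zero, mp_zero, mp_zero, one_mul]
  | succ D ih =>
    rw [mp_succ, mp_succ U y, mp_succ U z, ih _ fun i j => hU _ _, pow_add]
    have h : Commute (U 0 ^ z 0) (mp (fun j => U j.succ) fun j => y j.succ) :=
      commute_mp _ _ _ fun j => (hU 0 j.succ).pow_left _
    calc U 0 ^ y 0 * U 0 ^ z 0 * (mp (fun j => U j.succ) (fun j => y j.succ) *
          mp (fun j => U j.succ) (fun j => z j.succ))
        = U 0 ^ y 0 * (U 0 ^ z 0 * mp (fun j => U j.succ) (fun j => y j.succ)) *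
          mp (fun j => U j.succ) (fun j => z j.succ) := by simp only [mul_assoc]
      _ = _ := by rw [h.eq]; simp only [mul_assoc]

lemma mp_mp {X : Type u} [MeasurableSpace X] {mu : Measure X} {D : ℕ} (U : Fin D → Equiv.Perm X)
    (hU : ∀ j, MeasurePreserving (U j) mu mu) (y : Fin D → ℕ) :
    MeasurePreserving (mp U y) mu mu := by
  induction D with
  | zero =>
    rw [mp_zero]
    exact MeasurePreserving.id mu
  | succ D ih =>
    rw [mp_succ]
    have h1 : MeasurePreserving (U 0 ^ y 0 : Equiv.Perm X) mu mu := by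
      rw [← Equiv.Perm.iterate_eq_pow]
      exact (hU 0).iterate _
    have h2 := ih (fun j => U j.succ) (fun j => hU _) (fun j => y j.succ)
    rw [Equiv.Perm.coe_mul]
    exact h1.comp h2

/-- The averages. -/
noncomputable def Av {X : Type u} {D : ℕ} (U : Fin D → Equiv.Perm X) (v : X → ℝ≥0∞) (L : ℕ)
    (x : X) : ℝ≥0∞ := (L : ℝ≥0∞)⁻¹ * ∑ n ∈ range L, v (mon U n x)

lemma measurable_Av {X : Type u} [MeasurableSpace X] {mu : Measure X} {D : ℕ}
    (U : Fin D → Equiv.Perm X) (hU : ∀ j, MeasurePreserving (U j) mu mu) {v : X → ℝ≥0∞}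
    (hv : Measurable v) (L : ℕ) : Measurable (Av U v L) := by
  unfold Av
  apply Measurable.const_mul
  apply Finset.measurable_sum
  intro n _
  rw [mon_eq]
  exact hv.comp (mp_mp U hU _).measurable

/-- The maximal average over `k ≤ K`. -/
noncomputable def BK {X : Type u} {D : ℕ} (U : Fin D → Equiv.Perm X) (v : X → ℝ≥0∞) (N : ℕ → ℕ)
    (K : ℕ) (x : X) : ℝ≥0∞ := ⨆ k : Fin (K + 1), Av U v (N k) x

lemma measurable_BK {X : Type u} [MeasurableSpace X] {mu : Measure X} {D : ℕ}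
    (U : Fin D → Equiv.Perm X) (hU : ∀ j, MeasurePreserving (U j) mu mu) {v : X → ℝ≥0∞}
    (hv : Measurable v) (N : ℕ → ℕ) (K : ℕ) : Measurable (BK U v N K) :=
  Measurable.iSup fun _ => measurable_Av U hU hv _

lemma BK_mono {X : Type u} {D : ℕ} (U : Fin D → Equiv.Perm X) (v : X → ℝ≥0∞) (N : ℕ → ℕ) :
    Monotone (BK U v N) := by
  intro K K' h x
  unfold BK
  refine iSup_le fun k => ?_
  exact le_iSup_of_le (⟨k, by omega⟩ : Fin (K' + 1)) le_rfl

lemma iSup_BK {X : Type u} {D : ℕ} (U : Fin D → Equiv.Perm X) (v : X → ℝ≥0∞) (N : ℕ → ℕ) (x : X) :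
    ⨆ K, BK U v N K x = ⨆ k, Av U v (N k) x := by
  apply le_antisymm
  · refine iSup_le fun K => iSup_le fun k => ?_
    exact le_iSup (fun k => Av U v (N k) x) (k : ℕ)
  · refine iSup_le fun k => ?_
    refine le_iSup_of_le k ?_
    exact le_iSup_of_le (Fin.last k) le_rfl

lemma sq_iSup (g : ℕ → ℝ≥0∞) : (⨆ K, g K) ^ 2 = ⨆ K, g K ^ 2 := by
  apply Monotone.map_iSup_of_continuousAt (f := fun a : ℝ≥0∞ => a ^ 2)
  · exact (ENNReal.continuous_pow 2).continuousAt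
  · intro a b h
    exact pow_le_pow_left' h 2
  · simp

lemma pointwise {D : ℕ} {C0 : ℝ} (hC0 : 0 < C0) {N : ℕ → ℕ} (hN1 : ∀ k, 1 ≤ N k)
    {M S K : ℕ} [NeZero M] (hM : 2 * S ≤ M)
    (hmax : ∀ (f : (Fin D → ZMod M) → ℂ) (ka : (Fin D → ZMod M) → ℕ),
      nrm (fun x => ((N (ka x) : ℕ) : ℂ)⁻¹ * ∑ n ∈ range (N (ka x)),
        f (fun j => x j + (n : ZMod M) ^ ((j : ℕ) + 1))) ≤ C0 * nrm f)
    (hS : ∀ k ≤ K, ∀ n < N k, ∀ j < D, n ^ (j + 1) < S)
    {X : Type u} (U : Fin D → Equiv.Perm X) (hU : ∀ i j, Commute (U i) (U j))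
    (v : X → ℝ≥0∞) (x : X) :
    ∑ b ∈ Fintype.piFinset fun _ : Fin D => range S, BK U v N K (mp U b x) ^ 2 ≤
      ENNReal.ofReal (C0 ^ 2) *
        ∑ y : Fin D → ZMod M, v (mp U (fun j => (y j).val) x) ^ 2 := by
  classical
  by_cases hfin : ∀ y : Fin D → ZMod M, v (mp U (fun j => (y j).val) x) ≠ ∞
  swap
  · push Not at hfin
    obtain ⟨y, hy⟩ := hfin
    have h1 : ∑ y : Fin D → ZMod M, v (mp U (fun j => (y j).val) x) ^ 2 = ∞ := by
      rw [ENNReal.sum_eq_top]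
      refine ⟨y, mem_univ _, ?_⟩
      rw [hy]
      exact ENNReal.top_pow (by norm_num)
    rw [h1, ENNReal.mul_top]
    · exact le_top
    · rw [Ne, ENNReal.ofReal_eq_zero, not_le]
      positivity
  -- the maximising index
  have hex : ∀ z : X, ∃ k : Fin (K + 1), Av U v (N k) z = BK U v N K z := fun z =>
    exists_eq_ciSup_of_finite
  choose kz hkz using hex
  set f : (Fin D → ZMod M) → ℂ := fun y => ((v (mp U (fun j => (y j).val) x)).toReal : ℂ) with hf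
  set ka : (Fin D → ZMod M) → ℕ := fun y => (kz (mp U (fun j => (y j).val) x) : ℕ) with hka
  have h := hmax f ka
  set g : (Fin D → ZMod M) → ℂ := fun x => ((N (ka x) : ℕ) : ℂ)⁻¹ * ∑ n ∈ range (N (ka x)),
        f (fun j => x j + (n : ZMod M) ^ ((j : ℕ) + 1)) with hg
  have hsq : ∑ y, ‖g y‖ ^ 2 ≤ C0 ^ 2 * ∑ y, ‖f y‖ ^ 2 := by
    have ha : 0 ≤ ∑ y, ‖g y‖ ^ 2 := sum_nonneg fun _ _ => by positivity
    have hb : 0 ≤ ∑ y, ‖f y‖ ^ 2 := sum_nonneg fun _ _ => by positivity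
    unfold nrm at h
    have h2 := pow_le_pow_left₀ (Real.sqrt_nonneg _) h 2
    rw [Real.sq_sqrt ha, mul_pow, Real.sq_sqrt hb] at h2
    exact h2
  -- values on the box
  have hval : ∀ b ∈ Fintype.piFinset fun _ : Fin D => range S, ∀ n : ℕ, (∀ j < D, n ^ (j + 1) < S) →
      ∀ j : Fin D, (((b j : ℕ) : ZMod M) + (n : ZMod M) ^ ((j : ℕ) + 1)).val =
        b j + n ^ ((j : ℕ) + 1) := by
    intro b hb n hn j
    have h1 : ((b j : ℕ) : ZMod M) + (n : ZMod M) ^ ((j : ℕ) + 1) =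
        ((b j + n ^ ((j : ℕ) + 1) : ℕ) : ZMod M) := by push_cast; ring
    rw [h1]
    apply ZMod.val_natCast_of_lt
    have h2 := mem_range.1 (Fintype.mem_piFinset.1 hb j)
    have h3 := hn j j.2
    omega
  have hval0 : ∀ b ∈ Fintype.piFinset fun _ : Fin D => range S,
      ∀ j : Fin D, (((b j : ℕ) : ZMod M)).val = b j := by
    intro b hb j
    apply ZMod.val_natCast_of_lt
    have h2 := mem_range.1 (Fintype.mem_piFinset.1 hb j)
    omega
  have hmonmp : ∀ (b : Fin D → ℕ) (n : ℕ),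
      mp U (fun j => b j + n ^ ((j : ℕ) + 1)) x = mon U n (mp U b x) := by
    intro b n
    rw [mon_eq]
    have : (fun j : Fin D => b j + n ^ ((j : ℕ) + 1)) =
        fun j : Fin D => n ^ ((j : ℕ) + 1) + b j := by
      funext j; ring
    rw [this, mp_add U hU (fun j : Fin D => n ^ ((j : ℕ) + 1)) b]
    rfl
  have hbox : ∀ b ∈ Fintype.piFinset fun _ : Fin D => range S,
      BK U v N K (mp U b x) ^ 2 = ENNReal.ofReal (‖g (fun j => ((b j : ℕ) : ZMod M))‖ ^ 2) := by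
    intro b hb
    have hmpb : mp U (fun j => (((b j : ℕ) : ZMod M)).val) x = mp U b x := by
      have : (fun j => (((b j : ℕ) : ZMod M)).val) = b := by
        funext j; exact hval0 b hb j
      rw [this]
    have hkab : ka (fun j => ((b j : ℕ) : ZMod M)) = (kz (mp U b x) : ℕ) := by
      rw [hka]
      simp only
      rw [hmpb]
    set k := (kz (mp U b x) : ℕ) with hk
    have hkK : k ≤ K := by
      have := (kz (mp U b x)).2
      omega
    have hfv : ∀ n ∈ range (N k), v (mon U n (mp U b x)) ≠ ∞ := by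
      intro n hn
      have h1 := hfin (fun j => ((b j : ℕ) : ZMod M) + (n : ZMod M) ^ ((j : ℕ) + 1))
      have h2 : (fun j : Fin D => (((b j : ℕ) : ZMod M) + (n : ZMod M) ^ ((j : ℕ) + 1)).val) =
          fun j => b j + n ^ ((j : ℕ) + 1) := by
        funext j
        exact hval b hb n (fun j hj => hS k hkK n (mem_range.1 hn) j hj) j
      rw [h2, hmonmp] at h1
      exact h1
    have hgb : g (fun j => ((b j : ℕ) : ZMod M)) = ((Av U v (N k) (mp U b x)).toReal : ℂ) := by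
      rw [hg]
      simp only
      rw [hkab]
      unfold Av
      rw [ENNReal.toReal_mul, ENNReal.toReal_inv, ENNReal.toReal_natCast, ENNReal.toReal_sum hfv]
      push_cast
      congr 1
      refine sum_congr rfl fun n hn => ?_
      rw [hf]
      simp only
      have h2 : (fun j : Fin D => (((b j : ℕ) : ZMod M) + (n : ZMod M) ^ ((j : ℕ) + 1)).val) =
          fun j => b j + n ^ ((j : ℕ) + 1) := by
        funext j
        exact hval b hb n (fun j hj => hS k hkK n (mem_range.1 hn) j hj) j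
      rw [h2, hmonmp]
    have hAfin : Av U v (N k) (mp U b x) ≠ ∞ := by
      unfold Av
      apply ENNReal.mul_ne_top
      · rw [Ne, ENNReal.inv_eq_top]
        have := hN1 k
        exact_mod_cast (by omega : N k ≠ 0)
      · rw [Ne, ENNReal.sum_eq_top]
        rintro ⟨n, hn, h⟩
        exact hfv n hn h
    rw [hgb, ← hkz (mp U b x), Complex.norm_real, Real.norm_eq_abs, sq_abs,
      ENNReal.ofReal_pow ENNReal.toReal_nonneg, ENNReal.ofReal_toReal hAfin]
  have hinj : Set.InjOn (fun b : Fin D → ℕ => fun j => ((b j : ℕ) : ZMod M))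
      (Fintype.piFinset fun _ : Fin D => range S : Finset (Fin D → ℕ)) := by
    intro b hb b' hb' heq
    funext j
    have h1 := congrFun heq j
    simp only at h1
    rw [← hval0 b hb j, ← hval0 b' hb' j, h1]
  calc ∑ b ∈ Fintype.piFinset fun _ : Fin D => range S, BK U v N K (mp U b x) ^ 2
      = ∑ b ∈ Fintype.piFinset fun _ : Fin D => range S,
          ENNReal.ofReal (‖g (fun j => ((b j : ℕ) : ZMod M))‖ ^ 2) := sum_congr rfl hbox
    _ = ∑ y ∈ (Fintype.piFinset fun _ : Fin D => range S).image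
          (fun b : Fin D → ℕ => fun j => ((b j : ℕ) : ZMod M)), ENNReal.ofReal (‖g y‖ ^ 2) := by
        rw [sum_image hinj]
    _ ≤ ∑ y, ENNReal.ofReal (‖g y‖ ^ 2) := sum_le_sum_of_subset (subset_univ _)
    _ = ENNReal.ofReal (∑ y, ‖g y‖ ^ 2) := by
        rw [ENNReal.ofReal_sum_of_nonneg]
        intro _ _
        positivity
    _ ≤ ENNReal.ofReal (C0 ^ 2 * ∑ y, ‖f y‖ ^ 2) := ENNReal.ofReal_le_ofReal hsq
    _ = ENNReal.ofReal (C0 ^ 2) * ∑ y : Fin D → ZMod M, v (mp U (fun j => (y j).val) x) ^ 2 := by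
        rw [ENNReal.ofReal_mul (by positivity), ENNReal.ofReal_sum_of_nonneg (fun _ _ => by positivity)]
        congr 1
        refine sum_congr rfl fun y _ => ?_
        rw [hf]
        simp only
        rw [Complex.norm_real, Real.norm_eq_abs, sq_abs, ENNReal.ofReal_pow ENNReal.toReal_nonneg,
          ENNReal.ofReal_toReal (hfin y)]

lemma integ {D : ℕ} {C0 : ℝ} (hC0 : 0 < C0) {N : ℕ → ℕ} (hN1 : ∀ k, 1 ≤ N k)
    (hmax : ∀ (M : ℕ) [NeZero M] (f : (Fin D → ZMod M) → ℂ) (ka : (Fin D → ZMod M) → ℕ),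
      nrm (fun x => ((N (ka x) : ℕ) : ℂ)⁻¹ * ∑ n ∈ range (N (ka x)),
        f (fun j => x j + (n : ZMod M) ^ ((j : ℕ) + 1))) ≤ C0 * nrm f)
    (hmono : Monotone N)
    {X : Type u} [MeasurableSpace X] (mu : Measure X) (U : Fin D → Equiv.Perm X)
    (hUm : ∀ j, MeasurePreserving (U j) mu mu) (hU : ∀ i j, Commute (U i) (U j))
    {v : X → ℝ≥0∞} (hv : Measurable v) (K : ℕ) :
    ∫⁻ x, BK U v N K x ^ 2 ∂mu ≤ ENNReal.ofReal (C0 ^ 2) * 2 ^ D * ∫⁻ x, v x ^ 2 ∂mu := by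
  set S := (N K) ^ D + 1 with hSdef
  have hS : ∀ k ≤ K, ∀ n < N k, ∀ j < D, n ^ (j + 1) < S := by
    intro k hk n hn j hj
    rw [hSdef]
    have h1 : n ≤ N K := le_trans hn.le (hmono hk)
    have h2 : n ^ (j + 1) ≤ (N K) ^ (j + 1) := Nat.pow_le_pow_left h1 _
    have h3 : (N K) ^ (j + 1) ≤ (N K) ^ D := Nat.pow_le_pow_right (hN1 K) hj
    omega
  have : NeZero (2 * S) := ⟨by omega⟩
  have hpt := fun x => pointwise hC0 hN1 (M := 2 * S) (S := S) (K := K) le_rfl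
    (hmax (2 * S)) hS U hU v x
  have hint := lintegral_mono hpt (μ := mu)
  rw [lintegral_finsetSum] at hint
  swap
  · intro b _
    exact ((measurable_BK U hUm hv N K).comp (mp_mp U hUm b).measurable).pow_const 2
  rw [lintegral_const_mul' _ _ ENNReal.ofReal_ne_top, lintegral_finsetSum] at hint
  swap
  · intro y _
    exact (hv.comp (mp_mp U hUm _).measurable).pow_const 2
  have h1 : ∀ b : Fin D → ℕ, ∫⁻ x, BK U v N K (mp U b x) ^ 2 ∂mu = ∫⁻ x, BK U v N K x ^ 2 ∂mu := by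
    intro b
    exact (mp_mp U hUm b).lintegral_comp ((measurable_BK U hUm hv N K).pow_const 2)
  have h2 : ∀ b : Fin D → ℕ, ∫⁻ x, v (mp U b x) ^ 2 ∂mu = ∫⁻ x, v x ^ 2 ∂mu := by
    intro b
    exact (mp_mp U hUm b).lintegral_comp (hv.pow_const 2)
  simp only [h1, h2] at hint
  rw [sum_const, sum_const, nsmul_eq_mul, nsmul_eq_mul, Fintype.card_piFinset, Finset.card_univ,
    Fintype.card_fun, ZMod.card, Fintype.card_fin] at hint
  simp only [card_range, prod_const, Finset.card_univ, Fintype.card_fin] at hint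
  have hS0 : ((S ^ D : ℕ) : ℝ≥0∞) ≠ 0 := by
    have : 0 < S ^ D := Nat.pow_pos (by omega)
    exact_mod_cast this.ne'
  have hS1 : ((S ^ D : ℕ) : ℝ≥0∞) ≠ ∞ := ENNReal.natCast_ne_top _
  rw [← ENNReal.mul_le_mul_iff_right hS0 hS1]
  refine le_trans hint (le_of_eq ?_)
  push_cast
  rw [mul_pow]
  ring

end TransferAux

open TransferAux

theorem transfer (D : ℕ) (rho : ℝ) (hrho : 1 < rho) : ∃ C : ℝ≥0, ∀ (N : ℕ → ℕ), Lac rho N →
    ∀ {X : Type u} [MeasurableSpace X] (mu : Measure X) (U : Fin D → Equiv.Perm X),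
      (∀ j, MeasurePreserving (U j) mu mu) → (∀ i j, Commute (U i) (U j)) →
      ∀ v : X → ℝ≥0∞, Measurable v →
        ∫⁻ x, (⨆ k : ℕ, ((N k : ℕ) : ℝ≥0∞)⁻¹ * ∑ n ∈ range (N k), v (mon U n x)) ^ 2 ∂mu ≤
          C * ∫⁻ x, v x ^ 2 ∂mu := by
  obtain ⟨C0, hC0, h⟩ := max_avg D rho hrho
  refine ⟨Real.toNNReal (C0 ^ 2) * 2 ^ D, fun N hN X _ mu U hUm hU v hv => ?_⟩
  have h1 : ∀ x, (⨆ k : ℕ, ((N k : ℕ) : ℝ≥0∞)⁻¹ * ∑ n ∈ range (N k), v (mon U n x)) ^ 2 =
      ⨆ K, BK U v N K x ^ 2 := by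
    intro x
    rw [← sq_iSup, iSup_BK]
    rfl
  simp only [h1]
  rw [lintegral_iSup]
  · refine iSup_le fun K => ?_
    have h2 := integ hC0 hN.pos (fun M _ f ka => h N hN M f ka) hN.strictMono.monotone mu U hUm hU
      hv K
    refine le_trans h2 (le_of_eq ?_)
    push_cast
    rfl
  · intro K
    exact (measurable_BK U hUm hv N K).pow_const 2
  · intro K K' hK x
    exact pow_le_pow_left' (BK_mono U v N hK x) 2

theorem all_N (D : ℕ) : ∃ C : ℝ≥0,
    ∀ {X : Type u} [MeasurableSpace X] (mu : Measure X) (U : Fin D → Equiv.Perm X),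
      (∀ j, MeasurePreserving (U j) mu mu) → (∀ i j, Commute (U i) (U j)) →
      ∀ v : X → ℝ≥0∞, Measurable v →
        ∫⁻ x, (⨆ N : ℕ, ((N + 1 : ℕ) : ℝ≥0∞)⁻¹ * ∑ n ∈ range (N + 1), v (mon U n x)) ^ 2 ∂mu ≤
          C * ∫⁻ x, v x ^ 2 ∂mu := by
  obtain ⟨C, h⟩ := transfer.{u} D 2 (by norm_num)
  have hLac : Lac 2 (fun k => 2 ^ k) := by
    refine ⟨by norm_num, by norm_num, fun k => ?_⟩
    push_cast
    rw [pow_succ]
    linarith
  refine ⟨4 * C, fun {X} _ mu U hUm hU v hv => ?_⟩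
  have h1 := h (fun k => 2 ^ k) hLac mu U hUm hU v hv
  have h2 : ∀ x, (⨆ N : ℕ, ((N + 1 : ℕ) : ℝ≥0∞)⁻¹ * ∑ n ∈ range (N + 1), v (mon U n x)) ^ 2 ≤
      4 * (⨆ k : ℕ, ((2 ^ k : ℕ) : ℝ≥0∞)⁻¹ * ∑ n ∈ range (2 ^ k), v (mon U n x)) ^ 2 := by
    intro x
    have h3 : (⨆ N : ℕ, ((N + 1 : ℕ) : ℝ≥0∞)⁻¹ * ∑ n ∈ range (N + 1), v (mon U n x)) ≤
        2 * ⨆ k : ℕ, ((2 ^ k : ℕ) : ℝ≥0∞)⁻¹ * ∑ n ∈ range (2 ^ k), v (mon U n x) := by
      refine iSup_le fun N => ?_
      obtain ⟨k, hk1, hk2⟩ : ∃ k, N + 1 ≤ 2 ^ k ∧ 2 ^ k ≤ 2 * (N + 1) := by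
        rcases Nat.eq_zero_or_pos N with h0 | h0
        · exact ⟨0, by rw [h0]; norm_num, by rw [h0]; norm_num⟩
        · refine ⟨Nat.clog 2 (N + 1), Nat.le_pow_clog (by norm_num) _, ?_⟩
          have h4 := Nat.pow_pred_clog_lt_self (b := 2) (by norm_num) (x := N + 1) (by omega)
          have h5 : 0 < Nat.clog 2 (N + 1) := Nat.clog_pos (by norm_num) (by omega)
          have h6 : 2 ^ Nat.clog 2 (N + 1) = 2 ^ (Nat.clog 2 (N + 1)).pred * 2 := by
            rw [← pow_succ, Nat.pred_eq_sub_one, Nat.sub_add_cancel h5]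
          omega
      rw [ENNReal.mul_iSup]
      refine le_iSup_of_le k ?_
      rw [← mul_assoc]
      apply mul_le_mul'
      · have h7 : ((2 ^ k : ℕ) : ℝ≥0∞) ≤ 2 * ((N + 1 : ℕ) : ℝ≥0∞) := by exact_mod_cast hk2
        have h8 := ENNReal.inv_le_inv.2 h7
        rw [ENNReal.mul_inv (Or.inl (by norm_num)) (Or.inl (by norm_num))] at h8
        calc ((N + 1 : ℕ) : ℝ≥0∞)⁻¹ = 2 * (2⁻¹ * ((N + 1 : ℕ) : ℝ≥0∞)⁻¹) := by
              rw [← mul_assoc, ENNReal.mul_inv_cancel (by norm_num) (by norm_num), one_mul]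
          _ ≤ 2 * ((2 ^ k : ℕ) : ℝ≥0∞)⁻¹ := mul_le_mul_right h8 2
      · exact sum_le_sum_of_subset (range_subset_range.2 hk1)
    calc _ ≤ (2 * ⨆ k : ℕ, ((2 ^ k : ℕ) : ℝ≥0∞)⁻¹ * ∑ n ∈ range (2 ^ k), v (mon U n x)) ^ 2 :=
          pow_le_pow_left' h3 2
      _ = _ := by
          rw [mul_pow]
          norm_num
  calc _ ≤ ∫⁻ x, 4 * (⨆ k : ℕ, ((2 ^ k : ℕ) : ℝ≥0∞)⁻¹ *
        ∑ n ∈ range (2 ^ k), v (mon U n x)) ^ 2 ∂mu := lintegral_mono h2
    _ = 4 * ∫⁻ x, (⨆ k : ℕ, ((2 ^ k : ℕ) : ℝ≥0∞)⁻¹ *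
        ∑ n ∈ range (2 ^ k), v (mon U n x)) ^ 2 ∂mu := by
        rw [lintegral_const_mul' _ _ (by norm_num)]
    _ ≤ 4 * (C * ∫⁻ x, v x ^ 2 ∂mu) := mul_le_mul_right h1 4
    _ = _ := by
        push_cast
        rw [mul_assoc]

end Pool.PolyMax
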