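import Pool.Agent.PolyMax.Basic

set_option autoImplicit false
set_option linter.all false

/-!
# PolyMax: Weyl differencing

PROOF.  Put `a n = e (g n)`, `S = ∑_{n < N} a n`.  Then
`‖S‖² = ∑_{n, l < N} a n * conj (a l)`; grouping by `h = |n - l|`:
`‖S‖² ≤ N + 2 ∑_{h = 1}^{N - 1} ‖∑_{n < N - h} a (n + h) * conj (a n)‖`, and
`a (n + h) * conj (a n) = e (g (n + h) - g n)`, with `g (n + h) - g n = (g.comp (X + C h) - g).eval n`.
Let `H` be the set of the statement (threshold `lam² N / 8`).  The terms with `h ∉ H` contribute at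
most `(N - 1) * lam² N / 8`, those with `h ∈ H` at most `N` each.  So
`lam² N² ≤ N + 2 * (N * lam² N / 8 + |H| N)`, and `N ≤ lam² N² / 2` by `2 ≤ lam² N`, hence
`lam² N² / 2 - lam² N² / 4 ≤ 2 |H| N`, i.e. `|H| ≥ lam² N / 8`.
-/

open Finset

namespace Pool.PolyMax

/-- The correlations. -/
noncomputable def corr (a : ℕ → ℂ) (N h : ℕ) : ℂ :=
  ∑ n ∈ range (N - h), a (n + h) * (starRingEnd ℂ) (a n)

theorem corr_self (a : ℕ → ℂ) (N : ℕ) : corr a N N = 0 := by
  unfold corr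
  rw [Nat.sub_self, range_zero, sum_empty]

theorem corr_succ (a : ℕ → ℂ) {N h : ℕ} (hh : h ≤ N) :
    corr a (N + 1) h = corr a N h + a N * (starRingEnd ℂ) (a (N - h)) := by
  unfold corr
  have h1 : N + 1 - h = (N - h) + 1 := by omega
  rw [h1, sum_range_succ]
  congr 2
  congr 1
  omega

theorem sum_mul_conj (a : ℕ → ℂ) (N : ℕ) :
    (∑ n ∈ range N, a n) * (starRingEnd ℂ) (∑ n ∈ range N, a n) =
      corr a N 0 + (∑ h ∈ range N, corr a N (h + 1)) +
        (starRingEnd ℂ) (∑ h ∈ range N, corr a N (h + 1)) := by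
  induction N with
  | zero => simp [corr]
  | succ N ih =>
    have h1 : ∑ h ∈ range (N + 1), corr a (N + 1) (h + 1) =
        (∑ h ∈ range N, corr a N (h + 1)) + a N * (starRingEnd ℂ) (∑ n ∈ range N, a n) := by
      rw [sum_range_succ, corr_self, add_zero]
      have h2 : ∀ h ∈ range N, corr a (N + 1) (h + 1) = corr a N (h + 1) +
          a N * (starRingEnd ℂ) (a (N - 1 - h)) := by
        intro h hh
        rw [mem_range] at hh
        rw [corr_succ a (show h + 1 ≤ N by omega)]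
        congr 4
        omega
      rw [sum_congr rfl h2, sum_add_distrib, ← mul_sum, ← map_sum, sum_range_reflect]
    rw [h1, corr_succ a (Nat.zero_le N), Nat.sub_zero, sum_range_succ]
    simp only [map_add, map_mul, Complex.conj_conj] at ih ⊢
    linear_combination ih

theorem norm_sq_le (a : ℕ → ℂ) (ha : ∀ n, ‖a n‖ = 1) (N : ℕ) :
    ‖∑ n ∈ range N, a n‖ ^ 2 ≤ N + 2 * ∑ h ∈ Icc 1 (N - 1), ‖corr a N h‖ := by
  have h1 : ‖(∑ n ∈ range N, a n) * (starRingEnd ℂ) (∑ n ∈ range N, a n)‖ =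
      ‖∑ n ∈ range N, a n‖ ^ 2 := by
    rw [norm_mul, RCLike.norm_conj, sq]
  rw [← h1, sum_mul_conj]
  have h2 : ‖corr a N 0‖ ≤ N := by
    unfold corr
    refine (norm_sum_le _ _).trans ?_
    refine (sum_le_sum (g := fun _ => (1 : ℝ)) fun n _ => ?_).trans ?_
    · rw [norm_mul, RCLike.norm_conj, ha, ha, mul_one]
    · simp
  have h3 : ‖∑ h ∈ range N, corr a N (h + 1)‖ ≤ ∑ h ∈ Icc 1 (N - 1), ‖corr a N h‖ := by
    refine (norm_sum_le _ _).trans (le_of_eq ?_)
    rcases Nat.eq_zero_or_pos N with rfl | hN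
    · simp
    · obtain ⟨N', rfl⟩ : ∃ N', N = N' + 1 := ⟨N - 1, by omega⟩
      rw [sum_range_succ, corr_self, norm_zero, add_zero, Nat.add_sub_cancel]
      rw [range_eq_Ico, sum_Ico_add' (fun h => ‖corr a (N' + 1) h‖) 0 N' 1]
      congr 1
  have h4 : ‖corr a N 0 + (∑ h ∈ range N, corr a N (h + 1)) +
        (starRingEnd ℂ) (∑ h ∈ range N, corr a N (h + 1))‖ ≤
      ‖corr a N 0‖ + ‖∑ h ∈ range N, corr a N (h + 1)‖ +
        ‖∑ h ∈ range N, corr a N (h + 1)‖ := by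
    refine (norm_add_le _ _).trans ?_
    rw [RCLike.norm_conj]
    exact add_le_add_left (norm_add_le _ _) _
  linarith

theorem corr_e (g : Polynomial ℝ) (N h : ℕ) :
    corr (fun n => e (g.eval (n : ℝ))) N h =
      ∑ n ∈ range (N - h), e ((g.comp (Polynomial.X + Polynomial.C (h : ℝ)) - g).eval
        (n : ℝ)) := by
  unfold corr
  refine sum_congr rfl fun n _ => ?_
  rw [← e_neg, ← e_add, Polynomial.eval_sub, Polynomial.eval_comp, Polynomial.eval_add,
    Polynomial.eval_X, Polynomial.eval_C, sub_eq_add_neg]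
  push_cast
  rfl

theorem vdc (g : Polynomial ℝ) (N : ℕ) (lam : ℝ) (h0 : 0 < lam) (h1 : lam ≤ 1)
    (hN : 2 ≤ lam ^ 2 * N) (h : lam * N ≤ ‖∑ n ∈ range N, e (g.eval (n : ℝ))‖) :
    lam ^ 2 / 8 * N ≤ (((Icc 1 (N - 1)).filter fun h : ℕ => lam ^ 2 / 8 * N ≤
      ‖∑ n ∈ range (N - h), e ((g.comp (Polynomial.X + Polynomial.C (h : ℝ)) - g).eval
        (n : ℝ))‖).card : ℝ) := by
  set H := (Icc 1 (N - 1)).filter fun h : ℕ => lam ^ 2 / 8 * N ≤
      ‖∑ n ∈ range (N - h), e ((g.comp (Polynomial.X + Polynomial.C (h : ℝ)) - g).eval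
        (n : ℝ))‖ with hH
  have hNpos : (0 : ℝ) < N := by
    by_contra hcon
    have h2 : (N : ℝ) ≤ 0 := not_lt.1 hcon
    have := mul_nonpos_of_nonneg_of_nonpos (sq_nonneg lam) h2
    linarith
  have h2 := norm_sq_le (fun n => e (g.eval (n : ℝ))) (fun n => norm_e _) N
  have h3 : (lam * N) ^ 2 ≤ ‖∑ n ∈ range N, e (g.eval (n : ℝ))‖ ^ 2 :=
    pow_le_pow_left₀ (by positivity) h 2
  have h4 : ∑ h ∈ Icc 1 (N - 1), ‖corr (fun n => e (g.eval (n : ℝ))) N h‖ ≤
      (H.card : ℝ) * N + N * (lam ^ 2 / 8 * N) := by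
    have h5 : ∀ h ∈ Icc 1 (N - 1), ‖corr (fun n => e (g.eval (n : ℝ))) N h‖ ≤
        (if lam ^ 2 / 8 * N ≤ ‖∑ n ∈ range (N - h),
          e ((g.comp (Polynomial.X + Polynomial.C (h : ℝ)) - g).eval (n : ℝ))‖ then (N : ℝ)
          else 0) + lam ^ 2 / 8 * N := by
      intro h _
      have h0' : 0 ≤ lam ^ 2 / 8 * N := by positivity
      rw [corr_e]
      split_ifs with hif
      · have h6 : ‖∑ n ∈ range (N - h),
            e ((g.comp (Polynomial.X + Polynomial.C (h : ℝ)) - g).eval (n : ℝ))‖ ≤ N := by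
          refine (norm_sum_le _ _).trans ?_
          refine (sum_le_sum (g := fun _ => (1 : ℝ)) fun n _ => (norm_e _).le).trans ?_
          rw [sum_const, card_range, nsmul_eq_mul, mul_one]
          exact_mod_cast Nat.sub_le N h
        linarith
      · rw [zero_add]
        exact (not_le.1 hif).le
    refine (sum_le_sum h5).trans ?_
    rw [sum_add_distrib, ← sum_filter, sum_const, sum_const, nsmul_eq_mul, nsmul_eq_mul,
      Nat.card_Icc]
    have h6 : ((N - 1 + 1 - 1 : ℕ) : ℝ) ≤ N := by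
      exact_mod_cast (by omega : N - 1 + 1 - 1 ≤ N)
    have h7 : 0 ≤ lam ^ 2 / 8 * N := by positivity
    exact add_le_add le_rfl (mul_le_mul_of_nonneg_right h6 h7)
  have h5 : (lam * N) ^ 2 ≤ N + 2 * ((H.card : ℝ) * N + N * (lam ^ 2 / 8 * N)) := by linarith
  have h6 : (N : ℝ) ≤ lam ^ 2 * N ^ 2 / 2 := by nlinarith
  have h7 : lam ^ 2 * N ^ 2 / 4 ≤ 2 * (H.card : ℝ) * N := by nlinarith
  have h8 : (lam ^ 2 / 8 * N) * N ≤ (H.card : ℝ) * N := by nlinarith
  exact le_of_mul_le_mul_right h8 hNpos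

end Pool.PolyMax
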